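import Mathlib

set_option autoImplicit false

namespace Pool.Agent.Helper181.Cov

/-- A group with a weight filtration whose terms are closed under taking roots, in which roots
exist and are unique. -/
structure FG (G : Type) [Group G] (M : ℕ) where
  F : ℕ → Subgroup G
  anti : ∀ {i j}, i ≤ j → F j ≤ F i
  one : F 1 = ⊤
  bot : F M = ⊥
  comm : ∀ {i j x y}, 1 ≤ i → 1 ≤ j → x ∈ F i → y ∈ F j → x * y * x⁻¹ * y⁻¹ ∈ F (i + j)
  iso : ∀ {j r x}, 1 ≤ r → x ^ r ∈ F j → x ∈ F j
  root : ∀ {r}, 1 ≤ r → ∀ x : G, ∃ y, y ^ r = x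
  uniq : ∀ {r} {x y : G}, 1 ≤ r → x ^ r = y ^ r → x = y

variable {G : Type} [Group G] {M : ℕ} (D : FG G M)

/-- linear extension of a self map -/
noncomputable abbrev T (φ : G → G) : (G →₀ ℚ) →ₗ[ℚ] (G →₀ ℚ) := Finsupp.lmapDomain ℚ ℚ φ

lemma T_single (φ : G → G) (g : G) (a : ℚ) :
    T φ (Finsupp.single g a) = Finsupp.single (φ g) a := by
  simp [T, Finsupp.mapDomain_single]

lemma T_comp (φ ψ : G → G) (u : G →₀ ℚ) : T φ (T ψ u) = T (φ ∘ ψ) u := by
  simp [T, Finsupp.mapDomain_comp]

lemma T_id (u : G →₀ ℚ) : T id u = u := by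
  simp [T]

/-- left translation -/
noncomputable abbrev L (h : G) : (G →₀ ℚ) →ₗ[ℚ] (G →₀ ℚ) := T (fun g => h * g)

/-- conjugation -/
noncomputable abbrev C (x : G) : (G →₀ ℚ) →ₗ[ℚ] (G →₀ ℚ) := T (fun g => x * g * x⁻¹)

lemma L_L (h k : G) (u : G →₀ ℚ) : L h (L k u) = L (h * k) u := by
  rw [L, L, T_comp]; congr 2; funext g; simp [mul_assoc]

lemma C_L (x h : G) (u : G →₀ ℚ) : C x (L h u) = L (x * h * x⁻¹) (C x u) := by
  rw [C, L, T_comp, T_comp]; congr 2; funext g; simp [mul_assoc]

namespace FG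

/-- the weight filtration on the group algebra of `K` -/
noncomputable def I (K : Subgroup G) : ℕ → Submodule ℚ (G →₀ ℚ)
  | 0 => Submodule.span ℚ {u | ∃ k ∈ K, u = Finsupp.single k 1}
  | (s + 1) => Submodule.span ℚ {u | ∃ w h v, h ∈ K ∧ h ∈ D.F (w + 1) ∧ v ∈ I K (s - w) ∧
      u = L h v - v}
termination_by s => s
decreasing_by omega

lemma I_zero_mem {K : Subgroup G} {k : G} (hk : k ∈ K) : Finsupp.single k (1 : ℚ) ∈ D.I K 0 := by
  rw [I]; exact Submodule.subset_span ⟨k, hk, rfl⟩

lemma I_gen {K : Subgroup G} {s w : ℕ} {h : G} {v : G →₀ ℚ} (hK : h ∈ K) (hF : h ∈ D.F (w + 1))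
    (hv : v ∈ D.I K (s - w)) : L h v - v ∈ D.I K (s + 1) := by
  rw [I]; exact Submodule.subset_span ⟨w, h, v, hK, hF, hv, rfl⟩

lemma I_mul {K : Subgroup G} {a b : ℕ} {h : G} {v : G →₀ ℚ} (hK : h ∈ K) (ha : 1 ≤ a)
    (hF : h ∈ D.F a) (hv : v ∈ D.I K b) : L h v - v ∈ D.I K (a + b) := by
  obtain ⟨w, rfl⟩ : ∃ w, a = w + 1 := ⟨a - 1, by omega⟩
  have : w + 1 + b = (w + b) + 1 := by omega
  rw [this]
  exact D.I_gen hK hF (by rwa [Nat.add_sub_cancel_left])

lemma I_succ_le {K : Subgroup G} {s : ℕ} {N : Submodule ℚ (G →₀ ℚ)}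
    (h : ∀ w h v, h ∈ K → h ∈ D.F (w + 1) → v ∈ D.I K (s - w) → L h v - v ∈ N) :
    D.I K (s + 1) ≤ N := by
  rw [I, Submodule.span_le]
  rintro u ⟨w, g, v, hK, hF, hv, rfl⟩
  exact h w g v hK hF hv

lemma I_zero_le {K : Subgroup G} {N : Submodule ℚ (G →₀ ℚ)}
    (h : ∀ k ∈ K, Finsupp.single k (1 : ℚ) ∈ N) : D.I K 0 ≤ N := by
  rw [I, Submodule.span_le]
  rintro u ⟨k, hk, rfl⟩
  exact h k hk

lemma L_I_zero {K : Subgroup G} {h : G} (hK : h ∈ K) {v : G →₀ ℚ} (hv : v ∈ D.I K 0) :
    L h v ∈ D.I K 0 := by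
  have : D.I K 0 ≤ (D.I K 0).comap (L h) := by
    apply D.I_zero_le
    intro k hk
    rw [Submodule.mem_comap, T_single]
    exact D.I_zero_mem (K.mul_mem hK hk)
  exact this hv

lemma I_succ_le_I (K : Subgroup G) (s : ℕ) : D.I K (s + 1) ≤ D.I K s := by
  induction s using Nat.strong_induction_on with
  | _ s ih =>
    apply D.I_succ_le
    intro w h v hK hF hv
    cases s with
    | zero =>
      rw [Nat.zero_sub] at hv
      exact Submodule.sub_mem _ (D.L_I_zero hK hv) hv
    | succ s =>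
      refine D.I_gen hK hF ?_
      rcases le_or_gt w s with hw | hw
      · rw [Nat.succ_sub hw] at hv
        exact ih (s - w) (by omega) hv
      · rw [show s + 1 - w = 0 by omega] at hv
        rw [show s - w = 0 by omega]
        exact hv

lemma I_anti {K : Subgroup G} {a b : ℕ} (h : a ≤ b) : D.I K b ≤ D.I K a := by
  induction b, h using Nat.le_induction with
  | base => exact le_rfl
  | succ b _ ih => exact (D.I_succ_le_I K b).trans ih

lemma L_I {K : Subgroup G} {h : G} (hK : h ∈ K) {s : ℕ} {v : G →₀ ℚ} (hv : v ∈ D.I K s) :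
    L h v ∈ D.I K s := by
  have h1 : L h v - v ∈ D.I K (1 + s) := D.I_mul hK le_rfl (by rw [D.one]; trivial) hv
  have h2 := Submodule.add_mem _ (D.I_anti (by omega) h1) hv
  simpa using h2

lemma twist {K : Subgroup G} {j : ℕ} (hj : 1 ≤ j) (hK : D.F (j + 1) ≤ K) {x : G}
    (hx : x ∈ D.F j) (s : ℕ) : ∀ u ∈ D.I K s, C x u - u ∈ D.I K (s + j) := by
  induction s using Nat.strong_induction_on with
  | _ s ih =>
    intro u hu
    cases s with
    | zero =>
      have : D.I K 0 ≤ (D.I K (0 + j)).comap (C x - LinearMap.id) := by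
        apply D.I_zero_le
        intro k hk
        rw [Submodule.mem_comap, LinearMap.sub_apply, LinearMap.id_apply, T_single]
        have hc : x * k * x⁻¹ * k⁻¹ ∈ D.F (j + 1) :=
          D.comm hj le_rfl hx (by rw [D.one]; trivial)
        have h1 := D.I_mul (hK hc) hj (D.anti (by omega) hc) (D.I_zero_mem hk)
        rw [T_single] at h1
        rw [show x * k * x⁻¹ * k⁻¹ * k = x * k * x⁻¹ by group] at h1
        rwa [add_comm]
      exact this hu
    | succ s =>
      have : D.I K (s + 1) ≤ (D.I K (s + 1 + j)).comap (C x - LinearMap.id) := by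
        apply D.I_succ_le
        intro w h v hhK hF hv
        rw [Submodule.mem_comap, LinearMap.sub_apply, LinearMap.id_apply]
        have h1 := ih (s - w) (by omega) v hv
        have h2 : C x v ∈ D.I K (s - w) := by
          have := Submodule.add_mem _ (D.I_anti (show s - w ≤ s - w + j by omega) h1) hv
          simpa using this
        have hc : x * h * x⁻¹ * h⁻¹ ∈ D.F (j + (w + 1)) := D.comm hj (by omega) hx hF
        have hcK : x * h * x⁻¹ * h⁻¹ ∈ K := hK (D.anti (by omega) hc)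
        have h3 := D.I_mul hcK (by omega) hc (D.L_I hhK h2)
        have h4 := D.I_mul hhK (by omega) hF h1
        have h5 := Submodule.add_mem _ (D.I_anti (show s + 1 + j ≤ j + (w + 1) + (s - w) by omega) h3)
          (D.I_anti (show s + 1 + j ≤ w + 1 + (s - w + j) by omega) h4)
        convert h5 using 1
        rw [map_sub, C_L, L_L, map_sub]
        rw [show x * h * x⁻¹ * h⁻¹ * h = x * h * x⁻¹ by group]
        abel
      exact this hu

/-- the separation property -/
def J (K : Subgroup G) : Prop :=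
  ∀ k ∈ K, Finsupp.single k (1 : ℚ) - Finsupp.single 1 1 ∈ D.I K M → k = 1

lemma I_mono {K K' : Subgroup G} (h : K ≤ K') (s : ℕ) : D.I K s ≤ D.I K' s := by
  induction s using Nat.strong_induction_on with
  | _ s ih =>
    cases s with
    | zero =>
      apply D.I_zero_le
      intro k hk
      exact D.I_zero_mem (h hk)
    | succ s =>
      apply D.I_succ_le
      intro w g v hK hF hv
      exact D.I_gen (h hK) hF (ih (s - w) (by omega) hv)

/-- one step: adjoin a one parameter subgroup -/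
lemma J_step {K K' : Subgroup G} {j : ℕ} (hj : 1 ≤ j) (hjM : j < M) (hK : D.F (j + 1) ≤ K)
    (hK2 : K ≤ D.F j) (ψ : Multiplicative ℚ →* G) (hψ : ∀ q, ψ q ∈ D.F j)
    (hψK : ∀ q, ψ q ∈ K → q = 1) (hK' : ∀ g, g ∈ K' ↔ ∃ k ∈ K, ∃ q, g = k * ψ q)
    (hJ : D.J K) : D.J K' := by
  classical
  have huniq : ∀ k k' q q', k ∈ K → k' ∈ K → k * ψ q = k' * ψ q' → k = k' ∧ q = q' := by
    intro k k' q q' hk hk' h
    have h1 : ψ (q * q'⁻¹) = k⁻¹ * k' := by
      rw [map_mul, map_inv]
      rw [eq_inv_mul_iff_mul_eq, ← mul_assoc, h]; group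
    have h2 : q * q'⁻¹ = 1 := hψK _ (by rw [h1]; exact K.mul_mem (K.inv_mem hk) hk')
    have h3 : q = q' := mul_inv_eq_one.1 h2
    subst h3
    exact ⟨mul_right_cancel h, rfl⟩
  have hconj : ∀ q, ∀ k ∈ K, ψ q * k * (ψ q)⁻¹ ∈ K := by
    intro q k hk
    have hc : ψ q * k * (ψ q)⁻¹ * k⁻¹ ∈ D.F (j + 1) :=
      D.comm hj le_rfl (hψ q) (by rw [D.one]; trivial)
    have := K.mul_mem (hK hc) hk
    simpa using this
  -- decomposition maps
  have hdec : ∀ g : G, ∃ p : G × Multiplicative ℚ, g ∈ K' → p.1 ∈ K ∧ g = p.1 * ψ p.2 := by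
    intro g
    by_cases hg : g ∈ K'
    · obtain ⟨k, hk, q, hq⟩ := (hK' g).1 hg
      exact ⟨(k, q), fun _ => ⟨hk, hq⟩⟩
    · exact ⟨(1, 1), fun h => absurd h hg⟩
  choose dec hdec using hdec
  set κ : G → G := fun g => (dec g).1 with hκ
  set θ : G → ℚ := fun g => Multiplicative.toAdd (dec g).2 with hθ
  have hmemK' : ∀ k ∈ K, ∀ q, k * ψ q ∈ K' := fun k hk q => (hK' _).2 ⟨k, hk, q, rfl⟩
  have hκs : ∀ k ∈ K, ∀ q, κ (k * ψ q) = k := by
    intro k hk q
    obtain ⟨h1, h2⟩ := hdec _ (hmemK' k hk q)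
    exact (huniq _ _ _ _ hk h1 h2).1.symm
  have hθs : ∀ k ∈ K, ∀ q, θ (k * ψ q) = Multiplicative.toAdd q := by
    intro k hk q
    obtain ⟨h1, h2⟩ := hdec _ (hmemK' k hk q)
    rw [hθ]
    show Multiplicative.toAdd (dec (k * ψ q)).2 = _
    rw [← (huniq _ _ _ _ hk h1 h2).2]
  -- projection and translations
  have hT1 : ∀ k ∈ K, ∀ q, ∀ v ∈ D.I K' 0,
      T κ (L (k * ψ q) v) = L k (C (ψ q) (T κ v)) := by
    intro k hk q v hv
    have : D.I K' 0 ≤ LinearMap.ker (T κ ∘ₗ L (k * ψ q) - L k ∘ₗ C (ψ q) ∘ₗ T κ) := by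
      apply D.I_zero_le
      intro g hg
      obtain ⟨k', hk', q', rfl⟩ := (hK' g).1 hg
      rw [LinearMap.mem_ker, LinearMap.sub_apply, LinearMap.comp_apply, LinearMap.comp_apply,
        LinearMap.comp_apply, T_single, T_single, T_single, T_single, T_single, sub_eq_zero]
      rw [hκs k' hk' q']
      have h1 : k * ψ q * (k' * ψ q') = (k * (ψ q * k' * (ψ q)⁻¹)) * ψ (q * q') := by
        rw [map_mul]; group
      rw [h1, hκs _ (K.mul_mem hk (hconj q k' hk'))]
    have h2 := this hv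
    rw [LinearMap.mem_ker, LinearMap.sub_apply, sub_eq_zero] at h2
    exact h2
  have hproj : ∀ s, ∀ v ∈ D.I K' s, T κ v ∈ D.I K s := by
    intro s
    induction s using Nat.strong_induction_on with
    | _ s ih =>
      cases s with
      | zero =>
        have : D.I K' 0 ≤ (D.I K 0).comap (T κ) := by
          apply D.I_zero_le
          intro g hg
          obtain ⟨k, hk, q, rfl⟩ := (hK' g).1 hg
          rw [Submodule.mem_comap, T_single, hκs k hk q]
          exact D.I_zero_mem hk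
        exact this
      | succ s =>
        have : D.I K' (s + 1) ≤ (D.I K (s + 1)).comap (T κ) := by
          apply D.I_succ_le
          intro w g v hg hF hv
          obtain ⟨k, hk, q, rfl⟩ := (hK' g).1 hg
          rw [Submodule.mem_comap, map_sub, hT1 k hk q v (D.I_anti (Nat.zero_le _) hv)]
          have hv1 := ih (s - w) (by omega) v hv
          rcases le_or_gt (w + 1) j with hw | hw
          · have hkF : k ∈ D.F (w + 1) := D.anti hw (hK2 hk)
            have h1 := D.twist hj hK (hψ q) (s - w) _ hv1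
            have h2 : C (ψ q) (T κ v) ∈ D.I K (s - w) := by
              have := Submodule.add_mem _ (D.I_anti (show s - w ≤ s - w + j by omega) h1) hv1
              simpa using this
            have h3 := D.I_mul hk (by omega) hkF h2
            have h4 := Submodule.add_mem _
              (D.I_anti (show s + 1 ≤ w + 1 + (s - w) by omega) h3)
              (D.I_anti (show s + 1 ≤ s - w + j by omega) h1)
            convert h4 using 1
            abel
          · have h1 : k * ψ q ∈ K := hK (D.anti (by omega) hF)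
            have h2 : q = 1 := hψK q (by
              have := K.mul_mem (K.inv_mem hk) h1
              simpa using this)
            subst h2
            rw [map_one, mul_one] at hF
            have h3 : C (ψ 1) (T κ v) = T κ v := by
              rw [map_one]
              show T (fun g : G => 1 * g * 1⁻¹) (T κ v) = T κ v
              rw [show (fun g : G => 1 * g * 1⁻¹) = id by funext g; simp, T_id]
            rw [h3]
            exact D.I_gen hk hF hv1
        exact this
  -- augmentation and the linear functional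
  set ε : (G →₀ ℚ) →ₗ[ℚ] ℚ := Finsupp.linearCombination ℚ (fun _ => (1 : ℚ)) with hε
  set Θ : (G →₀ ℚ) →ₗ[ℚ] ℚ := Finsupp.linearCombination ℚ θ with hΘ
  have hεs : ∀ g, ε (Finsupp.single g 1) = 1 := by intro g; simp [hε]
  have hΘs : ∀ g, Θ (Finsupp.single g 1) = θ g := by intro g; simp [hΘ]
  have hθmul : ∀ g ∈ K', ∀ g' ∈ K', θ (g * g') = θ g + θ g' := by
    intro g hg g' hg'
    obtain ⟨k, hk, q, rfl⟩ := (hK' g).1 hg
    obtain ⟨k', hk', q', rfl⟩ := (hK' g').1 hg'
    have h1 : k * ψ q * (k' * ψ q') = (k * (ψ q * k' * (ψ q)⁻¹)) * ψ (q * q') := by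
      rw [map_mul]; group
    rw [h1, hθs _ (K.mul_mem hk (hconj q k' hk')), hθs k hk, hθs k' hk']
    rfl
  have hεv : ∀ s, 1 ≤ s → ∀ v ∈ D.I K' s, ε v = 0 := by
    intro s hs v hv
    obtain ⟨s, rfl⟩ : ∃ t, s = t + 1 := ⟨s - 1, by omega⟩
    have : D.I K' (s + 1) ≤ LinearMap.ker ε := by
      apply D.I_succ_le
      intro w g v _ _ _
      rw [LinearMap.mem_ker, map_sub, sub_eq_zero]
      have : ε ∘ₗ L g = ε := by
        apply Finsupp.lhom_ext
        intro a b
        simp [hε, T]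
      exact LinearMap.congr_fun this v
    exact this hv
  have hΘL : ∀ g ∈ K', ∀ v ∈ D.I K' 0, Θ (L g v - v) = θ g * ε v := by
    intro g hg v hv
    have : D.I K' 0 ≤ LinearMap.ker (Θ ∘ₗ (L g - LinearMap.id) - (θ g) • ε) := by
      apply D.I_zero_le
      intro g' hg'
      rw [LinearMap.mem_ker, LinearMap.sub_apply, LinearMap.comp_apply, LinearMap.sub_apply,
        LinearMap.id_apply, map_sub, T_single, hΘs, hΘs, LinearMap.smul_apply, hεs,
        hθmul g hg g' hg']
      simp
    have h2 := this hv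
    rw [LinearMap.mem_ker, LinearMap.sub_apply, sub_eq_zero] at h2
    exact h2
  have hΘ0 : ∀ v ∈ D.I K' M, Θ v = 0 := by
    intro v hv
    obtain ⟨s, rfl⟩ : ∃ t, M = t + 1 := ⟨M - 1, by omega⟩
    have : D.I K' (s + 1) ≤ LinearMap.ker Θ := by
      apply D.I_succ_le
      intro w g v hg hF hv
      rw [LinearMap.mem_ker, hΘL g hg v (D.I_anti (Nat.zero_le _) hv)]
      rcases le_or_gt s w with hw | hw
      · -- g lies in K
        have hgK : g ∈ K := hK (D.anti (by omega) hF)
        have : θ g = 0 := by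
          have := hθs g hgK 1
          rw [map_one, mul_one] at this
          rw [this]; rfl
        rw [this, zero_mul]
      · rw [hεv (s - w) (by omega) v hv, mul_zero]
    exact this hv
  -- conclusion
  intro g hg hgI
  obtain ⟨k, hk, q, rfl⟩ := (hK' g).1 hg
  have h1 := hproj M _ hgI
  rw [map_sub, T_single, T_single, hκs k hk q] at h1
  have hκ1 : κ 1 = 1 := by
    have := hκs 1 K.one_mem 1
    rwa [map_one, mul_one] at this
  rw [hκ1] at h1
  have hk1 : k = 1 := hJ k hk h1
  subst hk1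
  have h2 := hΘ0 _ hgI
  rw [map_sub, hΘs, hΘs, hθs 1 K.one_mem q] at h2
  have hθ1 : θ 1 = 0 := by
    have := hθs 1 K.one_mem 1
    rw [map_one, mul_one] at this
    rw [this]; rfl
  rw [hθ1, sub_zero] at h2
  have hq : q = 1 := h2
  rw [hq, map_one, mul_one]

end FG
end Pool.Agent.Helper181.Cov
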