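import Mathlib
import Pool.Agent.Helper181.CovA

set_option autoImplicit false

namespace Pool.Agent.Helper181.Cov

variable {G : Type} [Group G] {M : ℕ} (D : FG G M)

namespace FG

include D in
lemma comm_of_pow {y z : G} {a : ℕ} (ha : 1 ≤ a) (h : Commute (y ^ a) z) : Commute y z := by
  have h1 : (z * y * z⁻¹) ^ a = y ^ a := by
    rw [conj_pow, ← h.eq]; group
  have h2 := D.uniq ha h1
  have h3 : z * y = y * z := by
    rw [mul_inv_eq_iff_eq_mul] at h2; exact h2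
  exact h3.symm

/-- `y` is the `q`-th power of `x` -/
def Rel (x y : G) (q : ℚ) : Prop := ∃ (a : ℤ) (b : ℕ), 1 ≤ b ∧ q * b = a ∧ y ^ b = x ^ a

include D in
lemma Rel_unique {x y y' : G} {q : ℚ} (h : Rel x y q) (h' : Rel x y' q) : y = y' := by
  obtain ⟨a, b, hb, hq, hy⟩ := h
  obtain ⟨a', b', hb', hq', hy'⟩ := h'
  have h1 : a * b' = a' * b := by
    have : (a : ℚ) * b' = a' * b := by rw [← hq, ← hq']; ring
    exact_mod_cast this
  apply D.uniq (r := b * b') (Nat.mul_pos hb hb')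
  rw [pow_mul, hy, mul_comm b b', pow_mul, hy', ← zpow_natCast, ← zpow_natCast, ← zpow_mul,
    ← zpow_mul, h1]

include D in
lemma Rel_mul {x y y' : G} {q q' : ℚ} (h : Rel x y q) (h' : Rel x y' q') :
    Rel x (y * y') (q + q') := by
  obtain ⟨a, b, hb, hq, hy⟩ := h
  obtain ⟨a', b', hb', hq', hy'⟩ := h'
  have hcomm : Commute y y' := by
    apply D.comm_of_pow hb
    rw [hy]
    apply Commute.symm
    apply D.comm_of_pow hb'
    rw [hy']
    exact ((Commute.refl x).zpow_zpow _ _)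
  refine ⟨a * b' + a' * b, b * b', Nat.mul_pos hb hb', ?_, ?_⟩
  · push_cast
    rw [← hq, ← hq']; ring
  · rw [hcomm.mul_pow, pow_mul, hy, mul_comm b b', pow_mul, hy', zpow_add, zpow_mul, zpow_mul,
      zpow_natCast, zpow_natCast]

include D in
lemma exists_Rel (x : G) (q : ℚ) : ∃ y, Rel x y q := by
  obtain ⟨y, hy⟩ := D.root (r := q.den) q.den_pos (x ^ q.num)
  exact ⟨y, q.num, q.den, q.den_pos, by rw [Rat.mul_den_eq_num], hy⟩

include D in
lemma exists_ops (x : G) : ∃ ψ : Multiplicative ℚ →* G, ∀ q, Rel x (ψ q) (Multiplicative.toAdd q) := by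
  choose f hf using fun q => D.exists_Rel x q
  refine ⟨MonoidHom.mk' (fun q => f (Multiplicative.toAdd q)) ?_, fun q => hf _⟩
  intro a b
  exact D.Rel_unique (hf _) (D.Rel_mul (hf _) (hf _))

lemma I_sSup {c : Set (Subgroup G)} (hne : c.Nonempty) (hc : DirectedOn (· ≤ ·) c) (s : ℕ) :
    ∀ u ∈ D.I (sSup c) s, ∃ K ∈ c, u ∈ D.I K s := by
  induction s using Nat.strong_induction_on with
  | _ s ih =>
    have : Nonempty c := hne.to_subtype
    have hdir : Directed (· ≤ ·) (fun K : c => D.I K.1 s) := by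
      intro A B
      obtain ⟨C, hC, h1, h2⟩ := hc A.1 A.2 B.1 B.2
      exact ⟨⟨C, hC⟩, D.I_mono h1 s, D.I_mono h2 s⟩
    have key : D.I (sSup c) s ≤ ⨆ K : c, D.I K.1 s := by
      cases s with
      | zero =>
        apply D.I_zero_le
        intro k hk
        obtain ⟨K, hK, hkK⟩ := (Subgroup.mem_sSup_of_directedOn hne hc).1 hk
        exact Submodule.mem_iSup_of_mem ⟨K, hK⟩ (D.I_zero_mem hkK)
      | succ s =>
        apply D.I_succ_le
        intro w h v hh hF hv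
        obtain ⟨K, hK, hkK⟩ := (Subgroup.mem_sSup_of_directedOn hne hc).1 hh
        obtain ⟨K', hK', hv'⟩ := ih (s - w) (by omega) v hv
        obtain ⟨K'', hK'', h1, h2⟩ := hc K hK K' hK'
        exact Submodule.mem_iSup_of_mem ⟨K'', hK''⟩ (D.I_gen (h1 hkK) hF (D.I_mono h2 _ hv'))
    intro u hu
    obtain ⟨K, hK⟩ := (Submodule.mem_iSup_of_directed _ hdir).1 (key hu)
    exact ⟨K.1, K.2, hK⟩

lemma F_normal (j : ℕ) (hj : 1 ≤ j) : (D.F j).Normal := by
  constructor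
  intro n hn g
  have hc : g * n * g⁻¹ * n⁻¹ ∈ D.F (1 + j) := D.comm le_rfl hj (by rw [D.one]; trivial) hn
  have := (D.F j).mul_mem (D.anti (by omega) hc) hn
  simpa using this

lemma pow_congr {j : ℕ} (hj : 1 ≤ j) {a b : G} (ha : a ∈ D.F j) (hb : b ∈ D.F j) (r : ℕ) :
    ((a * b) ^ r)⁻¹ * (a ^ r * b ^ r) ∈ D.F (j + 1) := by
  have hN := D.F_normal (j + 1) (by omega)
  rw [← QuotientGroup.eq]
  have hcomm : Commute (QuotientGroup.mk' (D.F (j + 1)) a) (QuotientGroup.mk' (D.F (j + 1)) b) := by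
    show QuotientGroup.mk' (D.F (j + 1)) a * QuotientGroup.mk' (D.F (j + 1)) b = _ * _
    rw [← map_mul, ← map_mul]
    have h1 : a * b * a⁻¹ * b⁻¹ ∈ D.F (j + 1) :=
      D.anti (by omega) (D.comm hj hj ha hb)
    show ((a * b : G) : G ⧸ D.F (j + 1)) = ((b * a : G) : G ⧸ D.F (j + 1))
    symm
    rw [QuotientGroup.eq]
    have h2 := hN.conj_mem _ h1 (b * a)⁻¹
    have h3 : (b * a)⁻¹ * (a * b * a⁻¹ * b⁻¹) * ((b * a)⁻¹)⁻¹ = (b * a)⁻¹ * (a * b) := by group
    rwa [h3] at h2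
  have h2 := hcomm.mul_pow r
  rw [← map_mul, ← map_pow, ← map_pow, ← map_pow, ← map_mul] at h2
  exact h2

theorem J_level {j : ℕ} (hj : 1 ≤ j) (hjM : j < M) (hJ : D.J (D.F (j + 1))) : D.J (D.F j) := by
  classical
  set S : Set (Subgroup G) := {K | D.F (j + 1) ≤ K ∧ K ≤ D.F j ∧
    (∀ r g, 1 ≤ r → g ^ r ∈ K → g ∈ K) ∧ D.J K} with hS
  have hbase : D.F (j + 1) ∈ S := ⟨le_rfl, D.anti (by omega), fun r g hr h => D.iso hr h, hJ⟩
  obtain ⟨K, _, hKmax⟩ := zorn_le_nonempty₀ S (by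
    intro c hcS hc y hy
    have hdir : DirectedOn (· ≤ ·) c := hc.directedOn
    have hne : c.Nonempty := ⟨y, hy⟩
    refine ⟨sSup c, ⟨?_, ?_, ?_, ?_⟩, fun z hz => le_sSup hz⟩
    · exact (hcS hy).1.trans (le_sSup hy)
    · exact sSup_le (fun z hz => (hcS hz).2.1)
    · intro r g hr hg
      obtain ⟨K, hK, hgK⟩ := (Subgroup.mem_sSup_of_directedOn hne hdir).1 hg
      exact (Subgroup.mem_sSup_of_directedOn hne hdir).2 ⟨K, hK, (hcS hK).2.2.1 r g hr hgK⟩
    · intro k hk hkI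
      obtain ⟨K, hK, hkK⟩ := (Subgroup.mem_sSup_of_directedOn hne hdir).1 hk
      obtain ⟨K', hK', hkI'⟩ := D.I_sSup hne hdir M _ hkI
      obtain ⟨K'', hK'', h1, h2⟩ := hdir K hK K' hK'
      exact (hcS hK'').2.2.2 k (h1 hkK) (D.I_mono h2 _ hkI')) _ hbase
  obtain ⟨⟨hK1, hK2, hKiso, hKJ⟩, hmax⟩ := hKmax
  by_cases hKF : D.F j ≤ K
  · have : K = D.F j := le_antisymm hK2 hKF
    rw [← this]; exact hKJ
  exfalso
  obtain ⟨x, hx, hxK⟩ := Set.not_subset.1 hKF
  obtain ⟨ψ, hψ⟩ := D.exists_ops x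
  have hψF : ∀ q, ψ q ∈ D.F j := by
    intro q
    obtain ⟨a, b, hb, _, hq⟩ := hψ q
    apply D.iso hb
    rw [hq]
    exact (D.F j).zpow_mem hx a
  have hψK : ∀ q, ψ q ∈ K → q = 1 := by
    intro q hq
    obtain ⟨a, b, hb, hab, hqa⟩ := hψ q
    by_contra hne
    have hq0 : Multiplicative.toAdd q ≠ 0 := fun h => hne h
    have ha0 : a ≠ 0 := by
      rintro rfl
      rw [Int.cast_zero, mul_eq_zero] at hab
      rcases hab with h | h
      · exact hq0 h
      · have : b = 0 := by exact_mod_cast h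
        omega
    apply hxK
    have h1 : x ^ a ∈ K := by rw [← hqa]; exact K.pow_mem hq b
    apply hKiso a.natAbs x (by omega)
    rcases Int.natAbs_eq a with h | h
    · rw [← zpow_natCast, ← h]; exact h1
    · rw [← zpow_natCast]
      have : ((a.natAbs : ℕ) : ℤ) = -a := by omega
      rw [this, zpow_neg]; exact K.inv_mem h1
  have hψ1 : ψ (Multiplicative.ofAdd 1) = x := by
    apply D.Rel_unique (hψ _)
    exact ⟨1, 1, le_rfl, by simp, by simp⟩
  have hconj : ∀ y ∈ D.F j, ∀ k ∈ K, y * k * y⁻¹ ∈ K := by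
    intro y hy k hk
    have hc : y * k * y⁻¹ * k⁻¹ ∈ D.F (j + 1) :=
      D.comm hj le_rfl hy (by rw [D.one]; trivial)
    have := K.mul_mem (hK1 hc) hk
    simpa using this
  set K' : Subgroup G :=
    { carrier := {g | ∃ k ∈ K, ∃ q, g = k * ψ q}
      one_mem' := ⟨1, K.one_mem, 1, by simp⟩
      mul_mem' := by
        rintro _ _ ⟨k, hk, q, rfl⟩ ⟨k', hk', q', rfl⟩
        refine ⟨k * (ψ q * k' * (ψ q)⁻¹), K.mul_mem hk (hconj _ (hψF q) _ hk'), q * q', ?_⟩
        rw [map_mul]; group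
      inv_mem' := by
        rintro _ ⟨k, hk, q, rfl⟩
        refine ⟨(ψ q)⁻¹ * k⁻¹ * ((ψ q)⁻¹)⁻¹, hconj _ ((D.F j).inv_mem (hψF q)) _ (K.inv_mem hk),
          q⁻¹, ?_⟩
        rw [map_inv]; group } with hK'def
  have hK'mem : ∀ g, g ∈ K' ↔ ∃ k ∈ K, ∃ q, g = k * ψ q := fun g => Iff.rfl
  have hKK' : K ≤ K' := fun k hk => ⟨k, hk, 1, by simp⟩
  have hK'F : K' ≤ D.F j := by
    rintro _ ⟨k, hk, q, rfl⟩
    exact (D.F j).mul_mem (hK2 hk) (hψF q)
  have hK'S : K' ∈ S := by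
    refine ⟨hK1.trans hKK', hK'F, ?_, D.J_step hj hjM hK1 hK2 ψ hψF hψK hK'mem hKJ⟩
    intro r g hr hg
    have hgF : g ∈ D.F j := D.iso hr (hK'F hg)
    obtain ⟨k, hk, q, hgr⟩ := (hK'mem _).1 hg
    set y := ψ (Multiplicative.ofAdd (Multiplicative.toAdd q / r)) with hy
    have hyr : y ^ r = ψ q := by
      rw [hy, ← map_pow, ← ofAdd_nsmul]
      congr 1
      rw [nsmul_eq_mul, mul_div_cancel₀]
      · rfl
      · have : (r : ℚ) ≠ 0 := by
          have : 0 < r := hr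
          positivity
        exact this
    have hyF : y ∈ D.F j := hψF _
    -- (g * y⁻¹)^r ∈ K
    have h1 := D.pow_congr hj hgF ((D.F j).inv_mem hyF) r
    have h2 : g ^ r * y⁻¹ ^ r ∈ K := by
      rw [hgr, inv_pow, hyr]
      simpa using hk
    have h3 : (g * y⁻¹) ^ r ∈ K := by
      have h4 := K.mul_mem h2 (K.inv_mem (hK1 h1))
      have h5 : g ^ r * y⁻¹ ^ r * (((g * y⁻¹) ^ r)⁻¹ * (g ^ r * y⁻¹ ^ r))⁻¹ = (g * y⁻¹) ^ r := by
        group
      rwa [h5] at h4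
    have h4 := hKiso r _ hr h3
    refine (hK'mem g).2 ⟨g * y⁻¹, h4, Multiplicative.ofAdd (Multiplicative.toAdd q / r), ?_⟩
    rw [← hy]; group
  have h1 := hmax hK'S hKK'
  apply hxK
  apply h1
  exact (hK'mem x).2 ⟨1, K.one_mem, Multiplicative.ofAdd 1, by rw [hψ1]; simp⟩

theorem J_top (hM : 1 ≤ M) : D.J ⊤ := by
  rw [← D.one]
  have : ∀ d, ∀ j, 1 ≤ j → j + d = M → D.J (D.F j) := by
    intro d
    induction d with
    | zero =>
      intro j _ hjM
      rw [add_zero] at hjM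
      rw [hjM, D.bot]
      intro k hk _
      exact hk
    | succ d ih =>
      intro j hj hjM
      exact D.J_level hj (by omega) (ih (j + 1) (by omega) (by omega))
  exact this (M - 1) 1 le_rfl (by omega)

end FG
end Pool.Agent.Helper181.Cov
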