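import Mathlib

set_option autoImplicit false

namespace Pool.Agent.Helper181.Cov

open PowerSeries

/-- the words -/
def W {Γ : Type*} [Group Γ] : ℕ → Γ → Γ → Γ
  | 0, x, y => x * y
  | (i + 1), x, y => W i (x ^ 2) (y ^ 2) * (W i x y) ^ (-(2 ^ (i + 2) : ℤ))

/-- their exponents -/
def bet : ℕ → ℤ
  | 0 => 1
  | (i + 1) => (2 - 2 ^ (i + 2)) * bet i

lemma map_W {Γ Γ' : Type*} [Group Γ] [Group Γ'] (f : Γ →* Γ') (i : ℕ) :
    ∀ x y, f (W i x y) = W i (f x) (f y) := by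
  induction i with
  | zero => intro x y; simp [W]
  | succ i ih => intro x y; rw [W, W, map_mul, map_zpow, ih, ih, map_pow, map_pow]

lemma bet_ne_zero (i : ℕ) : bet i ≠ 0 := by
  induction i with
  | zero => simp [bet]
  | succ i ih =>
    rw [bet]
    apply mul_ne_zero _ ih
    have : (4 : ℤ) ≤ 2 ^ (i + 2) := by
      rw [pow_add]
      have : (1 : ℤ) ≤ 2 ^ i := one_le_pow₀ (by norm_num)
      linarith
    linarith

section PS

variable {A : Type*} [Ring A]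

lemma coeff_mul_low {k : ℕ} {f : A⟦X⟧} (hf : ∀ j < k, coeff j f = 0) (g : A⟦X⟧) :
    (∀ j < k, coeff j (f * g) = 0) ∧ coeff k (f * g) = coeff k f * coeff 0 g := by
  constructor
  · intro j hj
    rw [coeff_mul]
    apply Finset.sum_eq_zero
    intro p hp
    rw [Finset.HasAntidiagonal.mem_antidiagonal] at hp
    rw [hf p.1 (by omega), zero_mul]
  · rw [coeff_mul, Finset.sum_eq_single (k, 0)]
    · intro p hp hne
      rw [Finset.HasAntidiagonal.mem_antidiagonal] at hp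
      rw [hf p.1 (by
        rcases Nat.lt_or_ge p.1 k with h | h
        · exact h
        · exfalso; apply hne; ext
          · show p.1 = k; omega
          · show p.2 = 0; omega), zero_mul]
    · intro h
      exact absurd (Finset.HasAntidiagonal.mem_antidiagonal.2 (by simp)) h

lemma coeff_mul_low' {k : ℕ} {f : A⟦X⟧} (hf : ∀ j < k, coeff j f = 0) (g : A⟦X⟧) :
    (∀ j < k, coeff j (g * f) = 0) ∧ coeff k (g * f) = coeff 0 g * coeff k f := by
  constructor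
  · intro j hj
    rw [coeff_mul]
    apply Finset.sum_eq_zero
    intro p hp
    rw [Finset.HasAntidiagonal.mem_antidiagonal] at hp
    rw [hf p.2 (by omega), mul_zero]
  · rw [coeff_mul, Finset.sum_eq_single (0, k)]
    · intro p hp hne
      rw [Finset.HasAntidiagonal.mem_antidiagonal] at hp
      rw [hf p.2 (by
        rcases Nat.lt_or_ge p.2 k with h | h
        · exact h
        · exfalso; apply hne; ext
          · show p.1 = 0; omega
          · show p.2 = k; omega), mul_zero]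
    · intro h
      exact absurd (Finset.HasAntidiagonal.mem_antidiagonal.2 (by simp)) h

lemma coeff_zero_mul' (f g : A⟦X⟧) : coeff 0 (f * g) = coeff 0 f * coeff 0 g := by
  rw [coeff_mul]; simp

/-- agreement below level `k` with difference `d` at level `k` -/
def RU (k : ℕ) (u v : (A⟦X⟧)ˣ) (d : A) : Prop :=
  coeff 0 (u : A⟦X⟧) = 1 ∧ coeff 0 (v : A⟦X⟧) = 1 ∧
    (∀ j < k, coeff j ((u : A⟦X⟧) - (v : A⟦X⟧)) = 0) ∧ coeff k ((u : A⟦X⟧) - (v : A⟦X⟧)) = d

lemma coeff_zero_inv {u : (A⟦X⟧)ˣ} (h : coeff 0 (u : A⟦X⟧) = 1) :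
    coeff 0 ((u⁻¹ : (A⟦X⟧)ˣ) : A⟦X⟧) = 1 := by
  have h1 : (u : A⟦X⟧) * ((u⁻¹ : (A⟦X⟧)ˣ) : A⟦X⟧) = 1 := u.mul_inv
  have h2 := congrArg (coeff 0) h1
  rw [coeff_zero_mul', h, one_mul] at h2
  rw [h2]; simp

lemma RU_mul {k : ℕ} {u v u' v' : (A⟦X⟧)ˣ} {d d' : A} (h : RU k u v d) (h' : RU k u' v' d') :
    RU k (u * u') (v * v') (d + d') := by
  obtain ⟨a1, a2, a3, a4⟩ := h
  obtain ⟨b1, b2, b3, b4⟩ := h'
  have key : ((u * u' : (A⟦X⟧)ˣ) : A⟦X⟧) - ((v * v' : (A⟦X⟧)ˣ) : A⟦X⟧) =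
      ((u : A⟦X⟧) - (v : A⟦X⟧)) * (u' : A⟦X⟧) + (v : A⟦X⟧) * ((u' : A⟦X⟧) - (v' : A⟦X⟧)) := by
    push_cast; noncomm_ring
  obtain ⟨c1, c2⟩ := coeff_mul_low a3 (u' : A⟦X⟧)
  obtain ⟨c3, c4⟩ := coeff_mul_low' b3 (v : A⟦X⟧)
  refine ⟨?_, ?_, ?_, ?_⟩
  · rw [Units.val_mul, coeff_zero_mul', a1, b1, one_mul]
  · rw [Units.val_mul, coeff_zero_mul', a2, b2, one_mul]
  · intro j hj
    rw [key, map_add, c1 j hj, c3 j hj, add_zero]
  · rw [key, map_add, c2, c4, a4, b4, b1, a2, mul_one, one_mul]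

lemma RU_inv {k : ℕ} {u v : (A⟦X⟧)ˣ} {d : A} (h : RU k u v d) : RU k u⁻¹ v⁻¹ (-d) := by
  obtain ⟨a1, a2, a3, a4⟩ := h
  have key : ((u⁻¹ : (A⟦X⟧)ˣ) : A⟦X⟧) - ((v⁻¹ : (A⟦X⟧)ˣ) : A⟦X⟧) =
      - (((u⁻¹ : (A⟦X⟧)ˣ) : A⟦X⟧) * (((u : A⟦X⟧) - (v : A⟦X⟧)) * ((v⁻¹ : (A⟦X⟧)ˣ) : A⟦X⟧))) := by
    rw [sub_mul, mul_sub, Units.mul_inv, ← mul_assoc, Units.inv_mul]
    simp
  obtain ⟨c1, c2⟩ := coeff_mul_low a3 ((v⁻¹ : (A⟦X⟧)ˣ) : A⟦X⟧)
  obtain ⟨c3, c4⟩ := coeff_mul_low' c1 ((u⁻¹ : (A⟦X⟧)ˣ) : A⟦X⟧)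
  refine ⟨coeff_zero_inv a1, coeff_zero_inv a2, ?_, ?_⟩
  · intro j hj
    rw [key, map_neg, c3 j hj, neg_zero]
  · rw [key, map_neg, c4, c2, coeff_zero_inv a1, coeff_zero_inv a2, a4, one_mul, mul_one]

lemma RU_pow {k : ℕ} {u v : (A⟦X⟧)ˣ} {d : A} (h : RU k u v d) (n : ℕ) :
    RU k (u ^ n) (v ^ n) (n • d) := by
  induction n with
  | zero => simp [RU]
  | succ n ih =>
    rw [pow_succ, pow_succ, succ_nsmul]
    exact RU_mul ih h

lemma RU_zpow_neg {k : ℕ} {u v : (A⟦X⟧)ˣ} {d : A} (h : RU k u v d) (n : ℕ) :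
    RU k (u ^ (-(n : ℤ))) (v ^ (-(n : ℤ))) (-(n • d)) := by
  rw [zpow_neg, zpow_neg, zpow_natCast, zpow_natCast]
  exact RU_inv (RU_pow h n)

/-- `t ↦ 2 t` -/
noncomputable def rs : A⟦X⟧ →+* A⟦X⟧ where
  toFun f := mk (fun j => (2 ^ j : ℕ) • coeff j f)
  map_one' := by
    ext j
    rw [coeff_mk, coeff_one]
    split_ifs with h
    · subst h; simp
    · simp
  map_mul' f g := by
    ext j
    rw [coeff_mk, coeff_mul, coeff_mul, Finset.smul_sum]
    apply Finset.sum_congr rfl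
    intro p hp
    rw [Finset.HasAntidiagonal.mem_antidiagonal] at hp
    rw [coeff_mk, coeff_mk, smul_mul_smul_comm, ← pow_add, hp]
  map_zero' := by ext j; simp
  map_add' f g := by ext j; simp

lemma coeff_rs (j : ℕ) (f : A⟦X⟧) : coeff j (rs f) = (2 ^ j : ℕ) • coeff j f := by
  simp [rs]

variable [Algebra ℚ A]

/-- the exponential series `exp (t X)` -/
noncomputable def E (x : A) : A⟦X⟧ := mk (fun j => ((j.factorial : ℚ)⁻¹) • x ^ j)

lemma coeff_E (x : A) (j : ℕ) : coeff j (E x) = ((j.factorial : ℚ)⁻¹) • x ^ j := by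
  simp [E]

lemma E_add {x y : A} (h : Commute x y) : E x * E y = E (x + y) := by
  ext n
  rw [coeff_mul, coeff_E, h.add_pow', Finset.smul_sum]
  apply Finset.sum_congr rfl
  intro p hp
  rw [Finset.HasAntidiagonal.mem_antidiagonal] at hp
  rw [coeff_E, coeff_E, smul_mul_smul_comm, ← Nat.cast_smul_eq_nsmul ℚ, smul_smul]
  congr 1
  have h1 := Nat.add_choose_mul_factorial_mul_factorial p.1 p.2
  rw [← Nat.choose_symm_add, hp] at h1
  have h2 : ((n.choose p.1 : ℕ) : ℚ) * (p.1.factorial : ℚ) * (p.2.factorial : ℚ) =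
      (n.factorial : ℚ) := by exact_mod_cast h1
  have h3 : (p.1.factorial : ℚ) ≠ 0 := by positivity
  have h4 : (p.2.factorial : ℚ) ≠ 0 := by positivity
  have h5 : (n.factorial : ℚ) ≠ 0 := by positivity
  field_simp
  linarith

lemma E_zero : E (0 : A) = 1 := by
  ext n
  rw [coeff_E, coeff_one]
  split_ifs with h
  · subst h; simp
  · rw [zero_pow h, smul_zero]

/-- the exponential series as a unit -/
noncomputable def EU (x : A) : (A⟦X⟧)ˣ where
  val := E x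
  inv := E (-x)
  val_inv := by rw [E_add (Commute.neg_right (Commute.refl x)), add_neg_cancel, E_zero]
  inv_val := by rw [E_add (Commute.neg_left (Commute.refl x)), neg_add_cancel, E_zero]

lemma EU_val (x : A) : (EU x : A⟦X⟧) = E x := rfl
lemma EU_inv_val (x : A) : (((EU x)⁻¹ : (A⟦X⟧)ˣ) : A⟦X⟧) = E (-x) := rfl

lemma EU_add {x y : A} (h : Commute x y) : EU x * EU y = EU (x + y) := by
  ext1; rw [Units.val_mul, EU_val, EU_val, EU_val, E_add h]

lemma EU_neg (x : A) : EU (-x) = (EU x)⁻¹ := by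
  ext1; rfl

lemma EU_nsmul (x : A) (n : ℕ) : EU ((n : ℚ) • x) = (EU x) ^ n := by
  induction n with
  | zero => rw [Nat.cast_zero, zero_smul, pow_zero]; ext1; rw [EU_val, E_zero]; rfl
  | succ n ih =>
    rw [pow_succ, ← ih, EU_add]
    · congr 1; push_cast; rw [add_smul, one_smul]
    · exact (Commute.refl x).smul_left _

lemma EU_zsmul (x : A) (n : ℤ) : EU ((n : ℚ) • x) = (EU x) ^ n := by
  rcases Int.eq_nat_or_neg n with ⟨m, rfl | rfl⟩
  · rw [zpow_natCast, ← EU_nsmul]; simp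
  · rw [zpow_neg, zpow_natCast, ← EU_nsmul, ← EU_neg]; simp

lemma coeff_zero_E (x : A) : coeff 0 (E x) = 1 := by rw [coeff_E]; simp

lemma rs_EU (x : A) : Units.map (rs (A := A)).toMonoidHom (EU x) = (EU x) ^ 2 := by
  rw [← EU_nsmul]
  ext1
  show rs (E x) = E _
  ext j
  rw [coeff_rs, coeff_E, coeff_E, smul_pow, smul_comm, ← Nat.cast_smul_eq_nsmul ℚ]
  push_cast
  rfl

theorem W_agree (i : ℕ) : ∀ x y : A, ∀ j < i + 2,
    coeff j ((W i (EU x) (EU y) : (A⟦X⟧)ˣ) : A⟦X⟧) = coeff j (E ((bet i : ℚ) • (x + y))) := by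
  intro x y
  have key : ∃ d, RU (i + 1) (W i (EU x) (EU y)) (EU ((bet i : ℚ) • (x + y))) d ∧ d = 0 := by
    induction i with
    | zero =>
      refine ⟨_, ⟨?_, ?_, ?_, rfl⟩, ?_⟩
      · rw [W, Units.val_mul, coeff_zero_mul', EU_val, EU_val, coeff_zero_E, coeff_zero_E, one_mul]
      · rw [EU_val, coeff_zero_E]
      · intro j hj
        have : j = 0 := by omega
        subst this
        rw [map_sub, W, Units.val_mul, coeff_zero_mul', EU_val, EU_val, EU_val, coeff_zero_E,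
          coeff_zero_E, coeff_zero_E]
        simp
      · rw [W, Units.val_mul, EU_val, EU_val, EU_val, map_sub, coeff_mul]
        rw [Finset.Nat.antidiagonal_succ]
        simp [coeff_E, bet, add_comm]
    | succ i ih =>
      obtain ⟨d, ⟨h1, h2, h3, h4⟩, h5⟩ := ih
      -- agreement below i + 2
      have hlow : ∀ j < i + 2, coeff j (((W i (EU x) (EU y) : (A⟦X⟧)ˣ) : A⟦X⟧) -
          ((EU ((bet i : ℚ) • (x + y)) : (A⟦X⟧)ˣ) : A⟦X⟧)) = 0 := by
        intro j hj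
        rcases Nat.lt_or_ge j (i + 1) with h | h
        · exact h3 j h
        · have : j = i + 1 := by omega
          rw [this, h4, h5]
      set u := W i (EU x) (EU y) with hu
      set v := EU ((bet i : ℚ) • (x + y)) with hv
      set e := coeff (i + 2) ((u : A⟦X⟧) - (v : A⟦X⟧)) with he
      have hR : RU (i + 2) u v e := ⟨h1, h2, hlow, rfl⟩
      have hR2 : RU (i + 2) (Units.map (rs (A := A)).toMonoidHom u)
          (Units.map (rs (A := A)).toMonoidHom v) ((2 ^ (i + 2) : ℕ) • e) := by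
        have hval : ∀ w : (A⟦X⟧)ˣ, ((Units.map (rs (A := A)).toMonoidHom w : (A⟦X⟧)ˣ) : A⟦X⟧) =
          rs (w : A⟦X⟧) := fun w => rfl
        refine ⟨?_, ?_, ?_, ?_⟩
        · rw [hval, coeff_rs, h1]; simp
        · rw [hval, coeff_rs, h2]; simp
        · intro j hj
          rw [hval, hval, ← map_sub, coeff_rs, hlow j hj, smul_zero]
        · rw [hval, hval, ← map_sub, coeff_rs]
      have hR3 := RU_zpow_neg hR (2 ^ (i + 2))
      have hR4 := RU_mul hR2 hR3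
      have e1 : Units.map (rs (A := A)).toMonoidHom u = W i (EU x ^ 2) (EU y ^ 2) := by
        rw [hu, map_W, rs_EU, rs_EU]
      have e2 : Units.map (rs (A := A)).toMonoidHom v * v ^ (-((2 ^ (i + 2) : ℕ) : ℤ)) =
          EU ((bet (i + 1) : ℚ) • (x + y)) := by
        rw [hv, rs_EU, ← zpow_natCast, ← zpow_add, ← EU_zsmul, smul_smul, bet]
        congr 2
        push_cast
        ring
      rw [e1, e2] at hR4
      have e3 : W (i + 1) (EU x) (EU y) = W i (EU x ^ 2) (EU y ^ 2) *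
          u ^ (-((2 ^ (i + 2) : ℕ) : ℤ)) := by
        push_cast; rfl
      rw [← e3] at hR4
      exact ⟨_, hR4, by simp⟩
  obtain ⟨d, ⟨h1, h2, h3, h4⟩, h5⟩ := key
  intro j hj
  rw [← sub_eq_zero, ← map_sub]
  rcases Nat.lt_or_ge j (i + 1) with h | h
  · exact h3 j h
  · have : j = i + 1 := by omega
    rw [this, ← h5, ← h4]; rfl

end PS

end Pool.Agent.Helper181.Cov
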