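import Mathlib
import Pool.Agent.Helper181.CovC

set_option autoImplicit false

namespace Pool.Agent.Helper181.Cov

open PowerSeries

/-- difference operator -/
def Df {G V : Type*} [Group G] [AddCommGroup V] (h : G) (f : G → V) : G → V :=
  fun g => f (g * h) - f g

/-- a filtered algebra whose filtration reaches zero at level `M` -/
structure FA (A : Type*) [Ring A] [Algebra ℚ A] (M : ℕ) where
  N : ℕ → Submodule ℚ A
  anti : ∀ {i j}, i ≤ j → N j ≤ N i
  one_mem : (1 : A) ∈ N 0
  mul_mem : ∀ {i j x y}, x ∈ N i → y ∈ N j → x * y ∈ N (i + j)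
  bot : N M = ⊥
  two_le : 2 ≤ M

namespace FA

variable {A : Type*} [Ring A] [Algebra ℚ A] {M : ℕ} (D : FA A M)

lemma eq_zero {i : ℕ} (h : M ≤ i) {x : A} (hx : x ∈ D.N i) : x = 0 := by
  have := D.anti h hx
  rw [D.bot] at this
  simpa using this

lemma pow_mem {x : A} (hx : x ∈ D.N 1) (j : ℕ) : x ^ j ∈ D.N j := by
  induction j with
  | zero => rw [pow_zero]; exact D.one_mem
  | succ j ih => rw [pow_succ]; exact D.mul_mem ih hx

/-- graded power series -/
def GR : Subring A⟦X⟧ where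
  carrier := {f | ∀ j, coeff j f ∈ D.N j}
  zero_mem' := by intro j; simp
  one_mem' := by
    intro j
    rw [coeff_one]
    split_ifs with h
    · subst h; exact D.one_mem
    · exact Submodule.zero_mem _
  add_mem' := by
    intro f g hf hg j
    rw [map_add]
    exact Submodule.add_mem _ (hf j) (hg j)
  neg_mem' := by
    intro f hf j
    rw [map_neg]
    exact Submodule.neg_mem _ (hf j)
  mul_mem' := by
    intro f g hf hg j
    rw [coeff_mul]
    apply Submodule.sum_mem
    intro p hp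
    rw [Finset.HasAntidiagonal.mem_antidiagonal] at hp
    rw [← hp]
    exact D.mul_mem (hf _) (hg _)

lemma mem_GR {f : A⟦X⟧} : f ∈ D.GR ↔ ∀ j, coeff j f ∈ D.N j := Iff.rfl

/-- evaluation at `t = 1` -/
noncomputable def ev : D.GR →+* A where
  toFun f := ∑ j ∈ Finset.range M, coeff j (f : A⟦X⟧)
  map_zero' := by simp
  map_add' f g := by simp [Finset.sum_add_distrib]
  map_one' := by
    have h2 := D.two_le
    simp only [OneMemClass.coe_one, coeff_one]
    rw [Finset.sum_ite_eq']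
    simp
    omega
  map_mul' f g := by
    have h1 : ∀ j, coeff j ((f * g : D.GR) : A⟦X⟧) =
        ∑ p ∈ Finset.HasAntidiagonal.antidiagonal j, coeff p.1 (f : A⟦X⟧) * coeff p.2 (g : A⟦X⟧) := by
      intro j
      rw [MulMemClass.coe_mul, coeff_mul]
    simp only [h1]
    rw [Finset.sum_mul_sum, ← Finset.sum_product', Finset.sum_sigma']
    rw [← Finset.sum_subset (s₁ := (Finset.range M ×ˢ Finset.range M).filter
      (fun p => p.1 + p.2 < M)) (s₂ := Finset.range M ×ˢ Finset.range M)]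
    · refine Finset.sum_bij' (fun x _ => x.2) (fun p _ => ⟨p.1 + p.2, p⟩) ?_ ?_ ?_ ?_ ?_
      · intro x hx
        rw [Finset.mem_sigma, Finset.HasAntidiagonal.mem_antidiagonal, Finset.mem_range] at hx
        rw [Finset.mem_filter, Finset.mem_product, Finset.mem_range, Finset.mem_range]
        omega
      · intro p hp
        rw [Finset.mem_filter, Finset.mem_product, Finset.mem_range, Finset.mem_range] at hp
        rw [Finset.mem_sigma, Finset.HasAntidiagonal.mem_antidiagonal, Finset.mem_range]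
        exact ⟨hp.2, rfl⟩
      · intro x hx
        rw [Finset.mem_sigma, Finset.HasAntidiagonal.mem_antidiagonal, Finset.mem_range] at hx
        obtain ⟨j, p⟩ := x
        obtain ⟨h1, h2⟩ := hx
        simp only at h2
        subst h2
        rfl
      · intro p hp; rfl
      · intro x hx; rfl
    · exact Finset.filter_subset _ _
    · intro p hp hp'
      rw [Finset.mem_filter] at hp'
      apply D.eq_zero (i := p.1 + p.2)
      · by_contra h
        exact hp' ⟨hp, by omega⟩
      · exact D.mul_mem (f.2 _) (g.2 _)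

lemma ev_apply (f : D.GR) : D.ev f = ∑ j ∈ Finset.range M, coeff j (f : A⟦X⟧) := rfl

lemma E_mem {x : A} (hx : x ∈ D.N 1) : E x ∈ D.GR := by
  intro j
  rw [coeff_E]
  exact Submodule.smul_mem _ _ (D.pow_mem hx j)

/-- graded exponential unit -/
noncomputable def GE (x : A) (hx : x ∈ D.N 1) : D.GRˣ where
  val := ⟨E x, D.E_mem hx⟩
  inv := ⟨E (-x), D.E_mem (Submodule.neg_mem _ hx)⟩
  val_inv := by
    ext1
    show E x * E (-x) = 1
    rw [E_add (Commute.neg_right (Commute.refl x)), add_neg_cancel, E_zero]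
  inv_val := by
    ext1
    show E (-x) * E x = 1
    rw [E_add (Commute.neg_left (Commute.refl x)), neg_add_cancel, E_zero]

lemma map_GE (x : A) (hx : x ∈ D.N 1) :
    Units.map (D.GR.subtype : D.GR →* A⟦X⟧) (D.GE x hx) = EU x := by
  ext1; rfl

/-- exponential of an element of the algebra -/
noncomputable def ex (x : A) : A := ∑ j ∈ Finset.range M, ((j.factorial : ℚ)⁻¹) • x ^ j

/-- exponential as a unit -/
noncomputable def eu (x : A) (hx : x ∈ D.N 1) : Aˣ := Units.map (D.ev : D.GR →* A) (D.GE x hx)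

lemma eu_val (x : A) (hx : x ∈ D.N 1) : (D.eu x hx : A) = ex (M := M) x := by
  show D.ev ⟨E x, _⟩ = _
  rw [ev_apply, ex]
  simp only [coeff_E]

theorem W_eu {i : ℕ} (hi : M ≤ i + 2) {x y : A} (hx : x ∈ D.N 1) (hy : y ∈ D.N 1) :
    ((W i (D.eu x hx) (D.eu y hy) : Aˣ) : A) = ex (M := M) ((bet i : ℚ) • (x + y)) := by
  have h1 : W i (D.eu x hx) (D.eu y hy) =
      Units.map (D.ev : D.GR →* A) (W i (D.GE x hx) (D.GE y hy)) := by
    rw [map_W]; rfl
  have h2 : Units.map (D.GR.subtype : D.GR →* A⟦X⟧) (W i (D.GE x hx) (D.GE y hy)) =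
      W i (EU x) (EU y) := by
    rw [map_W, map_GE, map_GE]
  rw [h1]
  show D.ev ((W i (D.GE x hx) (D.GE y hy) : D.GRˣ) : D.GR) = _
  rw [ev_apply, ex]
  apply Finset.sum_congr rfl
  intro j hj
  rw [Finset.mem_range] at hj
  have h3 : (((W i (D.GE x hx) (D.GE y hy) : D.GRˣ) : D.GR) : A⟦X⟧) =
      ((W i (EU x) (EU y) : (A⟦X⟧)ˣ) : A⟦X⟧) := by
    rw [← h2]; rfl
  rw [h3, W_agree i x y j (by omega), coeff_E]

lemma pow_sub_mem {x y : A} (hx : x ∈ D.N 1) (hy : y ∈ D.N 1) {k : ℕ} (h : x - y ∈ D.N k) (j : ℕ) :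
    x ^ (j + 1) - y ^ (j + 1) ∈ D.N (k + j) := by
  induction j with
  | zero => simpa using h
  | succ j ih =>
    have : x ^ (j + 1 + 1) - y ^ (j + 1 + 1) =
        x ^ (j + 1) * (x - y) + (x ^ (j + 1) - y ^ (j + 1)) * y := by
      rw [pow_succ x (j + 1), pow_succ y (j + 1)]; noncomm_ring
    rw [this]
    refine Submodule.add_mem _ ?_ ?_
    · have h1 := D.mul_mem (D.pow_mem hx (j + 1)) h
      rwa [show j + 1 + k = k + (j + 1) by omega] at h1
    · have h1 := D.mul_mem ih hy
      rwa [show k + j + 1 = k + (j + 1) by omega] at h1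

lemma ex_sub_mem {x y : A} (hx : x ∈ D.N 1) (hy : y ∈ D.N 1) {k : ℕ} (h : x - y ∈ D.N k) :
    ex (M := M) x - ex (M := M) y - (x - y) ∈ D.N (k + 1) := by
  obtain ⟨m, rfl⟩ : ∃ m, M = m + 2 := ⟨M - 2, by have := D.two_le; omega⟩
  rw [ex, ex, ← Finset.sum_sub_distrib, Finset.sum_range_succ', Finset.sum_range_succ']
  have : ∀ a b c : A, a + b + c - b = a + c := fun a b c => by abel
  simp only [zero_add, pow_one, Nat.factorial_one, Nat.cast_one, inv_one, one_smul, pow_zero,
    sub_self, add_zero]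
  rw [add_sub_cancel_right]
  apply Submodule.sum_mem
  intro j _
  rw [← smul_sub]
  apply Submodule.smul_mem
  exact D.anti (by omega) (D.pow_sub_mem hx hy h (j + 1))

theorem ex_inj {x y : A} (hx : x ∈ D.N 1) (hy : y ∈ D.N 1)
    (h : ex (M := M) x = ex (M := M) y) : x = y := by
  have key : ∀ k, x - y ∈ D.N (k + 1) := by
    intro k
    induction k with
    | zero => exact Submodule.sub_mem _ hx hy
    | succ k ih =>
      have := D.ex_sub_mem hx hy ih
      rw [h, sub_self, zero_sub] at this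
      simpa using Submodule.neg_mem _ this
  exact sub_eq_zero.1 (D.eq_zero (i := M + 1) (by omega) (key M))

/-- approximations of the logarithm -/
noncomputable def lgs (M : ℕ) (a : A) : ℕ → A
  | 0 => 0
  | (k + 1) => lgs M a k - (ex (M := M) (lgs M a k) - a)

lemma lgs_spec {a : A} (ha : a - 1 ∈ D.N 1) (k : ℕ) :
    lgs M a k ∈ D.N 1 ∧ ex (M := M) (lgs M a k) - a ∈ D.N (k + 1) := by
  induction k with
  | zero =>
    refine ⟨Submodule.zero_mem _, ?_⟩
    have : ex (M := M) (0 : A) = 1 := by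
      obtain ⟨m, rfl⟩ : ∃ m, M = m + 2 := ⟨M - 2, by have := D.two_le; omega⟩
      rw [ex, Finset.sum_range_succ']
      simp
    show ex (M := M) 0 - a ∈ _
    rw [this, ← neg_sub]
    exact Submodule.neg_mem _ ha
  | succ k ih =>
    obtain ⟨h1, h2⟩ := ih
    have h3 : lgs M a (k + 1) = lgs M a k - (ex (M := M) (lgs M a k) - a) := rfl
    have h4 : lgs M a (k + 1) ∈ D.N 1 := by
      rw [h3]; exact Submodule.sub_mem _ h1 (D.anti (by omega) h2)
    refine ⟨h4, ?_⟩
    have h5 : lgs M a (k + 1) - lgs M a k ∈ D.N (k + 1) := by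
      rw [h3, sub_sub_cancel_left]; exact Submodule.neg_mem _ h2
    have h6 := D.ex_sub_mem h4 h1 h5
    have h7 : ex (M := M) (lgs M a (k + 1)) - ex (M := M) (lgs M a k) -
        (lgs M a (k + 1) - lgs M a k) = ex (M := M) (lgs M a (k + 1)) - a := by
      nth_rewrite 2 [h3]
      abel
    rwa [h7] at h6

/-- the logarithm -/
noncomputable def lg (M : ℕ) (a : A) : A := lgs M a M

lemma lg_mem {a : A} (ha : a - 1 ∈ D.N 1) : lg M a ∈ D.N 1 := (D.lgs_spec ha M).1

lemma ex_lg {a : A} (ha : a - 1 ∈ D.N 1) : ex (M := M) (lg M a) = a :=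
  sub_eq_zero.1 (D.eq_zero (i := M + 1) (by omega) (D.lgs_spec ha M).2)

lemma eu_lg {u : Aˣ} (ha : (u : A) - 1 ∈ D.N 1) : D.eu (lg M (u : A)) (D.lg_mem ha) = u := by
  ext1; rw [eu_val, D.ex_lg ha]

lemma eu_zsmul {x : A} (hx : x ∈ D.N 1) (n : ℤ) :
    ((D.eu x hx ^ n : Aˣ) : A) = ex (M := M) ((n : ℚ) • x) := by
  have h1 : D.GE x hx ^ n = D.GE ((n : ℚ) • x) (Submodule.smul_mem _ _ hx) := by
    have hinj : Function.Injective (Units.map (D.GR.subtype : D.GR →* A⟦X⟧)) :=
      Units.map_injective (f := (D.GR.subtype : D.GR →* A⟦X⟧)) D.GR.subtype_injective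
    apply hinj
    rw [map_zpow, map_GE, map_GE, EU_zsmul]
  rw [eu, ← map_zpow, h1]
  exact D.eu_val _ _

/-- If `z ^ bet i = W i x y` then the logarithms add. -/
theorem lg_add {i : ℕ} (hi : M ≤ i + 2) {x y z : Aˣ} (hx : (x : A) - 1 ∈ D.N 1)
    (hy : (y : A) - 1 ∈ D.N 1) (hz : (z : A) - 1 ∈ D.N 1) (h : z ^ bet i = W i x y) :
    lg M (z : A) = lg M (x : A) + lg M (y : A) := by
  have h1 := D.W_eu hi (D.lg_mem hx) (D.lg_mem hy)
  rw [D.eu_lg hx, D.eu_lg hy, ← h] at h1
  have h2 := D.eu_zsmul (D.lg_mem hz) (bet i)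
  rw [D.eu_lg hz, h1] at h2
  have h3 := D.ex_inj (Submodule.smul_mem _ _ (Submodule.add_mem _ (D.lg_mem hx) (D.lg_mem hy)))
    (Submodule.smul_mem _ _ (D.lg_mem hz)) h2
  have h4 : ((bet i : ℤ) : ℚ) ≠ 0 := by exact_mod_cast bet_ne_zero i
  have h5 := congrArg (fun a => ((bet i : ℤ) : ℚ)⁻¹ • a) h3
  simp only [smul_smul, inv_mul_cancel₀ h4, one_smul] at h5
  exact h5.symm

include D in
lemma lg_one : lg M (1 : A) = 0 := by
  have h1 : (1 : A) - 1 ∈ D.N 1 := by rw [sub_self]; exact Submodule.zero_mem _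
  apply D.ex_inj (D.lg_mem h1) (Submodule.zero_mem _)
  rw [D.ex_lg h1]
  obtain ⟨m, rfl⟩ : ∃ m, M = m + 2 := ⟨M - 2, by have := D.two_le; omega⟩
  rw [ex, Finset.sum_range_succ']
  simp

lemma lg_inv {x : Aˣ} (hx : (x : A) - 1 ∈ D.N 1) (hx' : ((x⁻¹ : Aˣ) : A) - 1 ∈ D.N 1) :
    lg M ((x⁻¹ : Aˣ) : A) = - lg M (x : A) := by
  apply D.ex_inj (D.lg_mem hx') (Submodule.neg_mem _ (D.lg_mem hx))
  rw [D.ex_lg hx']
  have h := D.eu_zsmul (D.lg_mem hx) (-1)
  rw [D.eu_lg hx, zpow_neg_one] at h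
  rw [h]
  congr 1
  push_cast
  rw [neg_smul, one_smul]

lemma lg_inj {x y : A} (hx : x - 1 ∈ D.N 1) (hy : y - 1 ∈ D.N 1) (h : lg M x = lg M y) :
    x = y := by
  rw [← D.ex_lg hx, ← D.ex_lg hy, h]

/-! ### Polynomial maps -/

section Poly

variable {G : Type*} [Group G]


/-- weighted polynomial maps -/
def Q (m s : ℕ) (f : G → A) : Prop :=
  ∀ l : List G, l.length ≤ m → ∀ g, (l.foldr Df f) g ∈ D.N (s + l.length)

lemma Q_mem {m s : ℕ} {f : G → A} (h : D.Q m s f) (g : G) : f g ∈ D.N s := by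
  have := h [] (by simp) g
  simpa using this

lemma Q_Df {m s : ℕ} {f : G → A} (h : D.Q (m + 1) s f) (k : G) : D.Q m (s + 1) (Df k f) := by
  intro l hl g
  have := h (l ++ [k]) (by simp; omega) g
  rw [List.foldr_append] at this
  simp only [List.foldr_cons, List.foldr_nil, List.length_append, List.length_cons,
    List.length_nil, zero_add] at this
  rwa [show s + 1 + l.length = s + (l.length + 1) by omega]

lemma Q_succ {m s : ℕ} {f : G → A} (h0 : ∀ g, f g ∈ D.N s) (h : ∀ k, D.Q m (s + 1) (Df k f)) :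
    D.Q (m + 1) s f := by
  intro l hl g
  rcases List.eq_nil_or_concat l with rfl | ⟨l', k, rfl⟩
  · simpa using h0 g
  · rw [List.concat_eq_append, List.foldr_append]
    simp only [List.foldr_cons, List.foldr_nil]
    rw [List.concat_eq_append] at hl
    simp only [List.length_append, List.length_cons, List.length_nil, zero_add] at hl ⊢
    have := h k l' (by omega) g
    rwa [show s + (l'.length + 1) = s + 1 + l'.length by omega]

lemma Q_zero {s : ℕ} {f : G → A} (h0 : ∀ g, f g ∈ D.N s) : D.Q 0 s f := by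
  intro l hl g
  have : l = [] := List.eq_nil_of_length_eq_zero (by omega)
  subst this
  simpa using h0 g

lemma Q_mono {m m' s s' : ℕ} {f : G → A} (h : D.Q m s f) (hm : m' ≤ m) (hs : s' ≤ s) :
    D.Q m' s' f := by
  intro l hl g
  exact D.anti (by omega) (h l (by omega) g)

omit [Algebra ℚ A] in
lemma Df_add (h : G) (f f' : G → A) : Df h (f + f') = Df h f + Df h f' := by
  funext g; simp only [Df, Pi.add_apply]; abel

lemma Df_smul (h : G) (c : ℚ) (f : G → A) : Df h (c • f) = c • Df h f := by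
  funext g; simp only [Df, Pi.smul_apply]; rw [smul_sub]

omit [Algebra ℚ A] in
lemma Df_mul (h : G) (f f' : G → A) : Df h (f * f') = Df h f * f' + Df h f * Df h f' +
    f * Df h f' := by
  funext g; simp only [Df, Pi.add_apply, Pi.mul_apply]; noncomm_ring

lemma Q_add {m : ℕ} : ∀ {s : ℕ} {f f' : G → A}, D.Q m s f → D.Q m s f' → D.Q m s (f + f') := by
  induction m with
  | zero =>
    intro s f f' h h'
    exact D.Q_zero (fun g => Submodule.add_mem _ (D.Q_mem h g) (D.Q_mem h' g))
  | succ m ih =>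
    intro s f f' h h'
    refine D.Q_succ (fun g => Submodule.add_mem _ (D.Q_mem h g) (D.Q_mem h' g)) (fun k => ?_)
    rw [Df_add]
    exact ih (D.Q_Df h k) (D.Q_Df h' k)

lemma Q_smul {m : ℕ} : ∀ {s : ℕ} (c : ℚ) {f : G → A}, D.Q m s f → D.Q m s (c • f) := by
  induction m with
  | zero =>
    intro s c f h
    exact D.Q_zero (fun g => Submodule.smul_mem _ _ (D.Q_mem h g))
  | succ m ih =>
    intro s c f h
    refine D.Q_succ (fun g => Submodule.smul_mem _ _ (D.Q_mem h g)) (fun k => ?_)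
    rw [Df_smul]
    exact ih c (D.Q_Df h k)

lemma Q_mul {m : ℕ} : ∀ {s t : ℕ} {f f' : G → A}, D.Q m s f → D.Q m t f' →
    D.Q m (s + t) (f * f') := by
  induction m with
  | zero =>
    intro s t f f' h h'
    exact D.Q_zero (fun g => D.mul_mem (D.Q_mem h g) (D.Q_mem h' g))
  | succ m ih =>
    intro s t f f' h h'
    refine D.Q_succ (fun g => D.mul_mem (D.Q_mem h g) (D.Q_mem h' g)) (fun k => ?_)
    rw [Df_mul]
    refine D.Q_add (D.Q_add ?_ ?_) ?_
    · have := ih (D.Q_Df h k) (D.Q_mono h' (Nat.le_succ m) le_rfl)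
      rwa [show s + 1 + t = s + t + 1 by omega] at this
    · have := ih (D.Q_Df h k) (D.Q_Df h' k)
      exact D.Q_mono this le_rfl (by omega)
    · have := ih (D.Q_mono h (Nat.le_succ m) (le_refl s)) (D.Q_Df h' k)
      exact this

lemma Q_const {m : ℕ} : ∀ {s : ℕ} {a : A}, a ∈ D.N s → D.Q m s (fun _ : G => a) := by
  induction m with
  | zero =>
    intro s a h
    exact D.Q_zero (fun g => h)
  | succ m ih =>
    intro s a h
    refine D.Q_succ (fun g => h) (fun k => ?_)
    have : Df k (fun _ : G => a) = fun _ => 0 := by funext g; simp [Df]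
    rw [this]
    exact ih (Submodule.zero_mem _)

lemma Q_pow {m : ℕ} {f : G → A} (h : D.Q m 0 f) (j : ℕ) : D.Q m 0 (f ^ j) := by
  induction j with
  | zero => rw [pow_zero]; exact D.Q_const D.one_mem
  | succ j ih => rw [pow_succ]; exact D.Q_mul ih h

lemma Q_sum {m : ℕ} {s : ℕ} {ι : Type*} (S : Finset ι) (f : ι → G → A)
    (h : ∀ i ∈ S, D.Q m s (f i)) : D.Q m s (∑ i ∈ S, f i) := by
  classical
  induction S using Finset.induction_on with
  | empty => rw [Finset.sum_empty]; exact D.Q_const (Submodule.zero_mem _)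
  | insert a S ha ih =>
    rw [Finset.sum_insert ha]
    exact D.Q_add (h a (Finset.mem_insert_self _ _))
      (ih (fun i hi => h i (Finset.mem_insert_of_mem hi)))

lemma Q_hom {m : ℕ} (ι : G →* A) (hι : ∀ g, ι g - 1 ∈ D.N 1) :
    ∀ {s : ℕ} {a : A}, a ∈ D.N s → D.Q m s (fun g => ι g * a) := by
  have h0 : ∀ g, ι g ∈ D.N 0 := by
    intro g
    have := Submodule.add_mem _ (D.anti (by omega) (hι g) : _ ∈ D.N 0) D.one_mem
    simpa using this
  induction m with
  | zero =>
    intro s a h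
    refine D.Q_zero (fun g => ?_)
    have := D.mul_mem (h0 g) h
    rwa [zero_add] at this
  | succ m ih =>
    intro s a h
    refine D.Q_succ (fun g => ?_) (fun k => ?_)
    · have := D.mul_mem (h0 g) h
      rwa [zero_add] at this
    · have : Df k (fun g => ι g * a) = fun g => ι g * ((ι k - 1) * a) := by
        funext g; simp only [Df, map_mul]; noncomm_ring
      rw [this]
      apply ih
      have := D.mul_mem (hι k) h
      rwa [show 1 + s = s + 1 by omega] at this

lemma Q_lgs {m : ℕ} (ι : G →* A) (hι : ∀ g, ι g - 1 ∈ D.N 1) (k : ℕ) :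
    D.Q m 0 (fun g => lgs M (ι g) k) := by
  induction k with
  | zero => exact D.Q_const (Submodule.zero_mem _)
  | succ k ih =>
    set F : G → A := fun g => lgs M (ι g) k with hF
    have h1 : (fun g => lgs M (ι g) (k + 1)) = F +
        (((-1 : ℚ) • ∑ j ∈ Finset.range M, ((j.factorial : ℚ)⁻¹) • F ^ j) +
          fun g => ι g * 1) := by
      funext g
      have h2 : (∑ j ∈ Finset.range M, ((j.factorial : ℚ)⁻¹) • F ^ j) g =
          ∑ j ∈ Finset.range M, ((j.factorial : ℚ)⁻¹) • (F g) ^ j := by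
        rw [Finset.sum_apply]; rfl
      rw [Pi.add_apply, Pi.add_apply, Pi.smul_apply, h2]
      simp only [lgs, ex, neg_smul, one_smul, mul_one]
      rw [hF]
      abel
    rw [h1]
    refine D.Q_add ih (D.Q_add (D.Q_smul _ (D.Q_sum _ _ (fun j _ => D.Q_smul _ (D.Q_pow ih j)))) ?_)
    exact D.Q_hom ι hι D.one_mem

theorem lg_poly (ι : G →* A) (hι : ∀ g, ι g - 1 ∈ D.N 1) (l : List G) (hl : l.length = M) (g : G) :
    (l.foldr Df (fun g => lg M (ι g))) g = 0 := by
  have := D.Q_lgs (m := M) ι hι M l hl.le g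
  rw [hl, zero_add, D.bot] at this
  simpa [lg] using this

end Poly

end FA

end Pool.Agent.Helper181.Cov
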