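import Mathlib
import Pool.Agent.Helper181.CovB
import Pool.Agent.Helper181.CovD

set_option autoImplicit false

namespace Pool.Agent.Helper181.Cov

namespace FG

variable {G : Type} [Group G] {M : ℕ} (D : FG G M)

lemma I_zero_top : D.I ⊤ 0 = ⊤ := by
  rw [eq_top_iff]
  intro u _
  induction u using Finsupp.induction_linear with
  | zero => exact Submodule.zero_mem _
  | add f g hf hg => exact Submodule.add_mem _ (hf trivial) (hg trivial)
  | single g a =>
    have h := Submodule.smul_mem _ a (D.I_zero_mem (K := ⊤) (k := g) trivial)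
    simpa using h

/-- the module -/
abbrev Vb : Type := (G →₀ ℚ) ⧸ D.I ⊤ M

/-- the filtration of the endomorphism algebra -/
def Nf (j : ℕ) : Submodule ℚ (Module.End ℚ D.Vb) where
  carrier := {a | ∀ s, ∀ v ∈ (D.I ⊤ s).map (D.I ⊤ M).mkQ, a v ∈ (D.I ⊤ (s + j)).map (D.I ⊤ M).mkQ}
  zero_mem' := by intro s v _; simp
  add_mem' := by
    intro a b ha hb s v hv
    rw [LinearMap.add_apply]
    exact Submodule.add_mem _ (ha s v hv) (hb s v hv)
  smul_mem' := by
    intro c a ha s v hv
    rw [LinearMap.smul_apply]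
    exact Submodule.smul_mem _ _ (ha s v hv)

lemma mem_Nf {j : ℕ} {a : Module.End ℚ D.Vb} : a ∈ D.Nf j ↔
    ∀ s, ∀ v ∈ (D.I ⊤ s).map (D.I ⊤ M).mkQ, a v ∈ (D.I ⊤ (s + j)).map (D.I ⊤ M).mkQ := Iff.rfl

/-- the filtered algebra of a filtered group -/
def toFA (hM : 2 ≤ M) : FA (Module.End ℚ D.Vb) M where
  N := D.Nf
  anti := by
    intro i j hij a ha s v hv
    exact Submodule.map_mono (D.I_anti (by omega)) (ha s v hv)
  one_mem := by intro s v hv; exact hv
  mul_mem := by
    intro i j x y hx hy s v hv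
    have := hx _ _ (hy s v hv)
    rwa [show s + j + i = s + (i + j) by omega] at this
  bot := by
    rw [eq_bot_iff]
    intro a ha
    rw [Submodule.mem_bot]
    apply LinearMap.ext
    intro v
    have h1 : v ∈ (D.I ⊤ 0).map (D.I ⊤ M).mkQ := by
      rw [D.I_zero_top, Submodule.map_top, Submodule.range_mkQ]; trivial
    have h2 := ha 0 v h1
    rw [zero_add, Submodule.mem_map] at h2
    obtain ⟨u, hu, hu'⟩ := h2
    rw [LinearMap.zero_apply, ← hu', Submodule.mkQ_apply, Submodule.Quotient.mk_eq_zero]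
    exact hu
  two_le := hM

/-- the regular representation on the quotient -/
noncomputable def rep : G →* Module.End ℚ D.Vb where
  toFun g := (D.I ⊤ M).mapQ (D.I ⊤ M) (L g) (fun _ hv => D.L_I (K := ⊤) trivial hv)
  map_one' := by
    apply Submodule.linearMap_qext
    apply LinearMap.ext
    intro u
    simp only [LinearMap.comp_apply, Submodule.mkQ_apply, Submodule.mapQ_apply]
    have : L (1 : G) u = u := by
      have h : (fun g : G => 1 * g) = id := by funext g; simp
      rw [L, h, T_id]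
    rw [this]; rfl
  map_mul' g h := by
    apply Submodule.linearMap_qext
    apply LinearMap.ext
    intro u
    simp only [LinearMap.comp_apply, Submodule.mkQ_apply, Submodule.mapQ_apply,
      Module.End.mul_apply]
    rw [L_L]

lemma rep_mk (g : G) (u : G →₀ ℚ) :
    D.rep g (Submodule.Quotient.mk u) = Submodule.Quotient.mk (L g u) := rfl

lemma rep_mem (hM : 2 ≤ M) (g : G) : D.rep g - 1 ∈ (D.toFA hM).N 1 := by
  show D.rep g - 1 ∈ D.Nf 1
  rw [mem_Nf]
  intro s v hv
  rw [Submodule.mem_map] at hv ⊢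
  obtain ⟨u, hu, rfl⟩ := hv
  refine ⟨L g u - u, ?_, ?_⟩
  · have := D.I_mul (K := ⊤) (a := 1) (b := s) (h := g) trivial le_rfl (by rw [D.one]; trivial) hu
    rwa [add_comm] at this
  · rw [map_sub, LinearMap.sub_apply, Module.End.one_apply]
    rfl

lemma rep_inj (hM : 2 ≤ M) : Function.Injective D.rep := by
  rw [injective_iff_map_eq_one]
  intro g hg
  have h1 := D.J_top (by omega) g trivial
  apply h1
  have h2 : D.rep g (Submodule.Quotient.mk (Finsupp.single 1 1)) =
      Submodule.Quotient.mk (Finsupp.single 1 1) := by rw [hg]; rfl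
  rw [rep_mk, T_single, mul_one] at h2
  exact (Submodule.Quotient.eq _).1 h2

include D in
/-- Every filtered group with unique roots carries an injective logarithm into an abelian group
which is a polynomial map. -/
theorem exists_log (hM : 2 ≤ M) {i : ℕ} (hi : M ≤ i + 2) :
    ∃ (V : Type) (_ : AddCommGroup V) (ℓ : G → V), Function.Injective ℓ ∧ ℓ 1 = 0 ∧
      (∀ x, ℓ x⁻¹ = - ℓ x) ∧ (∀ x y z, z ^ bet i = W i x y → ℓ z = ℓ x + ℓ y) ∧
      (∀ l : List G, l.length = M → ∀ g, (l.foldr Df ℓ) g = 0) := by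
  set B := D.toFA hM with hB
  have hmem : ∀ g, D.rep g - 1 ∈ B.N 1 := D.rep_mem hM
  have hu : ∀ g, ((D.rep.toHomUnits g : (Module.End ℚ D.Vb)ˣ) : Module.End ℚ D.Vb) = D.rep g :=
    fun g => rfl
  refine ⟨Module.End ℚ D.Vb, inferInstance, fun g => FA.lg M (D.rep g), ?_, ?_, ?_, ?_, ?_⟩
  · intro g h hgh
    exact D.rep_inj hM (B.lg_inj (hmem g) (hmem h) hgh)
  · show FA.lg M (D.rep 1) = 0
    rw [map_one]
    exact B.lg_one
  · intro x
    show FA.lg M (D.rep x⁻¹) = - FA.lg M (D.rep x)
    have h1 := B.lg_inv (x := D.rep.toHomUnits x) (hmem x) (by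
      rw [← map_inv]; exact hmem _)
    rw [← map_inv] at h1
    exact h1
  · intro x y z h
    exact B.lg_add hi (x := D.rep.toHomUnits x) (y := D.rep.toHomUnits y)
      (z := D.rep.toHomUnits z) (hmem x) (hmem y) (hmem z) (by
        rw [← map_zpow, h, map_W])
  · intro l hl g
    exact B.lg_poly D.rep hmem l hl g

end FG

end Pool.Agent.Helper181.Cov
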