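import Mathlib
import Pool.Agent.Helper181.CovF

set_option autoImplicit false

namespace Pool.Agent.Helper181.Cov

open Filter

/-- iterated differences with respect to an operation -/
def DD {H : Type*} [Group H] (op : H → H → H) : List H → H → H
  | [], g => g
  | (k :: ks), g => op (DD op ks (g * k)) (DD op ks g)⁻¹

/-- a good group: it carries an abelian group operation for which the identity map is a
polynomial map of degree less than `M` -/
def Good (M : ℕ) (H : Type*) [Group H] : Prop :=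
  ∃ op : H → H → H, (∀ x y z, op (op x y) z = op x (op y z)) ∧ (∀ x y, op x y = op y x) ∧
    (∀ x, op x 1 = x) ∧ (∀ x, op x x⁻¹ = 1) ∧ ∀ ks : List H, ks.length = M → ∀ g, DD op ks g = 1

lemma upper_top {p : ℕ} (hp : p.Prime) (n : ℕ) : ∀ (H : Type) [Group H], Nat.card H ∣ p ^ n →
    Subgroup.upperCentralSeries H n = ⊤ := by
  induction n with
  | zero =>
    intro H _ h
    rw [pow_zero, Nat.dvd_one] at h
    have := (Nat.card_eq_one_iff_unique.1 h).1
    exact Subsingleton.elim _ _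
  | succ n ih =>
    intro H _ h
    have : Fact p.Prime := ⟨hp⟩
    have : Finite H := Nat.finite_of_card_ne_zero (fun h0 => by
      rw [h0, zero_dvd_iff] at h
      exact pow_ne_zero _ hp.ne_zero h)
    rw [← Subgroup.comap_upperCentralSeries_quotient_center, ih (H ⧸ Subgroup.center H), Subgroup.comap_top]
    rcases subsingleton_or_nontrivial H with hH | hH
    · have : Nat.card (H ⧸ Subgroup.center H) = 1 := by
        rw [Nat.card_eq_one_iff_unique]
        exact ⟨inferInstance, inferInstance⟩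
      rw [this]; exact one_dvd _
    · have hP : IsPGroup p H := by
        obtain ⟨k, _, hk⟩ := (Nat.dvd_prime_pow hp).1 h
        exact IsPGroup.of_card hk
      have h1 := hP.center_nontrivial
      have h2 : p ∣ Nat.card (Subgroup.center H) := by
        obtain ⟨k, hk0, hk⟩ := (hP.to_subgroup (Subgroup.center H)).nontrivial_iff_card.1 h1
        rw [hk]
        exact dvd_pow_self _ hk0.ne'
      have h3 : Nat.card H = Nat.card (H ⧸ Subgroup.center H) * Nat.card (Subgroup.center H) :=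
        Subgroup.card_eq_card_quotient_mul_card_subgroup _
      rw [h3] at h
      have h4 : Nat.card (H ⧸ Subgroup.center H) * p ∣ p ^ n * p := by
        rw [← pow_succ]
        exact (Nat.mul_dvd_mul_left _ h2).trans h
      exact Nat.dvd_of_mul_dvd_mul_right hp.pos h4

/-- the filtration on a finite group -/
def Fi (n : ℕ) (H : Type) [Group H] (w : ℕ) : Subgroup H :=
  Subgroup.upperCentralSeries H (n - Nat.clog 2 w)

lemma clog_add {i j : ℕ} (hi : 1 ≤ i) (hij : i ≤ j) : Nat.clog 2 (i + j) ≤ Nat.clog 2 j + 1 := by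
  rw [Nat.clog_le_iff_le_pow (by norm_num)]
  have := Nat.le_pow_clog (b := 2) (by norm_num) j
  rw [pow_succ]; omega

lemma Fi_comm' (n : ℕ) (H : Type) [Group H] {i j : ℕ} (hi : 1 ≤ i) (hij : i ≤ j) {y : H}
    (x : H) (hy : y ∈ Fi n H j) : y * x * y⁻¹ * x⁻¹ ∈ Fi n H (i + j) := by
  have h1 := clog_add hi hij
  rw [Fi] at hy ⊢
  rcases Nat.eq_zero_or_pos (n - Nat.clog 2 j) with h0 | h0
  · rw [h0, Subgroup.upperCentralSeries_zero, Subgroup.mem_bot] at hy
    rw [hy]
    simp
  · obtain ⟨k, hk⟩ : ∃ k, n - Nat.clog 2 j = k + 1 := ⟨n - Nat.clog 2 j - 1, by omega⟩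
    rw [hk, Subgroup.mem_upperCentralSeries_succ_iff] at hy
    exact Subgroup.upperCentralSeries_mono H (by omega) (hy x)

lemma Fi_comm (n : ℕ) (H : Type) [Group H] {i j : ℕ} {x y : H} (hi : 1 ≤ i) (hj : 1 ≤ j)
    (hx : x ∈ Fi n H i) (hy : y ∈ Fi n H j) : x * y * x⁻¹ * y⁻¹ ∈ Fi n H (i + j) := by
  rcases le_total i j with h | h
  · have := (Fi n H (i + j)).inv_mem (Fi_comm' n H hi h x hy)
    have e : (y * x * y⁻¹ * x⁻¹)⁻¹ = x * y * x⁻¹ * y⁻¹ := by group
    rwa [e] at this
  · have := Fi_comm' n H hj h y hx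
    rwa [add_comm] at this

lemma mem_of_pow_mem {H : Type} [Group H] {r : ℕ} (hc : (Nat.card H).Coprime r) (K : Subgroup H)
    {x : H} (hx : x ^ r ∈ K) : x ∈ K := by
  have h1 : (orderOf x).Coprime r := hc.coprime_dvd_left (orderOf_dvd_natCard x)
  obtain ⟨m, hm⟩ := exists_pow_eq_self_of_coprime h1.symm
  rw [← hm]
  exact K.pow_mem hx m

lemma ev_forall {X : ℕ → Type} [∀ j, Nonempty (X j)] {Pr : ∀ j, X j → Prop}
    (h : ∀ x : (∀ j, X j), ∀ᶠ j in atTop, Pr j (x j)) : ∀ᶠ j in atTop, ∀ x, Pr j x := by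
  classical
  have := h (fun j => if hj : ∃ x, ¬ Pr j x then hj.choose else Classical.arbitrary _)
  filter_upwards [this] with j hj x
  by_contra hx
  have hex : ∃ x, ¬ Pr j x := ⟨x, hx⟩
  rw [dif_pos hex] at hj
  exact hex.choose_spec hj

section Red

variable {n : ℕ} {H : ℕ → Type} [∀ j, Group (H j)] {p : ℕ → ℕ} (hp : ∀ j, (p j).Prime)
  (hpj : ∀ j, j < p j) (hcard : ∀ j, Nat.card (H j) = p j ^ n)

/-- eventually trivial sequences -/
def Ev (S : ∀ j, Subgroup (H j)) : Subgroup (∀ j, H j) where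
  carrier := {x | ∀ᶠ j in atTop, x j ∈ S j}
  one_mem' := Eventually.of_forall (fun j => (S j).one_mem)
  mul_mem' := by
    intro x y hx hy
    filter_upwards [hx, hy] with j h1 h2
    exact (S j).mul_mem h1 h2
  inv_mem' := by
    intro x hx
    filter_upwards [hx] with j h1
    exact (S j).inv_mem h1

lemma mem_Ev {S : ∀ j, Subgroup (H j)} {x : ∀ j, H j} : x ∈ Ev S ↔ ∀ᶠ j in atTop, x j ∈ S j :=
  Iff.rfl

/-- the kernel of the reduced product -/
def Nu (H : ℕ → Type) [∀ j, Group (H j)] : Subgroup (∀ j, H j) := Ev (fun j => (⊥ : Subgroup (H j)))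

instance : (Nu H).Normal := ⟨by
  intro x hx g
  have hx' : ∀ᶠ j in atTop, x j ∈ (⊥ : Subgroup (H j)) := hx
  show ∀ᶠ j in atTop, (g * x * g⁻¹) j ∈ (⊥ : Subgroup (H j))
  filter_upwards [hx'] with j hj
  rw [Subgroup.mem_bot] at hj ⊢
  simp [hj]⟩

/-- the reduced product -/
abbrev RP (H : ℕ → Type) [∀ j, Group (H j)] : Type := (∀ j, H j) ⧸ Nu H

lemma mk_eq {x y : ∀ j, H j} : (QuotientGroup.mk x : RP H) = QuotientGroup.mk y ↔
    ∀ᶠ j in atTop, x j = y j := by
  rw [QuotientGroup.eq]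
  show (∀ᶠ j in atTop, (x⁻¹ * y) j ∈ (⊥ : Subgroup (H j))) ↔ _
  apply Filter.eventually_congr
  filter_upwards with j
  rw [Subgroup.mem_bot, Pi.mul_apply, Pi.inv_apply, inv_mul_eq_one]

lemma mk_mem {S : ∀ j, Subgroup (H j)} {x : ∀ j, H j} :
    (QuotientGroup.mk x : RP H) ∈ (Ev S).map (QuotientGroup.mk' (Nu H)) ↔
      ∀ᶠ j in atTop, x j ∈ S j := by
  constructor
  · rintro ⟨y, hy, hxy⟩
    have h1 : ∀ᶠ j in atTop, y j = x j := mk_eq.1 hxy
    have h2 : ∀ᶠ j in atTop, y j ∈ S j := hy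
    filter_upwards [h1, h2] with j h3 h4
    rwa [← h3]
  · intro h
    exact ⟨x, h, rfl⟩

include hp hpj hcard in
lemma coprime_ev {r : ℕ} (hr : 1 ≤ r) : ∀ᶠ j in atTop, (Nat.card (H j)).Coprime r := by
  filter_upwards [eventually_ge_atTop r] with j hj
  rw [hcard]
  apply Nat.Coprime.pow_left
  rw [Nat.Prime.coprime_iff_not_dvd (hp j)]
  intro h
  have := Nat.le_of_dvd hr h
  have := hpj j
  omega

/-- the filtered structure on the reduced product -/
def redFG : FG (RP H) (2 ^ n) where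
  F w := (Ev (fun j => Fi n (H j) w)).map (QuotientGroup.mk' (Nu H))
  anti := by
    intro i j hij
    apply Subgroup.map_mono
    intro x hx
    have hx' : ∀ᶠ k in atTop, x k ∈ Fi n (H k) j := hx
    show ∀ᶠ k in atTop, x k ∈ Fi n (H k) i
    filter_upwards [hx'] with k hk
    refine Subgroup.upperCentralSeries_mono _ ?_ hk
    have := Nat.clog_mono_right 2 hij
    omega
  one := by
    rw [eq_top_iff]
    intro x _
    obtain ⟨x, rfl⟩ := QuotientGroup.mk_surjective x
    rw [mk_mem]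
    filter_upwards with j
    rw [Fi, Nat.clog_one_right, Nat.sub_zero, upper_top (hp j) n (H j) (by rw [hcard])]
    trivial
  bot := by
    rw [eq_bot_iff]
    intro x hx
    obtain ⟨x, rfl⟩ := QuotientGroup.mk_surjective x
    rw [mk_mem] at hx
    rw [Subgroup.mem_bot, ← QuotientGroup.mk_one, mk_eq]
    filter_upwards [hx] with j hj
    rw [Fi, Nat.clog_pow 2 n (by norm_num), Nat.sub_self, Subgroup.upperCentralSeries_zero,
      Subgroup.mem_bot] at hj
    rw [hj]; rfl
  comm := by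
    intro i j x y hi hj hx hy
    obtain ⟨x, rfl⟩ := QuotientGroup.mk_surjective x
    obtain ⟨y, rfl⟩ := QuotientGroup.mk_surjective y
    rw [mk_mem] at hx hy
    show (QuotientGroup.mk (x * y * x⁻¹ * y⁻¹) : RP H) ∈ _
    rw [mk_mem]
    filter_upwards [hx, hy] with k h1 h2
    exact Fi_comm n (H k) hi hj h1 h2
  iso := by
    intro j r x hr hx
    obtain ⟨x, rfl⟩ := QuotientGroup.mk_surjective x
    rw [← QuotientGroup.mk_pow, mk_mem] at hx
    rw [mk_mem]
    filter_upwards [hx, coprime_ev hp hpj hcard hr] with k h1 h2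
    exact mem_of_pow_mem h2 _ h1
  root := by
    intro r hr x
    obtain ⟨x, rfl⟩ := QuotientGroup.mk_surjective x
    have h1 : ∀ j, ∃ y : H j, (Nat.card (H j)).Coprime r → y ^ r = x j := by
      intro j
      by_cases h : (Nat.card (H j)).Coprime r
      · obtain ⟨y, hy⟩ := (powCoprime h).surjective (x j)
        exact ⟨y, fun _ => hy⟩
      · exact ⟨1, fun h' => absurd h' h⟩
    choose y hy using h1
    refine ⟨QuotientGroup.mk y, ?_⟩
    rw [← QuotientGroup.mk_pow, mk_eq]
    filter_upwards [coprime_ev hp hpj hcard hr] with k h2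
    exact hy k h2
  uniq := by
    intro r x y hr hxy
    obtain ⟨x, rfl⟩ := QuotientGroup.mk_surjective x
    obtain ⟨y, rfl⟩ := QuotientGroup.mk_surjective y
    rw [← QuotientGroup.mk_pow, ← QuotientGroup.mk_pow, mk_eq] at hxy
    rw [mk_eq]
    filter_upwards [hxy, coprime_ev hp hpj hcard hr] with k h1 h2
    exact (powCoprime h2).injective h1

open Classical in
/-- the operation given by unique roots -/
noncomputable def rop (i : ℕ) {K : Type} [Group K] (x y : K) : K :=
  if h : ∃ z, z ^ bet i = W i x y then h.choose else 1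

lemma W_pi (i : ℕ) (x y : ∀ j, H j) (j : ℕ) : (W i x y) j = W i (x j) (y j) :=
  map_W (Pi.evalMonoidHom H j) i x y

lemma rop_spec (i : ℕ) {K : Type} [Group K] (hc : (Nat.card K).Coprime (bet i).natAbs) (x y : K) :
    (rop i x y) ^ bet i = W i x y := by
  have h : ∃ z : K, z ^ bet i = W i x y := by
    rcases Int.natAbs_eq (bet i) with h | h
    · obtain ⟨z, hz⟩ := (powCoprime hc).surjective (W i x y)
      refine ⟨z, ?_⟩
      rw [h, zpow_natCast]; exact hz
    · obtain ⟨z, hz⟩ := (powCoprime hc).surjective (W i x y)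
      refine ⟨z⁻¹, ?_⟩
      rw [h, inv_zpow', neg_neg, zpow_natCast]; exact hz
  rw [rop, dif_pos h]
  exact h.choose_spec

include hp hpj hcard in
theorem good_exists (hn : 1 ≤ n) : ∃ j, Good (2 ^ n) (H j) := by
  let D := redFG hp hpj hcard
  obtain ⟨i, hi⟩ : ∃ i, i = 2 ^ n := ⟨_, rfl⟩
  have hM : 2 ≤ 2 ^ n := by
    calc 2 = 2 ^ 1 := rfl
      _ ≤ 2 ^ n := Nat.pow_le_pow_right (by norm_num) hn
  obtain ⟨V, _, ℓ, hinj, h1, hinv, hadd, hpoly⟩ := D.exists_log hM (i := i) (by omega)
  set q : (∀ j, H j) → RP H := QuotientGroup.mk with hq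
  set opP : (∀ j, H j) → (∀ j, H j) → (∀ j, H j) := fun x y j => rop i (x j) (y j) with hopP
  have hcop : ∀ᶠ j in atTop, (Nat.card (H j)).Coprime (bet i).natAbs :=
    coprime_ev hp hpj hcard (Int.natAbs_pos.2 (bet_ne_zero i))
  have hopadd : ∀ x y, ℓ (q (opP x y)) = ℓ (q x) + ℓ (q y) := by
    intro x y
    apply hadd
    have e1 : W i (q x) (q y) = q (W i x y) := (map_W (QuotientGroup.mk' (Nu H)) i x y).symm
    have e2 : (q (opP x y)) ^ bet i = q ((opP x y) ^ bet i) :=
      (map_zpow (QuotientGroup.mk' (Nu H)) _ _).symm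
    rw [e1, e2, hq, mk_eq]
    filter_upwards [hcop] with j hj
    rw [W_pi, Pi.pow_apply]
    exact rop_spec i hj _ _
  have hev : ∀ x y : (∀ j, H j), ℓ (q x) = ℓ (q y) → ∀ᶠ j in atTop, x j = y j := by
    intro x y h
    exact mk_eq.1 (hinj h)
  have hqinv : ∀ x, q x⁻¹ = (q x)⁻¹ := fun x => rfl
  have hDD : ∀ (ks : List (∀ j, H j)) (g : ∀ j, H j), ℓ (q (DD opP ks g)) =
      ((ks.map q).foldr Df ℓ) (q g) := by
    intro ks
    induction ks with
    | nil => intro g; rfl
    | cons k ks ih =>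
      intro g
      rw [DD, hopadd, hqinv, hinv, ih, ih, List.map_cons, List.foldr_cons]
      rw [Df, sub_eq_add_neg]
      rfl
  have hDDj : ∀ (j : ℕ) (ks : List (∀ j, H j)) (g : ∀ j, H j), (DD opP ks g) j =
      DD (rop i) (ks.map (fun k => k j)) (g j) := by
    intro j ks
    induction ks with
    | nil => intro g; rfl
    | cons k ks ih =>
      intro g
      rw [DD, List.map_cons, DD]
      show rop i (DD opP ks (g * k) j) ((DD opP ks g)⁻¹ j) = _
      rw [Pi.inv_apply, ih, ih]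
      rfl
  have A1 : ∀ᶠ j in atTop, ∀ t : H j × H j × H j,
      rop i (rop i t.1 t.2.1) t.2.2 = rop i t.1 (rop i t.2.1 t.2.2) := by
    apply ev_forall
    intro t
    apply hev (opP (opP (fun j => (t j).1) (fun j => (t j).2.1)) (fun j => (t j).2.2))
      (opP (fun j => (t j).1) (opP (fun j => (t j).2.1) (fun j => (t j).2.2)))
    rw [hopadd, hopadd, hopadd, hopadd, add_assoc]
  have A2 : ∀ᶠ j in atTop, ∀ t : H j × H j, rop i t.1 t.2 = rop i t.2 t.1 := by
    apply ev_forall
    intro t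
    apply hev (opP (fun j => (t j).1) (fun j => (t j).2)) (opP (fun j => (t j).2) (fun j => (t j).1))
    rw [hopadd, hopadd, add_comm]
  have A3 : ∀ᶠ j in atTop, ∀ t : H j, rop i t 1 = t := by
    apply ev_forall
    intro t
    apply hev (opP t 1) t
    have : q 1 = 1 := rfl
    rw [hopadd, this, h1, add_zero]
  have A4 : ∀ᶠ j in atTop, ∀ t : H j, rop i t t⁻¹ = 1 := by
    apply ev_forall
    intro t
    apply hev (opP t t⁻¹) 1
    have : q 1 = 1 := rfl
    rw [hopadd, this, h1, hqinv, hinv, add_neg_cancel]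
  have A5 : ∀ᶠ j in atTop, ∀ t : (Fin (2 ^ n) → H j) × H j,
      DD (rop i) (List.ofFn t.1) t.2 = 1 := by
    apply ev_forall
    intro t
    have h2 := hev (DD opP (List.ofFn (fun a j => (t j).1 a)) (fun j => (t j).2)) 1 (by
      have : q 1 = 1 := rfl
      rw [hDD, this, h1]
      apply hpoly
      simp)
    filter_upwards [h2] with j hj
    rw [hDDj, List.map_ofFn] at hj
    exact hj
  obtain ⟨j, a1, a2, a3, a4, a5⟩ := (A1.and (A2.and (A3.and (A4.and A5)))).exists
  refine ⟨j, rop i, fun x y z => a1 (x, y, z), fun x y => a2 (x, y), a3, a4, ?_⟩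
  intro ks hks g
  have hks' : List.ofFn (fun a : Fin (2 ^ n) => ks.get (Fin.cast hks.symm a)) = ks := by
    apply List.ext_get
    · simp [hks]
    · intro m h1 h2
      simp
  rw [← hks']
  exact a5 (fun a : Fin (2 ^ n) => ks.get (Fin.cast hks.symm a), g)

end Red

/-- For every `n` all groups of order `p ^ n` are good once `p` is large. -/
theorem good_large (n : ℕ) (hn : 1 ≤ n) : ∃ B : ℕ, ∀ p : ℕ, p.Prime → B < p →
    ∀ (H : Type) [Group H], Nat.card H = p ^ n → Good (2 ^ n) H := by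
  by_contra hcon
  push Not at hcon
  choose p hp hBp H hG hcard hbad using hcon
  obtain ⟨j, hj⟩ := good_exists (H := H) hp hBp hcard hn
  exact hbad j hj

end Pool.Agent.Helper181.Cov
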