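import Mathlib
import Pool.Agent.Helper181.CovG

set_option autoImplicit false

namespace Pool.Agent.Helper181.Cov

/-! ### Generators -/

lemma exists_gens {p : ℕ} (hp : p.Prime) {n : ℕ} {H : Type} [Group H] (hcard : Nat.card H = p ^ n) :
    ∃ x : Fin n → H, Subgroup.closure (Set.range x) = ⊤ := by
  have : Finite H := Nat.finite_of_card_ne_zero (by rw [hcard]; exact pow_ne_zero _ hp.ne_zero)
  have key : ∀ k, ∃ x : Fin k → H, p ^ k ∣ Nat.card (Subgroup.closure (Set.range x)) ∨
      Subgroup.closure (Set.range x) = ⊤ := by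
    intro k
    induction k with
    | zero => exact ⟨fun _ => 1, Or.inl (by simp)⟩
    | succ k ih =>
      obtain ⟨x, hx⟩ := ih
      by_cases htop : Subgroup.closure (Set.range x) = ⊤
      · refine ⟨Fin.cons 1 x, Or.inr ?_⟩
        rw [eq_top_iff, ← htop, Subgroup.closure_le]
        rintro _ ⟨i, rfl⟩
        exact Subgroup.subset_closure ⟨i.succ, by simp⟩
      · rcases hx with hx | hx
        swap
        · exact absurd hx htop
        obtain ⟨y, hy⟩ : ∃ y, y ∉ Subgroup.closure (Set.range x) := by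
          by_contra hcon
          push Not at hcon
          exact htop (eq_top_iff.2 (fun y _ => hcon y))
        set K := Subgroup.closure (Set.range x) with hK
        set K' := Subgroup.closure (Set.range (Fin.cons y x : Fin (k + 1) → H)) with hK'
        have hle : K ≤ K' := by
          rw [hK, Subgroup.closure_le]
          rintro _ ⟨i, rfl⟩
          exact Subgroup.subset_closure ⟨i.succ, by simp⟩
        have hy' : y ∈ K' := Subgroup.subset_closure ⟨0, by simp⟩
        refine ⟨Fin.cons y x, Or.inl ?_⟩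
        have h1 : Nat.card K ∣ p ^ n := hcard ▸ Subgroup.card_subgroup_dvd_card K
        have h2 : Nat.card K' ∣ p ^ n := hcard ▸ Subgroup.card_subgroup_dvd_card K'
        obtain ⟨a, _, ha⟩ := (Nat.dvd_prime_pow hp).1 h1
        obtain ⟨b, _, hb⟩ := (Nat.dvd_prime_pow hp).1 h2
        rw [ha] at hx
        rw [hb]
        have hka : k ≤ a := (Nat.pow_dvd_pow_iff_le_right hp.one_lt).1 hx
        apply pow_dvd_pow
        by_contra hcon
        have hba : b ≤ a := by omega
        have h3 : Nat.card K' ≤ Nat.card K := by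
          rw [ha, hb]; exact Nat.pow_le_pow_right hp.pos hba
        have h4 : K = K' := Subgroup.eq_of_le_of_card_ge hle h3
        rw [h4] at hy
        exact hy hy'
  obtain ⟨x, hx⟩ := key n
  refine ⟨x, ?_⟩
  rcases hx with hx | hx
  · apply Subgroup.eq_top_of_le_card
    rw [hcard]
    exact Nat.le_of_dvd Nat.card_pos hx
  · exact hx

/-! ### The polynomial module -/

section Mod

variable {H : Type} [Group H] {V : Type} [AddCommGroup V]

/-- right translation of functions -/
def Rt (h : H) : (H → V) →+ (H → V) where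
  toFun f := fun g => f (g * h)
  map_zero' := rfl
  map_add' _ _ := rfl

lemma Rt_apply (h : H) (f : H → V) (g : H) : Rt h f g = f (g * h) := rfl

lemma Rt_mul (h k : H) (f : H → V) : Rt (h * k) f = Rt h (Rt k f) := by
  funext g; simp [Rt_apply, mul_assoc]

lemma Rt_one (f : H → V) : Rt (1 : H) f = f := by
  funext g; simp [Rt_apply]

lemma Df_eq (h : H) (f : H → V) : Df h f = Rt h f - f := rfl

/-- the module spanned by the translates -/
def Mo (φ : H → V) : AddSubgroup (H → V) := AddSubgroup.closure (Set.range (fun h : H => Rt h φ))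

lemma Rt_mem (φ : H → V) (h : H) {f : H → V} (hf : f ∈ Mo φ) : Rt h f ∈ Mo φ := by
  have : Mo φ ≤ (Mo φ).comap (Rt h) := by
    rw [Mo, AddSubgroup.closure_le]
    rintro _ ⟨k, rfl⟩
    show Rt h (Rt k φ) ∈ Mo φ
    rw [← Rt_mul]
    exact AddSubgroup.subset_closure ⟨h * k, rfl⟩
  exact this hf

/-- the representation on the module -/
def rho (φ : H → V) : H →* AddMonoid.End (Mo φ) where
  toFun h :=
    { toFun := fun f => ⟨Rt h f.1, Rt_mem φ h f.2⟩
      map_zero' := by ext1; simp
      map_add' := by intro f g; ext1; simp }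
  map_one' := by
    ext f : 1
    ext1
    exact Rt_one f.1
  map_mul' h k := by
    ext f : 1
    ext1
    exact Rt_mul h k f.1

lemma rho_inj (φ : H → V) (hφ : Function.Injective φ) : Function.Injective (rho φ) := by
  rw [injective_iff_map_eq_one]
  intro h hh
  have hmem : φ ∈ Mo φ := AddSubgroup.subset_closure ⟨1, Rt_one φ⟩
  have h1 : rho φ h ⟨φ, hmem⟩ = ⟨φ, hmem⟩ := by rw [hh]; rfl
  have h2 : Rt h φ = φ := congrArg Subtype.val h1
  have h3 := congrFun h2 1
  rw [Rt_apply, one_mul] at h3
  exact hφ h3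

lemma Mo_le {M n : ℕ} (hM : 1 ≤ M) [Finite H] (x : Fin n → H)
    (hx : Subgroup.closure (Set.range x) = ⊤) (φ : H → V)
    (hpoly : ∀ l : List H, l.length = M → ∀ g, (l.foldr Df φ) g = 0) :
    Mo φ ≤ AddSubgroup.closure (Set.range (fun σ : (Σ k : Fin M, (Fin k → Fin n)) =>
      (List.ofFn (fun i => x (σ.2 i))).foldr Df φ)) := by
  set V0 := AddSubgroup.closure (Set.range (fun σ : (Σ k : Fin M, (Fin k → Fin n)) =>
      (List.ofFn (fun i => x (σ.2 i))).foldr Df φ)) with hV0
  have hgen : ∀ (k : ℕ) (_ : k < M) (f : Fin k → Fin n),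
      (List.ofFn (fun i => x (f i))).foldr Df φ ∈ V0 := by
    intro k hk f
    exact AddSubgroup.subset_closure ⟨⟨⟨k, hk⟩, f⟩, rfl⟩
  have hφ : φ ∈ V0 := by
    have := hgen 0 (by omega) (fun i => i.elim0)
    simpa using this
  have hstep : ∀ j : Fin n, V0 ≤ V0.comap (Rt (x j)) := by
    intro j
    rw [hV0, AddSubgroup.closure_le, ← hV0]
    rintro _ ⟨⟨k, f⟩, rfl⟩
    show Rt (x j) ((List.ofFn (fun i => x (f i))).foldr Df φ) ∈ V0
    have h1 : Rt (x j) ((List.ofFn (fun i => x (f i))).foldr Df φ) =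
        Df (x j) ((List.ofFn (fun i => x (f i))).foldr Df φ) +
          (List.ofFn (fun i => x (f i))).foldr Df φ := by
      rw [Df_eq]; abel
    rw [h1]
    refine V0.add_mem ?_ (hgen k k.2 f)
    have h2 : Df (x j) ((List.ofFn (fun i => x (f i))).foldr Df φ) =
        (List.ofFn (fun i => x ((Fin.cons j f : Fin (k + 1) → Fin n) i))).foldr Df φ := by
      rw [List.ofFn_succ, List.foldr_cons]
      simp
    rw [h2]
    rcases Nat.lt_or_ge (k + 1) M with h | h
    · exact hgen (k + 1) h _
    · have h3 : (List.ofFn (fun i => x ((Fin.cons j f : Fin (k + 1) → Fin n) i))).foldr Df φ =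
          0 := by
        funext g
        apply hpoly
        rw [List.length_ofFn]
        have := k.2
        omega
      rw [h3]; exact V0.zero_mem
  have hall : ∀ h : H, V0 ≤ V0.comap (Rt h) := by
    intro h
    have hh : h ∈ Subgroup.closure (Set.range x) := by rw [hx]; trivial
    induction hh using Subgroup.closure_induction with
    | mem y hy =>
      obtain ⟨j, rfl⟩ := hy
      exact hstep j
    | one =>
      intro f hf
      show Rt 1 f ∈ V0
      rw [Rt_one]; exact hf
    | mul a b _ _ ha hb =>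
      intro f hf
      show Rt (a * b) f ∈ V0
      rw [Rt_mul]
      exact ha (hb hf)
    | inv a _ ha =>
      have hpow : ∀ m : ℕ, V0 ≤ V0.comap (Rt (a ^ m)) := by
        intro m
        induction m with
        | zero =>
          intro f hf
          show Rt (a ^ 0) f ∈ V0
          rw [pow_zero, Rt_one]; exact hf
        | succ m ih =>
          intro f hf
          show Rt (a ^ (m + 1)) f ∈ V0
          rw [pow_succ, Rt_mul]
          exact ih (ha hf)
      have h1 : a ^ (Nat.card H - 1) = a⁻¹ := by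
        apply eq_inv_of_mul_eq_one_left
        rw [← pow_succ, Nat.sub_add_cancel Nat.card_pos, pow_card_eq_one']
      rw [← h1]
      exact hpow _
  rw [Mo, AddSubgroup.closure_le]
  rintro _ ⟨h, rfl⟩
  exact hall h hφ

lemma card_closure_le' {U : Type} [AddCommGroup U] {m : ℕ} [NeZero m] [Module (ZMod m) U]
    {ι : Type} [Fintype ι] (v : ι → U) (K : AddSubgroup U)
    (hK : K ≤ AddSubgroup.closure (Set.range v)) :
    Nat.card K ≤ m ^ Fintype.card ι := by
  have h1 : ∀ u ∈ K, ∃ c : ι → ZMod m, Fintype.linearCombination (ZMod m) v c = u := by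
    intro u hu
    rw [← LinearMap.mem_range, Fintype.range_linearCombination]
    have h2 : AddSubgroup.closure (Set.range v) ≤
        (Submodule.span (ZMod m) (Set.range v)).toAddSubgroup := by
      rw [AddSubgroup.closure_le]
      exact Submodule.subset_span (R := ZMod m) (s := Set.range v)
    exact h2 (hK hu)
  choose! c hc using h1
  have h3 : Function.Injective (fun u : K => c u.1) := by
    intro u w huw
    ext1
    rw [← hc u.1 u.2, ← hc w.1 w.2]
    exact congrArg _ huw
  have h4 := Nat.card_le_card_of_injective _ h3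
  rw [Nat.card_fun, Nat.card_zmod, Nat.card_eq_fintype_card (α := ι)] at h4
  exact h4

lemma card_closure_le {U : Type} [AddCommGroup U] {m : ℕ} (hm : 0 < m) (hU : ∀ u : U, m • u = 0)
    {ι : Type} [Fintype ι] (v : ι → U) (K : AddSubgroup U)
    (hK : K ≤ AddSubgroup.closure (Set.range v)) :
    Nat.card K ≤ m ^ Fintype.card ι := by
  have : NeZero m := ⟨hm.ne'⟩
  exact @card_closure_le' U _ m _ (AddCommGroup.zmodModule hU) ι _ v K hK

end Mod

/-! ### The universal container -/

/-- index set of the container -/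
abbrev Ix (e : ℕ) : Type := Σ d : Fin (e + 1), (Fin d → Fin (e + 1))

/-- the abelian groups used -/
abbrev Ba (p e : ℕ) (σ : Ix e) : Type := ∀ i : Fin σ.1, ZMod (p ^ (σ.2 i : ℕ))

/-- the container -/
abbrev Cont (p e : ℕ) : Type := ∀ σ : Ix e, (AddMonoid.End (Ba p e σ))ˣ

lemma zmod_end_ext {d : ℕ} {k : Fin d → ℕ} [∀ i, NeZero (k i)]
    {f g : AddMonoid.End (∀ i : Fin d, ZMod (k i))}
    (h : ∀ i, f (Pi.single i 1) = g (Pi.single i 1)) : f = g := by
  ext x : 1
  have hx : x = ∑ i, Pi.single i (x i) := (Finset.univ_sum_single x).symm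
  rw [hx, map_sum, map_sum]
  apply Finset.sum_congr rfl
  intro i _
  have h1 : (Pi.single i (x i) : ∀ i : Fin d, ZMod (k i)) = (x i).val • Pi.single i 1 := by
    rw [← Pi.single_smul, nsmul_one, ZMod.natCast_zmod_val]
  rw [h1, map_nsmul, map_nsmul, h i]

lemma card_Ba {p e : ℕ} (hp : p.Prime) (σ : Ix e) : Nat.card (Ba p e σ) ≤ p ^ (e * e) := by
  have : ∀ i : Fin σ.1, NeZero (p ^ (σ.2 i : ℕ)) := fun i => ⟨pow_ne_zero _ hp.ne_zero⟩
  rw [Nat.card_pi]
  calc ∏ i : Fin σ.1, Nat.card (ZMod (p ^ (σ.2 i : ℕ))) ≤ ∏ _i : Fin σ.1, p ^ e := by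
        apply Finset.prod_le_prod' 
        intro i _
        rw [Nat.card_zmod]
        exact Nat.pow_le_pow_right hp.pos (by have := (σ.2 i).2; omega)
    _ = p ^ (e * σ.1) := by rw [Finset.prod_const, Finset.card_univ, Fintype.card_fin, ← pow_mul]
    _ ≤ p ^ (e * e) := Nat.pow_le_pow_right hp.pos (Nat.mul_le_mul_left _ (by
        have := σ.1.2; omega))

lemma finite_Ba {p e : ℕ} (hp : p.Prime) (σ : Ix e) : Finite (Ba p e σ) := by
  have : ∀ i : Fin σ.1, NeZero (p ^ (σ.2 i : ℕ)) := fun i => ⟨pow_ne_zero _ hp.ne_zero⟩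
  infer_instance

lemma end_inj {p e : ℕ} (hp : p.Prime) (σ : Ix e) : Function.Injective
    (fun (f : AddMonoid.End (Ba p e σ)) (i : Fin σ.1) => f (Pi.single i 1)) := by
  intro f g h
  have : ∀ i : Fin σ.1, NeZero (p ^ (σ.2 i : ℕ)) := fun i => ⟨pow_ne_zero _ hp.ne_zero⟩
  exact zmod_end_ext (fun i => congrFun h i)

lemma finite_End {p e : ℕ} (hp : p.Prime) (σ : Ix e) : Finite (AddMonoid.End (Ba p e σ)) := by
  have := finite_Ba hp σ
  exact Finite.of_injective _ (end_inj hp σ)

lemma card_Un {p e : ℕ} (hp : p.Prime) (σ : Ix e) :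
    Nat.card (AddMonoid.End (Ba p e σ))ˣ ≤ p ^ (e * e * e) := by
  have := finite_Ba hp σ
  have := finite_End hp σ
  calc Nat.card (AddMonoid.End (Ba p e σ))ˣ ≤ Nat.card (AddMonoid.End (Ba p e σ)) :=
        Nat.card_le_card_of_injective _ Units.val_injective
    _ ≤ Nat.card (Fin σ.1 → Ba p e σ) := Nat.card_le_card_of_injective _ (end_inj hp σ)
    _ = Nat.card (Ba p e σ) ^ (σ.1 : ℕ) := by rw [Nat.card_fun, Nat.card_fin]
    _ ≤ (p ^ (e * e)) ^ (σ.1 : ℕ) := Nat.pow_le_pow_left (card_Ba hp σ) _
    _ = p ^ (e * e * σ.1) := by rw [← pow_mul]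
    _ ≤ p ^ (e * e * e) := Nat.pow_le_pow_right hp.pos (Nat.mul_le_mul_left _ (by
        have := σ.1.2; omega))

lemma finite_Cont {p e : ℕ} (hp : p.Prime) : Finite (Cont p e) := by
  have : ∀ σ : Ix e, Finite (AddMonoid.End (Ba p e σ))ˣ := fun σ => by
    have := finite_End hp σ
    infer_instance
  infer_instance

lemma card_Cont {p e : ℕ} (hp : p.Prime) :
    Nat.card (Cont p e) ≤ p ^ (e * e * e * Fintype.card (Ix e)) := by
  rw [Nat.card_pi]
  calc ∏ σ : Ix e, Nat.card (AddMonoid.End (Ba p e σ))ˣ ≤ ∏ _σ : Ix e, p ^ (e * e * e) := by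
        apply Finset.prod_le_prod'
        intro σ _
        exact card_Un hp σ
    _ = _ := by rw [Finset.prod_const, Finset.card_univ, ← pow_mul]

lemma embed_Cont {p e : ℕ} (hp : p.Prime) {A : Type} [AddCommGroup A] {m : ℕ}
    (hA : Nat.card A = p ^ m) (hme : m ≤ e) {H : Type} [Group H] (ρ : H →* AddMonoid.End A)
    (hρ : Function.Injective ρ) : ∃ f : H →* Cont p e, Function.Injective f := by
  classical
  have : Finite A := Nat.finite_of_card_ne_zero (by rw [hA]; exact pow_ne_zero _ hp.ne_zero)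
  obtain ⟨ι, _, q, hq, ⟨E0⟩⟩ := AddCommGroup.equiv_directSum_zmod_of_finite' A
  have E1 : A ≃+ (∀ i, ZMod (q i)) := E0.trans (DirectSum.addEquivProd _)
  have hcardA : p ^ m = ∏ i, q i := by
    rw [← hA, Nat.card_congr E1.toEquiv, Nat.card_pi]
    apply Finset.prod_congr rfl
    intro i _
    rw [Nat.card_zmod]
  have hqi : ∀ i, ∃ k, k ≤ m ∧ q i = p ^ k := by
    intro i
    have h1 : q i ∣ p ^ m := by
      rw [hcardA]; exact Finset.dvd_prod_of_mem _ (Finset.mem_univ i)
    exact (Nat.dvd_prime_pow hp).1 h1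
  choose k hk1 hk2 using hqi
  have hd : Fintype.card ι ≤ m := by
    have h1 : p ^ Fintype.card ι ≤ p ^ m := by
      rw [hcardA, ← Finset.card_univ, ← Finset.prod_const]
      apply Finset.prod_le_prod'
      intro i _
      have h2 := hq i
      rw [hk2] at h2 ⊢
      have h3 : k i ≠ 0 := by
        rintro h0
        rw [h0, pow_zero] at h2
        exact absurd h2 (by norm_num)
      calc p = p ^ 1 := (pow_one p).symm
        _ ≤ p ^ k i := Nat.pow_le_pow_right hp.pos (Nat.one_le_iff_ne_zero.2 h3)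
    exact (Nat.pow_le_pow_iff_right hp.one_lt).1 h1
  have hq2 : q = fun i => p ^ k i := funext hk2
  subst hq2
  let ε : ι ≃ Fin (Fintype.card ι) := Fintype.equivFin ι
  let σ : Ix e := ⟨⟨Fintype.card ι, by omega⟩, fun j => ⟨k (ε.symm j), by
    have := hk1 (ε.symm j); omega⟩⟩
  let E2 : (∀ i, ZMod (p ^ k i)) ≃+ Ba p e σ :=
    { Equiv.piCongrLeft' (fun i => ZMod (p ^ k i)) ε with
      map_add' := fun _ _ => rfl }
  let E : A ≃+ Ba p e σ := E1.trans E2
  let f1 : H →* AddMonoid.End (Ba p e σ) :=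
    { toFun := fun h => (E.toAddMonoidHom.comp (ρ h)).comp E.symm.toAddMonoidHom
      map_one' := by
        ext x : 1
        rw [map_one]
        exact E.apply_symm_apply x
      map_mul' := by
        intro h h'
        ext x : 1
        rw [map_mul]
        show E (ρ h (ρ h' (E.symm x))) = E (ρ h (E.symm (E (ρ h' (E.symm x)))))
        rw [E.symm_apply_apply] }
  have hf1 : Function.Injective f1 := by
    intro h h' hh
    apply hρ
    ext x : 1
    have h1 := DFunLike.congr_fun hh (E x)
    have h2 : E (ρ h (E.symm (E x))) = E (ρ h' (E.symm (E x))) := h1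
    rw [E.symm_apply_apply] at h2
    exact E.injective h2
  refine ⟨(MonoidHom.mulSingle (fun σ : Ix e => (AddMonoid.End (Ba p e σ))ˣ) σ).comp
    f1.toHomUnits, ?_⟩
  rw [MonoidHom.coe_comp]
  apply Function.Injective.comp
  · exact Pi.mulSingle_injective (M := fun σ : Ix e => (AddMonoid.End (Ba p e σ))ˣ) σ
  · intro h h' hh
    exact hf1 (congrArg Units.val hh)

/-- the abelian group structure of a good group -/
@[reducible] def mkA {H : Type} [Group H] (op : H → H → H)
    (h1 : ∀ x y z, op (op x y) z = op x (op y z))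
    (h2 : ∀ x y, op x y = op y x) (h3 : ∀ x, op x 1 = x) (h4 : ∀ x, op x x⁻¹ = 1) :
    AddCommGroup H :=
  let _ : Zero H := ⟨1⟩
  let _ : Add H := ⟨op⟩
  let _ : Neg H := ⟨fun x => x⁻¹⟩
  { add_assoc := h1
    zero_add := fun x => (h2 1 x).trans (h3 x)
    add_zero := h3
    nsmul := nsmulRec
    zsmul := zsmulRec
    neg_add_cancel := fun x => (h2 x⁻¹ x).trans (h4 x)
    add_comm := h2 }

/-- the exponent bound for the modules -/
def eb (n : ℕ) : ℕ := n * Fintype.card (Σ k : Fin (2 ^ n), (Fin k → Fin n))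

theorem good_embed {n p : ℕ} (hp : p.Prime) {H : Type} [Group H]
    (hcard : Nat.card H = p ^ n) (hG : Good (2 ^ n) H) :
    ∃ f : H →* Cont p (eb n), Function.Injective f := by
  have hfin : Finite H := Nat.finite_of_card_ne_zero (by rw [hcard]; exact pow_ne_zero _ hp.ne_zero)
  obtain ⟨op, h1, h2, h3, h4, h5⟩ := hG
  let _ : AddCommGroup H := mkA op h1 h2 h3 h4
  have hDD : ∀ (ks : List H) (g : H), (ks.foldr Df (id : H → H)) g = DD op ks g := by
    intro ks
    induction ks with
    | nil => intro g; rfl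
    | cons k ks ih =>
      intro g
      rw [List.foldr_cons, DD, Df, ih, ih]
      rfl
  have hpoly : ∀ l : List H, l.length = 2 ^ n → ∀ g, (l.foldr Df (id : H → H)) g = 0 := by
    intro l hl g
    rw [hDD]; exact h5 l hl g
  obtain ⟨x, hx⟩ := exists_gens hp hcard
  have hle := Mo_le (M := 2 ^ n) Nat.one_le_two_pow x hx (id : H → H) hpoly
  have hkill : ∀ u : H → H, (p ^ n) • u = 0 := by
    intro u
    funext g
    rw [Pi.smul_apply, ← hcard]
    exact card_nsmul_eq_zero'
  have hcle := card_closure_le (pow_pos hp.pos n) hkill _ _ hle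
  have hdvd : Nat.card (Mo (id : H → H)) ∣ p ^ (n * p ^ n) := by
    have h6 := AddSubgroup.card_addSubgroup_dvd_card (Mo (id : H → H))
    rw [Nat.card_fun, hcard, ← pow_mul] at h6
    exact h6
  obtain ⟨m, _, hm⟩ := (Nat.dvd_prime_pow hp).1 hdvd
  have hme : m ≤ eb n := by
    rw [hm, ← pow_mul] at hcle
    exact (Nat.pow_le_pow_iff_right hp.one_lt).1 hcle
  exact embed_Cont hp hm hme (rho (id : H → H)) (rho_inj _ Function.injective_id)

end Pool.Agent.Helper181.Cov
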