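import Mathlib

set_option autoImplicit false

namespace Pool.Agent.Helper181.Eff

open Finset

lemma sum_idx (P : Finset ℕ) (f : ℕ → ℕ) :
    ∑ p ∈ P, f (P.filter (· < p)).card = ∑ i ∈ range P.card, f i := by
  induction P using Finset.induction_on_max with
  | empty => simp
  | insert m P hm ih =>
    have hnot : m ∉ P := fun h => lt_irrefl _ (hm m h)
    rw [sum_insert hnot, card_insert_of_notMem hnot, sum_range_succ, ← ih, add_comm]
    congr 1
    · apply sum_congr rfl
      intro p hp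
      congr 2
      rw [filter_insert, if_neg (not_lt.2 (hm p hp).le)]
    · congr 2
      rw [filter_insert, if_neg (lt_irrefl m)]
      exact filter_true_of_mem hm

lemma tri (δ : ℕ) : ∀ A : ℕ, 2 * ∑ i ∈ range A, (i - δ) = (A - δ) * (A - δ - 1) := by
  intro A
  induction A with
  | zero => simp
  | succ A ih =>
    rw [sum_range_succ, mul_add, ih]
    rcases Nat.lt_or_ge A δ with h | h
    · rw [show A - δ = 0 by omega, show A + 1 - δ = 0 by omega]
    · obtain ⟨x, rfl⟩ : ∃ x, A = δ + x := ⟨A - δ, by omega⟩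
      rw [show δ + x - δ = x by omega, show δ + x + 1 - δ = x + 1 by omega]
      rcases x with _ | x
      · simp
      · simp only [Nat.add_sub_cancel]; ring

/-- The basic pointwise inequality. -/
lemma point {m : ℕ} {P Q Z : Finset ℕ} (hQ : ∀ x, x ∈ Q ↔ x < m ∧ x ∉ P)
    (hZ : Z ⊆ Q) (hsum : ∀ r ∈ Z, ∀ p ∈ P, ∀ p' ∈ P, p + p' ≠ r) {f : ℕ} (hf : f ∈ Z)
    (hmax : ∀ r ∈ Z, r ≤ f) {p : ℕ} (hp : p ∈ P) (hpf : p < f) :
    Z.card + (P.filter (· < p)).card ≤ Q.card + (Q.filter (· < p)).card := by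
  have h1 : (Z.filter (· < p)).card ≤ (Q.filter (· < p)).card :=
    card_le_card (filter_subset_filter _ hZ)
  have h2 : Z.card = (Z.filter (· < p)).card + (Z.filter (fun r => ¬ r < p)).card :=
    (card_filter_add_card_filter_not _).symm
  have h3 : (Z.filter (fun r => ¬ r < p)).card + (P.filter (· < p)).card ≤ Q.card := by
    have e1 : ((Z.filter (fun r => ¬ r < p)).image (fun r => r - p)).card =
        (Z.filter (fun r => ¬ r < p)).card := by
      apply card_image_of_injOn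
      intro x hx y hy hxy
      simp only [coe_filter, Set.mem_ofPred_eq, not_lt] at hx hy
      simp only at hxy
      omega
    have e2 : ((P.filter (· < p)).image (fun r => f - r)).card = (P.filter (· < p)).card := by
      apply card_image_of_injOn
      intro x hx y hy hxy
      simp only [coe_filter, Set.mem_ofPred_eq] at hx hy
      simp only at hxy
      omega
    rw [← e1, ← e2, ← card_union_of_disjoint]
    · apply card_le_card
      intro x hx
      rw [mem_union, mem_image, mem_image] at hx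
      rw [hQ]
      rcases hx with ⟨r, hr, rfl⟩ | ⟨r, hr, rfl⟩
      · rw [mem_filter, not_lt] at hr
        have hrm := ((hQ r).1 (hZ hr.1)).1
        refine ⟨by omega, ?_⟩
        intro hmem
        exact hsum r hr.1 p hp (r - p) hmem (by omega)
      · rw [mem_filter] at hr
        have hrm := ((hQ f).1 (hZ hf)).1
        refine ⟨by omega, ?_⟩
        intro hmem
        exact hsum f hf r hr.1 (f - r) hmem (by omega)
    · rw [disjoint_left]
      intro x hx hx'
      rw [mem_image] at hx hx'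
      obtain ⟨r, hr, rfl⟩ := hx
      obtain ⟨r', hr', h⟩ := hx'
      rw [mem_filter] at hr hr'
      have := hmax r hr.1
      omega
  omega

/-- Arithmetic for the case of at least three layers. -/
lemma arith3_id (A t1 R γ j v z B w : ℤ) :
    (A + t1 + (t1 + R + γ)) ^ 2 - 8 * w = (R + γ - A - 2 * (t1 - A)) ^ 2 +
      8 * (B + γ ^ 2 - γ * (z + A - t1)) +
      8 * (A * (t1 + R + γ) + j * (R + γ) + v * γ - B - w) +
      8 * ((z - γ - j - v) * γ) + 8 * ((t1 - A - j) * R) := by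
  ring

lemma sq_sub_self_nonneg (k : ℤ) : 0 ≤ k ^ 2 - k := by
  rcases le_or_gt k 0 with h | h
  · nlinarith
  · nlinarith

lemma mid3 {A t1 γ z B : ℕ} (hz : z ≤ t1) (hγ : 1 ≤ γ)
    (hB : (A - (t1 - z)) * (A - (t1 - z) - 1) ≤ 2 * B) :
    (0 : ℤ) ≤ (B : ℤ) + (γ : ℤ) ^ 2 - γ * ((z : ℤ) + A - t1) ∧
    ((B : ℤ) + (γ : ℤ) ^ 2 - γ * ((z : ℤ) + A - t1) = 0 → γ = 1 ∧
      ((z + A = t1 + 1 ∧ B = 0) ∨ (z + A = t1 + 2 ∧ B = 1))) := by
  rcases Nat.lt_or_ge (t1 - z) A with h | h
  · obtain ⟨k, hk⟩ : ∃ k, A - (t1 - z) = k + 1 := ⟨A - (t1 - z) - 1, by omega⟩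
    rw [hk, Nat.add_sub_cancel] at hB
    have e : (z : ℤ) + A - t1 = k + 1 := by omega
    rw [e]
    have hB' : ((k : ℤ) + 1) * k ≤ 2 * B := by exact_mod_cast hB
    have hγ' : (1 : ℤ) ≤ γ := by exact_mod_cast hγ
    have h1 := sq_sub_self_nonneg ((k : ℤ) + 1 - γ)
    have h2 := sq_sub_self_nonneg (γ : ℤ)
    constructor
    · nlinarith
    · intro h0
      have h3 : (γ : ℤ) ^ 2 - γ = 0 := by nlinarith
      have h4 : ((k : ℤ) + 1 - γ) ^ 2 - (k + 1 - γ) = 0 := by nlinarith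
      have hγ1 : (γ : ℤ) = 1 := by nlinarith
      rw [hγ1] at h4 h0
      have h5 : (k : ℤ) * (k - 1) = 0 := by linarith
      rcases mul_eq_zero.1 h5 with h6 | h6
      · refine ⟨by exact_mod_cast hγ1, Or.inl ⟨by omega, ?_⟩⟩
        rw [h6] at h0
        have : (B : ℤ) = 0 := by linarith
        exact_mod_cast this
      · refine ⟨by exact_mod_cast hγ1, Or.inr ⟨by omega, ?_⟩⟩
        have h7 : (k : ℤ) = 1 := by linarith
        rw [h7] at h0
        have : (B : ℤ) = 1 := by linarith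
        exact_mod_cast this
  · have e : (z : ℤ) + A - t1 ≤ 0 := by omega
    have hγ' : (1 : ℤ) ≤ γ := by exact_mod_cast hγ
    have hB' : (0 : ℤ) ≤ B := by positivity
    have h1 : 0 ≤ (γ : ℤ) * (-((z : ℤ) + A - t1)) := mul_nonneg (by linarith) (by linarith)
    constructor
    · nlinarith
    · intro h0
      nlinarith

/-- At least three layers. -/
lemma arith3 {A t1 R γ j v z B w : ℕ} (h1 : 2 * A + j ≤ A + t1)
    (h2 : A + j + v + γ + (t1 - z) ≤ A + t1) (hz : z ≤ t1) (hγ : 1 ≤ γ)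
    (hB : (A - (t1 - z)) * (A - (t1 - z) - 1) ≤ 2 * B)
    (hw : w + B ≤ A * (t1 + R + γ) + j * (R + γ) + v * γ) :
    8 * w ≤ (A + t1 + (t1 + R + γ)) ^ 2 ∧
    ((A + t1 + (t1 + R + γ)) ^ 2 < 8 * w + 8 → 1 ≤ R → γ = 1 ∧
      ((z + A = t1 + 1 ∧ B = 0) ∨ (z + A = t1 + 2 ∧ B = 1)) ∧
      w + B = A * (t1 + R + γ) + j * (R + γ) + v * γ ∧
      A + j + v + γ + (t1 - z) = A + t1 ∧ j + A = t1 ∧
      R + A ≤ 2 * t1 + 1 ∧ 2 * t1 ≤ R + A + 3) := by
  have hid := arith3_id A t1 R γ j v z B w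
  obtain ⟨m1, m2⟩ := mid3 hz hγ hB
  have hL1 : (0 : ℤ) ≤ (A : ℤ) * (t1 + R + γ) + j * (R + γ) + v * γ - B - w := by
    have : ((w + B : ℕ) : ℤ) ≤ ((A * (t1 + R + γ) + j * (R + γ) + v * γ : ℕ) : ℤ) := by
      exact_mod_cast hw
    push_cast at this
    linarith
  have hσ : (0 : ℤ) ≤ (z : ℤ) - γ - j - v := by omega
  have hκ : (0 : ℤ) ≤ (t1 : ℤ) - A - j := by omega
  have hγ' : (1 : ℤ) ≤ γ := by exact_mod_cast hγ
  have p1 : 0 ≤ ((z : ℤ) - γ - j - v) * γ := mul_nonneg hσ (by linarith)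
  have p2 : 0 ≤ ((t1 : ℤ) - A - j) * R := mul_nonneg hκ (by positivity)
  have p3 := sq_nonneg ((R : ℤ) + γ - A - 2 * (t1 - A))
  constructor
  · have : (8 * w : ℤ) ≤ (A + t1 + (t1 + R + γ)) ^ 2 := by linarith
    exact_mod_cast this
  · intro hlt hR
    have hlt' : ((A : ℤ) + t1 + (t1 + R + γ)) ^ 2 < 8 * w + 8 := by exact_mod_cast hlt
    have hR' : (1 : ℤ) ≤ R := by exact_mod_cast hR
    have z0 : (B : ℤ) + (γ : ℤ) ^ 2 - γ * ((z : ℤ) + A - t1) = 0 := by
      by_contra hne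
      have : (1 : ℤ) ≤ (B : ℤ) + (γ : ℤ) ^ 2 - γ * ((z : ℤ) + A - t1) := by omega
      linarith
    have z1 : (A : ℤ) * (t1 + R + γ) + j * (R + γ) + v * γ - B - w = 0 := by
      by_contra hne
      have : (1 : ℤ) ≤ (A : ℤ) * (t1 + R + γ) + j * (R + γ) + v * γ - B - w := by omega
      linarith
    have z2 : ((z : ℤ) - γ - j - v) * γ = 0 := by
      by_contra hne
      have : (1 : ℤ) ≤ ((z : ℤ) - γ - j - v) * γ := by omega
      linarith
    have z3 : ((t1 : ℤ) - A - j) * R = 0 := by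
      by_contra hne
      have : (1 : ℤ) ≤ ((t1 : ℤ) - A - j) * R := by omega
      linarith
    have s2 : (z : ℤ) - γ - j - v = 0 := by
      rcases mul_eq_zero.1 z2 with h | h
      · exact h
      · omega
    have s3 : (t1 : ℤ) - A - j = 0 := by
      rcases mul_eq_zero.1 z3 with h | h
      · exact h
      · omega
    obtain ⟨g1, g2⟩ := m2 z0
    have hsq : ((R : ℤ) + γ - A - 2 * (t1 - A)) ^ 2 < 8 := by linarith
    have hb1 : (R : ℤ) + γ - A - 2 * (t1 - A) ≤ 2 := by nlinarith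
    have hb2 : -2 ≤ (R : ℤ) + γ - A - 2 * (t1 - A) := by nlinarith
    have e1 : ((w + B : ℕ) : ℤ) = ((A * (t1 + R + γ) + j * (R + γ) + v * γ : ℕ) : ℤ) := by
      push_cast; linarith
    refine ⟨g1, g2, by exact_mod_cast e1, by omega, by omega, by omega, by omega⟩

lemma arith2_id (u v q1 q2 T z s Bi w : ℤ) :
    (u + v + (q1 + q2) + (q1 + q2 + T)) ^ 2 - 8 * w =
      8 * ((u + v) * (q1 + q2 + T) + s * T - (q1 * v + Bi) - w) + 8 * ((z - T - s) * T) +
      (8 * Bi - 4 * (u - (q1 - z)) * (u - (q1 - z) - 1)) +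
      (4 * q2 ^ 2 + 4 * q2 * (q1 + (q1 - u) - v + T) + ((q1 - u) - v) ^ 2 + (q1 - T) ^ 2 +
      (6 * v + 2 * (q1 - u)) * (q1 - T) +
      4 * ((u - (q1 - z) - T) ^ 2 - (u - (q1 - z) - T)) + 4 * (T ^ 2 - T)) := by
  ring

lemma arith2_id' (u v q1 q2 T z s Bi w : ℤ) :
    (u + v + (q1 + q2) + (q1 + q2 + T)) ^ 2 - 8 * w =
      8 * ((u + v) * (q1 + q2 + T) + s * T - (q1 * v + Bi) - w) + 8 * ((z - T - s) * T) +
      8 * Bi +
      (4 * q2 ^ 2 + 4 * q2 * (q1 + (q1 - u) - v + T) + ((q1 - u) - v) ^ 2 + (q1 - T) ^ 2 +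
      (6 * v + 2 * (q1 - u)) * (q1 - T) + 8 * T ^ 2 + 8 * T * (q1 - u - z)) := by
  ring

/-- The remainder term: the large case. -/
lemma rem_large {y v q1 q2 T : ℤ} (hy : 0 ≤ y) (hT : 1 ≤ T) (hTq : T ≤ q1)
    (h : q1 + y - v + T < 0) :
    8 ≤ 4 * q2 ^ 2 + 4 * q2 * (q1 + y - v + T) + (y - v) ^ 2 + (q1 - T) ^ 2 +
      (6 * v + 2 * y) * (q1 - T) := by
  have e : 4 * q2 ^ 2 + 4 * q2 * (q1 + y - v + T) + (y - v) ^ 2 + (q1 - T) ^ 2 +
      (6 * v + 2 * y) * (q1 - T) = (2 * q2 + (q1 + y - v + T)) ^ 2 +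
      4 * (v - (q1 + y + T + 1)) * (2 * q1 - T) +
      8 * ((y + q1) * (q1 - T)) + 4 * ((T + 1) * (2 * q1 - T)) := by ring
  rw [e]
  have h1 : 0 ≤ (v - (q1 + y + T + 1)) * (2 * q1 - T) := mul_nonneg (by linarith) (by linarith)
  have h2 : 0 ≤ (y + q1) * (q1 - T) := mul_nonneg (by linarith) (by linarith)
  have h3 : 2 * 1 ≤ (T + 1) * (2 * q1 - T) := mul_le_mul (by linarith) (by linarith) (by norm_num)
    (by linarith)
  have h4 := sq_nonneg (2 * q2 + (q1 + y - v + T))
  linarith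

/-- The remainder term: the small case. -/
lemma rem_small {y v q1 q2 T : ℤ} (hy : 0 ≤ y) (hv : 0 ≤ v) (hq2 : 0 ≤ q2) (hTq : T ≤ q1)
    (h : 0 ≤ q1 + y - v + T) :
    0 ≤ 4 * q2 ^ 2 + 4 * q2 * (q1 + y - v + T) ∧ 0 ≤ (y - v) ^ 2 ∧ 0 ≤ (q1 - T) ^ 2 ∧
      0 ≤ (6 * v + 2 * y) * (q1 - T) := by
  refine ⟨?_, sq_nonneg _, sq_nonneg _, mul_nonneg (by linarith) (by linarith)⟩
  have := mul_nonneg hq2 h
  nlinarith [sq_nonneg q2]

lemma small_cases {y v q1 q2 : ℤ} (hy : 0 ≤ y) (hv : 0 ≤ v) (hq2 : 0 ≤ q2) (hyq : y + 1 ≤ q1)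
    (h : 0 ≤ q1 + y - v + 1)
    (hlt : 4 * q2 ^ 2 + 4 * q2 * (q1 + y - v + 1) + (y - v) ^ 2 + (q1 - 1) ^ 2 +
      (6 * v + 2 * y) * (q1 - 1) < 8) :
    3 * q1 - y + v + 2 * q2 + 1 ≤ 10 := by
  obtain ⟨h1, h2, h3, h4⟩ := rem_small hy hv hq2 (by linarith) h
  have hq1 : q1 ≤ 3 := by nlinarith
  have hq1' : 1 ≤ q1 := by linarith
  have hq2' : q2 ≤ 1 := by
    have := mul_nonneg hq2 h
    nlinarith
  interval_cases q1
  · have hy0 : y = 0 := by linarith
    subst hy0
    have hv2 : v ≤ 2 := by nlinarith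
    interval_cases v <;> interval_cases q2 <;> simp_all
  · have hy1 : y ≤ 1 := by linarith
    have hv2 : v ≤ 2 := by nlinarith
    interval_cases y <;> interval_cases v <;> interval_cases q2 <;> simp_all
  · have hy1 : y ≤ 2 := by linarith
    have hv2 : v ≤ 1 := by nlinarith
    interval_cases y <;> interval_cases v <;> interval_cases q2 <;> simp_all

/-- The case of exactly two layers. -/
lemma arith2 {u v q1 q2 T z s Bi w : ℕ} (hu : 1 ≤ u) (huq : u ≤ q1) (hT : 1 ≤ T)
    (hTz : T + s ≤ z) (hz : z ≤ q1)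
    (hBi : (u - (q1 - z)) * (u - (q1 - z) - 1) ≤ 2 * Bi)
    (hw : w + (q1 * v + Bi) ≤ (u + v) * (q1 + q2 + T) + s * T) :
    8 * w ≤ (u + v + (q1 + q2) + (q1 + q2 + T)) ^ 2 ∧
    ((u + v + (q1 + q2) + (q1 + q2 + T)) ^ 2 < 8 * w + 8 →
      u + v + (q1 + q2) + (q1 + q2 + T) ≤ 10) := by
  obtain ⟨y, rfl⟩ : ∃ y, q1 = u + y := ⟨q1 - u, by omega⟩
  have hid := arith2_id u v (u + y) q2 T z s Bi w
  have hid' := arith2_id' u v (u + y) q2 T z s Bi w
  have hT' : (1 : ℤ) ≤ T := by exact_mod_cast hT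
  have hL : (0 : ℤ) ≤ ((u : ℤ) + v) * (u + y + q2 + T) + s * T - ((u + y) * v + Bi) - w := by
    have : ((w + ((u + y) * v + Bi) : ℕ) : ℤ) ≤
      (((u + v) * ((u + y) + q2 + T) + s * T : ℕ) : ℤ) := by exact_mod_cast hw
    push_cast at this
    linarith
  have hS : (0 : ℤ) ≤ ((z : ℤ) - T - s) * T := mul_nonneg (by omega) (by linarith)
  have hTq : (T : ℤ) ≤ u + y := by omega
  have hTT : (0 : ℤ) ≤ (T : ℤ) ^ 2 - T := sq_sub_self_nonneg _
  have cast_goal : ∀ D : ℤ, D = ((u : ℤ) + v + (u + y + q2) + (u + y + q2 + T)) ^ 2 - 8 * w →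
      0 ≤ D → (D < 8 → u + v + (u + y + q2) + (u + y + q2 + T) ≤ 10) →
      8 * w ≤ (u + v + (u + y + q2) + (u + y + q2 + T)) ^ 2 ∧
      ((u + v + (u + y + q2) + (u + y + q2 + T)) ^ 2 < 8 * w + 8 →
        u + v + (u + y + q2) + (u + y + q2 + T) ≤ 10) := by
    intro D hD h0 h1
    constructor
    · have : (8 * w : ℤ) ≤ ((u : ℤ) + v + (u + y + q2) + (u + y + q2 + T)) ^ 2 := by linarith
      exact_mod_cast this
    · intro hlt
      apply h1
      have : ((u : ℤ) + v + (u + y + q2) + (u + y + q2 + T)) ^ 2 < 8 * w + 8 := by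
        exact_mod_cast hlt
      linarith
  apply cast_goal _ rfl
  · rcases Nat.lt_or_ge y z with hyz | hyz
    · obtain ⟨U, hU⟩ : ∃ U, z = y + U := ⟨z - y, by omega⟩
      have hBi' : (4 : ℤ) * (u - (u + y - z)) * (u - (u + y - z) - 1) ≤ 8 * Bi := by
        have e1 : u - (u + y - z) = U := by omega
        rw [e1] at hBi
        have e2 : (u : ℤ) - (u + y - z) = U := by omega
        rw [e2]
        have hU1 : 1 ≤ U := by omega
        have : ((U * (U - 1) : ℕ) : ℤ) ≤ ((2 * Bi : ℕ) : ℤ) := by exact_mod_cast hBi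
        push_cast [Nat.cast_sub hU1] at this
        linarith
      have hk := sq_sub_self_nonneg ((u : ℤ) - (u + y - z) - T)
      rcases lt_or_ge ((u : ℤ) + y + y - v + T) 0 with hα | hα
      · have := rem_large (y := y) (v := v) (q1 := u + y) (q2 := q2) (T := T) (by positivity) hT'
          hTq hα
        have e3 : (u : ℤ) + y - u = y := by ring
        rw [e3] at hid
        linarith
      · obtain ⟨r1, r2, r3, r4⟩ := rem_small (y := y) (v := v) (q1 := u + y) (q2 := q2) (T := T)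
          (by positivity) (by positivity) (by positivity) hTq hα
        have e3 : (u : ℤ) + y - u = y := by ring
        rw [e3] at hid
        linarith
    · have hzy : (0 : ℤ) ≤ 8 * T * (u + y - u - z) := by
        have : (0 : ℤ) ≤ (u : ℤ) + y - u - z := by omega
        positivity
      have hBi0 : (0 : ℤ) ≤ Bi := by positivity
      have hT8 : (8 : ℤ) ≤ 8 * T ^ 2 := by nlinarith
      rcases lt_or_ge ((u : ℤ) + y + y - v + T) 0 with hα | hα
      · have := rem_large (y := y) (v := v) (q1 := u + y) (q2 := q2) (T := T) (by positivity) hT'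
          hTq hα
        have e3 : (u : ℤ) + y - u = y := by ring
        rw [e3] at hid' hzy
        linarith
      · obtain ⟨r1, r2, r3, r4⟩ := rem_small (y := y) (v := v) (q1 := u + y) (q2 := q2) (T := T)
          (by positivity) (by positivity) (by positivity) hTq hα
        have e3 : (u : ℤ) + y - u = y := by ring
        rw [e3] at hid' hzy
        linarith
  · intro hlt
    rcases Nat.lt_or_ge y z with hyz | hyz
    · obtain ⟨U, hU⟩ : ∃ U, z = y + U := ⟨z - y, by omega⟩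
      have hBi' : (4 : ℤ) * (u - (u + y - z)) * (u - (u + y - z) - 1) ≤ 8 * Bi := by
        have e1 : u - (u + y - z) = U := by omega
        rw [e1] at hBi
        have e2 : (u : ℤ) - (u + y - z) = U := by omega
        rw [e2]
        have hU1 : 1 ≤ U := by omega
        have : ((U * (U - 1) : ℕ) : ℤ) ≤ ((2 * Bi : ℕ) : ℤ) := by exact_mod_cast hBi
        push_cast [Nat.cast_sub hU1] at this
        linarith
      have hk := sq_sub_self_nonneg ((u : ℤ) - (u + y - z) - T)
      rcases lt_or_ge ((u : ℤ) + y + y - v + T) 0 with hα | hα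
      · have := rem_large (y := y) (v := v) (q1 := u + y) (q2 := q2) (T := T) (by positivity) hT'
          hTq hα
        have e3 : (u : ℤ) + y - u = y := by ring
        rw [e3] at hid
        linarith
      · obtain ⟨r1, r2, r3, r4⟩ := rem_small (y := y) (v := v) (q1 := u + y) (q2 := q2) (T := T)
          (by positivity) (by positivity) (by positivity) hTq hα
        have e3 : (u : ℤ) + y - u = y := by ring
        rw [e3] at hid
        have hT1 : (T : ℤ) = 1 := by
          by_contra hne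
          have h2 : (2 : ℤ) ≤ T := by omega
          nlinarith
        rw [hT1] at hid hα r1 r3 r4 hk hlt hS hL
        have hsm := small_cases (y := y) (v := v) (q1 := u + y) (q2 := q2) (by positivity)
          (by positivity) (by positivity) (by omega) hα (by linarith)
        have hT1' : T = 1 := by exact_mod_cast hT1
        omega
    · exfalso
      have hzy : (0 : ℤ) ≤ 8 * T * (u + y - u - z) := by
        have : (0 : ℤ) ≤ (u : ℤ) + y - u - z := by omega
        positivity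
      have hBi0 : (0 : ℤ) ≤ Bi := by positivity
      have hT8 : (8 : ℤ) ≤ 8 * T ^ 2 := by nlinarith
      rcases lt_or_ge ((u : ℤ) + y + y - v + T) 0 with hα | hα
      · have := rem_large (y := y) (v := v) (q1 := u + y) (q2 := q2) (T := T) (by positivity) hT'
          hTq hα
        have e3 : (u : ℤ) + y - u = y := by ring
        rw [e3] at hid' hzy
        linarith
      · obtain ⟨r1, r2, r3, r4⟩ := rem_small (y := y) (v := v) (q1 := u + y) (q2 := q2) (T := T)
          (by positivity) (by positivity) (by positivity) hTq hα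
        have e3 : (u : ℤ) + y - u = y := by ring
        rw [e3] at hid' hzy
        linarith

end Pool.Agent.Helper181.Eff
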