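import Mathlib
import Pool.Agent.Helper181.EffA

set_option autoImplicit false

namespace Pool.Agent.Helper181.Eff

open Finset Classical

/-- A numerical semigroup with multiplicity `a` and largest gap `F`. -/
structure Ctx (S : Set ℕ) (a F : ℕ) : Prop where
  add : ∀ x ∈ S, ∀ y ∈ S, x + y ∈ S
  apos : 0 < a
  amem : a ∈ S
  amin : ∀ x ∈ S, a ≤ x
  Fnot : F ∉ S
  Fpos : 0 < F
  Fmax : ∀ y, F < y → y ∈ S

/-- irreducible elements -/
def Irr (S : Set ℕ) (x : ℕ) : Prop := x ∈ S ∧ ∀ y ∈ S, ∀ z ∈ S, x ≠ y + z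

/-- elements of the first layer -/
noncomputable def Pf (S : Set ℕ) (a : ℕ) : Finset ℕ := (range a).filter (fun p => a + p ∈ S)

/-- gaps of the first layer -/
noncomputable def Qf (S : Set ℕ) (a : ℕ) : Finset ℕ := (range a).filter (fun p => a + p ∉ S)

/-- the gaps -/
noncomputable def Gp (S : Set ℕ) (F : ℕ) : Finset ℕ := (Finset.Ioc 0 F).filter (fun y => y ∉ S)

/-- the generators below the largest gap -/
noncomputable def Gn (S : Set ℕ) (F : ℕ) : Finset ℕ := (range F).filter (Irr S)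

/-- number of gaps above `x` -/
noncomputable def Gx (S : Set ℕ) (F x : ℕ) : ℕ := ((Gp S F).filter (fun y => x < y)).card

/-- effective weight -/
noncomputable def wt (S : Set ℕ) (F : ℕ) : ℕ := ∑ x ∈ Gn S F, Gx S F x

/-- number of first layer gaps before `p` -/
noncomputable def bq (S : Set ℕ) (a p : ℕ) : ℕ := ((Qf S a).filter (· < p)).card

lemma mem_Pf {S : Set ℕ} {a p : ℕ} : p ∈ Pf S a ↔ p < a ∧ a + p ∈ S := by
  rw [Pf, mem_filter, mem_range]

lemma mem_Qf {S : Set ℕ} {a p : ℕ} : p ∈ Qf S a ↔ p < a ∧ a + p ∉ S := by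
  rw [Qf, mem_filter, mem_range]

lemma mem_Qf' {S : Set ℕ} {a p : ℕ} : p ∈ Qf S a ↔ p < a ∧ p ∉ Pf S a := by
  rw [mem_Qf, mem_Pf]; tauto

lemma mem_Gp {S : Set ℕ} {F y : ℕ} : y ∈ Gp S F ↔ 0 < y ∧ y ≤ F ∧ y ∉ S := by
  rw [Gp, mem_filter, Finset.mem_Ioc]; tauto

lemma mem_Gn {S : Set ℕ} {F x : ℕ} : x ∈ Gn S F ↔ x < F ∧ Irr S x := by
  rw [Gn, mem_filter, mem_range]

lemma card_PQ (S : Set ℕ) (a : ℕ) : (Pf S a).card + (Qf S a).card = a := by
  have := card_filter_add_card_filter_not (s := range a) (fun p => a + p ∈ S)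
  rw [card_range] at this
  exact this

namespace Ctx

variable {S : Set ℕ} {a F : ℕ} (c : Ctx S a F)

include c

lemma zero_not : 0 ∉ S := fun h => by
  have := c.amin 0 h
  have := c.apos
  omega

lemma le_F {y : ℕ} (h : y ∉ S) : y ≤ F := by
  by_contra hcon
  exact h (c.Fmax y (by omega))

lemma mul_add_mem {x : ℕ} (hx : x ∈ S) (k : ℕ) : x + k * a ∈ S := by
  induction k with
  | zero => simpa using hx
  | succ k ih =>
    have := c.add _ ih _ c.amem
    rwa [show x + k * a + a = x + (k + 1) * a by ring] at this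

lemma mul_mem {k : ℕ} (hk : 1 ≤ k) : k * a ∈ S := by
  obtain ⟨m, rfl⟩ : ∃ m, k = m + 1 := ⟨k - 1, by omega⟩
  have := c.mul_add_mem c.amem m
  rwa [show a + m * a = (m + 1) * a by ring] at this

lemma exists_mul {x y : ℕ} (hxy : x ≤ y) (h : x % a = y % a) : ∃ k, y = x + k * a := by
  obtain ⟨k, hk⟩ := (Nat.modEq_iff_dvd' hxy).1 h
  refine ⟨k, ?_⟩
  rw [mul_comm] at hk
  omega

lemma mem_of_mod {x y : ℕ} (hx : x ∈ S) (hxy : x ≤ y) (h : x % a = y % a) : y ∈ S := by
  obtain ⟨k, rfl⟩ := c.exists_mul hxy h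
  exact c.mul_add_mem hx k

lemma irr_inj_aux {x y : ℕ} (hx : Irr S x) (hy : Irr S y) (h : x % a = y % a) (hxy : x ≤ y) :
    x = y := by
  obtain ⟨k, hk⟩ := c.exists_mul hxy h
  rcases Nat.eq_zero_or_pos k with h0 | h0
  · rw [hk, h0]; simp
  · exact absurd hk (hy.2 x hx.1 _ (c.mul_mem h0))

lemma irr_inj {x y : ℕ} (hx : Irr S x) (hy : Irr S y) (h : x % a = y % a) : x = y := by
  rcases le_total x y with h1 | h1
  · exact c.irr_inj_aux hx hy h h1
  · exact (c.irr_inj_aux hy hx h.symm h1).symm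

lemma irr_low {x : ℕ} (hx : x ∈ S) (h : x < 2 * a) : Irr S x := by
  refine ⟨hx, ?_⟩
  intro y hy z hz hxyz
  have := c.amin y hy
  have := c.amin z hz
  omega

lemma zero_mem_Pf : 0 ∈ Pf S a := mem_Pf.2 ⟨c.apos, by simpa using c.amem⟩

lemma two_mem : 2 * a ∈ S := c.mul_mem (by norm_num)

/-- gaps above `a` up to `2 a` correspond to `Qf` -/
lemma card_gaps_low (p : ℕ) (hp : p ≤ a) :
    ((Gp S F).filter (fun y => a < y ∧ y < a + p)).card = bq S a p := by
  have : (Gp S F).filter (fun y => a < y ∧ y < a + p) =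
      ((Qf S a).filter (· < p)).image (fun q => a + q) := by
    ext y
    rw [mem_filter, mem_Gp, mem_image]
    constructor
    · rintro ⟨⟨h1, h2, h3⟩, h4, h5⟩
      refine ⟨y - a, ?_, by omega⟩
      rw [mem_filter, mem_Qf]
      exact ⟨⟨by omega, by rwa [show a + (y - a) = y by omega]⟩, by omega⟩
    · rintro ⟨q, hq, rfl⟩
      rw [mem_filter, mem_Qf] at hq
      obtain ⟨⟨h1, h2⟩, h3⟩ := hq
      have hq0 : q ≠ 0 := by
        rintro rfl
        exact h2 (by simpa using c.amem)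
      have := c.le_F h2
      exact ⟨⟨by omega, this, h2⟩, by omega, by omega⟩
  rw [this, card_image_of_injective _ (fun x y h => by simpa using h)]
  rfl

lemma bq_a : bq S a a = (Qf S a).card := by
  rw [bq, filter_true_of_mem]
  intro x hx
  exact (mem_Qf.1 hx).1

lemma tt_eq : Gx S F a = (Qf S a).card + Gx S F (2 * a) := by
  have h1 : (Gp S F).filter (fun y => a < y) =
      (Gp S F).filter (fun y => a < y ∧ y < a + a) ∪ (Gp S F).filter (fun y => 2 * a < y) := by
    ext y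
    rw [mem_union, mem_filter, mem_filter, mem_filter]
    constructor
    · rintro ⟨h1, h2⟩
      rcases lt_trichotomy y (2 * a) with h | h | h
      · exact Or.inl ⟨h1, h2, by omega⟩
      · exfalso
        rw [h] at h1
        exact (mem_Gp.1 h1).2.2 c.two_mem
      · exact Or.inr ⟨h1, h⟩
    · rintro (⟨h1, h2, h3⟩ | ⟨h1, h2⟩)
      · exact ⟨h1, h2⟩
      · exact ⟨h1, by omega⟩
  rw [Gx, h1, card_union_of_disjoint]
  · rw [c.card_gaps_low a le_rfl, c.bq_a]; rfl
  · rw [disjoint_left]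
    intro y hy hy'
    rw [mem_filter] at hy hy'
    omega

lemma genus_eq : (Gp S F).card + 1 = a + Gx S F a := by
  have h1 : (Gp S F).card = ((Gp S F).filter (fun y => a < y)).card +
      ((Gp S F).filter (fun y => ¬ a < y)).card :=
    (card_filter_add_card_filter_not _).symm
  have h2 : (Gp S F).filter (fun y => ¬ a < y) = Finset.Ioo 0 a := by
    ext y
    rw [mem_filter, mem_Gp, Finset.mem_Ioo]
    constructor
    · rintro ⟨⟨h1, h2, h3⟩, h4⟩
      refine ⟨h1, ?_⟩
      rcases Nat.lt_or_ge y a with h | h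
      · exact h
      · have : y = a := by omega
        rw [this] at h3
        exact absurd c.amem h3
    · rintro ⟨h1, h2⟩
      have h3 : y ∉ S := fun h => by have := c.amin y h; omega
      exact ⟨⟨h1, c.le_F h3, h3⟩, by omega⟩
  rw [h1, h2, Nat.card_Ioo]
  have := c.apos
  rw [Gx]
  omega

lemma gx_add_bq {p : ℕ} (hp : p ∈ Pf S a) : Gx S F (a + p) + bq S a p = Gx S F a := by
  rw [mem_Pf] at hp
  rw [← c.card_gaps_low p hp.1.le, Gx, Gx, ← card_union_of_disjoint]
  · congr 1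
    ext y
    rw [mem_union, mem_filter, mem_filter, mem_filter]
    constructor
    · rintro (⟨h1, h2⟩ | ⟨h1, h2, h3⟩)
      · exact ⟨h1, by omega⟩
      · exact ⟨h1, h2⟩
    · rintro ⟨h1, h2⟩
      rcases lt_trichotomy y (a + p) with h | h | h
      · exact Or.inr ⟨h1, h2, h⟩
      · exfalso
        rw [h] at h1
        exact (mem_Gp.1 h1).2.2 hp.2
      · exact Or.inl ⟨h1, h⟩
  · rw [disjoint_left]
    intro y hy hy'
    rw [mem_filter] at hy hy'
    omega

lemma sum_gx_add : ∑ p ∈ Pf S a, Gx S F (a + p) + ∑ p ∈ Pf S a, bq S a p =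
    (Pf S a).card * Gx S F a := by
  rw [← sum_add_distrib, sum_congr rfl (fun p hp => c.gx_add_bq hp), sum_const, smul_eq_mul]

lemma gx_zero {x : ℕ} (h : F ≤ x) : Gx S F x = 0 := by
  rw [Gx, card_eq_zero, filter_eq_empty_iff]
  intro y hy
  have := (mem_Gp.1 hy).2.1
  omega

lemma gx_anti {x y : ℕ} (h : x ≤ y) : Gx S F y ≤ Gx S F x := by
  apply card_le_card
  intro z hz
  rw [mem_filter] at hz ⊢
  exact ⟨hz.1, by omega⟩

/-- sum over the first layer -/
lemma sum_low : ∑ x ∈ (Gn S F).filter (· < 2 * a), Gx S F x = ∑ p ∈ Pf S a, Gx S F (a + p) := by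
  have h1 : (Gn S F).filter (· < 2 * a) ⊆ (Pf S a).image (fun p => a + p) := by
    intro x hx
    rw [mem_filter, mem_Gn] at hx
    rw [mem_image]
    have := c.amin x hx.1.2.1
    refine ⟨x - a, mem_Pf.2 ⟨by omega, ?_⟩, by omega⟩
    rw [show a + (x - a) = x by omega]
    exact hx.1.2.1
  rw [sum_subset h1, sum_image (fun x _ y _ h => by simpa using h)]
  intro x hx hx'
  rw [mem_image] at hx
  obtain ⟨p, hp, rfl⟩ := hx
  rw [mem_Pf] at hp
  apply c.gx_zero
  by_contra hcon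
  apply hx'
  rw [mem_filter, mem_Gn]
  exact ⟨⟨by omega, c.irr_low hp.2 (by omega)⟩, by omega⟩

lemma wt_split : wt S F + ∑ p ∈ Pf S a, bq S a p = (Pf S a).card * Gx S F a +
    ∑ x ∈ (Gn S F).filter (fun x => ¬ x < 2 * a), Gx S F x := by
  have h1 : wt S F = ∑ x ∈ (Gn S F).filter (· < 2 * a), Gx S F x +
      ∑ x ∈ (Gn S F).filter (fun x => ¬ x < 2 * a), Gx S F x :=
    (sum_filter_add_sum_filter_not _ _ _).symm
  rw [h1, c.sum_low, ← c.sum_gx_add]
  ring

/-- One layer. -/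
lemma one_layer (h : F < 2 * a) : wt S F + ∑ p ∈ Pf S a, bq S a p =
    (Pf S a).card * (Qf S a).card ∧ Gx S F a = (Qf S a).card := by
  have h1 : Gx S F a = (Qf S a).card := by
    rw [c.tt_eq, c.gx_zero h.le, add_zero]
  refine ⟨?_, h1⟩
  rw [c.wt_split, h1, add_eq_left]
  apply sum_eq_zero
  intro x hx
  rw [mem_filter, mem_Gn] at hx
  omega

end Ctx

end Pool.Agent.Helper181.Eff
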