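import Mathlib
import Pool.Agent.Helper181.EffB

set_option autoImplicit false

namespace Pool.Agent.Helper181.Eff

open Finset Classical

/-- sums of two first layer elements -/
def Sm (S : Set ℕ) (a r : ℕ) : Prop := ∃ p ∈ Pf S a, ∃ p' ∈ Pf S a, p + p' = r

namespace Ctx

variable {S : Set ℕ} {a F : ℕ} (c : Ctx S a F)

include c

lemma Sm_mem {r : ℕ} (h : Sm S a r) : 2 * a + r ∈ S := by
  obtain ⟨p, hp, p', hp', rfl⟩ := h
  have := c.add _ (mem_Pf.1 hp).2 _ (mem_Pf.1 hp').2
  rwa [show a + p + (a + p') = 2 * a + (p + p') by ring] at this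

lemma Sm_not_irr {r : ℕ} (h : Sm S a r) (k : ℕ) : ¬ Irr S (2 * a + r + k * a) := by
  intro hirr
  obtain ⟨p, hp, p', hp', rfl⟩ := h
  apply hirr.2 _ (c.mul_add_mem (mem_Pf.1 hp).2 k) _ (mem_Pf.1 hp').2
  ring

lemma not_irr_of_Pf {r : ℕ} (h : a + r ∈ S) : ¬ Irr S (2 * a + r) := by
  intro hirr
  exact hirr.2 _ c.amem _ h (by ring)

/-- Exactly two layers. -/
theorem two_layers (h2 : 2 * a < F) (h3 : F < 3 * a) :
    8 * wt S F ≤ ((Gp S F).card + 1) ^ 2 ∧
    (((Gp S F).card + 1) ^ 2 < 8 * wt S F + 8 → (Gp S F).card + 1 ≤ 10) := by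
  obtain ⟨f, rfl⟩ : ∃ f, F = 2 * a + f := ⟨F - 2 * a, by omega⟩
  set F := 2 * a + f with hF
  have hfa : f < a := by omega
  set P1 := (Pf S a).filter (fun p => p < f + 1) with hP1
  set P2 := (Pf S a).filter (fun p => ¬ p < f + 1) with hP2
  set Q1 := (Qf S a).filter (fun p => p < f + 1) with hQ1
  set Q2 := (Qf S a).filter (fun p => ¬ p < f + 1) with hQ2
  set Z := Q1.filter (fun r => ¬ Sm S a r) with hZ
  have cP : (Pf S a).card = P1.card + P2.card := (card_filter_add_card_filter_not _).symm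
  have cQ : (Qf S a).card = Q1.card + Q2.card := (card_filter_add_card_filter_not _).symm
  have hfQ : f ∈ Q1 := by
    rw [hQ1, mem_filter, mem_Qf]
    refine ⟨⟨hfa, ?_⟩, by omega⟩
    intro hmem
    apply c.Fnot
    have := c.add _ c.amem _ hmem
    rwa [show a + (a + f) = F by rw [hF]; ring] at this
  have hfZ : f ∈ Z := by
    rw [hZ, mem_filter]
    refine ⟨hfQ, ?_⟩
    intro hs
    exact c.Fnot (c.Sm_mem hs)
  have hQ1mem : ∀ x, x ∈ Q1 ↔ x < f + 1 ∧ x ∉ P1 := by
    intro x
    rw [hQ1, hP1, mem_filter, mem_filter, mem_Qf']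
    constructor
    · rintro ⟨⟨h1, h2⟩, h3⟩
      exact ⟨h3, fun h => h2 h.1⟩
    · rintro ⟨h1, h2⟩
      exact ⟨⟨by omega, fun h => h2 ⟨h, h1⟩⟩, h1⟩
  have hZQ : Z ⊆ Q1 := filter_subset _ _
  have hsum : ∀ r ∈ Z, ∀ p ∈ P1, ∀ p' ∈ P1, p + p' ≠ r := by
    intro r hr p hp p' hp' h
    rw [hZ, mem_filter] at hr
    exact hr.2 ⟨p, (mem_filter.1 hp).1, p', (mem_filter.1 hp').1, h⟩
  have hmax : ∀ r ∈ Z, r ≤ f := by
    intro r hr
    have := ((hQ1mem r).1 (hZQ hr)).1
    omega
  -- u ≤ q1
  have huq : P1.card ≤ Q1.card := by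
    have e1 : (P1.image (fun p => f - p)).card = P1.card := by
      apply card_image_of_injOn
      intro x hx y hy hxy
      have hx' := (mem_filter.1 (Finset.mem_coe.1 hx)).2
      have hy' := (mem_filter.1 (Finset.mem_coe.1 hy)).2
      simp only at hxy
      omega
    rw [← e1]
    apply card_le_card
    intro x hx
    rw [mem_image] at hx
    obtain ⟨p, hp, rfl⟩ := hx
    have hp' := (mem_filter.1 hp).2
    rw [hQ1mem]
    refine ⟨by omega, ?_⟩
    intro hmem
    exact hsum f hfZ p hp (f - p) hmem (by omega)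
  have hu : 1 ≤ P1.card := by
    apply card_pos.2
    exact ⟨0, mem_filter.2 ⟨c.zero_mem_Pf, by omega⟩⟩
  -- generators and gaps above 2 a
  set T := Gx S F (2 * a) with hT
  set Sg := (Gn S F).filter (fun x => ¬ x < 2 * a) with hSg
  have hT1 : 1 ≤ T := by
    apply card_pos.2
    refine ⟨F, mem_filter.2 ⟨mem_Gp.2 ⟨c.Fpos, le_rfl, c.Fnot⟩, h2⟩⟩
  have hTz : T + Sg.card ≤ Z.card := by
    have e1 : (((Gp S F).filter (fun y => 2 * a < y)).image (fun y => y - 2 * a)).card = T := by
      apply card_image_of_injOn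
      intro x hx y hy hxy
      have hx' := (mem_filter.1 (Finset.mem_coe.1 hx)).2
      have hy' := (mem_filter.1 (Finset.mem_coe.1 hy)).2
      simp only at hxy
      omega
    have e2 : (Sg.image (fun y => y - 2 * a)).card = Sg.card := by
      apply card_image_of_injOn
      intro x hx y hy hxy
      have hx' := (mem_filter.1 (Finset.mem_coe.1 hx)).2
      have hy' := (mem_filter.1 (Finset.mem_coe.1 hy)).2
      simp only at hxy
      omega
    rw [← e1, ← e2, ← card_union_of_disjoint]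
    · apply card_le_card
      intro r hr
      rw [mem_union, mem_image, mem_image] at hr
      rw [hZ, mem_filter, hQ1, mem_filter, mem_Qf]
      rcases hr with ⟨y, hy, rfl⟩ | ⟨y, hy, rfl⟩
      · rw [mem_filter, mem_Gp] at hy
        obtain ⟨⟨h4, h5, h6⟩, h7⟩ := hy
        obtain ⟨r, rfl⟩ : ∃ r, y = 2 * a + r := ⟨y - 2 * a, by omega⟩
        rw [Nat.add_sub_cancel_left]
        refine ⟨⟨⟨by omega, ?_⟩, by omega⟩, ?_⟩
        · intro hmem
          apply h6
          have := c.add _ c.amem _ hmem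
          rwa [show a + (a + r) = 2 * a + r by ring] at this
        · intro hs
          exact h6 (c.Sm_mem hs)
      · rw [hSg, mem_filter, mem_Gn] at hy
        obtain ⟨⟨h4, h5⟩, h7⟩ := hy
        obtain ⟨r, rfl⟩ : ∃ r, y = 2 * a + r := ⟨y - 2 * a, by omega⟩
        rw [Nat.add_sub_cancel_left]
        refine ⟨⟨⟨by omega, ?_⟩, by omega⟩, ?_⟩
        · intro hmem
          exact c.not_irr_of_Pf hmem h5
        · intro hs
          have := c.Sm_not_irr hs 0
          rw [zero_mul, add_zero] at this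
          exact this h5
    · rw [disjoint_left]
      intro r hr hr'
      rw [mem_image] at hr hr'
      obtain ⟨y, hy, rfl⟩ := hr
      obtain ⟨y', hy', h8⟩ := hr'
      rw [hSg, mem_filter, mem_Gn] at hy'
      rw [mem_filter, mem_Gp] at hy
      have : y' = y := by omega
      rw [this] at hy'
      exact hy.1.2.2 hy'.1.2.1
  have hzq : Z.card ≤ Q1.card := card_le_card hZQ
  -- the inversions
  set Bi := ∑ p ∈ P1, bq S a p with hBi
  have hBi1 : ∑ p ∈ P1, (Z.card + (P1.filter (· < p)).card - Q1.card) ≤ Bi := by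
    apply sum_le_sum
    intro p hp
    have hpf : p < f := by
      have h4 := (mem_filter.1 hp).2
      rcases Nat.lt_or_ge p f with h5 | h5
      · exact h5
      · exfalso
        have : p = f := by omega
        rw [this] at hp
        exact ((hQ1mem f).1 hfQ).2 hp
    have h4 := point hQ1mem hZQ hsum hfZ hmax hp hpf
    have h5 : (Q1.filter (· < p)).card ≤ bq S a p := by
      apply card_le_card
      exact filter_subset_filter _ (filter_subset _ _)
    omega
  have hBi2 : (P1.card - (Q1.card - Z.card)) * (P1.card - (Q1.card - Z.card) - 1) ≤ 2 * Bi := by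
    have h4 := sum_idx P1 (fun i => Z.card + i - Q1.card)
    have h5 : ∑ i ∈ range P1.card, (Z.card + i - Q1.card) =
        ∑ i ∈ range P1.card, (i - (Q1.card - Z.card)) := by
      apply sum_congr rfl
      intro i _
      omega
    rw [h5] at h4
    rw [h4] at hBi1
    have := tri (Q1.card - Z.card) P1.card
    omega
  have hB2 : Q1.card * P2.card ≤ ∑ p ∈ P2, bq S a p := by
    rw [mul_comm, ← smul_eq_mul]
    apply card_nsmul_le_sum
    intro p hp
    rw [hP2, mem_filter] at hp
    apply card_le_card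
    intro q hq
    rw [hQ1, mem_filter] at hq
    rw [mem_filter]
    exact ⟨hq.1, by omega⟩
  have hBtot : ∑ p ∈ Pf S a, bq S a p = Bi + ∑ p ∈ P2, bq S a p :=
    (sum_filter_add_sum_filter_not _ _ _).symm
  have hSgT : ∑ x ∈ Sg, Gx S F x ≤ Sg.card * T := by
    rw [← smul_eq_mul]
    apply sum_le_card_nsmul
    intro x hx
    rw [hSg, mem_filter] at hx
    exact c.gx_anti (by omega)
  have hsplit := c.wt_split
  rw [← hSg] at hsplit
  have htt := c.tt_eq
  have hw : wt S F + (Q1.card * P2.card + Bi) ≤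
      (P1.card + P2.card) * (Q1.card + Q2.card + T) + Sg.card * T := by
    rw [← cP, ← cQ, ← htt]
    omega
  have hg := c.genus_eq
  have hPQ := card_PQ S a
  have hfin := arith2 hu huq hT1 hTz hzq hBi2 hw
  have hn : (Gp S F).card + 1 = P1.card + P2.card + (Q1.card + Q2.card) +
      (Q1.card + Q2.card + T) := by
    rw [hg, htt, ← cP, ← cQ, hPQ]
  rw [hn]
  exact hfin

end Ctx

end Pool.Agent.Helper181.Eff
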