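import Mathlib
import Pool.Agent.Helper181.EffC

set_option autoImplicit false

namespace Pool.Agent.Helper181.Eff

open Finset Classical

/-- generators from `2 a` to `F - a` -/
noncomputable def Jn (S : Set ℕ) (a F : ℕ) : Finset ℕ :=
  ((Gn S F).filter (fun x => ¬ x < 2 * a)).filter (fun x => x + a ≤ F)

/-- generators from `2 a` beyond `F - a` -/
noncomputable def Vn (S : Set ℕ) (a F : ℕ) : Finset ℕ :=
  ((Gn S F).filter (fun x => ¬ x < 2 * a)).filter (fun x => ¬ x + a ≤ F)

/-- gaps beyond `F - a` -/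
noncomputable def Ga (S : Set ℕ) (a F : ℕ) : Finset ℕ := (Gp S F).filter (fun y => F < y + a)

/-- gaps of the first layer which are sums -/
noncomputable def Dn (S : Set ℕ) (a : ℕ) : Finset ℕ := (Qf S a).filter (fun r => Sm S a r)

/-- gaps of the first layer which are not sums -/
noncomputable def Zn (S : Set ℕ) (a : ℕ) : Finset ℕ := (Qf S a).filter (fun r => ¬ Sm S a r)

lemma card_DZ (S : Set ℕ) (a : ℕ) : (Dn S a).card + (Zn S a).card = (Qf S a).card :=
  card_filter_add_card_filter_not _

namespace Ctx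

variable {S : Set ℕ} {a F : ℕ} (c : Ctx S a F)

include c

lemma card_Gn_low (h3 : 3 * a < F) : ((Gn S F).filter (fun x => x < 2 * a)).card =
    (Pf S a).card := by
  have : (Gn S F).filter (fun x => x < 2 * a) = (Pf S a).image (fun p => a + p) := by
    ext x
    rw [mem_filter, mem_Gn, mem_image]
    constructor
    · rintro ⟨⟨h1, h2⟩, h4⟩
      have := c.amin x h2.1
      refine ⟨x - a, mem_Pf.2 ⟨by omega, ?_⟩, by omega⟩
      rw [show a + (x - a) = x by omega]
      exact h2.1
    · rintro ⟨p, hp, rfl⟩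
      rw [mem_Pf] at hp
      exact ⟨⟨by omega, c.irr_low hp.2 (by omega)⟩, by omega⟩
  rw [this, card_image_of_injective _ (fun x y h => by simpa using h)]

lemma card_Gn (h3 : 3 * a < F) : (Gn S F).card = (Pf S a).card + (Jn S a F).card +
    (Vn S a F).card := by
  have h1 : (Gn S F).card = ((Gn S F).filter (fun x => x < 2 * a)).card +
      ((Gn S F).filter (fun x => ¬ x < 2 * a)).card :=
    (card_filter_add_card_filter_not _).symm
  have h2 : ((Gn S F).filter (fun x => ¬ x < 2 * a)).card = (Jn S a F).card + (Vn S a F).card :=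
    (card_filter_add_card_filter_not _).symm
  rw [h1, h2, c.card_Gn_low h3]
  ring

/-- `2 A + j ≤ a` -/
lemma bound_J (h3 : 3 * a < F) : 2 * (Pf S a).card + (Jn S a F).card ≤ a := by
  set Lo := (Gn S F).filter (fun x => x + a ≤ F) with hLo
  have cLo : Lo.card = (Pf S a).card + (Jn S a F).card := by
    have h1 : Lo.card = (Lo.filter (fun x => x < 2 * a)).card +
        (Lo.filter (fun x => ¬ x < 2 * a)).card :=
      (card_filter_add_card_filter_not _).symm
    have h2 : Lo.filter (fun x => x < 2 * a) = (Gn S F).filter (fun x => x < 2 * a) := by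
      ext x
      rw [mem_filter, hLo, mem_filter, mem_filter]
      constructor
      · rintro ⟨⟨h1, _⟩, h2⟩
        exact ⟨h1, h2⟩
      · rintro ⟨h1, h2⟩
        exact ⟨⟨h1, by omega⟩, h2⟩
    have h4 : Lo.filter (fun x => ¬ x < 2 * a) = Jn S a F := by
      ext x
      rw [mem_filter, hLo, mem_filter, Jn, mem_filter, mem_filter]
      tauto
    rw [h1, h2, h4, c.card_Gn_low h3]
  have e1 : (Lo.image (fun x => (F - x) % a)).card = Lo.card := by
    apply card_image_of_injOn
    intro x hx y hy hxy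
    have hx' := mem_filter.1 (Finset.mem_coe.1 hx)
    have hy' := mem_filter.1 (Finset.mem_coe.1 hy)
    rw [mem_Gn] at hx' hy'
    apply c.irr_inj hx'.1.2 hy'.1.2
    have h5 : (F - x) % a = (F - y) % a := hxy
    have h6 : (F - x) + x = (F - y) + y := by omega
    have h7 : (F - x) + x ≡ (F - x) + y [MOD a] := by
      have : (F - y) + y ≡ (F - x) + y [MOD a] := Nat.ModEq.add_right y h5.symm
      rwa [← h6] at this
    exact Nat.ModEq.add_left_cancel' _ h7
  have e2 : Disjoint (Pf S a) (Lo.image (fun x => (F - x) % a)) := by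
    rw [disjoint_left]
    intro p hp hp'
    rw [mem_image] at hp'
    obtain ⟨x, hx, hxp⟩ := hp'
    rw [hLo, mem_filter, mem_Gn] at hx
    rw [mem_Pf] at hp
    have h5 : (a + p) % a = (F - x) % a := by
      rw [hxp, Nat.add_mod_left, Nat.mod_eq_of_lt hp.1]
    have h6 : a + p ≤ F - x := by
      have h7 := Nat.div_add_mod (F - x) a
      rw [hxp] at h7
      have h8 : 1 ≤ (F - x) / a := by
        rw [Nat.one_le_div_iff c.apos]
        omega
      have h9 : a * 1 ≤ a * ((F - x) / a) := Nat.mul_le_mul_left a h8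
      omega
    have h7 := c.mem_of_mod hp.2 h6 h5
    have h8 := c.add _ hx.1.2.1 _ h7
    rw [show x + (F - x) = F by omega] at h8
    exact c.Fnot h8
  have e3 : Pf S a ∪ Lo.image (fun x => (F - x) % a) ⊆ range a := by
    intro r hr
    rw [mem_union, mem_image] at hr
    rw [mem_range]
    rcases hr with hr | ⟨x, _, rfl⟩
    · exact (mem_Pf.1 hr).1
    · exact Nat.mod_lt _ c.apos
  have e4 := card_le_card e3
  rw [card_union_of_disjoint e2, e1, cLo, card_range] at e4
  omega

/-- The three families of residue classes. -/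
noncomputable def Un (_c : Ctx S a F) : Finset ℕ :=
  ((Gn S F).image (fun x => x % a) ∪ (Ga S a F).image (fun x => x % a)) ∪ Dn S a

lemma Un_sub : c.Un ⊆ range a := by
  intro r hr
  rw [Un, mem_union, mem_union, mem_image, mem_image] at hr
  rw [mem_range]
  rcases hr with (⟨x, _, rfl⟩ | ⟨x, _, rfl⟩) | hr
  · exact Nat.mod_lt _ c.apos
  · exact Nat.mod_lt _ c.apos
  · exact (mem_Qf.1 (mem_filter.1 hr).1).1

lemma card_Un (h3 : 3 * a < F) : c.Un.card = (Gn S F).card + (Ga S a F).card + (Dn S a).card := by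
  have e1 : ((Gn S F).image (fun x => x % a)).card = (Gn S F).card := by
    apply card_image_of_injOn
    intro x hx y hy hxy
    have hx' := mem_Gn.1 (Finset.mem_coe.1 hx)
    have hy' := mem_Gn.1 (Finset.mem_coe.1 hy)
    exact c.irr_inj hx'.2 hy'.2 hxy
  have e2 : ((Ga S a F).image (fun x => x % a)).card = (Ga S a F).card := by
    apply card_image_of_injOn
    intro x hx y hy hxy
    have hx' := mem_filter.1 (Finset.mem_coe.1 hx)
    have hy' := mem_filter.1 (Finset.mem_coe.1 hy)
    rw [mem_Gp] at hx' hy'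
    have hxy' : x % a = y % a := hxy
    rcases le_total x y with h | h
    · obtain ⟨k, hk⟩ := c.exists_mul h hxy'
      rcases Nat.eq_zero_or_pos k with h0 | h0
      · rw [hk, h0]; simp
      · exfalso
        have : a * 1 ≤ a * k := Nat.mul_le_mul_left a h0
        rw [mul_comm] at hk
        omega
    · obtain ⟨k, hk⟩ := c.exists_mul h hxy'.symm
      rcases Nat.eq_zero_or_pos k with h0 | h0
      · rw [hk, h0]; simp
      · exfalso
        have : a * 1 ≤ a * k := Nat.mul_le_mul_left a h0
        rw [mul_comm] at hk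
        omega
  have d1 : Disjoint ((Gn S F).image (fun x => x % a)) ((Ga S a F).image (fun x => x % a)) := by
    rw [disjoint_left]
    intro r hr hr'
    rw [mem_image] at hr hr'
    obtain ⟨x, hx, rfl⟩ := hr
    obtain ⟨y, hy, hxy⟩ := hr'
    rw [mem_Gn] at hx
    rw [Ga, mem_filter, mem_Gp] at hy
    rcases le_or_gt x y with h | h
    · exact hy.1.2.2 (c.mem_of_mod hx.2.1 h hxy.symm)
    · obtain ⟨k, hk⟩ := c.exists_mul h.le hxy
      rcases Nat.eq_zero_or_pos k with h0 | h0
      · rw [h0] at hk; omega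
      · have : a * 1 ≤ a * k := Nat.mul_le_mul_left a h0
        rw [mul_comm] at hk
        omega
  have d2 : Disjoint ((Gn S F).image (fun x => x % a) ∪ (Ga S a F).image (fun x => x % a))
      (Dn S a) := by
    rw [disjoint_left]
    intro r hr hr'
    rw [Dn, mem_filter, mem_Qf] at hr'
    obtain ⟨⟨h4, h5⟩, h6⟩ := hr'
    rw [mem_union, mem_image, mem_image] at hr
    rcases hr with ⟨x, hx, hxr⟩ | ⟨y, hy, hyr⟩
    · rw [mem_Gn] at hx
      have h7 := c.amin x hx.2.1
      have h8 := Nat.div_add_mod x a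
      rw [hxr] at h8
      obtain ⟨k, hk⟩ : ∃ k, k = x / a := ⟨_, rfl⟩
      rw [← hk] at h8
      rcases k with _ | _ | k
      · omega
      · rw [zero_add, mul_one] at h8
        rw [h8] at h5
        exact h5 hx.2.1
      · apply c.Sm_not_irr h6 k
        have : 2 * a + r + k * a = x := by rw [← h8]; ring
        rw [this]
        exact hx.2
    · rw [Ga, mem_filter, mem_Gp] at hy
      apply hy.1.2.2
      apply c.mem_of_mod (c.Sm_mem h6)
      · have h8 := Nat.div_add_mod y a
        rw [hyr] at h8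
        obtain ⟨k, hk⟩ : ∃ k, k = y / a := ⟨_, rfl⟩
        rw [← hk] at h8
        have h9 : 2 ≤ k := by
          by_contra hcon
          have : a * k ≤ a * 1 := Nat.mul_le_mul_left a (by omega)
          omega
        have : a * 2 ≤ a * k := Nat.mul_le_mul_left a h9
        omega
      · rw [hyr]
        have : (2 * a + r) % a = r % a := by
          rw [show 2 * a + r = r + a * 2 by ring, Nat.add_mul_mod_self_left]
        rw [this, Nat.mod_eq_of_lt h4]
  rw [Un, card_union_of_disjoint d2, card_union_of_disjoint d1, e1, e2]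

lemma bound_E (h3 : 3 * a < F) : (Gn S F).card + (Ga S a F).card + (Dn S a).card ≤ a := by
  rw [← c.card_Un h3]
  have := card_le_card c.Un_sub
  rwa [card_range] at this

/-- the gaps above `2 a` up to `F - a` -/
lemma gx_two (h3 : 3 * a < F) : Gx S F (2 * a) =
    ((Gp S F).filter (fun y => 2 * a < y ∧ y + a ≤ F)).card + (Ga S a F).card := by
  rw [Gx, Ga, ← card_union_of_disjoint]
  · congr 1
    ext y
    rw [mem_union, mem_filter, mem_filter, mem_filter]
    constructor
    · rintro ⟨h1, h2⟩
      rcases le_or_gt (y + a) F with h | h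
      · exact Or.inl ⟨h1, h2, h⟩
      · exact Or.inr ⟨h1, h⟩
    · rintro (⟨h1, h2, h4⟩ | ⟨h1, h2⟩)
      · exact ⟨h1, h2⟩
      · exact ⟨h1, by omega⟩
  · rw [disjoint_left]
    intro y hy hy'
    rw [mem_filter] at hy hy'
    omega

/-- pointwise inequality -/
lemma point3 (h3 : 3 * a < F) {p : ℕ} (hp : p ∈ Pf S a) :
    (Zn S a).card + ((Pf S a).filter (· < p)).card ≤ (Qf S a).card + bq S a p := by
  have hJ := c.bound_J h3
  have hPQ := card_PQ S a
  have hZQ : Zn S a ⊆ Qf S a := filter_subset _ _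
  have hsum : ∀ r ∈ Zn S a, ∀ p ∈ Pf S a, ∀ p' ∈ Pf S a, p + p' ≠ r := by
    intro r hr p hp p' hp' h
    rw [Zn, mem_filter] at hr
    exact hr.2 ⟨p, hp, p', hp', h⟩
  by_cases hex : ∃ r ∈ Zn S a, p < r
  · have hne : (Zn S a).Nonempty := by
      obtain ⟨r, hr, _⟩ := hex
      exact ⟨r, hr⟩
    have hmax : ∀ r ∈ Zn S a, r ≤ (Zn S a).max' hne := fun r hr => le_max' _ r hr
    obtain ⟨r, hr, hpr⟩ := hex
    exact point (fun x => mem_Qf') hZQ hsum (max'_mem _ hne) hmax hp
      (lt_of_lt_of_le hpr (hmax r hr))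
  · push Not at hex
    have h1 : (Zn S a).card ≤ bq S a p := by
      apply card_le_card
      intro r hr
      rw [mem_filter]
      refine ⟨hZQ hr, ?_⟩
      rcases lt_or_eq_of_le (hex r hr) with h | h
      · exact h
      · exfalso
        rw [h] at hr
        exact (mem_Qf'.1 (hZQ hr)).2 hp
    have h2 : ((Pf S a).filter (· < p)).card ≤ (Pf S a).card := card_filter_le _ _
    omega

lemma bound_B (h3 : 3 * a < F) :
    ((Pf S a).card - ((Qf S a).card - (Zn S a).card)) *
      ((Pf S a).card - ((Qf S a).card - (Zn S a).card) - 1) ≤ 2 * ∑ p ∈ Pf S a, bq S a p := by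
  have h1 : ∑ p ∈ Pf S a, ((Zn S a).card + ((Pf S a).filter (· < p)).card - (Qf S a).card) ≤
      ∑ p ∈ Pf S a, bq S a p := by
    apply sum_le_sum
    intro p hp
    have := c.point3 h3 hp
    omega
  have h4 := sum_idx (Pf S a) (fun i => (Zn S a).card + i - (Qf S a).card)
  have hzq : (Zn S a).card ≤ (Qf S a).card := card_filter_le _ _
  have h5 : ∑ i ∈ range (Pf S a).card, ((Zn S a).card + i - (Qf S a).card) =
      ∑ i ∈ range (Pf S a).card, (i - ((Qf S a).card - (Zn S a).card)) := by
    apply sum_congr rfl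
    intro i _
    omega
  rw [h5] at h4
  rw [h4] at h1
  have := tri ((Qf S a).card - (Zn S a).card) (Pf S a).card
  omega

lemma sum_Jn_le : ∑ x ∈ Jn S a F, Gx S F x ≤ (Jn S a F).card * Gx S F (2 * a) := by
  rw [← smul_eq_mul]
  apply sum_le_card_nsmul
  intro x hx
  rw [Jn, mem_filter, mem_filter] at hx
  exact c.gx_anti (by omega)

lemma sum_Vn_le : ∑ x ∈ Vn S a F, Gx S F x ≤ (Vn S a F).card * (Ga S a F).card := by
  rw [← smul_eq_mul]
  apply sum_le_card_nsmul
  intro x hx
  rw [Vn, mem_filter, mem_filter] at hx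
  apply card_le_card
  intro y hy
  rw [mem_filter] at hy
  rw [Ga, mem_filter]
  exact ⟨hy.1, by omega⟩

lemma wt_split3 : wt S F + ∑ p ∈ Pf S a, bq S a p = (Pf S a).card * Gx S F a +
    (∑ x ∈ Jn S a F, Gx S F x + ∑ x ∈ Vn S a F, Gx S F x) := by
  rw [c.wt_split]
  congr 1
  exact (sum_filter_add_sum_filter_not _ _ _).symm

end Ctx

end Pool.Agent.Helper181.Eff
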