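import Mathlib

set_option autoImplicit false

namespace Pool.Agent.Helper181.EffDefs

/-- The gaps of `S`: the positive integers not in `S`. -/
def gaps (S : Set ℕ) : Set ℕ := {y | 0 < y ∧ y ∉ S}

/-- `S` is a numerical semigroup: a set of positive integers, closed under addition, with
finitely many gaps. -/
structure IsNumericalSemigroup (S : Set ℕ) : Prop where
  pos : ∀ x ∈ S, 0 < x
  add_mem : ∀ x ∈ S, ∀ y ∈ S, x + y ∈ S
  finite_gaps : (gaps S).Finite

/-- The genus: the number of gaps. -/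
noncomputable def genus (S : Set ℕ) : ℕ := (gaps S).ncard

/-- The irreducible elements: elements which are not a sum of two elements. -/
def irreducibles (S : Set ℕ) : Set ℕ := {x | x ∈ S ∧ ∀ y ∈ S, ∀ z ∈ S, x ≠ y + z}

/-- The effective weight: the number of pairs (irreducible element, larger gap). -/
noncomputable def effWeight (S : Set ℕ) : ℕ :=
  {p : ℕ × ℕ | p.1 ∈ irreducibles S ∧ p.2 ∈ gaps S ∧ p.1 < p.2}.ncard

/-- `S` is a numerical semigroup of genus `g` whose effective weight is as large as possible. -/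
def IsMaximiser (g : ℕ) (S : Set ℕ) : Prop :=
  IsNumericalSemigroup S ∧ genus S = g ∧
    ∀ S' : Set ℕ, IsNumericalSemigroup S' → genus S' = g → effWeight S' ≤ effWeight S

/-- The additive semigroup generated by the integers `a, a + 1, ..., b`. -/
def intervalSemigroup (a b : ℕ) : Set ℕ := AddSubsemigroup.closure (Set.Icc a b)

/-- The sets of gaps of the maximisers of genus at most nine. -/
def smallGapSets : ℕ → List (List ℕ)
  | 0 => [[]]
  | 1 => [[1]]
  | 2 => [[1, 3]]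
  | 3 => [[1, 2, 5], [1, 3, 5]]
  | 4 => [[1, 2, 3, 7], [1, 2, 4, 7], [1, 3, 5, 7]]
  | 5 => [[1, 2, 3, 4, 9], [1, 2, 3, 5, 9], [1, 2, 3, 6, 7], [1, 2, 4, 5, 8], [1, 3, 5, 7, 9]]
  | 6 => [[1, 2, 3, 4, 8, 9], [1, 2, 3, 5, 7, 11], [1, 2, 3, 6, 7, 11], [1, 2, 4, 5, 8, 11]]
  | 7 => [[1, 2, 3, 4, 5, 10, 11], [1, 2, 3, 5, 7, 9, 13]]
  | 8 => [[1, 2, 3, 4, 5, 6, 12, 13], [1, 2, 3, 5, 7, 9, 11, 15]]
  | 9 => [[1, 2, 3, 4, 5, 6, 7, 14, 15], [1, 2, 3, 4, 5, 6, 11, 12, 13],
      [1, 2, 3, 4, 5, 9, 10, 11, 17], [1, 2, 3, 5, 7, 9, 11, 13, 17]]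
  | _ => []

end Pool.Agent.Helper181.EffDefs
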