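import Mathlib
import Pool.Agent.Helper181.EffD

set_option autoImplicit false

namespace Pool.Agent.Helper181.Eff

open Finset Classical

namespace Ctx

variable {S : Set ℕ} {a F : ℕ} (c : Ctx S a F)

include c

lemma F_mem_Ga : F ∈ Ga S a F := by
  rw [Ga, mem_filter, mem_Gp]
  have := c.apos
  exact ⟨⟨c.Fpos, le_rfl, c.Fnot⟩, by omega⟩

lemma Ga_eq (h : (Ga S a F).card = 1) {y : ℕ} (hy : y ∈ Ga S a F) : y = F :=
  (card_le_one.1 h.le) y hy F c.F_mem_Ga

/-- number of naturals below `p` -/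
lemma idx_add_bq {p : ℕ} (hp : p ≤ a) : ((Pf S a).filter (· < p)).card + bq S a p = p := by
  rw [bq, ← card_union_of_disjoint]
  · have : (Pf S a).filter (· < p) ∪ (Qf S a).filter (· < p) = range p := by
      ext x
      rw [mem_union, mem_filter, mem_filter, mem_Pf, mem_Qf, mem_range]
      constructor
      · rintro (⟨_, h⟩ | ⟨_, h⟩) <;> exact h
      · intro h
        by_cases hx : a + x ∈ S
        · exact Or.inl ⟨⟨by omega, hx⟩, h⟩
        · exact Or.inr ⟨⟨by omega, hx⟩, h⟩
    rw [this, card_range]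
  · rw [disjoint_left]
    intro x hx hx'
    rw [mem_filter, mem_Pf] at hx
    rw [mem_filter, mem_Qf] at hx'
    exact hx'.1.2 hx.1.2

/-- If `1` is a first layer element and the counting is tight then `F - 1` is a generator. -/
lemma pred_F (h3 : 3 * a < F) (hE : (Gn S F).card + (Ga S a F).card + (Dn S a).card = a)
    (hγ : (Ga S a F).card = 1) (h1 : 1 ∈ Pf S a) : F - 1 ∈ Vn S a F := by
  rw [mem_Pf] at h1
  have hS : F - 1 ∈ S := by
    by_contra hcon
    have hmem : F - 1 ∈ Ga S a F := by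
      rw [Ga, mem_filter, mem_Gp]
      exact ⟨⟨by omega, by omega, hcon⟩, by omega⟩
    have := c.Ga_eq hγ hmem
    omega
  have hnot : F - 1 - a ∉ S := by
    intro hmem
    apply c.Fnot
    have := c.add _ h1.2 _ hmem
    rwa [show a + 1 + (F - 1 - a) = F by omega] at this
  have hUn : c.Un = range a := by
    apply eq_of_subset_of_card_le c.Un_sub
    rw [card_range, c.card_Un h3, hE]
  have hr : (F - 1) % a ∈ c.Un := by
    rw [hUn, mem_range]
    exact Nat.mod_lt _ c.apos
  rw [Un, mem_union, mem_union, mem_image, mem_image] at hr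
  rw [Vn, mem_filter, mem_filter]
  rcases hr with (⟨x, hx, hxr⟩ | ⟨y, hy, hyr⟩) | hr
  · by_cases hxe : x = F - 1
    · rw [hxe] at hx
      exact ⟨⟨hx, by omega⟩, by omega⟩
    · exfalso
      rw [mem_Gn] at hx
      obtain ⟨k, hk⟩ := c.exists_mul (x := x) (y := F - 1) (by omega) hxr
      rcases k with _ | k
      · omega
      · apply hnot
        have := c.mul_add_mem hx.2.1 k
        have e : x + k * a = F - 1 - a := by
          rw [hk, Nat.succ_mul]; omega
        rwa [e] at this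
  · exfalso
    rw [c.Ga_eq hγ hy] at hyr
    obtain ⟨k, hk⟩ := c.exists_mul (x := F - 1) (y := F) (by omega) hyr.symm
    rcases k with _ | k
    · omega
    · have : a * 1 ≤ a * (k + 1) := Nat.mul_le_mul_left a (by omega)
      rw [mul_comm] at hk
      omega
  · exfalso
    rw [Dn, mem_filter, mem_Qf] at hr
    apply hnot
    have h8 := Nat.div_add_mod (F - 1) a
    obtain ⟨k, hk⟩ : ∃ k, k = (F - 1) / a := ⟨_, rfl⟩
    rw [← hk] at h8
    have h9 : 3 ≤ k := by
      by_contra hcon
      have : a * k ≤ a * 2 := Nat.mul_le_mul_left a (by omega)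
      omega
    obtain ⟨l, rfl⟩ : ∃ l, k = l + 3 := ⟨k - 3, by omega⟩
    have := c.mul_add_mem (c.Sm_mem hr.2) l
    have e : 2 * a + (F - 1) % a + l * a = F - 1 - a := by
      have : a * (l + 3) = 2 * a + l * a + a := by ring
      omega
    rwa [e] at this

/-- the first sporadic case -/
lemma case_one (h3 : 3 * a < F) (hE : (Gn S F).card + (Ga S a F).card + (Dn S a).card = a)
    (hγ : (Ga S a F).card = 1) (hz : (Zn S a).card + (Pf S a).card = (Qf S a).card + 1)
    (hB : ∑ p ∈ Pf S a, bq S a p = 0) (hv : (Vn S a F).card = 0)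
    (hw : ∑ x ∈ Jn S a F, Gx S F x = (Jn S a F).card * Gx S F (2 * a)) :
    (Pf S a).card = 1 ∧ (4 ≤ a →
      ((Gp S F).filter (fun y => 2 * a < y ∧ y + a ≤ F)).card ≤ 1) := by
  have hVe : Vn S a F = ∅ := card_eq_zero.1 hv
  have h1P : 1 ∉ Pf S a := by
    intro h1
    have := c.pred_F h3 hE hγ h1
    rw [hVe] at this
    exact absurd this (notMem_empty _)
  have hB' : ∀ p ∈ Pf S a, bq S a p = 0 := fun p hp => (sum_eq_zero_iff.1 hB) p hp
  have hPone : Pf S a = {0} := by
    apply eq_singleton_iff_unique_mem.2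
    refine ⟨c.zero_mem_Pf, ?_⟩
    intro p hp
    by_contra hp0
    have hpa := (mem_Pf.1 hp).1
    have h1Q : 1 ∈ Qf S a := mem_Qf'.2 ⟨by omega, h1P⟩
    have hp1 : p ≠ 1 := fun h => h1P (h ▸ hp)
    have h4 := hB' p hp
    rw [bq, card_eq_zero, filter_eq_empty_iff] at h4
    exact h4 h1Q (by omega)
  have hPc : (Pf S a).card = 1 := by rw [hPone, card_singleton]
  refine ⟨hPc, ?_⟩
  intro ha4
  have hPQ := card_PQ S a
  have hDZ := card_DZ S a
  have hD0 : Dn S a = ∅ := by
    apply card_eq_zero.1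
    omega
  -- every gap above 2a is above every element of J
  have hJ : ∀ x ∈ Jn S a F, ∀ y ∈ Gp S F, 2 * a < y → x < y := by
    have h5 : ∀ x ∈ Jn S a F, Gx S F x ≤ Gx S F (2 * a) := by
      intro x hx
      rw [Jn, mem_filter, mem_filter] at hx
      exact c.gx_anti (by omega)
    have h6 : ∑ x ∈ Jn S a F, Gx S F x = ∑ _x ∈ Jn S a F, Gx S F (2 * a) := by
      rw [hw, sum_const, smul_eq_mul]
    have h7 := (sum_eq_sum_iff_of_le h5).1 h6
    intro x hx y hy hay
    have hx' := hx
    rw [Jn, mem_filter, mem_filter] at hx'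
    have h8 : (Gp S F).filter (fun y => x < y) = (Gp S F).filter (fun y => 2 * a < y) := by
      apply eq_of_subset_of_card_le
      · intro z hz
        rw [mem_filter] at hz ⊢
        exact ⟨hz.1, by omega⟩
      · exact (h7 x hx).ge
    have h9 : y ∈ (Gp S F).filter (fun y => x < y) := by
      rw [h8, mem_filter]
      exact ⟨hy, hay⟩
    exact (mem_filter.1 h9).2
  -- residue classes
  have hUn : c.Un = range a := by
    apply eq_of_subset_of_card_le c.Un_sub
    rw [card_range, c.card_Un h3, hE]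
  have hclass : ∀ r, r < a → r ≠ 0 → r ≠ F % a → ∃ x ∈ Jn S a F, x % a = r := by
    intro r hra hr0 hrF
    have hr : r ∈ c.Un := by rw [hUn, mem_range]; exact hra
    rw [Un, mem_union, mem_union, mem_image, mem_image, hD0] at hr
    rcases hr with (⟨x, hx, hxr⟩ | ⟨y, hy, hyr⟩) | hr
    · refine ⟨x, ?_, hxr⟩
      rw [Jn, mem_filter, mem_filter]
      have hx2 : ¬ x < 2 * a := by
        intro hlt
        have hx' := mem_Gn.1 hx
        have := c.amin x hx'.2.1
        have hmem : x - a ∈ Pf S a := by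
          rw [mem_Pf, show a + (x - a) = x by omega]
          exact ⟨by omega, hx'.2.1⟩
        rw [hPone, mem_singleton] at hmem
        have : x = a := by omega
        rw [this, Nat.mod_self] at hxr
        exact hr0 hxr.symm
      refine ⟨⟨hx, hx2⟩, ?_⟩
      by_contra hcon
      have : x ∈ Vn S a F := by
        rw [Vn, mem_filter, mem_filter]
        exact ⟨⟨hx, hx2⟩, hcon⟩
      rw [hVe] at this
      exact absurd this (notMem_empty _)
    · exfalso
      rw [c.Ga_eq hγ hy] at hyr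
      exact hrF hyr.symm
    · exact absurd hr (notMem_empty _)
  have hf0 : F % a ≠ 0 := by
    intro h
    apply c.Fnot
    have h8 := Nat.div_add_mod F a
    rw [h, add_zero, mul_comm] at h8
    rw [← h8]
    apply c.mul_mem
    rw [Nat.one_le_div_iff c.apos]
    omega
  have hgapf : 2 * a + F % a ∈ Gp S F := by
    have hlt : F % a < a := Nat.mod_lt _ c.apos
    rw [mem_Gp]
    refine ⟨by omega, by omega, ?_⟩
    intro hmem
    apply c.Fnot
    apply c.mem_of_mod hmem (by omega)
    rw [show 2 * a + F % a = F % a + a * 2 by ring, Nat.add_mul_mod_self_left, Nat.mod_mod]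
  have hflt : F % a < a := Nat.mod_lt _ c.apos
  have hfa : F % a = a - 1 := by
    by_contra hne
    obtain ⟨x, hx, hxr⟩ := hclass (a - 1) (by omega) (by omega) (fun h => hne h.symm)
    have h4 := hJ x hx _ hgapf (by omega)
    rw [Jn, mem_filter, mem_filter] at hx
    have h8 := Nat.div_add_mod x a
    rw [hxr] at h8
    have h9 : 2 ≤ x / a := by
      rw [Nat.le_div_iff_mul_le c.apos]
      omega
    have : a * 2 ≤ a * (x / a) := Nat.mul_le_mul_left a h9
    omega
  rw [hfa] at hgapf hclass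
  have hmemr : ∀ r, r < a → r ≠ 0 → r ≠ a - 1 → 2 * a + r ∈ S := by
    intro r hra hr0 hr1
    obtain ⟨x, hx, hxr⟩ := hclass r hra hr0 hr1
    have h4 := hJ x hx _ hgapf (by omega)
    have hx' := hx
    rw [Jn, mem_filter, mem_filter, mem_Gn] at hx'
    have h8 := Nat.div_add_mod x a
    rw [hxr] at h8
    have h9 : 2 ≤ x / a := by
      rw [Nat.le_div_iff_mul_le c.apos]
      omega
    have h10 : x / a ≤ 2 := by
      by_contra hcon
      have : a * 3 ≤ a * (x / a) := Nat.mul_le_mul_left a (by omega)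
      omega
    have h11 : x / a = 2 := by omega
    rw [h11] at h8
    rw [show 2 * a + r = x by omega]
    exact hx'.1.1.2.1
  have h5 : F < 5 * a - 1 := by
    by_contra hcon
    have m1 := hmemr 1 (by omega) (by omega) (by omega)
    have m2 := hmemr (a - 2) (by omega) (by omega) (by omega)
    have m3 := c.add _ m1 _ m2
    apply c.Fnot
    apply c.mem_of_mod m3 (by omega)
    rw [hfa, show 2 * a + 1 + (2 * a + (a - 2)) = (a - 1) + a * 4 by omega,
      Nat.add_mul_mod_self_left, Nat.mod_eq_of_lt (by omega)]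
  have hF4 : F = 4 * a - 1 := by
    have h8 := Nat.div_add_mod F a
    rw [hfa] at h8
    have h9 : 3 ≤ F / a := by
      rw [Nat.le_div_iff_mul_le c.apos]
      omega
    have h10 : F / a ≤ 3 := by
      by_contra hcon
      have : a * 4 ≤ a * (F / a) := Nat.mul_le_mul_left a (by omega)
      omega
    have h11 : F / a = 3 := by omega
    rw [h11] at h8
    omega
  rw [card_le_one]
  have key : ∀ y ∈ (Gp S F).filter (fun y => 2 * a < y ∧ y + a ≤ F), y = 3 * a - 1 := by
    intro y hy
    rw [mem_filter, mem_Gp] at hy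
    obtain ⟨⟨y1, y2, y3⟩, y4, y5⟩ := hy
    by_contra hne
    apply y3
    have := hmemr (y - 2 * a) (by omega) (by omega) (by omega)
    rwa [show 2 * a + (y - 2 * a) = y by omega] at this
  intro y hy y' hy'
  rw [key y hy, key y' hy']

/-- the second sporadic case -/
lemma case_two (h3 : 3 * a < F) (hz : (Zn S a).card + (Pf S a).card = (Qf S a).card + 2)
    (hB : ∑ p ∈ Pf S a, bq S a p = 1) : (Pf S a).card = 2 ∧ a = 4 := by
  have hPQ := card_PQ S a
  have hDZ := card_DZ S a
  have hJ := c.bound_J h3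
  have hA1 : 1 ≤ (Pf S a).card := card_pos.2 ⟨0, c.zero_mem_Pf⟩
  have hne : (Pf S a).Nonempty := ⟨0, c.zero_mem_Pf⟩
  obtain ⟨M, hM⟩ : ∃ M, M = (Pf S a).max' hne := ⟨_, rfl⟩
  have hMP : M ∈ Pf S a := by rw [hM]; exact max'_mem _ _
  have hMmax : ∀ p ∈ Pf S a, p ≤ M := fun p hp => by rw [hM]; exact le_max' _ _ hp
  have hMa := (mem_Pf.1 hMP).1
  have hidx : ((Pf S a).filter (· < M)).card + 1 = (Pf S a).card := by
    have : (Pf S a).filter (· < M) = (Pf S a).erase M := by
      ext x
      rw [mem_filter, mem_erase]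
      constructor
      · rintro ⟨h1, h2⟩
        exact ⟨by omega, h1⟩
      · rintro ⟨h1, h2⟩
        have := hMmax x h2
        exact ⟨h2, by omega⟩
    rw [this, card_erase_of_mem hMP]
    omega
  have hA2 : 2 ≤ (Pf S a).card := by omega
  have hbM1 : 1 ≤ bq S a M := by
    have := c.point3 h3 hMP
    omega
  have hsplit : ∑ p ∈ Pf S a, bq S a p = bq S a M + ∑ p ∈ (Pf S a).erase M, bq S a p :=
    (add_sum_erase _ _ hMP).symm
  have hbM : bq S a M = 1 := by omega
  have hrest : ∑ p ∈ (Pf S a).erase M, bq S a p = 0 := by omega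
  have hrest' : ∀ p ∈ Pf S a, p ≠ M → bq S a p = 0 := fun p hp hpM =>
    (sum_eq_zero_iff.1 hrest) p (mem_erase.2 ⟨hpM, hp⟩)
  have hMA : M = (Pf S a).card := by
    have := c.idx_add_bq (p := M) hMa.le
    omega
  rw [← hMA] at hz hPQ hJ hA1 hA2 hidx ⊢
  -- the single gap below M
  obtain ⟨q, hq⟩ := card_eq_one.1 hbM
  have hqmem : q ∈ (Qf S a).filter (· < M) := by rw [hq]; exact mem_singleton_self _
  rw [mem_filter] at hqmem
  have hquniq : ∀ x ∈ Qf S a, x < M → x = q := by
    intro x hx hxM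
    have : x ∈ (Qf S a).filter (· < M) := mem_filter.2 ⟨hx, hxM⟩
    rw [hq, mem_singleton] at this
    exact this
  have hqM : q = M - 1 := by
    by_contra hne'
    have hM1P : M - 1 ∈ Pf S a := by
      by_contra hcon
      have := hquniq (M - 1) (mem_Qf'.2 ⟨by omega, hcon⟩) (by omega)
      exact hne' this.symm
    have h4 := hrest' (M - 1) hM1P (by omega)
    rw [bq, card_eq_zero, filter_eq_empty_iff] at h4
    exact h4 hqmem.1 (by omega)
  have hlow : ∀ x, x < M - 1 → x ∈ Pf S a := by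
    intro x hx
    by_contra hcon
    have := hquniq x (mem_Qf'.2 ⟨by omega, hcon⟩) (by omega)
    omega
  have hDc : (Dn S a).card + 2 = M := by omega
  have hM2 : M = 2 := by
    by_contra hne'
    have hM3 : 3 ≤ M := by omega
    have hsub : insert (M - 1) ((Finset.Icc 1 (M - 2)).image (fun i => M + i)) ⊆ Dn S a := by
      intro x hx
      rw [mem_insert, mem_image] at hx
      rw [Dn, mem_filter, mem_Qf']
      rcases hx with rfl | ⟨i, hi, rfl⟩
      · refine ⟨mem_Qf'.1 (hqM ▸ hqmem.1), 1, hlow 1 (by omega), M - 2, hlow _ (by omega),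
          by omega⟩
      · rw [Finset.mem_Icc] at hi
        refine ⟨⟨by omega, fun h => ?_⟩, M, hMP, i, hlow i (by omega), rfl⟩
        have := hMmax _ h
        omega
    have hcard := card_le_card hsub
    rw [card_insert_of_notMem, card_image_of_injective _ (fun x y h => by simpa using h),
      Nat.card_Icc] at hcard
    · omega
    · rw [mem_image]
      rintro ⟨i, hi, h⟩
      omega
  subst hM2
  refine ⟨rfl, ?_⟩
  by_contra hne'
  have ha : 4 < a := by omega
  have : 4 ∈ Dn S a := by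
    rw [Dn, mem_filter, mem_Qf']
    refine ⟨⟨ha, fun h => ?_⟩, 2, hMP, 2, hMP, rfl⟩
    have := hMmax _ h
    omega
  have := card_pos.2 ⟨4, this⟩
  omega

/-- At least three layers. -/
theorem three_layers (h3 : 3 * a < F) :
    8 * wt S F ≤ ((Gp S F).card + 1) ^ 2 ∧
    (((Gp S F).card + 1) ^ 2 < 8 * wt S F + 8 → (Gp S F).card + 1 ≤ 10) := by
  have hPQ := card_PQ S a
  have hDZ := card_DZ S a
  have hJ := c.bound_J h3
  have hE := c.bound_E h3
  have hG := c.card_Gn h3
  have hB := c.bound_B h3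
  have hsp := c.wt_split3
  have hJn := c.sum_Jn_le
  have hVn := c.sum_Vn_le
  have htt := c.tt_eq
  have hg2 := c.gx_two h3
  have hg := c.genus_eq
  have hγ1 : 1 ≤ (Ga S a F).card := card_pos.2 ⟨F, c.F_mem_Ga⟩
  obtain ⟨R, hR⟩ : ∃ R, R = ((Gp S F).filter (fun y => 2 * a < y ∧ y + a ≤ F)).card := ⟨_, rfl⟩
  obtain ⟨A, hA⟩ : ∃ A, A = (Pf S a).card := ⟨_, rfl⟩
  obtain ⟨t1, ht1⟩ : ∃ t1, t1 = (Qf S a).card := ⟨_, rfl⟩
  obtain ⟨γ, hγ⟩ : ∃ γ, γ = (Ga S a F).card := ⟨_, rfl⟩
  obtain ⟨j, hj⟩ : ∃ j, j = (Jn S a F).card := ⟨_, rfl⟩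
  obtain ⟨v, hv⟩ : ∃ v, v = (Vn S a F).card := ⟨_, rfl⟩
  obtain ⟨z, hz⟩ : ∃ z, z = (Zn S a).card := ⟨_, rfl⟩
  obtain ⟨B, hBB⟩ : ∃ B, B = ∑ p ∈ Pf S a, bq S a p := ⟨_, rfl⟩
  have hR1 : 1 ≤ R := by
    rw [hR]
    apply card_pos.2
    refine ⟨F - a, ?_⟩
    rw [mem_filter, mem_Gp]
    refine ⟨⟨by omega, by omega, ?_⟩, by omega, by omega⟩
    intro hmem
    apply c.Fnot
    have := c.add _ c.amem _ hmem
    rwa [show a + (F - a) = F by omega] at this
  rw [← hR, ← hγ] at hg2
  rw [← ht1, hg2] at htt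
  rw [← hBB, ← hA, htt] at hsp
  rw [← hj, hg2] at hJn
  rw [← hv, ← hγ] at hVn
  rw [← hBB, ← hA, ← ht1, ← hz] at hB
  rw [← hA, ← ht1] at hPQ
  rw [← hz, ← ht1] at hDZ
  rw [← hA, ← hj] at hJ
  rw [← hA, ← hj, ← hv] at hG
  rw [← hγ] at hγ1
  have hw : wt S F + B ≤ A * (t1 + R + γ) + j * (R + γ) + v * γ := by
    have : A * (t1 + R + γ) = A * (t1 + (R + γ)) := by ring
    omega
  have hn : (Gp S F).card + 1 = A + t1 + (t1 + R + γ) := by
    rw [hg, htt]
    omega
  have hfin := arith3 (A := A) (t1 := t1) (R := R) (γ := γ) (j := j) (v := v) (z := z) (B := B)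
    (w := wt S F) (by omega) (by omega) (by omega) hγ1 hB hw
  rw [hn]
  refine ⟨hfin.1, ?_⟩
  intro hlt
  obtain ⟨f1, f2, f3, f4, f5, f6, f7⟩ := hfin.2 hlt hR1
  have hE' : (Gn S F).card + (Ga S a F).card + (Dn S a).card = a := by omega
  rcases f2 with ⟨z1, b1⟩ | ⟨z1, b1⟩
  · have hv0 : v = 0 := by omega
    have hJe : ∑ x ∈ Jn S a F, Gx S F x = (Jn S a F).card * Gx S F (2 * a) := by
      rw [← hj, hg2]
      have : A * (t1 + R + γ) = A * (t1 + (R + γ)) := by ring
      omega
    obtain ⟨k1, k2⟩ := c.case_one h3 hE' (by omega) (by omega) (by omega) (by omega) hJe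
    rw [← hA] at k1
    rw [← hR] at k2
    rcases Nat.lt_or_ge a 4 with h4 | h4
    · omega
    · have := k2 h4
      omega
  · obtain ⟨k1, k2⟩ := c.case_two h3 (by omega) (by omega)
    omega

end Ctx

end Pool.Agent.Helper181.Eff
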