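import Mathlib
import Pool.Agent.Helper181.EffDefs
import Pool.Agent.Helper181.EffE

set_option autoImplicit false

namespace Pool.Agent.Helper181.Eff

open Finset Classical EffDefs

lemma exists_ctx {S : Set ℕ} (h : IsNumericalSemigroup S) (hne : (gaps S).Nonempty) :
    ∃ a F, Ctx S a F := by
  have hne' : h.finite_gaps.toFinset.Nonempty := by
    rwa [Set.Finite.toFinset_nonempty]
  obtain ⟨F, hF⟩ : ∃ F, F = h.finite_gaps.toFinset.max' hne' := ⟨_, rfl⟩
  have hFm : F ∈ gaps S := by
    rw [← Set.Finite.mem_toFinset h.finite_gaps, hF]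
    exact max'_mem _ _
  have hmax : ∀ y, F < y → y ∈ S := by
    intro y hy
    by_contra hcon
    have hmem : y ∈ h.finite_gaps.toFinset := by
      rw [Set.Finite.mem_toFinset]
      exact ⟨by omega, hcon⟩
    have := le_max' _ _ hmem
    omega
  have hSne : S.Nonempty := ⟨F + 1, hmax _ (by omega)⟩
  refine ⟨sInf S, F, h.add_mem, h.pos _ (Nat.sInf_mem hSne), Nat.sInf_mem hSne,
    fun x hx => Nat.sInf_le hx, hFm.2, hFm.1, hmax⟩

lemma gaps_eq {S : Set ℕ} {a F : ℕ} (c : Ctx S a F) : gaps S = ↑(Gp S F) := by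
  ext y
  rw [mem_coe, mem_Gp]
  constructor
  · rintro ⟨h1, h2⟩
    exact ⟨h1, c.le_F h2, h2⟩
  · rintro ⟨h1, _, h2⟩
    exact ⟨h1, h2⟩

lemma genus_ctx {S : Set ℕ} {a F : ℕ} (c : Ctx S a F) : genus S = (Gp S F).card := by
  rw [genus, gaps_eq c, Set.ncard_coe_finset]

lemma weight_ctx {S : Set ℕ} {a F : ℕ} (c : Ctx S a F) : effWeight S = wt S F := by
  have h1 : {p : ℕ × ℕ | p.1 ∈ irreducibles S ∧ p.2 ∈ gaps S ∧ p.1 < p.2} =
      ↑((Gn S F ×ˢ Gp S F).filter (fun p : ℕ × ℕ => p.1 < p.2)) := by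
    ext p
    rw [mem_coe, mem_filter, mem_product, gaps_eq c]
    constructor
    · rintro ⟨h1, h2, h3⟩
      have h2' : p.2 ∈ Gp S F := h2
      have h4 := (mem_Gp.1 h2').2.1
      exact ⟨⟨mem_Gn.2 ⟨by omega, h1⟩, h2'⟩, h3⟩
    · rintro ⟨⟨h1, h2⟩, h3⟩
      exact ⟨(mem_Gn.1 h1).2, h2, h3⟩
  rw [effWeight, h1, Set.ncard_coe_finset, card_filter, sum_product, wt]
  apply sum_congr rfl
  intro x _
  rw [Gx, card_filter]

lemma ctx_cases {S : Set ℕ} {a F : ℕ} (c : Ctx S a F) : F < 2 * a ∨
    (2 * a < F ∧ F < 3 * a) ∨ 3 * a < F := by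
  have h2 : F ≠ 2 * a := fun h => c.Fnot (h ▸ c.two_mem)
  have h3 : F ≠ 3 * a := fun h => c.Fnot (h ▸ c.mul_mem (by norm_num))
  omega

lemma one_layer_arith {A t B w : ℕ} (h : w + B = A * t) :
    8 * w ≤ (A + t + t) ^ 2 ∧ ((A + t + t) ^ 2 < 8 * w + 8 → B = 0 ∧ A ≤ 2 * t + 2 ∧
      2 * t ≤ A + 2) := by
  have hid : ((A : ℤ) + t + t) ^ 2 - 8 * w = (A - 2 * t) ^ 2 + 8 * B := by
    have : (w : ℤ) = A * t - B := by
      have h' : ((w + B : ℕ) : ℤ) = ((A * t : ℕ) : ℤ) := by exact_mod_cast h
      push_cast at h'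
      linarith
    rw [this]; ring
  have h1 := sq_nonneg ((A : ℤ) - 2 * t)
  have h2 : (0 : ℤ) ≤ B := by positivity
  constructor
  · have : (8 * w : ℤ) ≤ (A + t + t) ^ 2 := by linarith
    exact_mod_cast this
  · intro hlt
    have hlt' : ((A : ℤ) + t + t) ^ 2 < 8 * w + 8 := by exact_mod_cast hlt
    have hB : (B : ℤ) = 0 := by
      by_contra hne
      have : (1 : ℤ) ≤ B := by omega
      linarith
    have h3 : ((A : ℤ) - 2 * t) ^ 2 < 8 := by linarith
    have h4 : (A : ℤ) - 2 * t ≤ 2 := by nlinarith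
    have h5 : -2 ≤ (A : ℤ) - 2 * t := by nlinarith
    refine ⟨by exact_mod_cast hB, by omega, by omega⟩

/-- The upper bound. -/
theorem upper {S : Set ℕ} (h : IsNumericalSemigroup S) :
    8 * effWeight S ≤ (genus S + 1) ^ 2 := by
  rcases Set.eq_empty_or_nonempty (gaps S) with he | hne
  · have : effWeight S = 0 := by
      rw [effWeight, he]
      simp
    rw [this]; simp
  · obtain ⟨a, F, c⟩ := exists_ctx h hne
    rw [genus_ctx c, weight_ctx c]
    rcases ctx_cases c with h1 | ⟨h1, h2⟩ | h1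
    · obtain ⟨e1, e2⟩ := c.one_layer h1
      have e3 := c.genus_eq
      have e4 := card_PQ S a
      have := (one_layer_arith e1).1
      rw [e3, e2]
      rwa [e4] at this
    · exact (c.two_layers h1 h2).1
    · exact (c.three_layers h1).1

/-- The interval shaped sets. -/
def Iv (a A : ℕ) : Set ℕ := {x | (a ≤ x ∧ x < a + A) ∨ 2 * a ≤ x}

/-- Structure of the maximisers of large genus. -/
theorem structure_large {S : Set ℕ} (h : IsNumericalSemigroup S) (hg : 10 ≤ genus S)
    (hw : (genus S + 1) ^ 2 < 8 * effWeight S + 8) :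
    ∃ a A t, genus S + 1 = A + 2 * t ∧ a = A + t ∧ A ≤ 2 * t + 2 ∧ 2 * t ≤ A + 2 ∧
      S = Iv a A := by
  have hne : (gaps S).Nonempty := by
    rw [Set.nonempty_iff_ne_empty]
    intro he
    rw [genus, he, Set.ncard_empty] at hg
    omega
  obtain ⟨a, F, c⟩ := exists_ctx h hne
  rw [genus_ctx c] at hg hw ⊢
  rw [weight_ctx c] at hw
  rcases ctx_cases c with h1 | ⟨h1, h2⟩ | h1
  · obtain ⟨e1, e2⟩ := c.one_layer h1
    have e3 := c.genus_eq
    have e4 := card_PQ S a
    have e5 := (one_layer_arith e1).2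
    rw [e4] at e5
    rw [e3, e2] at hw ⊢
    obtain ⟨b1, b2, b3⟩ := e5 hw
    refine ⟨a, (Pf S a).card, (Qf S a).card, by omega, by omega, b2, b3, ?_⟩
    have hB' : ∀ p ∈ Pf S a, bq S a p = 0 := fun p hp => (sum_eq_zero_iff.1 b1) p hp
    have hPlow : ∀ p, p < a → (p ∈ Pf S a ↔ p < (Pf S a).card) := by
      intro p hp
      have hdown : ∀ p ∈ Pf S a, ∀ x < p, x ∈ Pf S a := by
        intro p hp x hx
        by_contra hcon
        have h4 := hB' p hp
        have hpa := (mem_Pf.1 hp).1
        rw [bq, card_eq_zero, filter_eq_empty_iff] at h4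
        exact h4 (mem_Qf'.2 ⟨by omega, hcon⟩) hx
      constructor
      · intro hpP
        have hsub : range (p + 1) ⊆ Pf S a := by
          intro x hx
          rw [mem_range] at hx
          rcases Nat.lt_or_ge x p with h5 | h5
          · exact hdown p hpP x h5
          · have : x = p := by omega
            rwa [this]
        have := card_le_card hsub
        rw [card_range] at this
        omega
      · intro hpc
        by_contra hcon
        have hsub : Pf S a ⊆ range p := by
          intro x hx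
          rw [mem_range]
          by_contra hxp
          rcases Nat.lt_or_ge p x with h5 | h5
          · exact hcon (hdown x hx p h5)
          · have : x = p := by omega
            rw [this] at hx
            exact hcon hx
        have := card_le_card hsub
        rw [card_range] at this
        omega
    ext x
    constructor
    · intro hx
      have h5 := c.amin x hx
      rcases Nat.lt_or_ge x (2 * a) with h6 | h6
      · left
        refine ⟨h5, ?_⟩
        have h7 : x - a ∈ Pf S a := by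
          rw [mem_Pf, show a + (x - a) = x by omega]
          exact ⟨by omega, hx⟩
        have := (hPlow (x - a) (by omega)).1 h7
        omega
      · right; exact h6
    · rintro (⟨h5, h6⟩ | h5)
      · have h7 : (Pf S a).card ≤ a := by omega
        have := (hPlow (x - a) (by omega)).2 (by omega)
        rw [mem_Pf, show a + (x - a) = x by omega] at this
        exact this.2
      · exact c.Fmax x (by omega)
  · have := (c.two_layers h1 h2).2 hw
    omega
  · have := (c.three_layers h1).2 hw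
    omega

lemma Iv_semigroup {a A : ℕ} (ha : 0 < a) : IsNumericalSemigroup (Iv a A) := by
  refine ⟨?_, ?_, ?_⟩
  · rintro x (⟨h, _⟩ | h) <;> omega
  · rintro x hx y hy
    right
    have h1 : a ≤ x := by rcases hx with ⟨h, _⟩ | h <;> omega
    have h2 : a ≤ y := by rcases hy with ⟨h, _⟩ | h <;> omega
    omega
  · apply (Set.finite_Iio (2 * a)).subset
    rintro y ⟨_, hy⟩
    rw [Set.mem_Iio]
    by_contra hcon
    exact hy (Or.inr (by omega))

lemma Iv_gaps {a A : ℕ} (hA : 1 ≤ A) (hAa : A ≤ a) :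
    gaps (Iv a A) = ↑(Finset.Ioo 0 a ∪ Finset.Ico (a + A) (2 * a)) := by
  ext y
  rw [mem_coe, mem_union, Finset.mem_Ioo, Finset.mem_Ico]
  show 0 < y ∧ ¬ ((a ≤ y ∧ y < a + A) ∨ 2 * a ≤ y) ↔ _
  omega

lemma Iv_genus {a A : ℕ} (hA : 1 ≤ A) (hAa : A ≤ a) : genus (Iv a A) + 1 = a + (a - A) := by
  rw [genus, Iv_gaps hA hAa, Set.ncard_coe_finset, card_union_of_disjoint, Nat.card_Ioo,
    Nat.card_Ico]
  · omega
  · rw [disjoint_left]
    intro x hx hx'
    rw [Finset.mem_Ioo] at hx
    rw [Finset.mem_Ico] at hx'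
    omega

lemma Iv_weight {a A : ℕ} (hA : 1 ≤ A) (hAa : A ≤ a) : A * (a - A) ≤ effWeight (Iv a A) := by
  have hfin : {p : ℕ × ℕ | p.1 ∈ irreducibles (Iv a A) ∧ p.2 ∈ gaps (Iv a A) ∧
      p.1 < p.2}.Finite := by
    apply ((Set.finite_Iio (2 * a)).prod (Set.finite_Iio (2 * a))).subset
    rintro ⟨x, y⟩ ⟨_, ⟨_, h2⟩, h3⟩
    have h4 : y < 2 * a := by
      by_contra hcon
      exact h2 (Or.inr (by omega))
    simp only at h3
    exact ⟨by rw [Set.mem_Iio]; omega, h4⟩
  have h1 : ((Finset.Ico a (a + A) ×ˢ Finset.Ico (a + A) (2 * a) : Finset (ℕ × ℕ)) :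
      Set (ℕ × ℕ)).ncard = A * (a - A) := by
    rw [Set.ncard_coe_finset, card_product, Nat.card_Ico, Nat.card_Ico]
    congr 1
    · omega
    · omega
  rw [← h1]
  apply Set.ncard_le_ncard _ hfin
  rintro ⟨x, y⟩ hxy
  rw [mem_coe, mem_product, Finset.mem_Ico, Finset.mem_Ico] at hxy
  simp only at hxy
  refine ⟨⟨Or.inl ⟨by omega, by omega⟩, ?_⟩, ⟨by omega, ?_⟩, by omega⟩
  · intro u hu v hv huv
    simp only at huv
    have h2 : a ≤ u := by rcases hu with ⟨h, _⟩ | h <;> omega
    have h3 : a ≤ v := by rcases hv with ⟨h, _⟩ | h <;> omega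
    omega
  · rintro (⟨_, h⟩ | h) <;> omega

/-- The interval shaped sets attain the bound. -/
lemma Iv_attains {a A t : ℕ} (hA : 1 ≤ A) (ha : a = A + t) (h1 : A ≤ 2 * t + 2)
    (h2 : 2 * t ≤ A + 2) : effWeight (Iv a A) = (genus (Iv a A) + 1) ^ 2 / 8 := by
  have hup := upper (Iv_semigroup (a := a) (A := A) (by omega))
  have hlow := Iv_weight (a := a) hA (by omega)
  have hgen := Iv_genus (a := a) hA (by omega)
  rw [hgen] at hup ⊢
  have e1 : a - A = t := by omega
  rw [e1] at hlow hup ⊢
  subst ha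
  have key : (A + t + t) ^ 2 < 8 * (A * t) + 8 := by
    have h3 : ((A : ℤ) - 2 * t) ^ 2 ≤ 4 := by
      have h4 : (A : ℤ) - 2 * t ≤ 2 := by omega
      have h5 : -2 ≤ (A : ℤ) - 2 * t := by omega
      nlinarith
    have : ((A : ℤ) + t + t) ^ 2 < 8 * (A * t) + 8 := by nlinarith
    exact_mod_cast this
  have h6 : effWeight (Iv (A + t) A) ≤ (A + t + t) ^ 2 / 8 := by
    rw [Nat.le_div_iff_mul_le (by norm_num)]
    omega
  have h7 : (A + t + t) ^ 2 / 8 < effWeight (Iv (A + t) A) + 1 := by
    rw [Nat.div_lt_iff_lt_mul (by norm_num)]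
    omega
  omega

/-- semigroup generated by an interval -/
lemma interval_eq {a b : ℕ} (hab : a ≤ b) (h : 3 * a ≤ 2 * b + 1) (hb : b < 2 * a) :
    intervalSemigroup a b = Iv a (b + 1 - a) := by
  have hk : ∀ k : ℕ, ∀ x, (k + 1) * a ≤ x → x ≤ (k + 1) * b →
      x ∈ AddSubsemigroup.closure (Set.Icc a b) := by
    intro k
    induction k with
    | zero =>
      intro x h1 h2
      apply AddSubsemigroup.subset_closure
      rw [Set.mem_Icc]
      omega
    | succ k ih =>
      intro x h1 h2
      have e1 : (k + 1 + 1) * a = (k + 1) * a + a := by ring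
      have e2 : (k + 1 + 1) * b = (k + 1) * b + b := by ring
      rw [e1] at h1
      rw [e2] at h2
      rcases Nat.lt_or_ge ((k + 1) * b + a) x with h3 | h3
      · have m1 := ih ((k + 1) * b) (Nat.mul_le_mul_left _ hab) le_rfl
        have m2 : x - (k + 1) * b ∈ AddSubsemigroup.closure (Set.Icc a b) := by
          apply AddSubsemigroup.subset_closure
          rw [Set.mem_Icc]
          omega
        have := AddSubsemigroup.add_mem _ m1 m2
        rwa [show (k + 1) * b + (x - (k + 1) * b) = x by omega] at this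
      · have m1 := ih (x - a) (by omega) (by omega)
        have m2 : a ∈ AddSubsemigroup.closure (Set.Icc a b) := by
          apply AddSubsemigroup.subset_closure
          rw [Set.mem_Icc]
          omega
        have := AddSubsemigroup.add_mem _ m1 m2
        rwa [show x - a + a = x by omega] at this
  have ha : 0 < a := by omega
  ext x
  constructor
  · intro (hx : x ∈ AddSubsemigroup.closure (Set.Icc a b))
    induction hx using AddSubsemigroup.closure_induction with
    | mem x hx =>
      rw [Set.mem_Icc] at hx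
      left
      omega
    | add x y hx hy ihx ihy =>
      right
      have h1 : a ≤ x := by rcases ihx with ⟨h, _⟩ | h <;> omega
      have h2 : a ≤ y := by rcases ihy with ⟨h, _⟩ | h <;> omega
      omega
  · rintro (⟨h1, h2⟩ | h1)
    · apply AddSubsemigroup.subset_closure
      rw [Set.mem_Icc]
      omega
    · obtain ⟨k, hk2⟩ : ∃ k, k = x / a := ⟨_, rfl⟩
      have h3 : a * k ≤ x := by rw [hk2]; exact Nat.mul_div_le x a
      have h4 : x < a * (k + 1) := by rw [hk2]; exact Nat.lt_mul_div_succ x ha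
      have h5 : 2 ≤ k := by
        rw [hk2, Nat.le_div_iff_mul_le ha]; exact h1
      obtain ⟨m, rfl⟩ : ∃ m, k = m + 2 := ⟨k - 2, by omega⟩
      apply hk (m + 1) x
      · rw [show (m + 1 + 1) * a = a * (m + 2) by ring]; exact h3
      · have h6 : a * (m + 2 + 1) ≤ (m + 1 + 1) * b + 1 := by
          have h7 : m * (2 * a) ≤ m * (2 * b) := Nat.mul_le_mul_left m (by omega)
          nlinarith
        omega

end Pool.Agent.Helper181.Eff
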