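import Mathlib
import Pool.Agent.Helper181.EffF

set_option autoImplicit false

namespace Pool.Agent.Helper181.Eff

open Finset Classical EffDefs

/-- is `x` a sum of two elements of the mask `m` -/
def isSum (m x : ℕ) : Bool := (List.range x).any (fun y => Nat.testBit m y && Nat.testBit m (x - y))

/-- does the mask belong to the table -/
def hasTable (g m : ℕ) : Bool := (smallGapSets g).any (fun l =>
  (List.range 18).all (fun y => Nat.testBit m y == (Nat.blt 0 y && !l.contains y)))

/-- check at a leaf -/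
def leaf (m g w : ℕ) : Bool := Nat.blt ((g + 1) * (g + 1)) (8 * w + 8) == hasTable g m

/-- the enumeration -/
def go : ℕ → ℕ → ℕ → ℕ → ℕ → ℕ → Bool
  | 0, _, m, _, g, w => leaf m g w
  | (k + 1), x, m, n, g, w =>
    if isSum m x then go k (x + 1) (m + 2 ^ x) n g w
    else (Nat.ble 9 g || go k (x + 1) m n (g + 1) (w + n)) && go k (x + 1) (m + 2 ^ x) (n + 1) g w

lemma go_run : go 17 1 0 0 0 0 = true := by decide +kernel

noncomputable def mS (S : Set ℕ) (x : ℕ) : ℕ := ∑ y ∈ range x, if y ∈ S then 2 ^ y else 0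
noncomputable def nS (S : Set ℕ) (x : ℕ) : ℕ := ((range x).filter (Irr S)).card
noncomputable def gS (S : Set ℕ) (x : ℕ) : ℕ := ((range x).filter (fun y => 0 < y ∧ y ∉ S)).card
noncomputable def wS (S : Set ℕ) (x : ℕ) : ℕ :=
  ∑ y ∈ (range x).filter (fun y => 0 < y ∧ y ∉ S), nS S y

lemma mS_succ (S : Set ℕ) (x : ℕ) : mS S (x + 1) = mS S x + if x ∈ S then 2 ^ x else 0 := by
  rw [mS, sum_range_succ]; rfl

lemma mS_lt (S : Set ℕ) (x : ℕ) : mS S x < 2 ^ x := by
  induction x with
  | zero => simp [mS]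
  | succ x ih =>
    rw [mS_succ, pow_succ]
    split_ifs <;> omega

lemma mS_bit (S : Set ℕ) (x : ℕ) : ∀ y, Nat.testBit (mS S x) y = decide (y < x ∧ y ∈ S) := by
  induction x with
  | zero => intro y; simp [mS]
  | succ x ih =>
    intro y
    rw [mS_succ]
    have hlt := mS_lt S x
    by_cases hx : x ∈ S
    · rw [if_pos hx, add_comm]
      rcases lt_trichotomy y x with h | h | h
      · rw [Nat.testBit_two_pow_add_gt h, ih]
        congr 1
        apply propext
        constructor
        · rintro ⟨h1, h2⟩; exact ⟨by omega, h2⟩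
        · rintro ⟨h1, h2⟩; exact ⟨h, h2⟩
      · subst h
        rw [Nat.testBit_two_pow_add_eq, Nat.testBit_lt_two_pow hlt]
        have : y < y + 1 ∧ y ∈ S := ⟨by omega, hx⟩
        simp [this]
      · rw [Nat.testBit_lt_two_pow]
        · rw [eq_comm, decide_eq_false_iff_not]
          rintro ⟨h', _⟩
          omega
        · calc 2 ^ x + mS S x < 2 ^ (x + 1) := by rw [pow_succ]; omega
            _ ≤ 2 ^ y := Nat.pow_le_pow_right (by norm_num) h
    · rw [if_neg hx, add_zero, ih]
      congr 1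
      apply propext
      constructor
      · rintro ⟨h1, h2⟩; exact ⟨by omega, h2⟩
      · rintro ⟨h1, h2⟩
        refine ⟨?_, h2⟩
        rcases Nat.lt_or_ge y x with h | h
        · exact h
        · have : y = x := by omega
          rw [this] at h2
          exact absurd h2 hx

lemma nS_succ (S : Set ℕ) (x : ℕ) : nS S (x + 1) = nS S x + if Irr S x then 1 else 0 := by
  rw [nS, range_add_one, filter_insert]
  split_ifs with h
  · rw [card_insert_of_notMem (by simp)]; rfl
  · rfl

lemma gS_succ (S : Set ℕ) (x : ℕ) : gS S (x + 1) = gS S x + if 0 < x ∧ x ∉ S then 1 else 0 := by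
  rw [gS, range_add_one, filter_insert]
  split_ifs with h
  · rw [card_insert_of_notMem (by simp)]; rfl
  · rfl

lemma wS_succ (S : Set ℕ) (x : ℕ) : wS S (x + 1) = wS S x + if 0 < x ∧ x ∉ S then nS S x else 0 := by
  rw [wS, range_add_one, filter_insert]
  split_ifs with h
  · rw [sum_insert (by simp), add_comm]; rfl
  · rfl

lemma gS_mono (S : Set ℕ) (x k : ℕ) : gS S x ≤ gS S (x + k) := by
  apply card_le_card
  apply filter_subset_filter
  intro y hy
  rw [mem_range] at hy ⊢
  omega

lemma isSum_iff {S : Set ℕ} (h0 : 0 ∉ S) (x : ℕ) :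
    isSum (mS S x) x = true ↔ ∃ y ∈ S, ∃ z ∈ S, x = y + z := by
  rw [isSum, List.any_eq_true]
  constructor
  · rintro ⟨y, hy, hyz⟩
    rw [Bool.and_eq_true, mS_bit, mS_bit, decide_eq_true_eq, decide_eq_true_eq] at hyz
    exact ⟨y, hyz.1.2, x - y, hyz.2.2, by omega⟩
  · rintro ⟨y, hy, z, hz, rfl⟩
    have hy0 : y ≠ 0 := fun h => h0 (h ▸ hy)
    have hz0 : z ≠ 0 := fun h => h0 (h ▸ hz)
    refine ⟨y, List.mem_range.2 (by omega), ?_⟩
    rw [Bool.and_eq_true, mS_bit, mS_bit, decide_eq_true_eq, decide_eq_true_eq]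
    refine ⟨⟨by omega, hy⟩, by omega, ?_⟩
    rwa [Nat.add_sub_cancel_left]

lemma go_spec {S : Set ℕ} (h0 : 0 ∉ S) (hadd : ∀ x ∈ S, ∀ y ∈ S, x + y ∈ S) (k : ℕ) :
    ∀ x, 0 < x → go k x (mS S x) (nS S x) (gS S x) (wS S x) = true → gS S (x + k) ≤ 9 →
      leaf (mS S (x + k)) (gS S (x + k)) (wS S (x + k)) = true := by
  induction k with
  | zero => intro x _ h _; exact h
  | succ k ih =>
    intro x hx h hg
    rw [go] at h
    have e : x + (k + 1) = (x + 1) + k := by ring
    rw [e] at hg ⊢
    apply ih (x + 1) (by omega) _ hg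
    rw [mS_succ, nS_succ, gS_succ, wS_succ]
    by_cases hs : isSum (mS S x) x = true
    · rw [if_pos hs] at h
      obtain ⟨y, hy, z, hz, hyz⟩ := (isSum_iff h0 x).1 hs
      have hxS : x ∈ S := by rw [hyz]; exact hadd y hy z hz
      have hirr : ¬ Irr S x := fun hi => hi.2 y hy z hz hyz
      rw [if_pos hxS, if_neg hirr, if_neg (fun h' => h'.2 hxS), if_neg (fun h' => h'.2 hxS)]
      exact h
    · rw [if_neg hs, Bool.and_eq_true, Bool.or_eq_true] at h
      by_cases hxS : x ∈ S
      · have hirr : Irr S x := ⟨hxS, fun y hy z hz hyz => hs ((isSum_iff h0 x).2 ⟨y, hy, z, hz, hyz⟩)⟩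
        rw [if_pos hxS, if_pos hirr, if_neg (fun h' => h'.2 hxS), if_neg (fun h' => h'.2 hxS)]
        exact h.2
      · have hirr : ¬ Irr S x := fun hi => hxS hi.1
        have hpos : 0 < x ∧ x ∉ S := ⟨hx, hxS⟩
        rw [if_neg hxS, if_neg hirr, if_pos hpos, if_pos hpos]
        rcases h.1 with h1 | h1
        · exfalso
          have h2 : 9 ≤ gS S x := Nat.le_of_ble_eq_true h1
          have h3 := gS_mono S (x + 1) k
          rw [gS_succ, if_pos hpos] at h3
          omega
        · exact h1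

/-- the largest gap is at most twice the genus minus one -/
lemma F_le {S : Set ℕ} {a F : ℕ} (c : Ctx S a F) : F + 1 ≤ 2 * (Gp S F).card := by
  have h1 : ((Finset.Ioo 0 F).filter (fun y => y ∈ S)).card ≤
      ((Finset.Ioo 0 F).filter (fun y => y ∉ S)).card := by
    have e : (((Finset.Ioo 0 F).filter (fun y => y ∈ S)).image (fun y => F - y)).card =
        ((Finset.Ioo 0 F).filter (fun y => y ∈ S)).card := by
      apply card_image_of_injOn
      intro x hx y hy hxy
      have hx' := (mem_filter.1 (Finset.mem_coe.1 hx)).1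
      have hy' := (mem_filter.1 (Finset.mem_coe.1 hy)).1
      rw [Finset.mem_Ioo] at hx' hy'
      simp only at hxy
      omega
    rw [← e]
    apply card_le_card
    intro x hx
    rw [mem_image] at hx
    obtain ⟨y, hy, rfl⟩ := hx
    rw [mem_filter, Finset.mem_Ioo] at hy
    rw [mem_filter, Finset.mem_Ioo]
    refine ⟨by omega, ?_⟩
    intro hmem
    apply c.Fnot
    have := c.add _ hy.2 _ hmem
    rwa [show y + (F - y) = F by omega] at this
  have h2 : (Finset.Ioo 0 F).card = ((Finset.Ioo 0 F).filter (fun y => y ∈ S)).card +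
      ((Finset.Ioo 0 F).filter (fun y => y ∉ S)).card :=
    (card_filter_add_card_filter_not _).symm
  rw [Nat.card_Ioo] at h2
  have h3 : (Gp S F).card = ((Finset.Ioo 0 F).filter (fun y => y ∉ S)).card + 1 := by
    have : Gp S F = insert F ((Finset.Ioo 0 F).filter (fun y => y ∉ S)) := by
      ext y
      rw [mem_Gp, mem_insert, mem_filter, Finset.mem_Ioo]
      constructor
      · rintro ⟨h1, h2, h3⟩
        rcases Nat.lt_or_ge y F with h | h
        · exact Or.inr ⟨⟨h1, h⟩, h3⟩
        · exact Or.inl (by omega)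
      · rintro (rfl | ⟨⟨h1, h2⟩, h3⟩)
        · exact ⟨c.Fpos, le_rfl, c.Fnot⟩
        · exact ⟨h1, h2.le, h3⟩
    rw [this, card_insert_of_notMem]
    rw [mem_filter, Finset.mem_Ioo]
    omega
  have := c.Fpos
  omega

lemma small_facts {S : Set ℕ} (h : IsNumericalSemigroup S) (hg : genus S ≤ 9) :
    (∀ y, 18 ≤ y → y ∈ S) ∧ gS S 18 = genus S ∧ wS S 18 = effWeight S := by
  have hgap : ∀ y, 18 ≤ y → y ∈ S := by
    rcases Set.eq_empty_or_nonempty (gaps S) with he | hne
    · intro y hy
      by_contra hcon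
      have : y ∈ gaps S := ⟨by omega, hcon⟩
      rw [he] at this
      exact this
    · obtain ⟨a, F, c⟩ := exists_ctx h hne
      have h1 := F_le c
      rw [genus_ctx c] at hg
      intro y hy
      exact c.Fmax y (by omega)
  refine ⟨hgap, ?_, ?_⟩
  · rw [gS, genus, ← Set.ncard_coe_finset]
    congr 1
    ext y
    rw [mem_coe, mem_filter, mem_range]
    constructor
    · rintro ⟨_, h2⟩; exact h2
    · rintro h2
      refine ⟨?_, h2⟩
      by_contra hcon
      exact h2.2 (hgap y (by omega))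
  · have h1 : {p : ℕ × ℕ | p.1 ∈ irreducibles S ∧ p.2 ∈ gaps S ∧ p.1 < p.2} =
        ↑((((range 18).filter (fun y => 0 < y ∧ y ∉ S)).sigma
          (fun y => (range y).filter (Irr S))).image (fun s => (s.2, s.1))) := by
      ext p
      rw [mem_coe, mem_image]
      constructor
      · rintro ⟨h1, h2, h3⟩
        refine ⟨⟨p.2, p.1⟩, ?_, rfl⟩
        rw [mem_sigma, mem_filter, mem_filter, mem_range, mem_range]
        refine ⟨⟨?_, h2⟩, h3, h1⟩
        by_contra hcon
        exact h2.2 (hgap _ (by simp only at hcon ⊢; omega))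
      · rintro ⟨s, hs, rfl⟩
        rw [mem_sigma, mem_filter, mem_filter, mem_range, mem_range] at hs
        exact ⟨hs.2.2, hs.1.2, hs.2.1⟩
    rw [effWeight, h1, Set.ncard_coe_finset, card_image_of_injective, card_sigma, wS]
    · rfl
    · intro s s' hss
      rw [Prod.mk.injEq] at hss
      obtain ⟨h2, h3⟩ := hss
      obtain ⟨a, b⟩ := s
      obtain ⟨a', b'⟩ := s'
      simp only at h2 h3
      rw [h2, h3]

/-- classification for small genus -/
theorem small_iff {S : Set ℕ} (h : IsNumericalSemigroup S) (hg : genus S ≤ 9) :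
    (genus S + 1) ^ 2 < 8 * effWeight S + 8 ↔
      ∃ l ∈ smallGapSets (genus S), S = {x | 0 < x ∧ x ∉ l} := by
  have h0 : 0 ∉ S := fun h' => lt_irrefl _ (h.pos 0 h')
  obtain ⟨f1, f2, f3⟩ := small_facts h hg
  have start : go 17 1 (mS S 1) (nS S 1) (gS S 1) (wS S 1) = true := by
    have hi : ¬ Irr S 0 := fun hi => h0 hi.1
    have e1 : mS S 1 = 0 := by rw [mS_succ, if_neg h0]; simp [mS]
    have e2 : nS S 1 = 0 := by rw [nS_succ, if_neg hi]; simp [nS]
    have e3 : gS S 1 = 0 := by rw [gS_succ]; simp [gS]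
    have e4 : wS S 1 = 0 := by rw [wS_succ]; simp [wS]
    rw [e1, e2, e3, e4]
    exact go_run
  have hleaf := go_spec h0 h.add_mem 17 1 (by norm_num) start (by
    rw [show 1 + 17 = 18 by norm_num, f2]; exact hg)
  rw [show 1 + 17 = 18 by norm_num, f2, f3, leaf, beq_iff_eq] at hleaf
  have hbl : (genus S + 1) ^ 2 < 8 * effWeight S + 8 ↔
      Nat.blt ((genus S + 1) * (genus S + 1)) (8 * effWeight S + 8) = true := by
    rw [Nat.blt_eq, sq]
  rw [hbl, hleaf, hasTable, List.any_eq_true]
  constructor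
  · rintro ⟨l, hl, hall⟩
    refine ⟨l, hl, ?_⟩
    rw [List.all_eq_true] at hall
    ext x
    rcases Nat.lt_or_ge x 18 with hx | hx
    · have h1 := hall x (List.mem_range.2 hx)
      rw [mS_bit, beq_iff_eq] at h1
      constructor
      · intro hxS
        have h2 : decide (x < 18 ∧ x ∈ S) = true := decide_eq_true ⟨hx, hxS⟩
        rw [h2] at h1
        have h3 := h1.symm
        rw [Bool.and_eq_true, Nat.blt_eq, Bool.not_eq_true', List.contains_eq_mem] at h3
        exact ⟨h3.1, by simpa using h3.2⟩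
      · rintro ⟨h2, h3⟩
        have h4 : (Nat.blt 0 x && !l.contains x) = true := by
          rw [Bool.and_eq_true, Nat.blt_eq, Bool.not_eq_true', List.contains_eq_mem]
          exact ⟨h2, by simpa using h3⟩
        rw [h4, decide_eq_true_eq] at h1
        exact h1.2
    · constructor
      · intro _
        refine ⟨by omega, ?_⟩
        intro hmem
        have key : ∀ g ≤ 9, ∀ l ∈ smallGapSets g, ∀ x ∈ l, x < 18 := by decide
        have := key _ hg l hl x hmem
        omega
      · intro _; exact f1 x hx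
  · rintro ⟨l, hl, hS⟩
    refine ⟨l, hl, ?_⟩
    rw [List.all_eq_true]
    intro x hx
    rw [List.mem_range] at hx
    rw [mS_bit, beq_iff_eq, Bool.eq_iff_iff, decide_eq_true_eq, Bool.and_eq_true, Nat.blt_eq,
      Bool.not_eq_true', List.contains_eq_mem]
    constructor
    · rintro ⟨_, h2⟩
      rw [hS] at h2
      exact ⟨h2.1, by simpa using h2.2⟩
    · rintro ⟨h2, h3⟩
      refine ⟨hx, ?_⟩
      rw [hS]
      exact ⟨h2, by simpa using h3⟩

/-- every set in the table is the set of gaps of a numerical semigroup of the right genus -/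
theorem table_ok {g : ℕ} (hg : g ≤ 9) {l : List ℕ} (hl : l ∈ smallGapSets g) :
    IsNumericalSemigroup {x | 0 < x ∧ x ∉ l} ∧ genus {x | 0 < x ∧ x ∉ l} = g := by
  have key1 : ∀ g ≤ 9, ∀ l ∈ smallGapSets g, ∀ z ∈ l, ∀ x < z, x = 0 ∨ x ∈ l ∨ z - x ∈ l := by
    decide +kernel
  have key2 : ∀ g ≤ 9, ∀ l ∈ smallGapSets g, l.Nodup ∧ l.length = g ∧ 0 ∉ l := by
    decide +kernel
  have k1 := key1 g hg l hl
  obtain ⟨k2, k3, k4⟩ := key2 g hg l hl
  have hgaps : gaps {x | 0 < x ∧ x ∉ l} = ↑l.toFinset := by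
    ext y
    rw [mem_coe, List.mem_toFinset]
    constructor
    · rintro ⟨h1, h2⟩
      by_contra hcon
      exact h2 ⟨h1, hcon⟩
    · intro hy
      refine ⟨?_, fun h => h.2 hy⟩
      rcases Nat.eq_zero_or_pos y with h | h
      · rw [h] at hy; exact absurd hy k4
      · exact h
  refine ⟨⟨fun x hx => hx.1, ?_, ?_⟩, ?_⟩
  · rintro x ⟨hx, hxl⟩ y ⟨hy, hyl⟩
    refine ⟨by omega, ?_⟩
    intro hmem
    rcases k1 (x + y) hmem x (by omega) with h | h | h
    · omega
    · exact hxl h
    · rw [Nat.add_sub_cancel_left] at h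
      exact hyl h
  · rw [hgaps]; exact Finset.finite_toSet _
  · rw [genus, hgaps, Set.ncard_coe_finset, List.toFinset_card_of_nodup k2, k3]

end Pool.Agent.Helper181.Eff
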