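import Mathlib

set_option autoImplicit false

namespace Pool.Agent.Helper181.Gq

/-- sizes of the levels of the tree -/
def o : ℕ → ℕ
  | 0 => 2
  | i + 1 => (Nat.unpair (Nat.unpair i).1).1 + 2

/-- the exponents used by the first directed generator -/
def be (i : ℕ) : ℕ := (Nat.unpair (Nat.unpair i).1).2

lemma o_ge (i : ℕ) : 2 ≤ o i := by cases i <;> simp [o]

instance instNeZeroO (i : ℕ) : NeZero (o i) := ⟨by have := o_ge i; omega⟩
instance instFactO (i : ℕ) : Fact (1 < o i) := ⟨o_ge i⟩

abbrev X := ∀ i : ℕ, ZMod (o i)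
abbrev Y := X × ℤ
abbrev D := ℤ × ℤ × ℤ

/-- the rotation which a directed letter produces one level below -/
def om (i : ℕ) (d : D) : ZMod (o (i + 1)) :=
  (((d.1 + d.2.1) * (be i : ℤ) + d.2.1 : ℤ) : ZMod (o (i + 1)))

lemma om_add (i : ℕ) (d d' : D) : om i (d + d') = om i d + om i d' := by
  simp only [om, Prod.fst_add, Prod.snd_add]
  push_cast
  ring

lemma om_zero (i : ℕ) : om i 0 = 0 := by
  simp [om]

lemma zero_ne_one' (k : ℕ) : (0 : ZMod (o k)) ≠ 1 := by
  have : Nontrivial (ZMod (o k)) := ZMod.nontrivial _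
  exact zero_ne_one

/-- rotation of the coordinate `k` -/
def rot (k : ℕ) (r : ZMod (o k)) (y : Y) : Y := (Function.update y.1 k (y.1 k + r), y.2)

def P (k : ℕ) (x : X) (j : ℕ) : Prop := k ≤ j ∧ (∀ l, k ≤ l → l < j → x l = 0) ∧ x j = 1

open Classical in
noncomputable def actX (k : ℕ) (d : D) (x : X) : X
  | 0 => x 0
  | (j + 1) => if P k x j then x (j + 1) + om j d else x (j + 1)

open Classical in
/-- the directed letter `d` acting on the coordinates from `k` on -/
noncomputable def act (k : ℕ) (d : D) (y : Y) : Y :=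
  (actX k d y.1, if ∀ l, k ≤ l → y.1 l = 0 then y.2 + d.2.2 else y.2)

lemma actX_succ (k : ℕ) (d : D) (x : X) (j : ℕ) :
    actX k d x (j + 1) = x (j + 1) + (open Classical in if P k x j then om j d else 0) := by
  classical
  simp only [actX]
  split_ifs <;> simp

lemma actX_le (k : ℕ) (d : D) (x : X) (i : ℕ) (hi : i ≤ k) : actX k d x i = x i := by
  cases i with
  | zero => rfl
  | succ j =>
    rw [actX_succ, if_neg, add_zero]
    rintro ⟨h, -, -⟩
    omega

lemma act_le (k : ℕ) (d : D) (y : Y) (i : ℕ) (hi : i ≤ k) : (act k d y).1 i = y.1 i :=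
  actX_le k d y.1 i hi

lemma P_zero_iff {k : ℕ} {x : X} (h : x k = 0) (j : ℕ) : P k x j ↔ P (k + 1) x j := by
  constructor
  · rintro ⟨h1, h2, h3⟩
    have : k ≠ j := by
      rintro rfl
      exact zero_ne_one' k (h.symm.trans h3)
    exact ⟨by omega, fun l hl hl' => h2 l (by omega) hl', h3⟩
  · rintro ⟨h1, h2, h3⟩
    refine ⟨by omega, fun l hl hl' => ?_, h3⟩
    rcases Nat.eq_or_lt_of_le hl with rfl | hlt
    · exact h
    · exact h2 l hlt hl'

lemma P_one_iff {k : ℕ} {x : X} (h : x k = 1) (j : ℕ) : P k x j ↔ j = k := by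
  constructor
  · rintro ⟨h1, h2, h3⟩
    by_contra hne
    have := h2 k le_rfl (by omega)
    exact zero_ne_one' k (this.symm.trans h)
  · rintro rfl
    exact ⟨le_rfl, fun l hl hl' => by omega, h⟩

lemma P_other {k : ℕ} {x : X} (h0 : x k ≠ 0) (h1 : x k ≠ 1) (j : ℕ) : ¬ P k x j := by
  rintro ⟨ha, hb, hc⟩
  rcases Nat.eq_or_lt_of_le ha with rfl | hlt
  · exact h1 hc
  · exact h0 (hb k le_rfl hlt)

lemma act_zero {k : ℕ} (d : D) {y : Y} (h : y.1 k = 0) : act k d y = act (k + 1) d y := by
  classical
  refine Prod.ext ?_ ?_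
  · funext i
    cases i with
    | zero => rfl
    | succ j =>
      simp only [act, actX_succ]
      congr 1
      by_cases hp : P k y.1 j
      · rw [if_pos hp, if_pos ((P_zero_iff h j).1 hp)]
      · rw [if_neg hp, if_neg (fun hq => hp ((P_zero_iff h j).2 hq))]
  · simp only [act]
    have : (∀ l, k ≤ l → y.1 l = 0) ↔ (∀ l, k + 1 ≤ l → y.1 l = 0) := by
      constructor
      · intro H l hl
        exact H l (by omega)
      · intro H l hl
        rcases Nat.eq_or_lt_of_le hl with rfl | hlt
        · exact h
        · exact H l hlt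
    by_cases hc : ∀ l, k ≤ l → y.1 l = 0
    · rw [if_pos hc, if_pos (this.1 hc)]
    · rw [if_neg hc, if_neg (fun hq => hc (this.2 hq))]

lemma act_one {k : ℕ} (d : D) {y : Y} (h : y.1 k = 1) :
    act k d y = rot (k + 1) (om k d) y := by
  classical
  refine Prod.ext ?_ ?_
  · funext i
    cases i with
    | zero =>
      simp only [act, rot, actX]
      rw [Function.update_of_ne (by omega)]
    | succ j =>
      simp only [act, actX_succ, rot]
      by_cases hj : j = k
      · subst hj
        rw [if_pos ((P_one_iff h _).2 rfl), Function.update_self]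
      · rw [if_neg (fun hq => hj ((P_one_iff h _).1 hq)), Function.update_of_ne (by omega), add_zero]
  · simp only [act, rot]
    rw [if_neg]
    intro H
    exact zero_ne_one' k ((H k le_rfl).symm.trans h)

lemma act_other {k : ℕ} (d : D) {y : Y} (h0 : y.1 k ≠ 0) (h1 : y.1 k ≠ 1) : act k d y = y := by
  classical
  refine Prod.ext ?_ ?_
  · funext i
    cases i with
    | zero => rfl
    | succ j =>
      simp only [act, actX_succ]
      rw [if_neg (P_other h0 h1 j), add_zero]
  · simp only [act]
    rw [if_neg]
    intro H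
    exact h0 (H k le_rfl)

lemma P_actX (k : ℕ) (d : D) (x : X) (j : ℕ) : P k (actX k d x) j ↔ P k x j := by
  classical
  -- coordinates up to a position where P holds are unchanged
  have key : ∀ j, (∀ l, k ≤ l → l < j → x l = 0) → ∀ l, l ≤ j → actX k d x l = x l := by
    intro j hj l hl
    cases l with
    | zero => rfl
    | succ m =>
      rw [actX_succ, if_neg, add_zero]
      rintro ⟨h1, h2, h3⟩
      exact zero_ne_one' m ((hj m h1 (by omega)).symm.trans h3)
  constructor
  · rintro ⟨h1, h2, h3⟩
    have hz : ∀ l, k ≤ l → l < j → x l = 0 := by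
      intro l
      induction l using Nat.strong_induction_on with
      | _ l ih =>
        intro hl hlj
        have := key l (fun m hm hm' => ih m hm' hm (by omega)) l le_rfl
        rw [← this]
        exact h2 l hl hlj
    exact ⟨h1, hz, by rw [← key j hz j le_rfl]; exact h3⟩
  · rintro ⟨h1, h2, h3⟩
    exact ⟨h1, fun l hl hl' => by rw [key j h2 l hl'.le]; exact h2 l hl hl',
      by rw [key j h2 j le_rfl]; exact h3⟩

lemma allzero_actX (k : ℕ) (d : D) (x : X) :
    (∀ l, k ≤ l → actX k d x l = 0) ↔ (∀ l, k ≤ l → x l = 0) := by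
  classical
  have key : ∀ j, (∀ l, k ≤ l → l < j → x l = 0) → ∀ l, l ≤ j → actX k d x l = x l := by
    intro j hj l hl
    cases l with
    | zero => rfl
    | succ m =>
      rw [actX_succ, if_neg, add_zero]
      rintro ⟨h1, h2, h3⟩
      exact zero_ne_one' m ((hj m h1 (by omega)).symm.trans h3)
  constructor
  · intro H l
    induction l using Nat.strong_induction_on with
    | _ l ih =>
      intro hl
      rw [← key l (fun m hm hm' => ih m hm' hm) l le_rfl]
      exact H l hl
  · intro H l hl
    rw [key l (fun m hm _ => H m hm) l le_rfl]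
    exact H l hl

lemma act_act (k : ℕ) (d d' : D) (y : Y) : act k d (act k d' y) = act k (d + d') y := by
  classical
  refine Prod.ext ?_ ?_
  · funext i
    cases i with
    | zero => rfl
    | succ j =>
      simp only [act, actX_succ]
      by_cases hp : P k y.1 j
      · rw [if_pos hp, if_pos hp, if_pos ((P_actX k d' y.1 j).2 hp), om_add]
        ring
      · rw [if_neg hp, if_neg hp, if_neg (fun hq => hp ((P_actX k d' y.1 j).1 hq))]
        ring
  · simp only [act]
    by_cases hc : ∀ l, k ≤ l → y.1 l = 0
    · rw [if_pos hc, if_pos hc, if_pos ((allzero_actX k d' y.1).2 hc)]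
      simp only [Prod.snd_add]
      ring
    · rw [if_neg hc, if_neg hc, if_neg (fun hq => hc ((allzero_actX k d' y.1).1 hq))]

lemma act_zero_letter (k : ℕ) (y : Y) : act k 0 y = y := by
  classical
  refine Prod.ext ?_ ?_
  · funext i
    cases i with
    | zero => rfl
    | succ j => simp [act, actX_succ, om_zero]
  · simp [act]

lemma rot_rot (k : ℕ) (r r' : ZMod (o k)) (y : Y) : rot k r (rot k r' y) = rot k (r + r') y := by
  refine Prod.ext ?_ rfl
  simp only [rot, Function.update_self, Function.update_idem]
  congr 1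
  ring

lemma rot_zero (k : ℕ) (y : Y) : rot k 0 y = y := by
  refine Prod.ext ?_ rfl
  simp [rot]

lemma rot_self (k : ℕ) (r : ZMod (o k)) (y : Y) : (rot k r y).1 k = y.1 k + r := by
  simp [rot]

lemma rot_ne (k : ℕ) (r : ZMod (o k)) (y : Y) (i : ℕ) (h : i ≠ k) : (rot k r y).1 i = y.1 i := by
  simp [rot, Function.update_of_ne h]

lemma rot_snd (k : ℕ) (r : ZMod (o k)) (y : Y) : (rot k r y).2 = y.2 := rfl

lemma rot_comm (k : ℕ) (r : ZMod (o k)) (r' : ZMod (o (k + 1))) (y : Y) :
    rot (k + 1) r' (rot k r y) = rot k r (rot (k + 1) r' y) := by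
  refine Prod.ext ?_ rfl
  simp only [rot]
  rw [Function.update_of_ne (by omega : k + 1 ≠ k), Function.update_of_ne (by omega : k ≠ k + 1),
    Function.update_comm (by omega : k + 1 ≠ k)]

lemma P_update (k : ℕ) (v : ZMod (o k)) (x : X) (j : ℕ) :
    P (k + 1) (Function.update x k v) j ↔ P (k + 1) x j := by
  unfold P
  refine and_congr_right (fun h => and_congr ?_ ?_)
  · refine forall_congr' (fun l => ?_)
    constructor
    · intro H hl hl'
      have := H hl hl'
      rwa [Function.update_of_ne (by omega)] at this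
    · intro H hl hl'
      rw [Function.update_of_ne (by omega)]
      exact H hl hl'
  · rw [Function.update_of_ne (by omega)]

lemma act_rot_comm (k : ℕ) (r : ZMod (o k)) (d : D) (y : Y) :
    act (k + 1) d (rot k r y) = rot k r (act (k + 1) d y) := by
  classical
  refine Prod.ext ?_ ?_
  · funext i
    by_cases hik : i = k
    · subst hik
      rw [act_le _ _ _ _ (by omega), rot_self, rot_self, act_le _ _ _ _ (by omega)]
    · rw [rot_ne _ _ _ _ hik]
      cases i with
      | zero =>
        change (rot k r y).1 0 = y.1 0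
        rw [rot_ne _ _ _ _ hik]
      | succ j =>
        simp only [act, actX_succ]
        rw [rot_ne _ _ _ _ hik]
        congr 1
        have := P_update k (y.1 k + r) y.1 j
        by_cases hp : P (k + 1) y.1 j
        · rw [if_pos hp]
          exact if_pos (this.2 hp)
        · rw [if_neg hp]
          exact if_neg (fun hq => hp (this.1 hq))
  · simp only [act, rot]
    have : (∀ l, k + 1 ≤ l → (Function.update y.1 k (y.1 k + r)) l = 0) ↔
        (∀ l, k + 1 ≤ l → y.1 l = 0) := by
      refine forall_congr' (fun l => ?_)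
      constructor
      · intro H hl
        have := H hl
        rwa [Function.update_of_ne (by omega)] at this
      · intro H hl
        rw [Function.update_of_ne (by omega)]
        exact H hl
    by_cases hc : ∀ l, k + 1 ≤ l → y.1 l = 0
    · rw [if_pos hc, if_pos (this.2 hc)]
    · rw [if_neg hc, if_neg (fun hq => hc (this.1 hq))]

end Pool.Agent.Helper181.Gq
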