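import Mathlib
import Pool.Agent.Helper181.GqA

set_option autoImplicit false

namespace Pool.Agent.Helper181.Gq

/-- positive directed letters -/
abbrev E := ℕ × ℕ × ℕ

def cst (e : E) : D := ((e.1 : ℤ), (e.2.1 : ℤ), (e.2.2 : ℤ))

lemma cst_add (e e' : E) : cst (e + e') = cst e + cst e' := by
  simp [cst]

def sz (e : E) : ℕ := e.1 + e.2.1 + e.2.2

lemma sz_add (e e' : E) : sz (e + e') = sz e + sz e' := by
  simp only [sz, Prod.fst_add, Prod.snd_add]
  ring

/-- reduced words of level `k` -/
abbrev NF (k : ℕ) := ZMod (o k) × List (E × ZMod (o k))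

noncomputable def evL (k : ℕ) : List (E × ZMod (o k)) → Y → Y
  | [], y => y
  | (e, r) :: l, y => act k (cst e) (rot k r (evL k l y))

noncomputable def ev (k : ℕ) (w : NF k) (y : Y) : Y := rot k w.1 (evL k w.2 y)

def totL (k : ℕ) : List (E × ZMod (o k)) → ZMod (o k)
  | [] => 0
  | (_, r) :: l => r + totL k l

def addR (k : ℕ) (r : ZMod (o k)) (w : NF k) : NF k := (r + w.1, w.2)

def addD (k : ℕ) (e : E) : NF k → NF k
  | (r, []) => (0, [(e, r)])
  | (r, (e1, r1) :: l) =>
    if r = 0 then (0, (e + e1, r1) :: l) else (0, (e, r) :: (e1, r1) :: l)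

lemma ev_addR (k : ℕ) (r : ZMod (o k)) (w : NF k) (y : Y) :
    ev k (addR k r w) y = rot k r (ev k w y) := by
  simp only [ev, addR, rot_rot]

lemma ev_addD (k : ℕ) (e : E) (w : NF k) (y : Y) :
    ev k (addD k e w) y = act k (cst e) (ev k w y) := by
  obtain ⟨r, l⟩ := w
  cases l with
  | nil => simp only [ev, addD, evL, rot_zero]
  | cons a l =>
    obtain ⟨e1, r1⟩ := a
    simp only [addD]
    split_ifs with h
    · subst h
      simp only [ev, evL, rot_zero, act_act, cst_add]
    · simp only [ev, evL, rot_zero]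

lemma evL_coord (k : ℕ) (l : List (E × ZMod (o (k + 1)))) (y : Y) :
    (evL (k + 1) l y).1 k = y.1 k := by
  induction l with
  | nil => rfl
  | cons a l ih =>
    obtain ⟨e, r⟩ := a
    simp only [evL]
    rw [act_le _ _ _ _ (by omega), rot_ne _ _ _ _ (by omega), ih]

lemma ev_coord (k : ℕ) (w : NF (k + 1)) (y : Y) : (ev (k + 1) w y).1 k = y.1 k := by
  simp only [ev]
  rw [rot_ne _ _ _ _ (by omega), evL_coord]

def secL (k : ℕ) (u : ZMod (o k)) : List (E × ZMod (o k)) → NF (k + 1)
  | [] => (0, [])
  | (e, r) :: l =>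
    if u + (r + totL k l) = 0 then addD (k + 1) e (secL k u l)
    else if u + (r + totL k l) = 1 then addR (k + 1) (om k (cst e)) (secL k u l)
    else secL k u l

lemma evL_sec (k : ℕ) (l : List (E × ZMod (o k))) (y : Y) :
    evL k l y = rot k (totL k l) (ev (k + 1) (secL k (y.1 k) l) y) := by
  induction l with
  | nil => simp [evL, totL, secL, ev, rot_zero]
  | cons a l ih =>
    obtain ⟨e, r⟩ := a
    have hz : (rot k (r + totL k l) (ev (k + 1) (secL k (y.1 k) l) y)).1 k
        = y.1 k + (r + totL k l) := by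
      rw [rot_self, ev_coord]
    simp only [evL, totL, secL]
    rw [ih, rot_rot]
    split_ifs with h0 h1
    · rw [act_zero _ (hz.trans h0), act_rot_comm, ev_addD]
    · rw [act_one _ (hz.trans h1), rot_comm, ev_addR]
    · rw [act_other _ (by rw [hz]; exact h0) (by rw [hz]; exact h1)]

/-! statistics -/

def len {k : ℕ} (w : NF k) : ℕ := w.2.length
def nm {k : ℕ} (w : NF k) : ℕ := (w.2.map (fun p => sz p.1)).sum
def cnt {k : ℕ} (δ : E) (w : NF k) : ℕ := (w.2.map Prod.fst).count δ
def pot {k : ℕ} (w : NF k) : ℕ := (w.2.length - 1) + (if w.1 = 0 then 0 else 1)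

lemma len_addD (k : ℕ) (e : E) (w : NF k) : len (addD k e w) ≤ len w + 1 := by
  obtain ⟨r, l⟩ := w
  cases l with
  | nil => simp [addD, len]
  | cons a l =>
    obtain ⟨e1, r1⟩ := a
    simp only [addD]
    split_ifs with h <;> simp [len]

lemma len_addR (k : ℕ) (r : ZMod (o k)) (w : NF k) : len (addR k r w) = len w := rfl

lemma nm_addD (k : ℕ) (e : E) (w : NF k) : nm (addD k e w) = nm w + sz e := by
  obtain ⟨r, l⟩ := w
  cases l with
  | nil => simp [addD, nm]
  | cons a l =>
    obtain ⟨e1, r1⟩ := a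
    simp only [addD]
    split_ifs with h
    · simp only [nm, List.map_cons, List.sum_cons, sz_add]
      ring
    · simp only [nm, List.map_cons, List.sum_cons]
      ring

lemma nm_addR (k : ℕ) (r : ZMod (o k)) (w : NF k) : nm (addR k r w) = nm w := rfl

lemma cntlen_addD (k : ℕ) (δ e : E) (w : NF k) :
    cnt δ (addD k e w) + len (addD k e w) ≤ cnt δ w + len w + ((if e = δ then 1 else 0) + 1) := by
  obtain ⟨r, l⟩ := w
  cases l with
  | nil =>
    simp only [addD, cnt, len, List.map_cons, List.map_nil, List.count_cons, List.count_nil,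
      List.length_cons, List.length_nil, beq_iff_eq]
    omega
  | cons a l =>
    obtain ⟨e1, r1⟩ := a
    simp only [addD]
    split_ifs with h h' h'
    all_goals simp only [cnt, len, List.map_cons, List.count_cons, List.length_cons, beq_iff_eq]
    all_goals split_ifs <;> omega

lemma cntlen_addR (k : ℕ) (δ : E) (r : ZMod (o k)) (w : NF k) :
    cnt δ (addR k r w) + len (addR k r w) = cnt δ w + len w := rfl

lemma pot_addD (k : ℕ) (e : E) (w : NF k) : pot (addD k e w) ≤ pot w := by
  obtain ⟨r, l⟩ := w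
  cases l with
  | nil => simp [addD, pot]
  | cons a l =>
    obtain ⟨e1, r1⟩ := a
    simp only [addD]
    split_ifs with h
    · simp [pot]
    · simp [pot, h]

lemma pot_addR (k : ℕ) (r : ZMod (o k)) (w : NF k) :
    pot (addR k r w) ≤ pot w + (if r = 0 then 0 else 1) := by
  obtain ⟨r', l⟩ := w
  by_cases h : r = 0
  · subst h
    simp [pot, addR]
  · simp only [pot, addR, if_neg h]
    split_ifs <;> omega

lemma len_le_pot {k : ℕ} (w : NF k) : len w ≤ pot w + 1 := by
  simp only [len, pot]
  omega

lemma sum_sec {k : ℕ} (t : ZMod (o k)) (A B C : ZMod (o k) → ℕ) (α β : ℕ)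
    (hA : ∀ u, A u ≤ C u + α) (hB : ∀ u, B u ≤ C u + β) :
    ∑ u, (if u + t = 0 then A u else if u + t = 1 then B u else C u) ≤ (∑ u, C u) + (α + β) := by
  have h1 : ∀ u, (if u + t = 0 then A u else if u + t = 1 then B u else C u) ≤
      C u + ((if u = -t then α else 0) + (if u = 1 - t then β else 0)) := by
    intro u
    by_cases h0 : u + t = 0
    · have : u = -t := eq_neg_of_add_eq_zero_left h0
      rw [if_pos h0, if_pos this]
      have := hA u
      omega
    · rw [if_neg h0]
      by_cases h1 : u + t = 1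
      · have : u = 1 - t := eq_sub_of_add_eq h1
        rw [if_pos h1, if_pos this]
        have := hB u
        omega
      · rw [if_neg h1]
        omega
  refine (Finset.sum_le_sum (fun u _ => h1 u)).trans ?_
  rw [Finset.sum_add_distrib, Finset.sum_add_distrib, Finset.sum_ite_eq', Finset.sum_ite_eq']
  simp

lemma apply_secL {k : ℕ} (f : NF (k + 1) → ℕ) (u : ZMod (o k)) (e : E) (r : ZMod (o k))
    (l : List (E × ZMod (o k))) :
    f (secL k u ((e, r) :: l)) =
      if u + (r + totL k l) = 0 then f (addD (k + 1) e (secL k u l))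
      else if u + (r + totL k l) = 1 then f (addR (k + 1) (om k (cst e)) (secL k u l))
      else f (secL k u l) := by
  simp only [secL]
  split_ifs <;> rfl

lemma sum_len (k : ℕ) (l : List (E × ZMod (o k))) : ∑ u, len (secL k u l) ≤ l.length := by
  induction l with
  | nil => simp [secL, len]
  | cons a l ih =>
    obtain ⟨e, r⟩ := a
    simp_rw [apply_secL len]
    refine (sum_sec _ _ _ _ 1 0 (fun u => len_addD _ _ _) (fun u => le_of_eq (len_addR _ _ _))).trans ?_
    simp only [List.length_cons]
    omega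

lemma sum_nm (k : ℕ) (l : List (E × ZMod (o k))) :
    ∑ u, nm (secL k u l) ≤ (l.map (fun p => sz p.1)).sum := by
  induction l with
  | nil => simp [secL, nm]
  | cons a l ih =>
    obtain ⟨e, r⟩ := a
    simp_rw [apply_secL nm]
    refine (sum_sec _ _ _ _ (sz e) 0 (fun u => le_of_eq (nm_addD _ _ _))
      (fun u => le_of_eq (nm_addR _ _ _))).trans ?_
    simp only [List.map_cons, List.sum_cons]
    omega

lemma sum_cntlen (k : ℕ) (δ : E) (l : List (E × ZMod (o k))) :
    ∑ u, (cnt δ (secL k u l) + len (secL k u l)) ≤ (l.map Prod.fst).count δ + l.length := by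
  induction l with
  | nil => simp [secL, len, cnt]
  | cons a l ih =>
    obtain ⟨e, r⟩ := a
    simp_rw [apply_secL (fun w => cnt δ w + len w)]
    refine (sum_sec _ _ _ _ ((if e = δ then 1 else 0) + 1) 0 (fun u => cntlen_addD _ _ _ _)
      (fun u => le_of_eq (cntlen_addR _ _ _ _))).trans ?_
    simp only [List.map_cons, List.length_cons, List.count_cons, beq_iff_eq]
    omega

def nk (k : ℕ) (l : List (E × ZMod (o k))) : ℕ :=
  (l.map (fun p => if om k (cst p.1) = 0 then 0 else 1)).sum

lemma nk_cons (k : ℕ) (e : E) (r : ZMod (o k)) (l : List (E × ZMod (o k))) :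
    nk k ((e, r) :: l) = (if om k (cst e) = 0 then 0 else 1) + nk k l := by
  simp only [nk, List.map_cons, List.sum_cons]

lemma sum_pot (k : ℕ) (l : List (E × ZMod (o k))) : ∑ u, pot (secL k u l) ≤ nk k l := by
  induction l with
  | nil => simp [secL, pot, nk]
  | cons a l ih =>
    obtain ⟨e, r⟩ := a
    simp_rw [apply_secL pot]
    have h := sum_sec (r + totL k l) (fun u => pot (addD (k + 1) e (secL k u l)))
      (fun u => pot (addR (k + 1) (om k (cst e)) (secL k u l))) (fun u => pot (secL k u l)) 0
      (if om k (cst e) = 0 then 0 else 1) (fun u => pot_addD _ _ _) (fun u => pot_addR _ _ _)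
    refine h.trans ?_
    rw [nk_cons]
    omega

lemma nk_cnt (k : ℕ) (δ : E) (hδ : om k (cst δ) = 0) (l : List (E × ZMod (o k))) :
    nk k l + (l.map Prod.fst).count δ ≤ l.length := by
  induction l with
  | nil => simp [nk]
  | cons a l ih =>
    obtain ⟨e, r⟩ := a
    simp only [nk, List.map_cons, List.sum_cons, List.count_cons, List.length_cons,
      beq_iff_eq] at ih ⊢
    by_cases he : e = δ
    · subst he
      rw [if_pos hδ, if_pos rfl]
      omega
    · rw [if_neg he]
      split_ifs <;> omega

lemma sum_killed (k : ℕ) (δ : E) (hδ : om k (cst δ) = 0) (l : List (E × ZMod (o k))) :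
    ∑ u, len (secL k u l) + (l.map Prod.fst).count δ ≤ l.length + o k := by
  have h1 : ∑ u : ZMod (o k), len (secL k u l) ≤ ∑ u : ZMod (o k), (pot (secL k u l) + 1) :=
    Finset.sum_le_sum (fun u _ => len_le_pot _)
  rw [Finset.sum_add_distrib] at h1
  simp only [Finset.sum_const, Finset.card_univ, ZMod.card, smul_eq_mul, mul_one] at h1
  have h2 := sum_pot k l
  have h3 := nk_cnt k δ hδ l
  omega

end Pool.Agent.Helper181.Gq
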