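import Mathlib
import Pool.Agent.Helper181.GqB

set_option autoImplicit false

namespace Pool.Agent.Helper181.Gq

/-- vertices of level `k` -/
def V : ℕ → Type
  | 0 => Unit
  | k + 1 => V k × ZMod (o k)

instance instFintypeV : ∀ k, Fintype (V k)
  | 0 => inferInstanceAs (Fintype Unit)
  | k + 1 => @instFintypeProd (V k) (ZMod (o k)) (instFintypeV k) _

def pre : ∀ k, X → V k
  | 0, _ => ()
  | k + 1, x => (pre k x, x k)

abbrev Conf (k : ℕ) := V k → NF k

def nxt (k : ℕ) (c : Conf k) : Conf (k + 1) :=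
  fun (v : V k × ZMod (o k)) => secL k v.2 (c v.1).2

def conf (c0 : Conf 0) : ∀ k, Conf k
  | 0 => c0
  | k + 1 => nxt k (conf c0 k)

def Port : ℕ → Type
  | 0 => Unit
  | k + 1 => Port k × (V k → ZMod (o k))

instance instFinitePort : ∀ k, Finite (Port k)
  | 0 => inferInstanceAs (Finite Unit)
  | k + 1 => by
    have := instFinitePort k
    exact inferInstanceAs (Finite (Port k × (V k → ZMod (o k))))

def HH : ∀ k, Port k → Y → Y → Y
  | 0, _, _, z => z
  | k + 1, p, y, z => HH k p.1 y (rot k (p.2 (pre k y.1)) z)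

def port (c0 : Conf 0) : ∀ k, Port k
  | 0 => ()
  | k + 1 => (port c0 k, fun v => (conf c0 k v).1 + totL k (conf c0 k v).2)

noncomputable def Fc (k : ℕ) (c : Conf k) (y : Y) : Y := ev k (c (pre k y.1)) y

lemma Fc_step (k : ℕ) (c : Conf k) (y : Y) :
    Fc k c y = rot k ((c (pre k y.1)).1 + totL k (c (pre k y.1)).2) (Fc (k + 1) (nxt k c) y) := by
  simp only [Fc, ev]
  rw [evL_sec, rot_rot]
  rfl

lemma Fc_port (c0 : Conf 0) (k : ℕ) (y : Y) :
    Fc 0 c0 y = HH k (port c0 k) y (Fc k (conf c0 k) y) := by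
  induction k with
  | zero => rfl
  | succ k ih =>
    rw [ih, Fc_step]
    rfl

/-! statistics of configurations -/

def S {k : ℕ} (c : Conf k) : ℕ := ∑ v, len (c v)
def Nm {k : ℕ} (c : Conf k) : ℕ := ∑ v, nm (c v)
def Ct {k : ℕ} (δ : E) (c : Conf k) : ℕ := ∑ v, cnt δ (c v)

lemma sum_V {k : ℕ} (f : V (k + 1) → ℕ) :
    ∑ v, f v = ∑ v : V k, ∑ u : ZMod (o k), f ((v, u) : V k × ZMod (o k)) :=
  Fintype.sum_prod_type (f := (f : V k × ZMod (o k) → ℕ))

lemma card_V (k : ℕ) : Fintype.card (V (k + 1)) = Fintype.card (V k) * o k := by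
  have : Fintype.card (V (k + 1)) = Fintype.card (V k × ZMod (o k)) := rfl
  rw [this, Fintype.card_prod, ZMod.card]

lemma card_V_mono : Monotone (fun k => Fintype.card (V k)) := by
  refine monotone_nat_of_le_succ (fun k => ?_)
  change Fintype.card (V k) ≤ Fintype.card (V (k + 1))
  rw [card_V]
  exact Nat.le_mul_of_pos_right _ (by have := o_ge k; omega)

lemma S_nxt (k : ℕ) (c : Conf k) : S (nxt k c) ≤ S c := by
  unfold S
  rw [sum_V]
  exact Finset.sum_le_sum (fun v _ => sum_len k (c v).2)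

lemma Nm_nxt (k : ℕ) (c : Conf k) : Nm (nxt k c) ≤ Nm c := by
  unfold Nm
  rw [sum_V]
  exact Finset.sum_le_sum (fun v _ => sum_nm k (c v).2)

lemma CS_nxt (k : ℕ) (δ : E) (c : Conf k) :
    Ct δ (nxt k c) + S (nxt k c) ≤ Ct δ c + S c := by
  unfold S Ct
  rw [sum_V, sum_V, ← Finset.sum_add_distrib, ← Finset.sum_add_distrib]
  refine Finset.sum_le_sum (fun v _ => ?_)
  rw [← Finset.sum_add_distrib]
  exact sum_cntlen k δ (c v).2

lemma kill_nxt (k : ℕ) (δ : E) (hδ : om k (cst δ) = 0) (c : Conf k) :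
    S (nxt k c) + Ct δ c ≤ S c + Fintype.card (V (k + 1)) := by
  unfold S Ct
  rw [sum_V, ← Finset.sum_add_distrib, card_V]
  have : ∑ v : V k, (len (c v) + o k) = ∑ v, len (c v) + Fintype.card (V k) * o k := by
    rw [Finset.sum_add_distrib]
    simp
  rw [← this]
  exact Finset.sum_le_sum (fun v _ => sum_killed k δ hδ (c v).2)

def box (M : ℕ) : Finset E :=
  (Finset.range (M + 1)) ×ˢ ((Finset.range (M + 1)) ×ˢ (Finset.range (M + 1)))

lemma list_box (k M : ℕ) (l : List (E × ZMod (o k))) :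
    (M + 1) * l.length ≤ (l.map (fun p => sz p.1)).sum +
      (M + 1) * ∑ δ ∈ box M, (l.map Prod.fst).count δ := by
  induction l with
  | nil => simp
  | cons a l ih =>
    obtain ⟨e, r⟩ := a
    simp only [List.length_cons, List.map_cons, List.sum_cons, List.count_cons, beq_iff_eq,
      Finset.sum_add_distrib, mul_add, mul_one]
    have key : M + 1 ≤ sz e + (M + 1) * ∑ δ ∈ box M, (if e = δ then 1 else 0) := by
      by_cases he : e ∈ box M
      · have : ∑ δ ∈ box M, (if e = δ then 1 else 0) = 1 := by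
          rw [Finset.sum_ite_eq]
          simp [he]
        rw [this]
        omega
      · have : M + 1 ≤ sz e := by
          by_contra hcon
          apply he
          simp only [box, Finset.mem_product, Finset.mem_range]
          unfold sz at hcon
          omega
        omega
    omega

lemma conf_box (k M : ℕ) (c : Conf k) :
    (M + 1) * S c ≤ Nm c + (M + 1) * ∑ δ ∈ box M, Ct δ c := by
  unfold S Nm Ct
  rw [Finset.sum_comm, Finset.mul_sum, Finset.mul_sum, ← Finset.sum_add_distrib]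
  exact Finset.sum_le_sum (fun v _ => list_box k M (c v).2)

lemma killed (δ : E) (k : ℕ) : ∃ i, k ≤ i ∧ om i (cst δ) = 0 := by
  obtain ⟨x, y, z⟩ := δ
  rcases Nat.eq_zero_or_pos (x + y) with h | h
  · have hx : x = 0 := by omega
    have hy : y = 0 := by omega
    subst hx hy
    exact ⟨k, le_rfl, by simp [om, cst]⟩
  · refine ⟨Nat.pair (Nat.pair (x + y - 1) y) k, Nat.right_le_pair _ _, ?_⟩
    unfold om
    rw [ZMod.intCast_zmod_eq_zero_iff_dvd]
    have ho : o (Nat.pair (Nat.pair (x + y - 1) y) k + 1) = x + y + 1 := by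
      simp only [o, Nat.unpair_pair]
      omega
    have hb : be (Nat.pair (Nat.pair (x + y - 1) y) k) = y := by
      simp [be, Nat.unpair_pair]
    rw [ho, hb]
    simp only [cst]
    refine ⟨(y : ℤ), ?_⟩
    push_cast
    ring

lemma small_level (k : ℕ) : ∃ i, k ≤ i ∧ o i = 2 := by
  refine ⟨Nat.pair (Nat.pair 0 0) k + 1, ?_, ?_⟩
  · have := Nat.right_le_pair (Nat.pair 0 0) k
    omega
  · simp [o, Nat.unpair_pair]

lemma block_end (M k : ℕ) :
    ∃ k', k ≤ k' ∧ ∀ δ ∈ box M, ∃ i, k ≤ i ∧ i < k' ∧ om i (cst δ) = 0 := by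
  choose f hf using fun δ => killed δ k
  refine ⟨k + ((box M).sup f + 1), by omega, fun δ hδ => ⟨f δ, (hf δ).1, ?_, (hf δ).2⟩⟩
  have := Finset.le_sup (f := f) hδ
  omega

lemma S_anti (c0 : Conf 0) : Antitone (fun k => S (conf c0 k)) :=
  antitone_nat_of_succ_le (fun k => S_nxt k _)

lemma Nm_anti (c0 : Conf 0) : Antitone (fun k => Nm (conf c0 k)) :=
  antitone_nat_of_succ_le (fun k => Nm_nxt k _)

lemma CS_anti (c0 : Conf 0) (δ : E) : Antitone (fun k => Ct δ (conf c0 k) + S (conf c0 k)) :=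
  antitone_nat_of_succ_le (fun k => CS_nxt k δ _)

lemma block (c0 : Conf 0) (M k k' : ℕ)
    (h : ∀ δ ∈ box M, ∃ i, k ≤ i ∧ i < k' ∧ om i (cst δ) = 0) :
    (M + 1) * ((2 * (box M).card + 1) * S (conf c0 k')) ≤
      Nm c0 + (M + 1) * (2 * (box M).card * S (conf c0 k) +
        (box M).card * Fintype.card (V k')) := by
  have h1 : ∀ δ ∈ box M, Ct δ (conf c0 k') + 2 * S (conf c0 k') ≤
      2 * S (conf c0 k) + Fintype.card (V k') := by
    intro δ hδ
    obtain ⟨i, hi, hi', hk⟩ := h δ hδ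
    have a1 := kill_nxt i δ hk (conf c0 i)
    have a2 : Ct δ (conf c0 k') + S (conf c0 k') ≤ Ct δ (conf c0 i) + S (conf c0 i) :=
      CS_anti c0 δ hi'.le
    have a3 : S (conf c0 k') ≤ S (conf c0 (i + 1)) := S_anti c0 hi'
    have a4 : S (conf c0 i) ≤ S (conf c0 k) := S_anti c0 hi
    have a5 : Fintype.card (V (i + 1)) ≤ Fintype.card (V k') := card_V_mono hi'
    have a6 : conf c0 (i + 1) = nxt i (conf c0 i) := rfl
    rw [a6] at a3
    omega
  have h2 := Finset.sum_le_sum h1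
  rw [Finset.sum_add_distrib] at h2
  simp only [Finset.sum_const, smul_eq_mul] at h2
  have h3 := conf_box k' M (conf c0 k')
  have h4 : Nm (conf c0 k') ≤ Nm c0 := Nm_anti c0 (Nat.zero_le k')
  have h5 : (M + 1) * (∑ δ ∈ box M, Ct δ (conf c0 k') +
      (box M).card * (2 * S (conf c0 k'))) ≤
      (M + 1) * ((box M).card * (2 * S (conf c0 k) + Fintype.card (V k'))) :=
    Nat.mul_le_mul_left _ h2
  nlinarith [h3, h4, h5]

theorem iterate (M j : ℕ) : ∃ k : ℕ, ∃ C : ℝ, 0 ≤ C ∧ ∀ (c0 : Conf 0) (n : ℕ), S c0 ≤ n →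
    Nm c0 ≤ n → (S (conf c0 k) : ℝ) ≤
      ((2 * (box M).card / (2 * (box M).card + 1) : ℝ) ^ j + 1 / (M + 1)) * n + C := by
  induction j with
  | zero =>
    refine ⟨0, 0, le_rfl, fun c0 n h1 h2 => ?_⟩
    have : (S (conf c0 0) : ℝ) ≤ n := by exact_mod_cast h1
    refine this.trans ?_
    have hn : (0 : ℝ) ≤ n := Nat.cast_nonneg n
    have hM : (0 : ℝ) ≤ 1 / (M + 1) := by positivity
    rw [pow_zero]
    nlinarith [mul_nonneg hM hn]
  | succ j ih =>
    obtain ⟨k, C, hC, hk⟩ := ih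
    obtain ⟨k', hkk', hb⟩ := block_end M k
    refine ⟨k', C + Fintype.card (V k'), by positivity, fun c0 n h1 h2 => ?_⟩
    have b := block c0 M k k' hb
    have b1 : ((M : ℝ) + 1) * ((2 * (box M).card + 1) * S (conf c0 k')) ≤
      Nm c0 + (M + 1) * (2 * (box M).card * S (conf c0 k) +
        (box M).card * Fintype.card (V k')) := by exact_mod_cast b
    have b2 := hk c0 n h1 h2
    have b3 : (Nm c0 : ℝ) ≤ n := by exact_mod_cast h2
    set m : ℝ := ((box M).card : ℝ) with hm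
    set s : ℝ := (S (conf c0 k') : ℝ)
    set s0 : ℝ := (S (conf c0 k) : ℝ)
    set N : ℝ := (Fintype.card (V k') : ℝ)
    set θ : ℝ := 2 * m / (2 * m + 1) with hθ
    have hm0 : 0 ≤ m := Nat.cast_nonneg _
    have hN0 : 0 ≤ N := Nat.cast_nonneg _
    have hM0 : (0 : ℝ) < (M : ℝ) + 1 := by positivity
    have h2m : (0 : ℝ) < 2 * m + 1 := by positivity
    have hθ1 : θ * (2 * m + 1) = 2 * m := by rw [hθ]; field_simp
    -- bound for s
    have c1 : (2 * m + 1) * s ≤ n / (M + 1) + (2 * m * s0 + m * N) := by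
      have : ((M : ℝ) + 1) * ((2 * m + 1) * s) ≤ ((M : ℝ) + 1) * (n / (M + 1) + (2 * m * s0 + m * N)) := by
        have e : ((M : ℝ) + 1) * (n / (M + 1) + (2 * m * s0 + m * N)) =
          n + (M + 1) * (2 * m * s0 + m * N) := by field_simp
        rw [e]
        linarith
      exact le_of_mul_le_mul_left this hM0
    have c2 : (2 * m + 1) * s ≤ (2 * m + 1) * ((θ ^ (j + 1) + 1 / (M + 1)) * n + (C + N)) := by
      have e1 : (2 * m + 1) * ((θ ^ (j + 1) + 1 / (M + 1)) * n + (C + N)) =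
          (θ * (2 * m + 1)) * θ ^ j * n + (2 * m + 1) * (n / (M + 1)) + (2 * m + 1) * (C + N) := by
        ring
      rw [e1, hθ1]
      have e2 : 2 * m * s0 ≤ 2 * m * ((θ ^ j + 1 / (M + 1)) * n + C) :=
        mul_le_mul_of_nonneg_left b2 (by positivity)
      have e3 : 2 * m * ((θ ^ j + 1 / (M + 1)) * n + C) =
          2 * m * θ ^ j * n + 2 * m * (n / (M + 1)) + 2 * m * C := by ring
      nlinarith [mul_nonneg hm0 hN0, mul_nonneg hm0 hC]
    exact le_of_mul_le_mul_left c2 h2m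

theorem contraction (η : ℝ) (hη : 0 < η) : ∃ K : ℕ, o K = 2 ∧ ∃ C : ℝ, 0 ≤ C ∧
    ∀ (c0 : Conf 0) (n : ℕ), S c0 ≤ n → Nm c0 ≤ n → (S (conf c0 K) : ℝ) ≤ η * n + C := by
  obtain ⟨M, hM⟩ := exists_nat_one_div_lt (show (0 : ℝ) < η / 2 by positivity)
  set θ : ℝ := (2 * (box M).card / (2 * (box M).card + 1) : ℝ) with hθ
  have hθ1 : θ < 1 := by
    rw [hθ, div_lt_one (by positivity)]
    linarith
  obtain ⟨j, hj⟩ := exists_pow_lt_of_lt_one (show (0 : ℝ) < η / 2 by positivity) hθ1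
  obtain ⟨k, C, hC, hk⟩ := iterate M j
  obtain ⟨K, hK, hK2⟩ := small_level k
  refine ⟨K, hK2, C, hC, fun c0 n h1 h2 => ?_⟩
  have a1 : (S (conf c0 K) : ℝ) ≤ S (conf c0 k) := by exact_mod_cast S_anti c0 hK
  refine a1.trans ((hk c0 n h1 h2).trans ?_)
  have : (θ ^ j + 1 / (M + 1)) ≤ η := by linarith
  have hn : (0 : ℝ) ≤ n := Nat.cast_nonneg n
  nlinarith [mul_le_mul_of_nonneg_right this hn]

end Pool.Agent.Helper181.Gq
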