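import Mathlib
import Pool.Agent.Helper181.GqC

set_option autoImplicit false

namespace Pool.Agent.Helper181.Gq

open Classical in
/-- lists of length at most `s` with letters of size at most `n` -/
noncomputable def LL (k n : ℕ) : ℕ → Finset (List (E × ZMod (o k)))
  | 0 => {[]}
  | s + 1 => insert [] (((box n ×ˢ (Finset.univ : Finset (ZMod (o k)))) ×ˢ LL k n s).image
      (fun p => p.1 :: p.2))

lemma mem_LL (k n s : ℕ) (l : List (E × ZMod (o k))) (h1 : l.length ≤ s)
    (h2 : (l.map (fun p => sz p.1)).sum ≤ n) : l ∈ LL k n s := by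
  classical
  induction s generalizing l with
  | zero =>
    have : l = [] := List.length_eq_zero_iff.1 (by omega)
    subst this
    simp [LL]
  | succ s ih =>
    cases l with
    | nil => simp [LL]
    | cons a l =>
      simp only [LL, Finset.mem_insert, Finset.mem_image]
      right
      simp only [List.length_cons, List.map_cons, List.sum_cons] at h1 h2
      refine ⟨(a, l), ?_, rfl⟩
      simp only [Finset.mem_product, Finset.mem_univ, and_true]
      refine ⟨?_, ih l (by omega) (by omega)⟩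
      simp only [box, Finset.mem_product, Finset.mem_range]
      unfold sz at h2
      omega

noncomputable def wt {k : ℕ} (z y : ℝ) (l : List (E × ZMod (o k))) : ℝ :=
  z ^ ((l.map (fun p => sz p.1)).sum) * y ^ l.length

lemma wt_cons {k : ℕ} (z y : ℝ) (a : E × ZMod (o k)) (l : List (E × ZMod (o k))) :
    wt z y (a :: l) = (z ^ (sz a.1) * y) * wt z y l := by
  simp only [wt, List.map_cons, List.sum_cons, List.length_cons, pow_add, pow_succ, pow_zero,
    one_mul]
  ring

lemma geo (z : ℝ) (h0 : 0 ≤ z) (h1 : z < 1) (n : ℕ) :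
    ∑ i ∈ Finset.range n, z ^ i ≤ 1 / (1 - z) := by
  have hz : 0 < 1 - z := by linarith
  rw [le_div_iff₀ hz]
  have := geom_sum_mul_neg z n
  have h2 : 0 ≤ z ^ n := pow_nonneg h0 n
  linarith [this]

lemma box_sum (z : ℝ) (h0 : 0 ≤ z) (h1 : z < 1) (n : ℕ) :
    ∑ e ∈ box n, z ^ (sz e) ≤ (1 / (1 - z)) ^ 3 := by
  have hz : 0 < 1 - z := by linarith
  have e1 : ∑ e ∈ box n, z ^ (sz e) = (∑ i ∈ Finset.range (n + 1), z ^ i) *
      ((∑ i ∈ Finset.range (n + 1), z ^ i) * (∑ i ∈ Finset.range (n + 1), z ^ i)) := by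
    unfold box
    rw [Finset.sum_product, Finset.sum_mul]
    refine Finset.sum_congr rfl (fun i _ => ?_)
    rw [Finset.sum_product, Finset.sum_mul, Finset.mul_sum]
    refine Finset.sum_congr rfl (fun j _ => ?_)
    rw [Finset.mul_sum, Finset.mul_sum]
    refine Finset.sum_congr rfl (fun l _ => ?_)
    simp only [sz, pow_add]
    ring
  rw [e1]
  have g := geo z h0 h1 (n + 1)
  have g0 : 0 ≤ ∑ i ∈ Finset.range (n + 1), z ^ i := Finset.sum_nonneg (fun i _ => pow_nonneg h0 i)
  have gp : 0 ≤ 1 / (1 - z) := by positivity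
  calc _ ≤ (1 / (1 - z)) * ((1 / (1 - z)) * (1 / (1 - z))) := by gcongr
    _ = (1 / (1 - z)) ^ 3 := by ring

lemma LL_sum (k n s : ℕ) (z y : ℝ) (h0 : 0 ≤ z) (h1 : z < 1) (hy : 0 ≤ y)
    (hzy : y * (o k * (1 / (1 - z)) ^ 3) ≤ 1 / 2) :
    ∑ l ∈ LL k n s, wt z y l ≤ 2 := by
  classical
  induction s with
  | zero => simp [LL, wt]
  | succ s ih =>
    have hnn : ∀ l : List (E × ZMod (o k)), 0 ≤ wt z y l := fun l => by
      unfold wt
      positivity
    rw [LL, Finset.sum_insert (by simp), Finset.sum_image (by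
      rintro ⟨a, l⟩ _ ⟨a', l'⟩ _ h
      simp only [List.cons.injEq] at h
      exact Prod.ext h.1 h.2)]
    have e1 : ∑ p ∈ (box n ×ˢ (Finset.univ : Finset (ZMod (o k)))) ×ˢ LL k n s,
        wt z y (p.1 :: p.2) = (∑ a ∈ box n ×ˢ (Finset.univ : Finset (ZMod (o k))),
          z ^ (sz a.1) * y) * ∑ l ∈ LL k n s, wt z y l := by
      rw [Finset.sum_product, Finset.sum_mul]
      refine Finset.sum_congr rfl (fun a _ => ?_)
      rw [Finset.mul_sum]
      exact Finset.sum_congr rfl (fun l _ => wt_cons z y a l)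
    rw [e1]
    have e2 : ∑ a ∈ box n ×ˢ (Finset.univ : Finset (ZMod (o k))), z ^ (sz a.1) * y =
        y * (o k * ∑ e ∈ box n, z ^ (sz e)) := by
      rw [Finset.sum_product]
      simp only [Finset.sum_const, Finset.card_univ, ZMod.card, nsmul_eq_mul]
      rw [Finset.mul_sum, Finset.mul_sum]
      refine Finset.sum_congr rfl (fun a _ => ?_)
      ring
    rw [e2]
    have e3 : y * (o k * ∑ e ∈ box n, z ^ (sz e)) ≤ 1 / 2 := by
      refine le_trans ?_ hzy
      have := box_sum z h0 h1 n
      gcongr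
    have e4 : 0 ≤ ∑ l ∈ LL k n s, wt z y l := Finset.sum_nonneg (fun l _ => hnn l)
    have e5 : wt z y ([] : List (E × ZMod (o k))) = 1 := by simp [wt]
    rw [e5]
    nlinarith

open Classical in
noncomputable def confs (k n s : ℕ) : Finset (Conf k) :=
  (Fintype.piFinset (fun _ : V k => (Finset.univ : Finset (ZMod (o k))) ×ˢ LL k n s)).filter
    (fun c => S c ≤ s ∧ Nm c ≤ n)

lemma mem_confs {k n s : ℕ} (c : Conf k) (h1 : S c ≤ s) (h2 : Nm c ≤ n) : c ∈ confs k n s := by
  classical
  simp only [confs, Finset.mem_filter, Fintype.mem_piFinset, Finset.mem_product, Finset.mem_univ,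
    true_and]
  refine ⟨fun v => mem_LL _ _ _ _ ?_ ?_, h1, h2⟩
  · exact (Finset.single_le_sum (f := fun v => len (c v)) (fun _ _ => Nat.zero_le _)
      (Finset.mem_univ v)).trans h1
  · exact (Finset.single_le_sum (f := fun v => nm (c v)) (fun _ _ => Nat.zero_le _)
      (Finset.mem_univ v)).trans h2

lemma confs_card (k n s : ℕ) (z y : ℝ) (h0 : 0 < z) (h1 : z < 1) (hy : 0 < y) (hy1 : y < 1)
    (hzy : y * (o k * (1 / (1 - z)) ^ 3) ≤ 1 / 2) :
    ((confs k n s).card : ℝ) * (z ^ n * y ^ s) ≤ (2 * o k) ^ (Fintype.card (V k)) := by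
  classical
  have a1 : ((confs k n s).card : ℝ) * (z ^ n * y ^ s) ≤
      ∑ c ∈ confs k n s, ∏ v, wt z y (c v).2 := by
    rw [← nsmul_eq_mul, ← Finset.sum_const]
    refine Finset.sum_le_sum (fun c hc => ?_)
    simp only [confs, Finset.mem_filter] at hc
    have e : ∏ v, wt z y (c v).2 = z ^ (Nm c) * y ^ (S c) := by
      simp only [wt, Finset.prod_mul_distrib, Finset.prod_pow_eq_pow_sum]
      rfl
    rw [e]
    have b1 : z ^ n ≤ z ^ (Nm c) := pow_le_pow_of_le_one h0.le h1.le hc.2.2
    have b2 : y ^ s ≤ y ^ (S c) := pow_le_pow_of_le_one hy.le hy1.le hc.2.1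
    gcongr
  have a2 : ∑ c ∈ confs k n s, ∏ v, wt z y (c v).2 ≤
      ∑ c ∈ Fintype.piFinset (fun _ : V k => (Finset.univ : Finset (ZMod (o k))) ×ˢ LL k n s),
        ∏ v, wt z y (c v).2 := by
    refine Finset.sum_le_sum_of_subset_of_nonneg (Finset.filter_subset _ _) (fun c _ _ => ?_)
    refine Finset.prod_nonneg (fun v _ => ?_)
    unfold wt
    positivity
  refine a1.trans (a2.trans ?_)
  have a3 := Finset.prod_univ_sum
    (fun _ : V k => (Finset.univ : Finset (ZMod (o k))) ×ˢ LL k n s)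
    (fun (_ : V k) (w : NF k) => wt z y w.2)
  rw [← a3, Finset.prod_const, Finset.card_univ]
  have a4 : ∑ w ∈ (Finset.univ : Finset (ZMod (o k))) ×ˢ LL k n s, wt z y w.2 ≤ 2 * o k := by
    rw [Finset.sum_product]
    simp only [Finset.sum_const, Finset.card_univ, ZMod.card, nsmul_eq_mul]
    have := LL_sum k n s z y h0.le h1 hy.le hzy
    nlinarith [Nat.cast_nonneg (α := ℝ) (o k)]
  have a5 : 0 ≤ ∑ w ∈ (Finset.univ : Finset (ZMod (o k))) ×ˢ LL k n s, wt z y w.2 := by
    refine Finset.sum_nonneg (fun v _ => ?_)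
    unfold wt
    positivity
  exact pow_le_pow_left₀ a5 a4 _

open Classical in
theorem count (c : ℝ) (hc : 1 < c) : ∃ N : ℕ, ∀ n ≥ N, ∃ T : Finset (Y → Y),
    (T.card : ℝ) ≤ c ^ n ∧ ∀ c0 : Conf 0, S c0 ≤ n → Nm c0 ≤ n → Fc 0 c0 ∈ T := by
  set L := Real.log c with hL
  have hL0 : 0 < L := Real.log_pos hc
  have hcL : Real.exp L = c := Real.exp_log (by linarith)
  set z := Real.exp (-(L / 4)) with hz
  have hz0 : 0 < z := Real.exp_pos _
  have hz1 : z < 1 := by
    rw [hz, Real.exp_lt_one_iff]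
    linarith
  set y := (1 - z) ^ 3 / 4 with hy
  have h1z : 0 < 1 - z := by linarith
  have h1z' : 1 - z < 1 := by linarith
  have hy0 : 0 < y := by positivity
  have hy1 : y < 1 := by
    have : (1 - z) ^ 3 ≤ 1 := pow_le_one₀ h1z.le h1z'.le
    rw [hy]
    linarith
  set R := -Real.log y with hR
  have hR0 : 0 < R := by
    have := Real.log_neg hy0 hy1
    linarith
  have hyR : Real.exp (-R) = y := by
    rw [hR, neg_neg, Real.exp_log hy0]
  obtain ⟨K, hK, C, hC, hcon⟩ := contraction (L / (4 * R)) (by positivity)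
  have hzy : y * (o K * (1 / (1 - z)) ^ 3) ≤ 1 / 2 := by
    rw [hK, hy]
    have : (1 - z) ^ 3 / 4 * (((2 : ℕ) : ℝ) * (1 / (1 - z)) ^ 3) = 1 / 2 := by
      field_simp
      norm_num
    rw [this]
  set B : ℝ := Nat.card (Port K) * ((2 * o K) ^ (Fintype.card (V K)) * Real.exp (R * C)) with hB
  have hB0 : 0 ≤ B := by positivity
  -- choose N
  obtain ⟨N, hN⟩ : ∃ N : ℕ, ∀ n ≥ N, B ≤ Real.exp (L / 2 * n) := by
    obtain ⟨N, hN⟩ := exists_nat_gt (2 * B / L)
    refine ⟨N, fun n hn => ?_⟩
    have h1 : 2 * B / L ≤ n := hN.le.trans (by exact_mod_cast hn)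
    have h2 : B ≤ L / 2 * n := by
      rw [div_le_iff₀ hL0] at h1
      linarith
    have h3 := Real.add_one_le_exp (L / 2 * n)
    linarith
  refine ⟨N, fun n hn => ?_⟩
  set s := ⌊L / (4 * R) * n + C⌋₊ with hs
  have : Fintype (Port K) := Fintype.ofFinite _
  let F : Port K × Conf K → (Y → Y) := fun p y => HH K p.1 y (Fc K p.2 y)
  refine ⟨((Finset.univ : Finset (Port K)) ×ˢ confs K n s).image F, ?_, ?_⟩
  · have c1 : ((((Finset.univ : Finset (Port K)) ×ˢ confs K n s).image F).card : ℝ) ≤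
        Nat.card (Port K) * (confs K n s).card := by
      have := Finset.card_image_le (s := (Finset.univ : Finset (Port K)) ×ˢ confs K n s) (f := F)
      rw [Finset.card_product, Finset.card_univ, ← Nat.card_eq_fintype_card] at this
      exact_mod_cast this
    refine c1.trans ?_
    have c2 := confs_card K n s z y hz0 hz1 hy0 hy1 hzy
    have c3 : ((confs K n s).card : ℝ) ≤ (2 * o K) ^ (Fintype.card (V K)) *
        (Real.exp (L / 4 * n) * Real.exp (R * s)) := by
      have e1 : z ^ n * Real.exp (L / 4 * n) = 1 := by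
        rw [hz, ← Real.exp_nat_mul, ← Real.exp_add]
        rw [show (n : ℝ) * -(L / 4) + L / 4 * n = 0 by ring, Real.exp_zero]
      have e2 : y ^ s * Real.exp (R * s) = 1 := by
        rw [← hyR, ← Real.exp_nat_mul, ← Real.exp_add]
        rw [show (s : ℝ) * -R + R * s = 0 by ring, Real.exp_zero]
      calc ((confs K n s).card : ℝ) = ((confs K n s).card : ℝ) * (z ^ n * y ^ s) *
            (Real.exp (L / 4 * n) * Real.exp (R * s)) := by
            rw [show ((confs K n s).card : ℝ) * (z ^ n * y ^ s) *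
              (Real.exp (L / 4 * n) * Real.exp (R * s)) = ((confs K n s).card : ℝ) *
              ((z ^ n * Real.exp (L / 4 * n)) * (y ^ s * Real.exp (R * s))) by ring, e1, e2]
            ring
        _ ≤ _ := by gcongr
    have c4 : Real.exp (R * s) ≤ Real.exp (L / 4 * n) * Real.exp (R * C) := by
      rw [← Real.exp_add, Real.exp_le_exp]
      have : (s : ℝ) ≤ L / (4 * R) * n + C := Nat.floor_le (by positivity)
      calc R * s ≤ R * (L / (4 * R) * n + C) := by gcongr
        _ = L / 4 * n + R * C := by field_simp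
    calc (Nat.card (Port K) : ℝ) * (confs K n s).card ≤ Nat.card (Port K) *
          ((2 * o K) ^ (Fintype.card (V K)) *
            (Real.exp (L / 4 * n) * (Real.exp (L / 4 * n) * Real.exp (R * C)))) := by
          gcongr
          refine c3.trans ?_
          gcongr
      _ = B * Real.exp (L / 2 * n) := by
          rw [hB, show L / 2 * (n : ℝ) = L / 4 * n + L / 4 * n by ring, Real.exp_add]
          ring
      _ ≤ Real.exp (L / 2 * n) * Real.exp (L / 2 * n) := by
          gcongr
          exact hN n hn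
      _ = c ^ n := by
          rw [← Real.exp_add, ← hcL, ← Real.exp_nat_mul]
          congr 1
          ring
  · intro c0 h1 h2
    rw [Finset.mem_image]
    refine ⟨(port c0 K, conf c0 K), ?_, ?_⟩
    · simp only [Finset.mem_product, Finset.mem_univ, true_and]
      refine mem_confs _ ?_ ?_
      · rw [hs]
        exact Nat.le_floor (hcon c0 n h1 h2)
      · exact (Nm_anti c0 (Nat.zero_le K)).trans h2
    · funext y'
      exact (Fc_port c0 K y').symm

end Pool.Agent.Helper181.Gq
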