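import Mathlib
import Pool.Agent.Helper181.GqD

set_option autoImplicit false

namespace Pool.Agent.Helper181.Gq

/-! general facts on balls -/

section general

variable {G : Type} [Group G]

def ball (Q : G → Prop) (n : ℕ) : Set G :=
  {g : G | ∃ l : List G, (∀ x ∈ l, Q x) ∧ l.length ≤ n ∧ l.prod = g}

lemma ball_finite (Q : G → Prop) (hQ : {x | Q x}.Finite) (n : ℕ) : (ball Q n).Finite := by
  have : Finite {x | Q x} := hQ
  have h1 : {l : List {x | Q x} | l.length ≤ n}.Finite := List.finite_length_le _ n
  refine (h1.image (fun l => (l.map Subtype.val).prod)).subset ?_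
  rintro g ⟨l, hl, hn, rfl⟩
  refine ⟨l.attach.map (fun x => ⟨x.1, hl x.1 x.2⟩), ?_, ?_⟩
  · simp only [Set.mem_setOf_eq, List.length_map, List.length_attach]
    exact hn
  · simp only [List.map_map]
    congr 1
    have : (Subtype.val ∘ fun x : {x // x ∈ l} => (⟨x.1, hl x.1 x.2⟩ : {x | Q x})) =
        Subtype.val := rfl
    rw [this, List.attach_map_subtype_val]

lemma ball_mono (Q : G → Prop) {m n : ℕ} (h : m ≤ n) : ball Q m ⊆ ball Q n := by
  rintro g ⟨l, hl, hn, hp⟩
  exact ⟨l, hl, hn.trans h, hp⟩

lemma two_pow_le_ball (Q : G → Prop) (hQ : {x | Q x}.Finite) (T m : ℕ)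
    (q : List Bool → List G) (h1 : ∀ l, ∀ x ∈ q l, Q x) (h2 : ∀ l, (q l).length ≤ T * l.length)
    (hinj : ∀ l l' : List Bool, l.length = m → l'.length = m → (q l).prod = (q l').prod → l = l') :
    2 ^ m ≤ (ball Q (T * m)).ncard := by
  have hfin := ball_finite Q hQ (T * m)
  have hf : ∀ v : List.Vector Bool m, (q v.toList).prod ∈ ball Q (T * m) := by
    intro v
    refine ⟨q v.toList, h1 _, ?_, rfl⟩
    have := h2 v.toList
    rwa [List.Vector.toList_length] at this
  have hinj' : Function.Injective (fun v : List.Vector Bool m => (q v.toList).prod) := by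
    intro v v' h
    exact List.Vector.toList_injective (hinj _ _ v.toList_length v'.toList_length h)
  have h3 := Set.ncard_le_ncard (s := Set.range (fun v : List.Vector Bool m => (q v.toList).prod))
    (t := ball Q (T * m)) (by rintro _ ⟨v, rfl⟩; exact hf v) hfin
  rw [← Set.image_univ, Set.ncard_image_of_injective _ hinj', Set.ncard_univ,
    Nat.card_eq_fintype_card, card_vector, Fintype.card_bool] at h3
  exact h3

lemma mem_sg_of_list (A : Finset G) (a0 : G) (h0 : a0 ∈ A) (l : List G) (hl : ∀ x ∈ l, x ∈ A) :
    a0 * l.prod ∈ Subsemigroup.closure (A : Set G) := by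
  induction l using List.reverseRecOn with
  | nil =>
    simp only [List.prod_nil, mul_one]
    exact Subsemigroup.subset_closure h0
  | append_singleton l x ih =>
    rw [List.prod_append, List.prod_singleton, ← mul_assoc]
    refine mul_mem (ih (fun y hy => hl y (by simp [hy]))) ?_
    exact Subsemigroup.subset_closure (hl x (by simp))

/-- the left Ore condition for positive words of non-exponential growth -/
lemma ore (A : Finset G)
    (hgr : ∀ c : ℝ, 1 < c → ∃ N : ℕ, ∀ n ≥ N, ((ball (fun x => x ∈ A) n).ncard : ℝ) ≤ c ^ n)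
    (lt : List G) (hlt : ∀ x ∈ lt, x ∈ A) (a : G) (ha : a ∈ A) :
    ∃ u v : List G, (∀ x ∈ u, x ∈ A) ∧ (∀ x ∈ v, x ∈ A) ∧ u.prod * lt.prod = v.prod * a := by
  by_contra hcon
  push_neg at hcon
  let q : List Bool → List G := fun l => List.rec [] (fun f _ w => w ++ (if f then lt else [a])) l
  have hq0 : q [] = [] := rfl
  have hqc : ∀ f l, q (f :: l) = q l ++ (if f then lt else [a]) := fun f l => rfl
  set T := lt.length + 1 with hT
  have h1 : ∀ l, ∀ x ∈ q l, x ∈ A := by
    intro l
    induction l with
    | nil => simp [hq0]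
    | cons f l ih =>
      intro x hx
      rw [hqc, List.mem_append] at hx
      rcases hx with hx | hx
      · exact ih x hx
      · cases f
        · simp only [Bool.false_eq_true, if_false, List.mem_singleton] at hx
          rw [hx]
          exact ha
        · simp only [if_true] at hx
          exact hlt x hx
  have h2 : ∀ l, (q l).length ≤ T * l.length := by
    intro l
    induction l with
    | nil => simp [hq0]
    | cons f l ih =>
      rw [hqc, List.length_append, List.length_cons]
      have : (if f then lt else [a]).length ≤ T := by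
        cases f <;> simp [hT]
      nlinarith
  have hinj : ∀ m, ∀ l l' : List Bool, l.length = m → l'.length = m →
      (q l).prod = (q l').prod → l = l' := by
    intro m
    induction m with
    | zero =>
      intro l l' hl hl' _
      rw [List.length_eq_zero_iff.1 hl, List.length_eq_zero_iff.1 hl']
    | succ m ih =>
      intro l l' hl hl' h
      cases l with
      | nil => simp at hl
      | cons f l =>
        cases l' with
        | nil => simp at hl'
        | cons f' l' =>
          simp only [List.length_cons, Nat.succ.injEq, Nat.add_right_cancel_iff] at hl hl'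
          rw [hqc, hqc, List.prod_append, List.prod_append] at h
          cases f <;> cases f'
          · simp only [Bool.false_eq_true, if_false, mul_left_inj] at h
            rw [ih l l' hl hl' h]
          · simp only [Bool.false_eq_true, if_false, if_true, List.prod_singleton] at h
            exact absurd h.symm (hcon (q l') (q l) (h1 _) (h1 _))
          · simp only [Bool.false_eq_true, if_false, if_true, List.prod_singleton] at h
            exact absurd h (hcon (q l) (q l') (h1 _) (h1 _))
          · simp only [if_true, mul_left_inj] at h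
            rw [ih l l' hl hl' h]
  have hQ : {x | x ∈ A}.Finite := A.finite_toSet
  -- a number whose T-th power is 3/2
  set c : ℝ := (3 / 2 : ℝ) ^ ((T : ℝ)⁻¹) with hc
  have hcT : c ^ T = 3 / 2 := Real.rpow_inv_natCast_pow (by norm_num) (by omega)
  have hc1 : 1 < c := by
    rw [hc]
    exact Real.one_lt_rpow (by norm_num) (by positivity)
  obtain ⟨N, hN⟩ := hgr c hc1
  have h3 := two_pow_le_ball (fun x => x ∈ A) hQ T (N + 1) q h1 h2 (hinj (N + 1))
  have h4 := hN (T * (N + 1)) (by nlinarith)
  have h5 : (2 : ℝ) ^ (N + 1) ≤ (3 / 2 : ℝ) ^ (N + 1) := by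
    rw [← hcT, ← pow_mul]
    refine le_trans ?_ h4
    exact_mod_cast h3
  have h6 : (3 / 2 : ℝ) ^ (N + 1) < 2 ^ (N + 1) :=
    pow_lt_pow_left₀ (by norm_num) (by norm_num) (by omega)
  linarith

/-- a group generated by a finite set whose positive words have non-exponential growth is
the group of left quotients of these positive words -/
lemma left_quotients (A : Finset G) (a0 : G) (h0 : a0 ∈ A)
    (hgen : Subgroup.closure (A : Set G) = ⊤)
    (hgr : ∀ c : ℝ, 1 < c → ∃ N : ℕ, ∀ n ≥ N, ((ball (fun x => x ∈ A) n).ncard : ℝ) ≤ c ^ n)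
    (g : G) : ∃ s ∈ Subsemigroup.closure (A : Set G), ∃ t ∈ Subsemigroup.closure (A : Set G),
      g = s⁻¹ * t := by
  suffices H : ∃ u v : List G, (∀ x ∈ u, x ∈ A) ∧ (∀ x ∈ v, x ∈ A) ∧ g = u.prod⁻¹ * v.prod by
    obtain ⟨u, v, hu, hv, hg⟩ := H
    refine ⟨_, mem_sg_of_list A a0 h0 u hu, _, mem_sg_of_list A a0 h0 v hv, ?_⟩
    rw [hg]
    group
  have hg : g ∈ Subgroup.closure (A : Set G) := by rw [hgen]; trivial
  induction hg using Subgroup.closure_induction_right with
  | one => exact ⟨[], [], by simp, by simp, by simp⟩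
  | mul_right x _ a ha ih =>
    obtain ⟨u, v, hu, hv, hx⟩ := ih
    refine ⟨u, v ++ [a], hu, ?_, ?_⟩
    · intro y hy
      rw [List.mem_append, List.mem_singleton] at hy
      rcases hy with hy | hy
      · exact hv y hy
      · rw [hy]
        exact ha
    · rw [hx, List.prod_append, List.prod_singleton, mul_assoc]
  | mul_inv_cancel x _ a ha ih =>
    obtain ⟨u, v, hu, hv, hx⟩ := ih
    obtain ⟨u', v', hu', hv', h⟩ := ore A hgr v hv a ha
    refine ⟨u' ++ u, v', ?_, hv', ?_⟩
    · intro y hy
      rw [List.mem_append] at hy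
      exact hy.elim (hu' y) (hu y)
    · rw [hx, List.prod_append]
      have : v.prod * a⁻¹ = u'.prod⁻¹ * v'.prod := by
        rw [eq_inv_mul_iff_mul_eq, ← mul_assoc, h]
        group
      rw [mul_assoc, this]
      group

end general

/-! the permutations -/

noncomputable def rotP (k : ℕ) (r : ZMod (o k)) : Equiv.Perm Y where
  toFun := rot k r
  invFun := rot k (-r)
  left_inv y := by rw [rot_rot, neg_add_cancel, rot_zero]
  right_inv y := by rw [rot_rot, add_neg_cancel, rot_zero]

noncomputable def actP (k : ℕ) (d : D) : Equiv.Perm Y where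
  toFun := act k d
  invFun := act k (-d)
  left_inv y := by rw [act_act, neg_add_cancel, act_zero_letter]
  right_inv y := by rw [act_act, add_neg_cancel, act_zero_letter]

noncomputable def pa : Equiv.Perm Y := rotP 0 1
noncomputable def pb : Equiv.Perm Y := actP 0 (1, 0, 0)
noncomputable def pc : Equiv.Perm Y := actP 0 (0, 1, 0)
noncomputable def ps : Equiv.Perm Y := actP 0 (0, 0, 1)

def gens : Set (Equiv.Perm Y) := {pa, pb, pc, ps}

lemma exists_nf (l : List (Equiv.Perm Y)) (hl : ∀ x ∈ l, x ∈ gens) :
    ∃ w : NF 0, len w ≤ l.length ∧ nm w ≤ l.length ∧ ∀ y, l.prod y = ev 0 w y := by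
  induction l with
  | nil => exact ⟨(0, []), by simp [len], by simp [nm], fun y => by simp [ev, evL, rot_zero]⟩
  | cons g l ih =>
    obtain ⟨w, h1, h2, h3⟩ := ih (fun x hx => hl x (by simp [hx]))
    have hg := hl g (by simp)
    simp only [gens, Set.mem_insert_iff, Set.mem_singleton_iff] at hg
    have hD : ∀ e : E, sz e = 1 → g = actP 0 (cst e) →
        ∃ w : NF 0, len w ≤ (g :: l).length ∧ nm w ≤ (g :: l).length ∧
          ∀ y, (g :: l).prod y = ev 0 w y := by
      intro e he hge
      refine ⟨addD 0 e w, ?_, ?_, fun y => ?_⟩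
      · have := len_addD 0 e w
        simp only [List.length_cons]
        omega
      · have := nm_addD 0 e w
        simp only [List.length_cons]
        omega
      · rw [ev_addD, ← h3, List.prod_cons, Equiv.Perm.mul_apply, hge]
        rfl
    rcases hg with hg | hg | hg | hg
    · refine ⟨addR 0 1 w, ?_, ?_, fun y => ?_⟩
      · rw [len_addR]
        simp only [List.length_cons]
        omega
      · rw [nm_addR]
        simp only [List.length_cons]
        omega
      · rw [ev_addR, ← h3, List.prod_cons, Equiv.Perm.mul_apply, hg]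
        rfl
    · exact hD (1, 0, 0) rfl (by rw [hg]; simp [pb, cst])
    · exact hD (0, 1, 0) rfl (by rw [hg]; simp [pc, cst])
    · exact hD (0, 0, 1) rfl (by rw [hg]; simp [ps, cst])

/-- positive words have non-exponential growth -/
theorem positive_growth (c : ℝ) (hc : 1 < c) : ∃ N : ℕ, ∀ n ≥ N,
    ((ball (fun x => x ∈ gens) n).ncard : ℝ) ≤ c ^ n := by
  obtain ⟨N, hN⟩ := count c hc
  refine ⟨N, fun n hn => ?_⟩
  obtain ⟨T, hT1, hT2⟩ := hN n hn
  refine le_trans ?_ hT1
  have h1 : (fun g : Equiv.Perm Y => (g : Y → Y)) '' (ball (fun x => x ∈ gens) n) ⊆ (T : Set (Y → Y)) := by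
    rintro _ ⟨g, ⟨l, hl, hn', rfl⟩, rfl⟩
    obtain ⟨w, w1, w2, w3⟩ := exists_nf l hl
    have e : (fun y => (l.prod) y) = Fc 0 (fun _ => w) := by
      funext y
      rw [w3 y]
      rfl
    rw [Finset.mem_coe]
    change (fun y => (l.prod) y) ∈ T
    rw [e]
    have i1 : S (k := 0) (fun _ => w) = len w := by
      change ∑ v : Unit, len w = len w
      simp
    have i2 : Nm (k := 0) (fun _ => w) = nm w := by
      change ∑ v : Unit, nm w = nm w
      simp
    exact hT2 _ (by rw [i1]; exact w1.trans hn') (by rw [i2]; exact w2.trans hn')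
  have h2 := Set.ncard_le_ncard h1 T.finite_toSet
  rw [Set.ncard_image_of_injective _ (fun g g' h => Equiv.Perm.ext (fun y => congrFun h y)),
    Set.ncard_coe_finset] at h2
  exact_mod_cast h2

end Pool.Agent.Helper181.Gq
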