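import Mathlib
import Pool.Agent.Helper181.GqE

set_option autoImplicit false

namespace Pool.Agent.Helper181.Gq

def ee : D := (-1, 1, 0)

lemma om_ee (i : ℕ) : om i ee = 1 := by
  simp [om, ee]

noncomputable def TT (k : ℕ) (y : Y) : Y := rot k 1 (act k ee y)

lemma TT_self (k : ℕ) (y : Y) : (TT k y).1 k = y.1 k + 1 := by
  rw [TT, rot_self, act_le _ _ _ _ le_rfl]

lemma TT_pre (k : ℕ) (y : Y) : (TT (k + 1) y).1 k = y.1 k := by
  rw [TT, rot_ne _ _ _ _ (by omega), act_le _ _ _ _ (by omega)]

lemma TT_iter_self (k n : ℕ) (y : Y) : ((TT k)^[n] y).1 k = y.1 k + n := by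
  induction n with
  | zero => simp
  | succ n ih =>
    rw [Function.iterate_succ_apply', TT_self, ih]
    push_cast
    ring

lemma TT_iter_pre (k n : ℕ) (y : Y) : ((TT (k + 1))^[n] y).1 k = y.1 k := by
  induction n with
  | zero => simp
  | succ n ih => rw [Function.iterate_succ_apply', TT_pre, ih]

lemma TT_iter (k : ℕ) (y : Y) (hy : y.1 k = 0) (j : ℕ) (h2 : 2 ≤ j) (hj : j ≤ o k) :
    (TT k)^[j] y = rot k (j : ZMod (o k)) (rot (k + 1) 1 (act (k + 1) ee y)) := by
  induction j, h2 using Nat.le_induction with
  | base =>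
    have e1 : TT k y = rot k 1 (act (k + 1) ee y) := by rw [TT, act_zero _ hy]
    have c1 : (rot k 1 (act (k + 1) ee y)).1 k = 1 := by
      rw [rot_self, act_le _ _ _ _ (by omega), hy, zero_add]
    rw [Function.iterate_succ_apply', Function.iterate_one, e1, TT, act_one _ c1, om_ee,
      rot_comm, rot_rot]
    norm_num
  | succ j h2 ih =>
    rw [Function.iterate_succ_apply', ih (by omega)]
    set w := rot k (j : ZMod (o k)) (rot (k + 1) 1 (act (k + 1) ee y)) with hw
    have c : w.1 k = (j : ZMod (o k)) := by
      rw [hw, rot_self, rot_ne _ _ _ _ (by omega), act_le _ _ _ _ (by omega), hy, zero_add]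
    have c0 : w.1 k ≠ 0 := by
      rw [c]
      intro h
      rw [ZMod.natCast_eq_zero_iff] at h
      have := Nat.le_of_dvd (by omega) h
      omega
    have c1 : w.1 k ≠ 1 := by
      rw [c]
      intro h
      have h' : ((j : ℕ) : ZMod (o k)) = ((1 : ℕ) : ZMod (o k)) := by rw [h, Nat.cast_one]
      rw [ZMod.natCast_eq_natCast_iff] at h'
      have := Nat.ModEq.eq_of_lt_of_lt h' (by omega) (by omega)
      omega
    rw [TT, act_other _ c0 c1, hw, rot_rot]
    congr 1
    push_cast
    ring

lemma TT_full (k : ℕ) (y : Y) (hy : y.1 k = 0) : (TT k)^[o k] y = TT (k + 1) y := by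
  rw [TT_iter k y hy (o k) (o_ge k) le_rfl, ZMod.natCast_self, rot_zero, TT]

lemma TT_full_iter (k m : ℕ) (y : Y) (hy : y.1 k = 0) :
    (TT k)^[o k * m] y = (TT (k + 1))^[m] y := by
  induction m with
  | zero => simp
  | succ m ih =>
    rw [Nat.mul_succ, Nat.add_comm, Function.iterate_add_apply, ih, TT_full, Function.iterate_succ_apply']
    rw [TT_iter_pre, hy]

lemma TT_nonper (n : ℕ) : 1 ≤ n → ∀ k, ∀ y : Y, y.1 = 0 → ((TT k)^[n] y).1 ≠ 0 := by
  induction n using Nat.strong_induction_on with
  | _ n ih =>
    intro hn k y hy h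
    have hyk : y.1 k = 0 := by rw [hy]; rfl
    have h1 := TT_iter_self k n y
    rw [hyk, zero_add] at h1
    have h2 : ((TT k)^[n] y).1 k = 0 := by rw [h]; rfl
    rw [h2] at h1
    have h3 : o k ∣ n := (ZMod.natCast_eq_zero_iff n (o k)).1 h1.symm
    obtain ⟨m, rfl⟩ := h3
    have hm : 1 ≤ m := by
      rcases Nat.eq_zero_or_pos m with h0 | h0
      · subst h0
        simp at hn
      · exact h0
    rw [TT_full_iter k m y hyk] at h
    refine ih m ?_ hm (k + 1) y hy h
    have := o_ge k
    nlinarith

noncomputable def pt : Equiv.Perm Y := pa * (pc * pb⁻¹)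

lemma pt_apply (y : Y) : pt y = TT 0 y := by
  change rot 0 1 (act 0 (0, 1, 0) (act 0 (-(1, 0, 0)) y)) = _
  rw [act_act, TT]
  congr 2

lemma pt_pow (n : ℕ) (y : Y) : (pt ^ n) y = (TT 0)^[n] y := by
  induction n with
  | zero => simp
  | succ n ih => rw [pow_succ', Equiv.Perm.mul_apply, ih, pt_apply, Function.iterate_succ_apply']

lemma ps_apply_ne (y : Y) (h : y.1 ≠ 0) : ps y = y := by
  change act 0 (0, 0, 1) y = y
  classical
  refine Prod.ext ?_ ?_
  · funext i
    cases i with
    | zero => rfl
    | succ j => simp [act, actX_succ, om]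
  · simp only [act]
    rw [if_neg]
    intro H
    exact h (funext (fun l => H l (Nat.zero_le l)))

lemma ps_apply_zero (y : Y) (h : y.1 = 0) : (ps y).2 = y.2 + 1 := by
  change (act 0 (0, 0, 1) y).2 = _
  simp only [act]
  rw [if_pos]
  intro l _
  rw [h]
  rfl

/-- the words of the lamplighter subgroup -/
noncomputable def gl : List Bool → Equiv.Perm Y
  | [] => 1
  | f :: l => (if f then ps else 1) * (pt * gl l)

lemma gl_apply (l : List Bool) (y : Y) (h : ∀ i, 1 ≤ i → i ≤ l.length → ((pt ^ i) y).1 ≠ 0) :
    gl l y = (pt ^ l.length) y := by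
  induction l with
  | nil => simp [gl]
  | cons f l ih =>
    have e := ih (fun i h1 h2 => h i h1 (by simp only [List.length_cons]; omega))
    have e2 : pt (gl l y) = (pt ^ (f :: l).length) y := by
      rw [e, List.length_cons, pow_succ', Equiv.Perm.mul_apply]
    rw [gl, Equiv.Perm.mul_apply, Equiv.Perm.mul_apply, e2]
    cases f
    · simp
    · simp only [if_true]
      exact ps_apply_ne _ (h _ (by simp) le_rfl)

lemma gl_inj (m : ℕ) : ∀ l l' : List Bool, l.length = m → l'.length = m → gl l = gl l' → l = l' := by
  induction m with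
  | zero =>
    intro l l' hl hl' _
    rw [List.length_eq_zero_iff.1 hl, List.length_eq_zero_iff.1 hl']
  | succ m ih =>
    intro l l' hl hl' h
    cases l with
    | nil => simp at hl
    | cons f l =>
      cases l' with
      | nil => simp at hl'
      | cons f' l' =>
        simp only [List.length_cons, Nat.add_right_cancel_iff] at hl hl'
        -- the test point
        let y0 : Y := (0, 0)
        let y : Y := (pt ^ (m + 1))⁻¹ y0
        have hy : (pt ^ (m + 1)) y = y0 := by simp [y]
        have hne : ∀ i, 1 ≤ i → i ≤ m → ((pt ^ i) y).1 ≠ 0 := by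
          intro i h1 h2 h0
          have e1 : (pt ^ (m + 1 - i)) ((pt ^ i) y) = y0 := by
            rw [← Equiv.Perm.mul_apply, ← pow_add, show m + 1 - i + i = m + 1 by omega, hy]
          have e2 := TT_nonper (m + 1 - i) (by omega) 0 _ h0
          rw [← pt_pow, e1] at e2
          exact e2 rfl
        have key : ∀ (f : Bool) (l : List Bool), l.length = m →
            (gl (f :: l) y).2 = if f then 1 else 0 := by
          intro f l hl
          have e := gl_apply l y (by rw [hl]; exact hne)
          have e2 : pt (gl l y) = y0 := by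
            rw [e, hl, ← hy, pow_succ', Equiv.Perm.mul_apply]
          rw [gl, Equiv.Perm.mul_apply, Equiv.Perm.mul_apply, e2]
          cases f
          · simp [y0]
          · simp only [if_true]
            rw [ps_apply_zero _ rfl]
            simp [y0]
        have k1 := key f l hl
        have k2 := key f' l' hl'
        rw [h, k2] at k1
        have hff : f = f' := by
          cases f <;> cases f' <;> simp_all
        subst hff
        have h' : gl l = gl l' := by
          have := h
          rw [gl, gl] at this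
          exact mul_left_cancel (mul_left_cancel this)
        rw [ih l l' hl hl' h']

end Pool.Agent.Helper181.Gq
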