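import Mathlib
import Pool.Agent.Helper181.GqF

set_option autoImplicit false

namespace Pool.Agent.Helper181.Gq

lemma gens_finite : gens.Finite := by
  unfold gens
  exact Set.toFinite _

abbrev GG : Type := ↥(Subgroup.closure gens)

lemma A_finite : {x : GG | (x : Equiv.Perm Y) ∈ gens}.Finite :=
  gens_finite.preimage (Subtype.val_injective.injOn)

noncomputable def AA : Finset GG := A_finite.toFinset

lemma mem_AA (x : GG) : x ∈ AA ↔ (x : Equiv.Perm Y) ∈ gens := by
  simp [AA]

lemma AA_coe : (AA : Set GG) = (fun x : GG => (x : Equiv.Perm Y)) ⁻¹' gens := by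
  ext x
  simp [mem_AA]

lemma AA_gen : Subgroup.closure (AA : Set GG) = ⊤ := by
  rw [AA_coe]
  exact Subgroup.closure_closure_coe_preimage

lemma AA_growth (c : ℝ) (hc : 1 < c) : ∃ N : ℕ, ∀ n ≥ N,
    ((ball (fun x => x ∈ AA) n).ncard : ℝ) ≤ c ^ n := by
  obtain ⟨N, hN⟩ := positive_growth c hc
  refine ⟨N, fun n hn => le_trans ?_ (hN n hn)⟩
  have h1 : (Subtype.val : GG → Equiv.Perm Y) '' (ball (fun x => x ∈ AA) n) ⊆
      ball (fun x => x ∈ gens) n := by
    rintro _ ⟨g, ⟨l, hl, hn', rfl⟩, rfl⟩
    refine ⟨l.map Subtype.val, ?_, by simpa using hn', ?_⟩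
    · intro x hx
      rw [List.mem_map] at hx
      obtain ⟨y, hy, rfl⟩ := hx
      exact (mem_AA y).1 (hl y hy)
    · exact (SubmonoidClass.coe_list_prod l).symm
  have h2 := Set.ncard_le_ncard h1 (ball_finite _ gens_finite n)
  rw [Set.ncard_image_of_injective _ Subtype.val_injective] at h2
  exact_mod_cast h2

noncomputable def ga : GG := ⟨pa, Subgroup.subset_closure (by simp [gens])⟩
noncomputable def gb : GG := ⟨pb, Subgroup.subset_closure (by simp [gens])⟩
noncomputable def gc : GG := ⟨pc, Subgroup.subset_closure (by simp [gens])⟩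
noncomputable def gs : GG := ⟨ps, Subgroup.subset_closure (by simp [gens])⟩

lemma ga_mem : ga ∈ AA := (mem_AA _).2 (by simp [ga, gens])
lemma gb_mem : gb ∈ AA := (mem_AA _).2 (by simp [gb, gens])
lemma gc_mem : gc ∈ AA := (mem_AA _).2 (by simp [gc, gens])
lemma gs_mem : gs ∈ AA := (mem_AA _).2 (by simp [gs, gens])

noncomputable def qq : List Bool → List GG
  | [] => []
  | f :: l => (if f then [gs] else []) ++ (ga :: gc :: gb⁻¹ :: qq l)

lemma qq_prod (l : List Bool) : ((qq l).prod : Equiv.Perm Y) = gl l := by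
  induction l with
  | nil => simp [qq, gl]
  | cons f l ih =>
    rw [qq, gl, List.prod_append, List.prod_cons, List.prod_cons, List.prod_cons]
    simp only [Subgroup.coe_mul, Subgroup.coe_inv, ih, pt]
    have : (((if f then [gs] else []) : List GG).prod : Equiv.Perm Y) = if f then ps else 1 := by
      cases f <;> simp [gs]
    rw [this]
    simp only [ga, gb, gc, mul_assoc]

lemma qq_len (l : List Bool) : (qq l).length ≤ 4 * l.length := by
  induction l with
  | nil => simp [qq]
  | cons f l ih =>
    rw [qq, List.length_append]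
    simp only [List.length_cons]
    have : ((if f then [gs] else []) : List GG).length ≤ 1 := by cases f <;> simp
    omega

lemma qq_mem (l : List Bool) : ∀ x ∈ qq l, x ∈ AA ∨ x⁻¹ ∈ AA := by
  induction l with
  | nil => simp [qq]
  | cons f l ih =>
    intro x hx
    rw [qq, List.mem_append, List.mem_cons, List.mem_cons, List.mem_cons] at hx
    rcases hx with hx | hx | hx | hx | hx
    · cases f
      · simp at hx
      · simp only [if_true, List.mem_singleton] at hx
        rw [hx]
        exact Or.inl gs_mem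
    · rw [hx]
      exact Or.inl ga_mem
    · rw [hx]
      exact Or.inl gc_mem
    · rw [hx, inv_inv]
      exact Or.inr gb_mem
    · exact ih x hx

lemma sym_finite : {x : GG | x ∈ AA ∨ x⁻¹ ∈ AA}.Finite := by
  have h1 : {x : GG | x ∈ AA}.Finite := AA.finite_toSet
  have h2 : {x : GG | x⁻¹ ∈ AA}.Finite := h1.preimage (inv_injective.injOn)
  exact h1.union h2

lemma gs_ne_one : gs ≠ 1 := by
  intro h
  have h1 : ps = 1 := congrArg Subtype.val h
  have h2 := ps_apply_zero (0, 0) rfl
  rw [h1] at h2
  simp at h2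

theorem exp_growth : ∃ c : ℝ, 1 < c ∧ ∀ n : ℕ,
    c ^ n ≤ ((ball (fun x : GG => x ∈ AA ∨ x⁻¹ ∈ AA) n).ncard : ℝ) := by
  set c : ℝ := (2 : ℝ) ^ (((8 : ℕ) : ℝ)⁻¹) with hc
  have hc8 : c ^ 8 = 2 := Real.rpow_inv_natCast_pow (by norm_num) (by norm_num)
  have hc1 : 1 < c := Real.one_lt_rpow (by norm_num) (by positivity)
  refine ⟨c, hc1, fun n => ?_⟩
  have key : ∀ m, 2 ^ m ≤ (ball (fun x : GG => x ∈ AA ∨ x⁻¹ ∈ AA) (4 * m)).ncard := by
    intro m
    refine two_pow_le_ball _ sym_finite 4 m qq qq_mem qq_len (fun l l' hl hl' h => ?_)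
    refine gl_inj m l l' hl hl' ?_
    rw [← qq_prod, ← qq_prod, h]
  have key1 : 2 ^ 1 ≤ (ball (fun x : GG => x ∈ AA ∨ x⁻¹ ∈ AA) (1 * 1)).ncard := by
    refine two_pow_le_ball _ sym_finite 1 1
      (fun l => List.rec [] (fun f _ w => (if f then [gs] else []) ++ w) l) ?_ ?_ ?_
    · intro l
      induction l with
      | nil => simp
      | cons f l ih =>
        intro x hx
        simp only [List.mem_append] at hx
        rcases hx with hx | hx
        · cases f
          · simp at hx
          · simp only [if_true, List.mem_singleton] at hx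
            rw [hx]
            exact Or.inl gs_mem
        · exact ih x hx
    · intro l
      induction l with
      | nil => simp
      | cons f l ih =>
        simp only [List.length_append, List.length_cons]
        have : ((if f then [gs] else []) : List GG).length ≤ 1 := by cases f <;> simp
        omega
    · intro l l' hl hl' h
      obtain ⟨f, rfl⟩ := List.length_eq_one_iff.1 hl
      obtain ⟨f', rfl⟩ := List.length_eq_one_iff.1 hl'
      cases f <;> cases f'
      · rfl
      · exact absurd (by simpa using h.symm) gs_ne_one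
      · exact absurd (by simpa using h) gs_ne_one
      · rfl
  rcases Nat.lt_or_ge n 4 with h4 | h4
  · rcases Nat.eq_zero_or_pos n with h0 | h0
    · subst h0
      have := key 0
      rw [pow_zero]
      exact_mod_cast this
    · have h1 : c ^ n ≤ c ^ 8 := pow_le_pow_right₀ hc1.le (by omega)
      rw [hc8] at h1
      refine h1.trans ?_
      have h2 := Set.ncard_le_ncard (ball_mono (fun x : GG => x ∈ AA ∨ x⁻¹ ∈ AA)
        (show 1 * 1 ≤ n by omega)) (ball_finite _ sym_finite n)
      have h3 := key1.trans h2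
      exact_mod_cast h3
  · have h1 : c ^ n ≤ c ^ (8 * (n / 4)) := pow_le_pow_right₀ hc1.le (by omega)
    rw [pow_mul, hc8] at h1
    refine h1.trans ?_
    have h2 := Set.ncard_le_ncard (ball_mono (fun x : GG => x ∈ AA ∨ x⁻¹ ∈ AA)
      (show 4 * (n / 4) ≤ n by omega)) (ball_finite _ sym_finite n)
    have h3 := (key (n / 4)).trans h2
    exact_mod_cast h3

end Pool.Agent.Helper181.Gq
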