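import Mathlib

set_option autoImplicit false

namespace Pool.Agent.Helper181.Thin

open Matrix

/-- Algebraic data: an element `pi` with residue ring `ZMod 3`, `3 = pi ^ e`. -/
structure RD (R : Type) [CommRing R] where
  pi : R
  e : ℕ
  rho : R →+* ZMod 3
  he : 1 ≤ e
  h3 : (3 : R) = pi ^ e
  hrho : ∀ x, rho x = 0 ↔ pi ∣ x
  hnz : ∀ x, pi * x = 0 → x = 0
  hsep : ∀ x, (∀ n, pi ^ n ∣ x) → x = 0

variable {R : Type} [CommRing R] (D : RD R)

/-- underlying matrix -/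
def mt (g : SpecialLinearGroup (Fin 2) R) : Matrix (Fin 2) (Fin 2) R := ↑g

lemma mt_mul (g h : SpecialLinearGroup (Fin 2) R) : mt (g * h) = mt g * mt h :=
  Matrix.SpecialLinearGroup.coe_mul g h

lemma mt_one : mt (1 : SpecialLinearGroup (Fin 2) R) = 1 :=
  Matrix.SpecialLinearGroup.coe_one

lemma mt_inv (g : SpecialLinearGroup (Fin 2) R) :
    mt g⁻¹ = !![mt g 1 1, -mt g 0 1; -mt g 1 0, mt g 0 0] := by
  have := Matrix.SpecialLinearGroup.coe_inv g
  rw [Matrix.adjugate_fin_two] at this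
  exact this

lemma mt_det (g : SpecialLinearGroup (Fin 2) R) : (mt g).det = 1 := g.2

lemma mt_inj {g h : SpecialLinearGroup (Fin 2) R} (H : mt g = mt h) : g = h :=
  Subtype.ext H

namespace RD

lemma pow_nz (n : ℕ) : ∀ x, D.pi ^ n * x = 0 → x = 0 := by
  induction n with
  | zero => intro x hx; simpa using hx
  | succ n ih =>
    intro x hx
    apply D.hnz
    apply ih
    rw [← hx]; ring

lemma pow_cancel (n : ℕ) {x y : R} (h : D.pi ^ n * x = D.pi ^ n * y) : x = y := by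
  have : D.pi ^ n * (x - y) = 0 := by rw [mul_sub, h, sub_self]
  exact sub_eq_zero.1 (D.pow_nz n _ this)

lemma pow_dvd_pow_iff {n : ℕ} {k : ℕ} {x : R} : D.pi ^ (n + k) ∣ D.pi ^ n * x ↔ D.pi ^ k ∣ x := by
  constructor
  · rintro ⟨c, hc⟩
    refine ⟨c, D.pow_cancel n ?_⟩
    rw [hc, pow_add]; ring
  · rintro ⟨c, rfl⟩
    exact ⟨c, by rw [pow_add]; ring⟩

lemma not_pi_dvd_one : ¬ D.pi ∣ (1 : R) := by
  rw [← D.hrho, map_one]
  decide

/-- the filtration of the order -/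
def P (j : ℕ) (M : Matrix (Fin 2) (Fin 2) R) : Prop :=
  D.pi ^ ((j + 1) / 2) ∣ M 0 0 ∧ D.pi ^ (j / 2) ∣ M 0 1 ∧
    D.pi ^ (j / 2 + 1) ∣ M 1 0 ∧ D.pi ^ ((j + 1) / 2) ∣ M 1 1

lemma P_zero (j : ℕ) : D.P j 0 := by
  simp [P]

lemma P_add {j : ℕ} {M N : Matrix (Fin 2) (Fin 2) R} (hM : D.P j M) (hN : D.P j N) :
    D.P j (M + N) :=
  ⟨dvd_add hM.1 hN.1, dvd_add hM.2.1 hN.2.1, dvd_add hM.2.2.1 hN.2.2.1,
    dvd_add hM.2.2.2 hN.2.2.2⟩

lemma P_neg {j : ℕ} {M : Matrix (Fin 2) (Fin 2) R} (hM : D.P j M) : D.P j (-M) := by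
  obtain ⟨a, b, c, d⟩ := hM
  exact ⟨by simpa using a, by simpa using b, by simpa using c, by simpa using d⟩

lemma P_sub {j : ℕ} {M N : Matrix (Fin 2) (Fin 2) R} (hM : D.P j M) (hN : D.P j N) :
    D.P j (M - N) := by
  rw [sub_eq_add_neg]; exact D.P_add hM (D.P_neg hN)

lemma P_mono {i j : ℕ} (hij : i ≤ j) {M : Matrix (Fin 2) (Fin 2) R} (hM : D.P j M) : D.P i M := by
  obtain ⟨a, b, c, d⟩ := hM
  refine ⟨(pow_dvd_pow _ (by omega)).trans a, (pow_dvd_pow _ (by omega)).trans b,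
    (pow_dvd_pow _ (by omega)).trans c, (pow_dvd_pow _ (by omega)).trans d⟩

lemma dvd_mul_of_le {a b c : ℕ} (h : c ≤ a + b) {x y : R} (hx : D.pi ^ a ∣ x) (hy : D.pi ^ b ∣ y) :
    D.pi ^ c ∣ x * y :=
  (pow_dvd_pow _ h).trans (by rw [pow_add]; exact mul_dvd_mul hx hy)

lemma P_mul {i j : ℕ} {M N : Matrix (Fin 2) (Fin 2) R} (hM : D.P i M) (hN : D.P j N) :
    D.P (i + j) (M * N) := by
  obtain ⟨a, b, c, d⟩ := hM
  obtain ⟨a', b', c', d'⟩ := hN
  refine ⟨?_, ?_, ?_, ?_⟩ <;> rw [Matrix.mul_apply, Fin.sum_univ_two]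
  · exact dvd_add (D.dvd_mul_of_le (by omega) a a') (D.dvd_mul_of_le (by omega) b c')
  · exact dvd_add (D.dvd_mul_of_le (by omega) a b') (D.dvd_mul_of_le (by omega) b d')
  · exact dvd_add (D.dvd_mul_of_le (by omega) c a') (D.dvd_mul_of_le (by omega) d c')
  · exact dvd_add (D.dvd_mul_of_le (by omega) c b') (D.dvd_mul_of_le (by omega) d d')

lemma P_zero_one : D.P 0 (1 : Matrix (Fin 2) (Fin 2) R) := by
  simp [P]

/-- subgroups of SL2 -/
def Fil (j : ℕ) : Subgroup (SpecialLinearGroup (Fin 2) R) where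
  carrier := {g | D.P j (mt g - 1)}
  mul_mem' := by
    intro g h hg hh
    have : mt (g * h) - 1 = (mt g - 1) * (mt h - 1) + (mt g - 1) + (mt h - 1) := by
      rw [mt_mul]; noncomm_ring
    show D.P j (mt (g * h) - 1)
    rw [this]
    exact D.P_add (D.P_add (D.P_mono (by omega) (D.P_mul hg hh)) hg) hh
  one_mem' := by
    show D.P j (mt (1 : SpecialLinearGroup (Fin 2) R) - 1)
    rw [mt_one, sub_self]
    exact D.P_zero j
  inv_mem' := by
    intro g hg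
    obtain ⟨a, b, c, d⟩ := hg
    show D.P j (mt g⁻¹ - 1)
    rw [mt_inv]
    refine ⟨?_, ?_, ?_, ?_⟩
    · simpa using d
    · simpa using b
    · simpa using c
    · simpa using a

/-- the group -/
abbrev G : Type := ↥(D.Fil 1)

/-- the matrix of an element -/
def m (g : D.G) : Matrix (Fin 2) (Fin 2) R := mt g.1

lemma m_mul (g h : D.G) : D.m (g * h) = D.m g * D.m h := mt_mul _ _
lemma m_one : D.m 1 = 1 := mt_one
lemma m_inj {g h : D.G} (H : D.m g = D.m h) : g = h := Subtype.ext (mt_inj H)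
lemma m_mem (g : D.G) : D.P 1 (D.m g - 1) := g.2

/-- the filtration of the group -/
def F (j : ℕ) : Subgroup D.G := (D.Fil j).subgroupOf (D.Fil 1)

lemma mem_F {j : ℕ} {g : D.G} : g ∈ D.F j ↔ D.P j (D.m g - 1) := by
  rw [F, Subgroup.mem_subgroupOf]; rfl

lemma F_one : D.F 1 = ⊤ := by
  rw [eq_top_iff]; intro g _; rw [mem_F]; exact g.2

lemma F_anti {i j : ℕ} (h : i ≤ j) : D.F j ≤ D.F i := by
  intro g hg; rw [mem_F] at *; exact D.P_mono h hg

lemma P_zero_of_G (g : D.G) : D.P 0 (D.m g) := by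
  have h : D.P 0 (D.m g - 1) := D.P_mono (by omega) g.2
  have := D.P_add h D.P_zero_one
  simpa using this

/-- commutator -/
def cm (v g : D.G) : D.G := v * g * (v⁻¹ * g⁻¹)

lemma comm_eq (v g : D.G) : D.m (D.cm v g) - 1 =
    ((D.m v - 1) * (D.m g - 1) - (D.m g - 1) * (D.m v - 1)) * D.m (v⁻¹ * g⁻¹) := by
  have h2 : D.m g * D.m v * D.m (v⁻¹ * g⁻¹ : D.G) = 1 := by
    have : (g * v * (v⁻¹ * g⁻¹) : D.G) = 1 := by group
    have h3 := congrArg D.m this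
    rwa [m_mul, m_mul, m_one] at h3
  rw [cm, m_mul, m_mul]
  have h5 : ((D.m v - 1) * (D.m g - 1) - (D.m g - 1) * (D.m v - 1)) =
    D.m v * D.m g - D.m g * D.m v := by noncomm_ring
  rw [h5, sub_mul, h2]

lemma comm_mem {i j : ℕ} {v g : D.G} (hv : v ∈ D.F i) (hg : g ∈ D.F j) : D.cm v g ∈ D.F (i + j) := by
  rw [mem_F] at *
  rw [comm_eq]
  have h1 := D.P_sub (D.P_mul hv hg) (by rw [add_comm i j]; exact D.P_mul hg hv)
  have := D.P_mul h1 (D.P_zero_of_G (v⁻¹ * g⁻¹))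
  simpa using this

lemma comm_congr {i j : ℕ} {v g : D.G} (hv : v ∈ D.F i) (hg : g ∈ D.F j) :
    D.P (i + j + 1) (D.m (D.cm v g) - 1 -
      ((D.m v - 1) * (D.m g - 1) - (D.m g - 1) * (D.m v - 1))) := by
  rw [mem_F] at *
  rw [comm_eq]
  have h1 := D.P_sub (D.P_mul hv hg) (by rw [add_comm i j]; exact D.P_mul hg hv)
  have h2 := D.P_mul h1 (D.m_mem (v⁻¹ * g⁻¹ : D.G))
  have e1 : ∀ (A B : Matrix (Fin 2) (Fin 2) R), A * B - A = A * (B - 1) := by
    intro A B; noncomm_ring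
  rw [e1]
  exact h2

instance F_normal (j : ℕ) : (D.F j).Normal := by
  constructor
  intro n hn g
  have h1 : g * n * g⁻¹ = D.cm g n * n := by rw [cm]; group
  rw [h1]
  refine mul_mem ?_ hn
  have hg : g ∈ D.F 1 := by rw [F_one]; trivial
  exact D.F_anti (by omega) (D.comm_mem hg hn)

/-- the determinant relation -/
lemma det_rel (g : D.G) : (D.m g 0 0 - 1) + (D.m g 1 1 - 1) =
    D.m g 0 1 * D.m g 1 0 - (D.m g 0 0 - 1) * (D.m g 1 1 - 1) := by
  have h : (D.m g).det = 1 := mt_det g.1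
  rw [Matrix.det_fin_two] at h
  linear_combination h

/-- constructor -/
def mk' (a b c d : R) (h : a * d - b * c = 1) (hP : D.P 1 (!![a, b; c, d] - 1)) : D.G :=
  ⟨⟨!![a, b; c, d], by rw [Matrix.det_fin_two_of]; exact h⟩, hP⟩

/-- the element `E(x) F(pi y)` -/
def gel (x y : R) : D.G := D.mk' (1 + D.pi * (x * y)) x (D.pi * y) 1 (by ring)
  (by refine ⟨?_, ?_, ?_, ?_⟩ <;> simp)

@[simp] lemma gel_00 (x y : R) : D.m (D.gel x y) 0 0 = 1 + D.pi * (x * y) := rfl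
@[simp] lemma gel_01 (x y : R) : D.m (D.gel x y) 0 1 = x := rfl
@[simp] lemma gel_10 (x y : R) : D.m (D.gel x y) 1 0 = D.pi * y := rfl
@[simp] lemma gel_11 (x y : R) : D.m (D.gel x y) 1 1 = 1 := rfl

lemma exists_rho (z : ZMod 3) : ∃ x : R, D.rho x = z :=
  ⟨((z.val : ℕ) : R), by rw [map_natCast]; exact ZMod.natCast_zmod_val z⟩

lemma rho_eq_iff {x y : R} : D.rho x = D.rho y ↔ D.pi ∣ x - y := by
  rw [← D.hrho, map_sub, sub_eq_zero]

end RD
end Pool.Agent.Helper181.Thin
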