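import Mathlib
import Pool.Agent.Helper181.ThinA

set_option autoImplicit false

namespace Pool.Agent.Helper181.Thin

open Matrix

variable {R : Type} [CommRing R] (D : RD R)

namespace RD

lemma mem_F_odd {k : ℕ} {g : D.G} : g ∈ D.F (2 * k + 1) ↔
    D.pi ^ (k + 1) ∣ D.m g 0 0 - 1 ∧ D.pi ^ k ∣ D.m g 0 1 ∧ D.pi ^ (k + 1) ∣ D.m g 1 0 ∧
      D.pi ^ (k + 1) ∣ D.m g 1 1 - 1 := by
  rw [mem_F, P]
  have h1 : (2 * k + 1 + 1) / 2 = k + 1 := by omega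
  have h2 : (2 * k + 1) / 2 = k := by omega
  rw [h1, h2]
  simp

lemma mem_F_even {k : ℕ} {g : D.G} : g ∈ D.F (2 * k) ↔
    D.pi ^ k ∣ D.m g 0 0 - 1 ∧ D.pi ^ k ∣ D.m g 0 1 ∧ D.pi ^ (k + 1) ∣ D.m g 1 0 ∧
      D.pi ^ k ∣ D.m g 1 1 - 1 := by
  rw [mem_F, P]
  have h1 : (2 * k + 1) / 2 = k := by omega
  have h2 : (2 * k) / 2 = k := by omega
  rw [h1, h2]
  simp

lemma comm_entries (v : D.G) (x y : R) :
    ((D.m v - 1) * (D.m (D.gel x y) - 1) - (D.m (D.gel x y) - 1) * (D.m v - 1)) 0 0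
      = D.m v 0 1 * (D.pi * y) - x * D.m v 1 0 ∧
    ((D.m v - 1) * (D.m (D.gel x y) - 1) - (D.m (D.gel x y) - 1) * (D.m v - 1)) 0 1
      = x * ((D.m v 0 0 - 1) - (D.m v 1 1 - 1)) - D.pi * (x * y) * D.m v 0 1 ∧
    ((D.m v - 1) * (D.m (D.gel x y) - 1) - (D.m (D.gel x y) - 1) * (D.m v - 1)) 1 0
      = D.pi * y * ((D.m v 1 1 - 1) - (D.m v 0 0 - 1)) + D.m v 1 0 * (D.pi * (x * y)) ∧
    ((D.m v - 1) * (D.m (D.gel x y) - 1) - (D.m (D.gel x y) - 1) * (D.m v - 1)) 1 1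
      = D.m v 1 0 * x - (D.pi * y) * D.m v 0 1 := by
  refine ⟨?_, ?_, ?_, ?_⟩ <;>
  · simp only [Matrix.sub_apply, Matrix.mul_apply, Fin.sum_univ_two, Matrix.one_apply, gel_00,
      gel_01, gel_10, gel_11]
    simp
    try ring

lemma step_aux {j : ℕ} (v w : D.G) (hv : v ∈ D.F j) (x y : R)
    (h : D.P (j + 2) ((D.m w - 1) -
      ((D.m v - 1) * (D.m (D.gel x y) - 1) - (D.m (D.gel x y) - 1) * (D.m v - 1)))) :
    (D.cm v (D.gel x y))⁻¹ * w ∈ D.F (j + 2) := by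
  set c := D.cm v (D.gel x y) with hc
  have hg : D.gel x y ∈ D.F 1 := by rw [F_one]; trivial
  have h1 := D.comm_congr hv hg
  rw [mem_F]
  have h2 : D.m (c⁻¹ * w) - 1 = D.m c⁻¹ * ((D.m w - 1) - (D.m c - 1)) := by
    have h3 : D.m c⁻¹ * D.m c = 1 := by rw [← m_mul, inv_mul_cancel, m_one]
    rw [m_mul]
    rw [show (D.m w - 1) - (D.m c - 1) = D.m w - D.m c by abel, mul_sub, h3]
  rw [h2]
  have h4 : D.P (j + 2) ((D.m w - 1) - (D.m c - 1)) := by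
    have := D.P_sub h h1
    convert this using 1
    abel
  have := D.P_mul (D.P_zero_of_G c⁻¹) h4
  simpa using this

lemma z3_solve : ∀ a b : ZMod 3, a ≠ 0 → ∃ x : ZMod 3, 2 * x * a = b := by decide

lemma z3_solve2 : ∀ b c a : ZMod 3, ¬ (b = 0 ∧ c = 0) → ∃ x y : ZMod 3, b * y - x * c = a := by
  decide

lemma step_even {k : ℕ} (hk : 1 ≤ k) (v w : D.G) (hv : v ∈ D.F (2 * k)) (hv' : v ∉ D.F (2 * k + 1))
    (hw : w ∈ D.F (2 * k + 1)) : ∃ g, (D.cm v g)⁻¹ * w ∈ D.F (2 * k + 2) := by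
  obtain ⟨ha, hb, hc, hd⟩ := D.mem_F_even.1 hv
  obtain ⟨hwa, hwb, hwc, hwd⟩ := D.mem_F_odd.1 hw
  have hrel := D.det_rel v
  have hsum : D.pi ^ (k + 1) ∣ (D.m v 0 0 - 1) + (D.m v 1 1 - 1) := by
    rw [hrel]
    exact dvd_sub (D.dvd_mul_of_le (by omega) hb hc) (D.dvd_mul_of_le (by omega) ha hd)
  obtain ⟨α, hα⟩ := ha
  obtain ⟨β', hβ⟩ := hwb
  obtain ⟨γ', hγ⟩ := hwc
  have hα0 : D.rho α ≠ 0 := by
    intro h0
    rw [D.hrho] at h0
    apply hv'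
    have h1 : D.pi ^ (k + 1) ∣ D.m v 0 0 - 1 := by
      rw [hα, pow_succ]; exact mul_dvd_mul_left _ h0
    rw [D.mem_F_odd]
    refine ⟨h1, hb, hc, ?_⟩
    have := dvd_sub hsum h1
    simpa using this
  obtain ⟨zx, hzx⟩ := z3_solve (D.rho α) (D.rho β') hα0
  obtain ⟨zy, hzy⟩ := z3_solve (D.rho α) (- D.rho γ') hα0
  obtain ⟨x, rfl⟩ := D.exists_rho zx
  obtain ⟨y, rfl⟩ := D.exists_rho zy
  refine ⟨D.gel x y, D.step_aux v w hv x y ?_⟩
  obtain ⟨e1, e2, e3, e4⟩ := D.comm_entries v x y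
  have h1 : D.pi ∣ β' - 2 * x * α := by
    rw [← D.rho_eq_iff, map_mul, map_mul, map_ofNat, hzx]
  have h2 : D.pi ∣ γ' + 2 * y * α := by
    rw [← D.hrho, map_add, map_mul, map_mul, map_ofNat, hzy]
    simp
  have h1' : D.pi ^ (k + 1) ∣ D.pi ^ k * (β' - 2 * x * α) := by
    rw [pow_succ]; exact mul_dvd_mul_left _ h1
  have h2' : D.pi ^ (k + 2) ∣ D.pi ^ (k + 1) * (γ' + 2 * y * α) := by
    rw [pow_succ _ (k + 1)]; exact mul_dvd_mul_left _ h2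
  have hq1 : (2 * k + 2 + 1) / 2 = k + 1 := by omega
  have hq2 : (2 * k + 2) / 2 = k + 1 := by omega
  rw [P, hq1, hq2]
  refine ⟨?_, ?_, ?_, ?_⟩
  · rw [Matrix.sub_apply, e1, Matrix.sub_apply, Matrix.one_apply_eq]
    refine dvd_sub hwa (dvd_sub ?_ ?_)
    · have : D.pi ^ 1 ∣ D.pi * y := by rw [pow_one]; exact Dvd.intro _ rfl
      exact D.dvd_mul_of_le (by omega) hb this
    · exact Dvd.dvd.mul_left hc _
  · rw [Matrix.sub_apply, e2, Matrix.sub_apply, Matrix.one_apply_ne (by decide)]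
    have : D.m w 0 1 - 0 - (x * ((D.m v 0 0 - 1) - (D.m v 1 1 - 1)) - D.pi * (x * y) * D.m v 0 1)
        = D.pi ^ k * (β' - 2 * x * α) + x * ((D.m v 0 0 - 1) + (D.m v 1 1 - 1))
          + (D.pi * (x * y)) * D.m v 0 1 := by
      linear_combination hβ - 2 * x * hα
    rw [this]
    refine dvd_add (dvd_add h1' (Dvd.dvd.mul_left hsum _)) ?_
    have h3 : D.pi ^ 1 ∣ D.pi * (x * y) := by rw [pow_one]; exact Dvd.intro _ rfl
    exact D.dvd_mul_of_le (by omega) h3 hb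
  · rw [Matrix.sub_apply, e3, Matrix.sub_apply, Matrix.one_apply_ne (by decide)]
    have : D.m w 1 0 - 0 - (D.pi * y * ((D.m v 1 1 - 1) - (D.m v 0 0 - 1)) +
          D.m v 1 0 * (D.pi * (x * y)))
        = D.pi ^ (k + 1) * (γ' + 2 * y * α) - (D.pi * y) * ((D.m v 0 0 - 1) + (D.m v 1 1 - 1))
          - D.m v 1 0 * (D.pi * (x * y)) := by
      rw [pow_succ]
      linear_combination hγ + 2 * D.pi * y * hα
    rw [this]
    have h3 : D.pi ^ 1 ∣ D.pi * (x * y) := by rw [pow_one]; exact Dvd.intro _ rfl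
    have h4 : D.pi ^ 1 ∣ D.pi * y := by rw [pow_one]; exact Dvd.intro _ rfl
    exact dvd_sub (dvd_sub h2' (D.dvd_mul_of_le (by omega) h4 hsum))
      (D.dvd_mul_of_le (by omega) hc h3)
  · rw [Matrix.sub_apply, e4, Matrix.sub_apply, Matrix.one_apply_eq]
    refine dvd_sub hwd (dvd_sub (Dvd.dvd.mul_right hc _) ?_)
    have : D.pi ^ 1 ∣ D.pi * y := by rw [pow_one]; exact Dvd.intro _ rfl
    exact D.dvd_mul_of_le (by omega) this hb

lemma step_odd {k : ℕ} (v w : D.G) (hv : v ∈ D.F (2 * k + 1)) (hv' : v ∉ D.F (2 * k + 2))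
    (hw : w ∈ D.F (2 * k + 2)) : ∃ g, (D.cm v g)⁻¹ * w ∈ D.F (2 * k + 3) := by
  obtain ⟨ha, hb, hc, hd⟩ := D.mem_F_odd.1 hv
  rw [show 2 * k + 2 = 2 * (k + 1) by ring] at hw hv'
  obtain ⟨hwa, hwb, hwc, hwd⟩ := D.mem_F_even.1 hw
  have hrel := D.det_rel w
  have hsum : D.pi ^ (k + 2) ∣ (D.m w 0 0 - 1) + (D.m w 1 1 - 1) := by
    rw [hrel]
    exact dvd_sub (D.dvd_mul_of_le (by omega) hwb hwc) (D.dvd_mul_of_le (by omega) hwa hwd)
  obtain ⟨β, hβ⟩ := hb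
  obtain ⟨γ, hγ⟩ := hc
  obtain ⟨a', ha'⟩ := hwa
  have h0 : ¬ (D.rho β = 0 ∧ D.rho γ = 0) := by
    rintro ⟨h1, h2⟩
    rw [D.hrho] at h1 h2
    apply hv'
    rw [D.mem_F_even]
    refine ⟨ha, ?_, ?_, hd⟩
    · rw [hβ, pow_succ]; exact mul_dvd_mul_left _ h1
    · rw [hγ, pow_succ _ (k + 1)]; exact mul_dvd_mul_left _ h2
  obtain ⟨zx, zy, hz⟩ := z3_solve2 (D.rho β) (D.rho γ) (D.rho a') h0
  obtain ⟨x, rfl⟩ := D.exists_rho zx
  obtain ⟨y, rfl⟩ := D.exists_rho zy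
  refine ⟨D.gel x y, D.step_aux v w hv x y ?_⟩
  obtain ⟨e1, e2, e3, e4⟩ := D.comm_entries v x y
  have h1 : D.pi ∣ a' - (β * y - x * γ) := by
    rw [← D.rho_eq_iff, map_sub, map_mul, map_mul, hz]
  have h1' : D.pi ^ (k + 2) ∣ D.pi ^ (k + 1) * (a' - (β * y - x * γ)) := by
    rw [pow_succ _ (k + 1)]; exact mul_dvd_mul_left _ h1
  have hq1 : (2 * k + 1 + 2 + 1) / 2 = k + 2 := by omega
  have hq2 : (2 * k + 1 + 2) / 2 = k + 1 := by omega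
  have hb : D.pi ^ k ∣ D.m v 0 1 := ⟨β, hβ⟩
  have hc : D.pi ^ (k + 1) ∣ D.m v 1 0 := ⟨γ, hγ⟩
  have h3 : ∀ z : R, D.pi ^ 1 ∣ D.pi * z := fun z => by rw [pow_one]; exact Dvd.intro _ rfl
  rw [P, hq1, hq2]
  refine ⟨?_, ?_, ?_, ?_⟩
  · rw [Matrix.sub_apply, e1, Matrix.sub_apply, Matrix.one_apply_eq]
    have : D.m w 0 0 - 1 - (D.m v 0 1 * (D.pi * y) - x * D.m v 1 0) =
        D.pi ^ (k + 1) * (a' - (β * y - x * γ)) := by
      rw [pow_succ] at *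
      linear_combination ha' - D.pi * y * hβ + x * hγ
    rw [this]; exact h1'
  · rw [Matrix.sub_apply, e2, Matrix.sub_apply, Matrix.one_apply_ne (by decide)]
    rw [sub_zero]
    exact dvd_sub hwb (dvd_sub (Dvd.dvd.mul_left (dvd_sub ha hd) _)
      (D.dvd_mul_of_le (by omega) (h3 _) hb))
  · rw [Matrix.sub_apply, e3, Matrix.sub_apply, Matrix.one_apply_ne (by decide)]
    rw [sub_zero]
    exact dvd_sub hwc (dvd_add (D.dvd_mul_of_le (by omega) (h3 _) (dvd_sub hd ha))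
      (D.dvd_mul_of_le (by omega) hc (h3 _)))
  · rw [Matrix.sub_apply, e4, Matrix.sub_apply, Matrix.one_apply_eq]
    have : D.m w 1 1 - 1 - (D.m v 1 0 * x - D.pi * y * D.m v 0 1) =
        ((D.m w 0 0 - 1) + (D.m w 1 1 - 1)) - D.pi ^ (k + 1) * (a' - (β * y - x * γ)) := by
      rw [pow_succ] at *
      linear_combination - ha' + D.pi * y * hβ - x * hγ
    rw [this]; exact dvd_sub hsum h1'

/-- combined step -/
lemma step {j : ℕ} (hj : 1 ≤ j) (v w : D.G) (hv : v ∈ D.F j) (hv' : v ∉ D.F (j + 1))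
    (hw : w ∈ D.F (j + 1)) : ∃ g, (D.cm v g)⁻¹ * w ∈ D.F (j + 2) := by
  rcases Nat.even_or_odd' j with ⟨k, rfl | rfl⟩
  · exact D.step_even (by omega) v w hv hv' hw
  · exact D.step_odd v w hv hv' hw

/-- witness in odd level -/
def eo (x : R) : D.G := D.mk' 1 x 0 1 (by ring) (by refine ⟨?_, ?_, ?_, ?_⟩ <;> simp)

@[simp] lemma eo_00 (x : R) : D.m (D.eo x) 0 0 = 1 := rfl
@[simp] lemma eo_01 (x : R) : D.m (D.eo x) 0 1 = x := rfl
@[simp] lemma eo_10 (x : R) : D.m (D.eo x) 1 0 = 0 := rfl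
@[simp] lemma eo_11 (x : R) : D.m (D.eo x) 1 1 = 1 := rfl

/-- witness in even level -/
def ee (k : ℕ) : D.G := D.mk' (1 + D.pi ^ (k + 1) + D.pi ^ (2 * (k + 1))) (- D.pi ^ (2 * k + 1))
  (D.pi ^ (k + 2)) (1 - D.pi ^ (k + 1)) (by ring) (by
    refine ⟨?_, ?_, ?_, ?_⟩
    · have : 1 + D.pi ^ (k + 1) + D.pi ^ (2 * (k + 1)) - 1 = D.pi * (D.pi ^ k + D.pi ^ (2 * k + 1)) := by
        ring
      rw [show (1 + 1) / 2 = 1 by rfl, pow_one]
      have h2 : (!![1 + D.pi ^ (k + 1) + D.pi ^ (2 * (k + 1)), - D.pi ^ (2 * k + 1);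
        D.pi ^ (k + 2), 1 - D.pi ^ (k + 1)] - 1 : Matrix (Fin 2) (Fin 2) R) 0 0 =
        1 + D.pi ^ (k + 1) + D.pi ^ (2 * (k + 1)) - 1 := by simp
      rw [h2, this]; exact Dvd.intro _ rfl
    · simp
    · simp [pow_succ]
    · simp [pow_succ])

@[simp] lemma ee_00 (k : ℕ) : D.m (D.ee k) 0 0 = 1 + D.pi ^ (k + 1) + D.pi ^ (2 * (k + 1)) := rfl
@[simp] lemma ee_01 (k : ℕ) : D.m (D.ee k) 0 1 = - D.pi ^ (2 * k + 1) := rfl
@[simp] lemma ee_10 (k : ℕ) : D.m (D.ee k) 1 0 = D.pi ^ (k + 2) := rfl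
@[simp] lemma ee_11 (k : ℕ) : D.m (D.ee k) 1 1 = 1 - D.pi ^ (k + 1) := rfl

lemma not_dvd_pow (k : ℕ) : ¬ D.pi ^ (k + 1) ∣ D.pi ^ k := by
  intro h
  have : D.pi ^ (k + 1) ∣ D.pi ^ k * 1 := by simpa using h
  rw [D.pow_dvd_pow_iff, pow_one] at this
  exact D.not_pi_dvd_one this

lemma eo_mem (k : ℕ) : D.eo (D.pi ^ k) ∈ D.F (2 * k + 1) := by
  rw [mem_F_odd]; simp

lemma eo_not_mem (k : ℕ) : D.eo (D.pi ^ k) ∉ D.F (2 * k + 2) := by
  rw [show 2 * k + 2 = 2 * (k + 1) by ring, mem_F_even]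
  rintro ⟨_, h, _, _⟩
  rw [eo_01] at h
  exact D.not_dvd_pow k h

lemma ee_mem (k : ℕ) : D.ee k ∈ D.F (2 * (k + 1)) := by
  rw [mem_F_even]
  refine ⟨?_, ?_, ?_, ?_⟩
  · rw [ee_00]
    exact ⟨1 + D.pi ^ (k + 1), by ring⟩
  · rw [ee_01, dvd_neg]; exact pow_dvd_pow _ (by omega)
  · rw [ee_10]
  · rw [ee_11]; exact ⟨-1, by ring⟩

lemma ee_not_mem (k : ℕ) : D.ee k ∉ D.F (2 * (k + 1) + 1) := by
  rw [mem_F_odd]
  rintro ⟨_, _, _, h⟩
  rw [ee_11] at h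
  have : D.pi ^ (k + 1 + 1) ∣ D.pi ^ (k + 1) := by
    have h2 := dvd_neg.2 h
    simpa using h2
  exact D.not_dvd_pow _ this

/-- each level is nontrivial -/
lemma exists_level {j : ℕ} (hj : 1 ≤ j) : ∃ v : D.G, v ∈ D.F j ∧ v ∉ D.F (j + 1) := by
  rcases Nat.even_or_odd' j with ⟨k, rfl | rfl⟩
  · obtain ⟨l, rfl⟩ : ∃ l, k = l + 1 := ⟨k - 1, by omega⟩
    exact ⟨D.ee l, D.ee_mem l, D.ee_not_mem l⟩
  · exact ⟨D.eo (D.pi ^ k), D.eo_mem k, D.eo_not_mem k⟩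

/-- intersection is trivial -/
lemma eq_one_of_mem_all {v : D.G} (h : ∀ j, v ∈ D.F j) : v = 1 := by
  apply D.m_inj
  rw [m_one]
  have h1 : ∀ n, D.P (2 * n) (D.m v - 1) := fun n => D.mem_F.1 (h _)
  have hz : ∀ a b, (D.m v - 1) a b = 0 := by
    intro a b
    apply D.hsep
    intro n
    have h2 := h1 n
    rw [P, show (2 * n + 1) / 2 = n by omega, show (2 * n) / 2 = n by omega] at h2
    obtain ⟨p1, p2, p3, p4⟩ := h2
    fin_cases a <;> fin_cases b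
    · exact p1
    · exact p2
    · exact (pow_dvd_pow _ (by omega)).trans p3
    · exact p4
  have : D.m v - 1 = 0 := by
    ext a b; exact hz a b
  exact sub_eq_zero.1 this

/-- algebraic core: density of the normal subgroup in the filtration -/
lemma dense_core (N : Subgroup D.G) [hN : N.Normal] {i : ℕ} (hi : 1 ≤ i) {v : D.G}
    (hvN : v ∈ N) (hv : v ∈ D.F i) (hv' : v ∉ D.F (i + 1)) :
    ∀ m, i + 1 ≤ m → ∀ w ∈ D.F (i + 1), ∃ n ∈ N, n⁻¹ * w ∈ D.F m := by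
  have hcm : ∀ u ∈ N, ∀ g, D.cm u g ∈ N := by
    intro u hu g
    rw [cm]
    have : u * g * (u⁻¹ * g⁻¹) = u * (g * u⁻¹ * g⁻¹) := by group
    rw [this]
    exact N.mul_mem hu (hN.conj_mem _ (N.inv_mem hu) g)
  have hQ : ∀ j, i ≤ j → ∃ u ∈ N, u ∈ D.F j ∧ u ∉ D.F (j + 1) := by
    intro j hj
    induction j, hj using Nat.le_induction with
    | base => exact ⟨v, hvN, hv, hv'⟩
    | succ j hj ih =>
      obtain ⟨u, huN, hu, hu'⟩ := ih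
      obtain ⟨w, hw, hw'⟩ := D.exists_level (show 1 ≤ j + 1 by omega)
      obtain ⟨g, hg⟩ := D.step (by omega) u w hu hu' hw
      have hg1 : D.cm u g ∈ D.F (j + 1) := by
        have hg0 : g ∈ D.F 1 := by rw [F_one]; trivial
        exact D.comm_mem hu hg0
      refine ⟨D.cm u g, hcm u huN g, hg1, ?_⟩
      intro hcon
      apply hw'
      have := (D.F (j + 2)).mul_mem hcon hg
      simpa using this
  intro m hm
  induction m, hm using Nat.le_induction with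
  | base =>
    intro w hw
    exact ⟨1, N.one_mem, by simpa using hw⟩
  | succ m hm ih =>
    intro w hw
    obtain ⟨n, hn, hnw⟩ := ih w hw
    obtain ⟨j, rfl⟩ : ∃ j, m = j + 1 := ⟨m - 1, by omega⟩
    obtain ⟨u, huN, hu, hu'⟩ := hQ j (by omega)
    obtain ⟨g, hg⟩ := D.step (by omega) u (n⁻¹ * w) hu hu' hnw
    refine ⟨n * D.cm u g, N.mul_mem hn (hcm u huN g), ?_⟩
    rw [_root_.mul_inv_rev, mul_assoc]
    exact hg

end RD
end Pool.Agent.Helper181.Thin
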