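import Mathlib
import Pool.Agent.Helper181.ThinB

set_option autoImplicit false

namespace Pool.Agent.Helper181.Thin

open Matrix

variable {R : Type} [CommRing R] (D : RD R)

namespace RD

open Classical in
/-- leading coefficient at level `k` -/
noncomputable def th (k : ℕ) (x : R) : ZMod 3 :=
  if h : D.pi ^ k ∣ x then D.rho h.choose else 0

lemma th_mul (k : ℕ) (y : R) : D.th k (D.pi ^ k * y) = D.rho y := by
  have h : D.pi ^ k ∣ D.pi ^ k * y := Dvd.intro _ rfl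
  rw [th, dif_pos h]
  exact congrArg D.rho (D.pow_cancel k h.choose_spec).symm

lemma th_eq_zero {k : ℕ} {x : R} (h : D.pi ^ k ∣ x) : D.th k x = 0 ↔ D.pi ^ (k + 1) ∣ x := by
  obtain ⟨y, rfl⟩ := h
  rw [th_mul, D.pow_dvd_pow_iff, pow_one, D.hrho]

lemma th_add_of {k : ℕ} {x y z : R} (hx : D.pi ^ k ∣ x) (hy : D.pi ^ k ∣ y)
    (hz : D.pi ^ (k + 1) ∣ z - (x + y)) : D.th k z = D.th k x + D.th k y := by
  obtain ⟨x, rfl⟩ := hx
  obtain ⟨y, rfl⟩ := hy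
  obtain ⟨c, hc⟩ := hz
  have : z = D.pi ^ k * (x + y + D.pi * c) := by
    rw [pow_succ] at hc
    linear_combination hc
  rw [this, th_mul, th_mul, th_mul, map_add, map_add]
  have : D.rho (D.pi * c) = 0 := (D.hrho _).2 (Dvd.intro _ rfl)
  rw [this, add_zero]

/-- odd level map -/
noncomputable def Phio (k : ℕ) (g : D.G) : ZMod 3 × ZMod 3 :=
  (D.th k (D.m g 0 1), D.th (k + 1) (D.m g 1 0))

/-- even level map -/
noncomputable def Phie (k : ℕ) (g : D.G) : ZMod 3 := D.th k (D.m g 0 0 - 1)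

lemma Phio_mul {k : ℕ} {x y : D.G} (hx : x ∈ D.F (2 * k + 1)) (hy : y ∈ D.F (2 * k + 1)) :
    D.Phio k (x * y) = D.Phio k x + D.Phio k y := by
  obtain ⟨xa, xb, xc, xd⟩ := D.mem_F_odd.1 hx
  obtain ⟨ya, yb, yc, yd⟩ := D.mem_F_odd.1 hy
  apply Prod.ext
  · refine D.th_add_of xb yb ?_
    rw [m_mul, Matrix.mul_apply, Fin.sum_univ_two]
    have : D.m x 0 0 * D.m y 0 1 + D.m x 0 1 * D.m y 1 1 - (D.m x 0 1 + D.m y 0 1) =
      (D.m x 0 0 - 1) * D.m y 0 1 + D.m x 0 1 * (D.m y 1 1 - 1) := by ring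
    rw [this]
    exact dvd_add (D.dvd_mul_of_le (by omega) xa yb) (D.dvd_mul_of_le (by omega) xb yd)
  · refine D.th_add_of xc yc ?_
    rw [m_mul, Matrix.mul_apply, Fin.sum_univ_two]
    have : D.m x 1 0 * D.m y 0 0 + D.m x 1 1 * D.m y 1 0 - (D.m x 1 0 + D.m y 1 0) =
      D.m x 1 0 * (D.m y 0 0 - 1) + (D.m x 1 1 - 1) * D.m y 1 0 := by ring
    rw [this]
    exact dvd_add (D.dvd_mul_of_le (by omega) xc ya) (D.dvd_mul_of_le (by omega) xd yc)

lemma Phio_eq_zero {k : ℕ} {x : D.G} (hx : x ∈ D.F (2 * k + 1)) :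
    D.Phio k x = 0 ↔ x ∈ D.F (2 * (k + 1)) := by
  obtain ⟨xa, xb, xc, xd⟩ := D.mem_F_odd.1 hx
  rw [D.mem_F_even, Phio, Prod.mk_eq_zero, D.th_eq_zero xb, D.th_eq_zero xc]
  tauto

lemma Phie_mul {k : ℕ} {x y : D.G} (hx : x ∈ D.F (2 * (k + 1))) (hy : y ∈ D.F (2 * (k + 1))) :
    D.Phie (k + 1) (x * y) = D.Phie (k + 1) x + D.Phie (k + 1) y := by
  obtain ⟨xa, xb, xc, xd⟩ := D.mem_F_even.1 hx
  obtain ⟨ya, yb, yc, yd⟩ := D.mem_F_even.1 hy
  refine D.th_add_of xa ya ?_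
  rw [m_mul, Matrix.mul_apply, Fin.sum_univ_two]
  have : D.m x 0 0 * D.m y 0 0 + D.m x 0 1 * D.m y 1 0 - 1 - ((D.m x 0 0 - 1) + (D.m y 0 0 - 1)) =
    (D.m x 0 0 - 1) * (D.m y 0 0 - 1) + D.m x 0 1 * D.m y 1 0 := by ring
  rw [this]
  exact dvd_add (D.dvd_mul_of_le (by omega) xa ya) (D.dvd_mul_of_le (by omega) xb yc)

lemma Phie_eq_zero {k : ℕ} {x : D.G} (hx : x ∈ D.F (2 * (k + 1))) :
    D.Phie (k + 1) x = 0 ↔ x ∈ D.F (2 * (k + 1) + 1) := by
  obtain ⟨xa, xb, xc, xd⟩ := D.mem_F_even.1 hx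
  have hrel := D.det_rel x
  have hsum : D.pi ^ (k + 1 + 1) ∣ (D.m x 0 0 - 1) + (D.m x 1 1 - 1) := by
    rw [hrel]
    exact dvd_sub (D.dvd_mul_of_le (by omega) xb xc) (D.dvd_mul_of_le (by omega) xa xd)
  rw [D.mem_F_odd, Phie, D.th_eq_zero xa]
  constructor
  · intro h
    refine ⟨h, xb, xc, ?_⟩
    have := dvd_sub hsum h
    simpa using this
  · intro h; exact h.1

/-- hom at odd level -/
noncomputable def fo (k : ℕ) : ↥(D.F (2 * k + 1)) →* Multiplicative (ZMod 3 × ZMod 3) :=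
  MonoidHom.mk' (fun g => Multiplicative.ofAdd (D.Phio k g.1)) (by
    intro a b
    rw [← ofAdd_add, ← D.Phio_mul a.2 b.2]; rfl)

/-- hom at even level -/
noncomputable def fe (k : ℕ) : ↥(D.F (2 * (k + 1))) →* Multiplicative (ZMod 3) :=
  MonoidHom.mk' (fun g => Multiplicative.ofAdd (D.Phie (k + 1) g.1)) (by
    intro a b
    rw [← ofAdd_add, ← D.Phie_mul a.2 b.2]; rfl)

lemma fo_apply {k : ℕ} (x : ↥(D.F (2 * k + 1))) : D.fo k x = Multiplicative.ofAdd (D.Phio k x.1) :=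
  rfl

lemma fe_apply {k : ℕ} (x : ↥(D.F (2 * (k + 1)))) :
    D.fe k x = Multiplicative.ofAdd (D.Phie (k + 1) x.1) := rfl

lemma fo_ker (k : ℕ) : (D.fo k).ker = (D.F (2 * (k + 1))).subgroupOf (D.F (2 * k + 1)) := by
  ext x
  rw [MonoidHom.mem_ker, Subgroup.mem_subgroupOf, ← D.Phio_eq_zero x.2, fo_apply]
  exact ofAdd_eq_one

lemma fe_ker (k : ℕ) : (D.fe k).ker = (D.F (2 * (k + 1) + 1)).subgroupOf (D.F (2 * (k + 1))) := by
  ext x
  rw [MonoidHom.mem_ker, Subgroup.mem_subgroupOf, ← D.Phie_eq_zero x.2, fe_apply]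
  exact ofAdd_eq_one

lemma gel_mem (k : ℕ) (b c : R) : D.gel (D.pi ^ k * b) (D.pi ^ k * c) ∈ D.F (2 * k + 1) := by
  rw [mem_F_odd]
  refine ⟨?_, ?_, ?_, ?_⟩
  · rw [gel_00]; exact ⟨D.pi ^ k * b * c, by ring⟩
  · rw [gel_01]; exact Dvd.intro _ rfl
  · rw [gel_10]; exact ⟨c, by ring⟩
  · rw [gel_11]; simp

lemma fo_surj (k : ℕ) : Function.Surjective (D.fo k) := by
  intro z
  obtain ⟨b, hb⟩ := D.exists_rho (Multiplicative.toAdd z).1
  obtain ⟨c, hc⟩ := D.exists_rho (Multiplicative.toAdd z).2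
  refine ⟨⟨D.gel (D.pi ^ k * b) (D.pi ^ k * c), D.gel_mem k b c⟩, ?_⟩
  rw [fo_apply]
  apply Multiplicative.toAdd.injective
  rw [toAdd_ofAdd, Phio, gel_01, gel_10, th_mul,
    show D.pi * (D.pi ^ k * c) = D.pi ^ (k + 1) * c by ring, th_mul, hb, hc]

lemma z3_gen : ∀ a b : ZMod 3, a ≠ 0 → ∃ c : Fin 3, (c : ℕ) • a = b := by decide

lemma fe_surj (k : ℕ) : Function.Surjective (D.fe k) := by
  intro z
  have h0 : D.Phie (k + 1) (D.ee k) ≠ 0 := by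
    intro h
    exact D.ee_not_mem k ((D.Phie_eq_zero (D.ee_mem k)).1 h)
  obtain ⟨c, hc⟩ := z3_gen _ (Multiplicative.toAdd z) h0
  refine ⟨⟨D.ee k, D.ee_mem k⟩ ^ (c : ℕ), ?_⟩
  rw [map_pow, fe_apply, ← ofAdd_nsmul, hc]
  rfl

lemma relIndex_odd (k : ℕ) : (D.F (2 * (k + 1))).relIndex (D.F (2 * k + 1)) = 9 := by
  rw [Subgroup.relIndex, ← fo_ker, Subgroup.index_ker, MonoidHom.range_eq_top.2 (D.fo_surj k)]
  simp

lemma relIndex_even (k : ℕ) : (D.F (2 * (k + 1) + 1)).relIndex (D.F (2 * (k + 1))) = 3 := by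
  rw [Subgroup.relIndex, ← fe_ker, Subgroup.index_ker, MonoidHom.range_eq_top.2 (D.fe_surj k)]
  simp

lemma index_pow (j : ℕ) : ∃ a, (D.F (j + 1)).index = 3 ^ a := by
  induction j with
  | zero => exact ⟨0, by rw [zero_add, F_one]; simp⟩
  | succ j ih =>
    obtain ⟨a, ha⟩ := ih
    have h1 := Subgroup.relIndex_mul_index (D.F_anti (show j + 1 ≤ j + 1 + 1 by omega))
    rcases Nat.even_or_odd' (j + 1) with ⟨k, hk | hk⟩
    · obtain ⟨l, rfl⟩ : ∃ l, k = l + 1 := ⟨k - 1, by omega⟩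
      rw [hk] at h1 ha ⊢
      rw [D.relIndex_even l, ha] at h1
      exact ⟨a + 1, by rw [← h1]; ring⟩
    · rw [hk] at h1 ha ⊢
      rw [show 2 * k + 1 + 1 = 2 * (k + 1) by ring] at h1 ⊢
      rw [D.relIndex_odd k, ha] at h1
      exact ⟨a + 2, by rw [← h1]; ring⟩

/-- the relative index sequence depends only on the level -/
lemma relIndex_eq {R' : Type} [CommRing R'] (D' : RD R') {j : ℕ} (hj : 1 ≤ j) :
    (D.F (j + 1)).relIndex (D.F j) = (D'.F (j + 1)).relIndex (D'.F j) := by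
  rcases Nat.even_or_odd' j with ⟨k, hk | hk⟩
  · obtain ⟨l, rfl⟩ : ∃ l, k = l + 1 := ⟨k - 1, by omega⟩
    rw [hk, D.relIndex_even l, D'.relIndex_even l]
  · rw [hk, show 2 * k + 1 + 1 = 2 * (k + 1) by ring, D.relIndex_odd, D'.relIndex_odd]

lemma relIndex_ne_zero {j : ℕ} (hj : 1 ≤ j) : (D.F (j + 1)).relIndex (D.F j) ≠ 0 := by
  rcases Nat.even_or_odd' j with ⟨k, hk | hk⟩
  · obtain ⟨l, rfl⟩ : ∃ l, k = l + 1 := ⟨k - 1, by omega⟩
    rw [hk, D.relIndex_even l]; omega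
  · rw [hk, show 2 * k + 1 + 1 = 2 * (k + 1) by ring, D.relIndex_odd]; omega

/-- slope class -/
def cls (v : ZMod 3 × ZMod 3) : Option (ZMod 3) := if v.1 = 0 then none else some (v.2 * v.1)

lemma cls_spec : ∀ v w : ZMod 3 × ZMod 3, v ≠ 0 → w ≠ 0 → cls v = cls w → w = v ∨ w = -v := by
  decide

lemma span_spec : ∀ u v : ZMod 3 × ZMod 3, v ≠ 0 → (∃ c : Fin 3, u = (c : ℕ) • v) ∨
    (∀ w, ∃ a b : Fin 3, w = (a : ℕ) • u + (b : ℕ) • v) := by
  decide +kernel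

lemma between_odd {k : ℕ} {H H' : Subgroup D.G} (h1 : D.F (2 * (k + 1)) ≤ H)
    (h1' : D.F (2 * (k + 1)) ≤ H') (h2 : H ≤ D.F (2 * k + 1)) (h2' : H' ≤ D.F (2 * k + 1))
    {x y : D.G} (hx : x ∈ H) (hx' : x ∉ D.F (2 * (k + 1))) (hy : y ∈ H')
    (hy' : y ∉ D.F (2 * (k + 1))) (hc : cls (D.Phio k x) = cls (D.Phio k y)) :
    H ≤ H' ∨ H' ≤ H := by
  have key : ∀ (K : Subgroup D.G), D.F (2 * (k + 1)) ≤ K → K ≤ D.F (2 * k + 1) →
      ∀ a (ha : a ∈ D.F (2 * k + 1)) b (hb : b ∈ K), D.Phio k a = D.Phio k b → a ∈ K := by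
    intro K hK1 hK2 a ha b hb hab
    have h3 : D.fo k (⟨a, ha⟩ * ⟨b, hK2 hb⟩⁻¹) = 1 := by
      rw [map_mul, map_inv, fo_apply, fo_apply]
      simp only [hab]
      simp
    rw [← MonoidHom.mem_ker, fo_ker, Subgroup.mem_subgroupOf] at h3
    have h4 : a * b⁻¹ ∈ K := hK1 h3
    have := K.mul_mem h4 hb
    simpa using this
  have hxn : D.Phio k x ≠ 0 := fun h => hx' ((D.Phio_eq_zero (h2 hx)).1 h)
  have hyn : D.Phio k y ≠ 0 := fun h => hy' ((D.Phio_eq_zero (h2' hy)).1 h)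
  -- y lies in H
  have hPinv : D.Phio k x⁻¹ = - D.Phio k x := by
    have h5 : D.fo k (⟨x, h2 hx⟩⁻¹) = (D.fo k ⟨x, h2 hx⟩)⁻¹ := map_inv _ _
    rw [fo_apply, fo_apply, ← ofAdd_neg] at h5
    exact Multiplicative.ofAdd.injective h5
  have hyH : y ∈ H := by
    rcases cls_spec _ _ hxn hyn hc with h | h
    · exact key H h1 h2 y (h2' hy) x hx h
    · exact key H h1 h2 y (h2' hy) x⁻¹ (H.inv_mem hx) (by rw [hPinv, h])
  by_cases hle : H ≤ H'
  · exact Or.inl hle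
  right
  obtain ⟨w, hw, hw'⟩ := Set.not_subset.1 hle
  have hpow : ∀ (z : D.G) (hz : z ∈ D.F (2 * k + 1)) (n : ℕ), D.Phio k (z ^ n) = n • D.Phio k z := by
    intro z hz n
    have h5 : D.fo k (⟨z, hz⟩ ^ n) = (D.fo k ⟨z, hz⟩) ^ n := map_pow _ _ _
    rw [fo_apply, fo_apply, ← ofAdd_nsmul] at h5
    exact Multiplicative.ofAdd.injective h5
  rcases span_spec (D.Phio k w) (D.Phio k y) hyn with ⟨c, hc⟩ | hall
  · exfalso
    apply hw'
    exact key H' h1' h2' w (h2 hw) (y ^ (c : ℕ)) (H'.pow_mem hy _)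
      (by rw [hc, hpow y (h2' hy)])
  · intro z hz
    obtain ⟨a, b, hab⟩ := hall (D.Phio k z)
    refine key H h1 h2 z (h2' hz) (w ^ (a : ℕ) * y ^ (b : ℕ))
      (H.mul_mem (H.pow_mem hw _) (H.pow_mem hyH _)) ?_
    rw [D.Phio_mul (h2 (H.pow_mem hw _)) (h2 (H.pow_mem hyH _)), hpow w (h2 hw),
      hpow y (h2 hyH), hab]

theorem antichain_bound (S : Set (Subgroup D.G))
    (hthin : ∀ H ∈ S, H ≠ ⊥ → ∃ i, 1 ≤ i ∧ D.F (i + 1) ≤ H ∧ H ≤ D.F i)
    (hS : IsAntichain (· ≤ ·) S) : S.encard ≤ 4 := by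
  by_cases hsub : S.Subsingleton
  · exact (Set.encard_le_one_iff_subsingleton.2 hsub).trans (by norm_num)
  rw [Set.not_subsingleton_iff] at hsub
  obtain ⟨H0, hH0, H1, hH1, hne⟩ := hsub
  have hbot : ∀ H ∈ S, H ≠ ⊥ := by
    rintro H hH rfl
    by_cases h : H0 = ⊥
    · exact hS hH hH1 (by rw [← h]; exact hne) bot_le
    · exact hS hH hH0 (fun h' => h h'.symm) bot_le
  obtain ⟨i, hi, hi1, hi2⟩ := hthin H0 hH0 (hbot H0 hH0)
  have hall : ∀ H ∈ S, D.F (i + 1) ≤ H ∧ H ≤ D.F i := by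
    intro H hH
    by_cases h : H = H0
    · subst h; exact ⟨hi1, hi2⟩
    obtain ⟨j, hj, hj1, hj2⟩ := hthin H hH (hbot H hH)
    rcases lt_trichotomy i j with hij | rfl | hij
    · exact absurd (hj2.trans ((D.F_anti (by omega)).trans hi1)) (hS hH hH0 h)
    · exact ⟨hj1, hj2⟩
    · exact absurd (hi2.trans ((D.F_anti (by omega)).trans hj1)) (hS hH0 hH (Ne.symm h))
  rcases Nat.even_or_odd' i with ⟨k, hk | hk⟩
  · exfalso
    obtain ⟨l, rfl⟩ : ∃ l, k = l + 1 := ⟨k - 1, by omega⟩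
    subst hk
    have h3 := D.relIndex_even l
    rw [← Subgroup.relIndex_mul_relIndex _ _ _ hi1 hi2] at h3
    rcases (Nat.dvd_prime Nat.prime_three).1 (Dvd.intro _ h3) with h4 | h4
    · -- H0 = F (i+1)
      rw [Subgroup.relIndex_eq_one] at h4
      exact hS hH0 hH1 hne (h4.trans (hall H1 hH1).1)
    · have h5 : H0.relIndex (D.F (2 * (l + 1))) = 1 := by
        rw [h4] at h3; omega
      rw [Subgroup.relIndex_eq_one] at h5
      exact hS hH1 hH0 (Ne.symm hne) ((hall H1 hH1).2.trans h5)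
  · subst hk
    rw [show 2 * k + 1 + 1 = 2 * (k + 1) by ring] at hall
    have hex : ∀ H : S, ∃ x, x ∈ H.1 ∧ x ∉ D.F (2 * (k + 1)) := by
      intro H
      by_contra hcon
      push Not at hcon
      have hle : H.1 ≤ D.F (2 * (k + 1)) := hcon
      by_cases h : H.1 = H0
      · exact hS H.2 hH1 (by rw [h]; exact hne) (hle.trans (hall H1 hH1).1)
      · exact hS H.2 hH0 h (hle.trans (hall H0 hH0).1)
    choose x hx hx' using hex
    have hinj : Function.Injective (fun H : S => cls (D.Phio k (x H))) := by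
      intro H H' hHH
      by_contra hne'
      have hne'' : H.1 ≠ H'.1 := fun h => hne' (Subtype.ext h)
      rcases D.between_odd (hall _ H.2).1 (hall _ H'.2).1 (hall _ H.2).2 (hall _ H'.2).2
        (hx H) (hx' H) (hx H') (hx' H') hHH with h | h
      · exact hS H.2 H'.2 hne'' h
      · exact hS H'.2 H.2 hne''.symm h
    have := ENat.card_le_card_of_injective hinj
    refine this.trans ?_
    rw [ENat.card_eq_coe_fintype_card]
    simp

/-- cubes go down by `2 e` levels -/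
lemma cube_mem {k : ℕ} (hk : D.e ≤ 2 * k) {x : D.G} (hx : x ∈ D.F (2 * k + 1)) :
    x ^ 3 ∈ D.F (2 * (k + D.e) + 1) := by
  rw [mem_F] at *
  have h1 : D.m (x ^ 3) = D.m x * D.m x * D.m x := by
    rw [pow_three', m_mul, m_mul]
  set Y := D.m x - 1 with hY
  have h2 : D.m x = 1 + Y := by rw [hY]; abel
  have h3 : D.m (x ^ 3) - 1 = (D.pi ^ D.e) • (Y * (1 + Y)) + Y * Y * Y := by
    rw [h1, h2, ← D.h3]
    have : (3 : R) • (Y * (1 + Y)) = Y * (1 + Y) + Y * (1 + Y) + Y * (1 + Y) := by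
      rw [show (3 : R) = 1 + 1 + 1 by norm_num, add_smul, add_smul, one_smul]
    rw [this]; noncomm_ring
  rw [h3]
  have h4 : D.P (2 * k + 1) (Y * (1 + Y)) := by
    have h5 : D.P 0 (1 + Y) := by rw [← h2]; exact D.P_zero_of_G x
    simpa using D.P_mul hx h5
  refine D.P_add ?_ (D.P_mono (by omega) (D.P_mul (D.P_mul hx hx) hx))
  obtain ⟨a, b, c, d⟩ := h4
  have e1 : (2 * (k + D.e) + 1 + 1) / 2 = D.e + (2 * k + 1 + 1) / 2 := by omega
  have e2 : (2 * (k + D.e) + 1) / 2 = D.e + (2 * k + 1) / 2 := by omega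
  rw [P, e1, e2]
  simp only [Matrix.smul_apply, smul_eq_mul]
  refine ⟨?_, ?_, ?_, ?_⟩
  · rw [pow_add]; exact mul_dvd_mul_left _ a
  · rw [pow_add]; exact mul_dvd_mul_left _ b
  · rw [add_assoc, pow_add]; exact mul_dvd_mul_left _ c
  · rw [pow_add]; exact mul_dvd_mul_left _ d

lemma eo_mul (x y : R) : D.eo x * D.eo y = D.eo (x + y) := by
  apply D.m_inj
  rw [m_mul]
  ext a b
  rw [Matrix.mul_apply, Fin.sum_univ_two]
  fin_cases a <;> fin_cases b <;> simp [add_comm]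

lemma cube_eo (k : ℕ) : (D.eo (D.pi ^ k)) ^ 3 = D.eo (D.pi ^ (k + D.e)) := by
  rw [pow_three', eo_mul, eo_mul]
  congr 1
  rw [pow_add, ← D.h3]; ring

lemma cube_not_mem (k : ℕ) : (D.eo (D.pi ^ k)) ^ 3 ∉ D.F (2 * (k + D.e + 1) + 1) := by
  rw [cube_eo]
  intro h
  exact D.eo_not_mem _ (D.F_anti (by omega) h)

end RD
end Pool.Agent.Helper181.Thin
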