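import Mathlib
import Pool.Agent.Helper181.ThinC

set_option autoImplicit false

namespace Pool.Agent.Helper181.Thin

open Matrix Topology

variable {R : Type} [CommRing R] (D : RD R)

namespace RD

variable [TopologicalSpace R] [IsTopologicalRing R] [CompactSpace R] [T2Space R]

lemma isClosed_dvd (n : ℕ) : IsClosed {x : R | D.pi ^ n ∣ x} := by
  have : {x : R | D.pi ^ n ∣ x} = Set.range (fun y : R => D.pi ^ n * y) := by
    ext x
    constructor
    · rintro ⟨y, rfl⟩; exact ⟨y, rfl⟩
    · rintro ⟨y, rfl⟩; exact Dvd.intro _ rfl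
  rw [this]
  exact (isCompact_range (by fun_prop)).isClosed

lemma continuous_mt (a b : Fin 2) :
    Continuous (fun g : SpecialLinearGroup (Fin 2) R => mt g a b) := by
  have h : Continuous (fun g : SpecialLinearGroup (Fin 2) R => mt g) := continuous_subtype_val
  exact (continuous_apply b).comp ((continuous_apply a).comp h)

lemma isClosed_Fil (j : ℕ) : IsClosed (D.Fil j : Set (SpecialLinearGroup (Fin 2) R)) := by
  have : (D.Fil j : Set (SpecialLinearGroup (Fin 2) R)) =
      {g | D.pi ^ ((j + 1) / 2) ∣ mt g 0 0 - 1} ∩ ({g | D.pi ^ (j / 2) ∣ mt g 0 1} ∩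
      ({g | D.pi ^ (j / 2 + 1) ∣ mt g 1 0} ∩ {g | D.pi ^ ((j + 1) / 2) ∣ mt g 1 1 - 1})) := by
    ext g
    show D.P j (mt g - 1) ↔ _
    simp [P]
  rw [this]
  refine IsClosed.inter ?_ (IsClosed.inter ?_ (IsClosed.inter ?_ ?_))
  · exact (D.isClosed_dvd _).preimage ((continuous_mt 0 0).sub continuous_const)
  · exact (D.isClosed_dvd _).preimage (continuous_mt 0 1)
  · exact (D.isClosed_dvd _).preimage (continuous_mt 1 0)
  · exact (D.isClosed_dvd _).preimage ((continuous_mt 1 1).sub continuous_const)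

instance compactSL : CompactSpace (SpecialLinearGroup (Fin 2) R) := by
  have : CompactSpace (Matrix (Fin 2) (Fin 2) R) := inferInstanceAs (CompactSpace (Fin 2 → Fin 2 → R))
  exact (Matrix.SpecialLinearGroup.isClosedEmbedding_val).compactSpace

instance compactG : CompactSpace D.G :=
  isCompact_iff_compactSpace.1 (D.isClosed_Fil 1).isCompact

instance t2G : T2Space D.G := inferInstance

instance tdG [TotallyDisconnectedSpace R] : TotallyDisconnectedSpace D.G := by
  have : TotallyDisconnectedSpace (Matrix (Fin 2) (Fin 2) R) :=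
    inferInstanceAs (TotallyDisconnectedSpace (Fin 2 → Fin 2 → R))
  have : TotallyDisconnectedSpace (SpecialLinearGroup (Fin 2) R) :=
    inferInstanceAs (TotallyDisconnectedSpace (Subtype _))
  infer_instance

lemma isClosed_F (j : ℕ) : IsClosed (D.F j : Set D.G) :=
  (D.isClosed_Fil j).preimage continuous_subtype_val

lemma exists_F_le {U : Set D.G} (hU : IsOpen U) (h1 : (1 : D.G) ∈ U) : ∃ m, (D.F m : Set D.G) ⊆ U := by
  have hdir : Directed (· ⊇ ·) (fun j : ℕ => (D.F j : Set D.G)) := by
    intro i j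
    exact ⟨max i j, D.F_anti (le_max_left _ _), D.F_anti (le_max_right _ _)⟩
  have hK : IsCompact (Uᶜ) := hU.isClosed_compl.isCompact
  have hinter : Uᶜ ∩ ⋂ j, (D.F j : Set D.G) = ∅ := by
    rw [Set.eq_empty_iff_forall_notMem]
    rintro v ⟨hv, hv'⟩
    rw [Set.mem_iInter] at hv'
    have := D.eq_one_of_mem_all hv'
    subst this
    exact hv h1
  obtain ⟨m, hm⟩ := hK.elim_directed_family_closed (fun j : ℕ => (D.F j : Set D.G))
    (fun j => D.isClosed_F j) hinter hdir
  refine ⟨m, fun x hx => ?_⟩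
  by_contra hcon
  have : x ∈ Uᶜ ∩ (D.F m : Set D.G) := ⟨hcon, hx⟩
  rw [hm] at this
  exact this

theorem thin_structure (N : Subgroup D.G) (hN : N.Normal) (hc : IsClosed (N : Set D.G))
    (hne : N ≠ ⊥) : ∃ i, 1 ≤ i ∧ D.F (i + 1) ≤ N ∧ N ≤ D.F i := by
  classical
  -- find the first level not containing N
  obtain ⟨x, hx, hx1⟩ : ∃ x ∈ N, x ≠ 1 := by
    by_contra hcon
    push Not at hcon
    exact hne ((Subgroup.eq_bot_iff_forall N).2 hcon)
  have hex : ∃ j, ¬ N ≤ D.F j := by
    by_contra hcon
    push Not at hcon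
    exact hx1 (D.eq_one_of_mem_all (fun j => hcon j hx))
  set j := Nat.find hex with hj
  have hj1 : ¬ N ≤ D.F j := Nat.find_spec hex
  have hj2 : 2 ≤ j := by
    by_contra hlt
    have : j ≤ 1 := by omega
    apply hj1
    refine le_trans ?_ (D.F_anti this)
    rw [F_one]; exact le_top
  obtain ⟨i, hi⟩ : ∃ i, j = i + 1 := ⟨j - 1, by omega⟩
  have hNi : N ≤ D.F i := by
    by_contra h
    have := Nat.find_min hex (m := i) (by omega)
    exact this h
  rw [hi] at hj1
  obtain ⟨v, hvN, hv'⟩ := Set.not_subset.1 hj1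
  have hv : v ∈ D.F i := hNi hvN
  refine ⟨i, by omega, ?_, hNi⟩
  intro w hw
  -- w is in the closure of N
  by_contra hwN
  have hopen : IsOpen ((fun g : D.G => w * g) ⁻¹' (N : Set D.G)ᶜ) :=
    hc.isOpen_compl.preimage (continuous_const.mul continuous_id)
  obtain ⟨m, hm⟩ := D.exists_F_le hopen (by simpa using hwN)
  obtain ⟨n, hn, hnw⟩ := D.dense_core N (show 1 ≤ i by omega) hvN hv hv' (max m (i + 1))
    (le_max_right _ _) w hw
  have h2 : (n⁻¹ * w)⁻¹ ∈ D.F m := (D.F m).inv_mem (D.F_anti (le_max_left _ _) hnw)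
  have h3 := hm h2
  apply h3
  have : w * (n⁻¹ * w)⁻¹ = n := by group
  show w * (n⁻¹ * w)⁻¹ ∈ N
  rw [this]; exact hn

theorem proP (N : Subgroup D.G) (hN : IsOpen (N : Set D.G)) : ∃ k : ℕ, N.index = 3 ^ k := by
  obtain ⟨m, hm⟩ := D.exists_F_le hN N.one_mem
  obtain ⟨a, ha⟩ := D.index_pow m
  have h1 : D.F (m + 1) ≤ N := (D.F_anti (by omega)).trans hm
  have h2 := Subgroup.index_dvd_of_le h1
  rw [ha] at h2
  obtain ⟨k, _, hk⟩ := (Nat.dvd_prime_pow Nat.prime_three).1 h2
  exact ⟨k, hk⟩

theorem infinite_G : Infinite D.G := by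
  by_contra hfin
  rw [not_infinite_iff_finite] at hfin
  have := hfin
  -- strictly decreasing chain
  have hinj : Function.Injective (fun j : ℕ => D.F (j + 1)) := by
    have hs : StrictAnti (fun j : ℕ => D.F (j + 1)) := by
      apply strictAnti_nat_of_succ_lt
      intro j
      refine lt_of_le_of_ne (D.F_anti (by omega)) ?_
      intro h
      obtain ⟨v, hv, hv'⟩ := D.exists_level (show 1 ≤ j + 1 by omega)
      apply hv'
      have : D.F (j + 1 + 1) = D.F (j + 1) := h
      rw [this]; exact hv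
    exact hs.injective
  exact not_injective_infinite_finite _ hinj

theorem not_iso {R' : Type} [CommRing R'] (D' : RD R') [TopologicalSpace R'] [IsTopologicalRing R']
    [CompactSpace R'] [T2Space R'] (he : D.e < D'.e) (phi : D.G ≃ₜ* D'.G) : False := by
  have hmap : ∀ j, (D.F (j + 1)).map phi.toMulEquiv.toMonoidHom = D'.F (j + 1) := by
    intro j
    induction j with
    | zero =>
      rw [zero_add, F_one, F_one]
      exact Subgroup.map_top_of_surjective _ phi.surjective
    | succ j ih =>
      set N := (D.F (j + 1 + 1)).map phi.toMulEquiv.toMonoidHom with hN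
      have hNn : N.Normal := Subgroup.Normal.map inferInstance _ phi.surjective
      have hNc : IsClosed (N : Set D'.G) := by
        rw [hN, Subgroup.coe_map]
        exact phi.toHomeomorph.isClosedMap _ (D.isClosed_F _)
      have hNne : N ≠ ⊥ := by
        obtain ⟨v, hv, hv'⟩ := D.exists_level (show 1 ≤ j + 1 + 1 by omega)
        intro h
        rw [hN, Subgroup.map_eq_bot_iff_of_injective _ phi.injective] at h
        rw [h, Subgroup.mem_bot] at hv
        apply hv'
        rw [hv]; exact Subgroup.one_mem _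
      have hNle : N ≤ D'.F (j + 1) := by
        rw [← ih]
        exact Subgroup.map_mono (D.F_anti (by omega))
      have hidx : N.relIndex (D'.F (j + 1)) = (D'.F (j + 1 + 1)).relIndex (D'.F (j + 1)) := by
        rw [← D.relIndex_eq D' (show 1 ≤ j + 1 by omega), ← ih, hN]
        exact Subgroup.relIndex_map_map_of_injective _ _ phi.injective
      have hnz := D'.relIndex_ne_zero (show 1 ≤ j + 1 by omega)
      obtain ⟨i, hi, hi1, hi2⟩ := D'.thin_structure N hNn hNc hNne
      have hcomp : N ≤ D'.F (j + 1 + 1) ∨ D'.F (j + 1 + 1) ≤ N := by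
        rcases le_or_gt (j + 1 + 1) i with h | h
        · exact Or.inl (hi2.trans (D'.F_anti h))
        · exact Or.inr ((D'.F_anti (by omega)).trans hi1)
      rcases hcomp with h | h
      · have h3 := Subgroup.relIndex_mul_relIndex _ _ _ h (D'.F_anti (show j + 1 ≤ j + 1 + 1 by omega))
        rw [hidx] at h3
        have h4 : N.relIndex (D'.F (j + 1 + 1)) = 1 := by
          have := Nat.eq_of_mul_eq_mul_right (Nat.pos_of_ne_zero hnz) (h3.trans (one_mul _).symm)
          exact this
        rw [Subgroup.relIndex_eq_one] at h4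
        exact le_antisymm h h4
      · have h3 := Subgroup.relIndex_mul_relIndex _ _ _ h hNle
        rw [hidx] at h3
        have h4 : (D'.F (j + 1 + 1)).relIndex N = 1 := by
          have := Nat.eq_of_mul_eq_mul_right (Nat.pos_of_ne_zero hnz) (h3.trans (one_mul _).symm)
          exact this
        rw [Subgroup.relIndex_eq_one] at h4
        exact le_antisymm h4 h
  -- the cube of a deep unipotent element
  set k := D'.e with hk
  have h1 := D.eo_mem k
  have h2 : phi (D.eo (D.pi ^ k)) ∈ D'.F (2 * k + 1) := by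
    rw [← hmap (2 * k)]
    exact ⟨_, h1, rfl⟩
  have h3 := D'.cube_mem (show D'.e ≤ 2 * k by omega) h2
  have h4 : phi (D.eo (D.pi ^ k)) ^ 3 ∈ D'.F (2 * (k + D.e + 1) + 1) := D'.F_anti (by omega) h3
  rw [← map_pow, ← hmap] at h4
  obtain ⟨y, hy, hy'⟩ := h4
  have h5 : y = (D.eo (D.pi ^ k)) ^ 3 := phi.injective hy'
  rw [h5] at hy
  exact D.cube_not_mem k hy

end RD
end Pool.Agent.Helper181.Thin
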