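import Mathlib
import Pool.Agent.Helper181.ThinD

set_option autoImplicit false

namespace Pool.Agent.Helper181.Thin

open Matrix Topology

/-- the Eisenstein polynomial `X ^ e - 3` -/
noncomputable abbrev pol (e : ℕ) : Polynomial ℤ_[3] := Polynomial.X ^ e - Polynomial.C 3

/-- the ring `ℤ_3[3^(1/e)]` -/
abbrev Re (e : ℕ) : Type := AdjoinRoot (pol e)

lemma pol_monic {e : ℕ} (he : 1 ≤ e) : (pol e).Monic := Polynomial.monic_X_pow_sub_C _ (by omega)

lemma root_pow {e : ℕ} : (AdjoinRoot.root (pol e)) ^ e = (3 : Re e) := by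
  have h := AdjoinRoot.eval₂_root (pol e)
  rw [Polynomial.eval₂_sub, Polynomial.eval₂_pow, Polynomial.eval₂_X, Polynomial.eval₂_C] at h
  rw [sub_eq_zero.1 h]
  exact map_ofNat _ 3

lemma three_mul_eq_zero {e : ℕ} (he : 1 ≤ e) (x : Re e) (h : (3 : Re e) * x = 0) : x = 0 := by
  have : Module.Free ℤ_[3] (Re e) := (pol_monic he).free_adjoinRoot
  have h1 : (3 : ℤ_[3]) • x = 0 := by
    rw [Algebra.smul_def, map_ofNat]; exact h
  rcases smul_eq_zero.1 h1 with h2 | h2
  · exact absurd h2 (by norm_num)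
  · exact h2

lemma root_nz {e : ℕ} (he : 1 ≤ e) (x : Re e) (h : AdjoinRoot.root (pol e) * x = 0) : x = 0 := by
  apply three_mul_eq_zero he
  rw [← root_pow]
  obtain ⟨l, rfl⟩ : ∃ l, e = l + 1 := ⟨e - 1, by omega⟩
  rw [pow_succ, mul_assoc, h, mul_zero]

lemma not_unit_three : ¬ IsUnit (3 : ℤ_[3]) := by
  have h := PadicInt.prime_p (p := 3)
  have h2 := h.not_isUnit
  simpa using h2

lemma root_sep {e : ℕ} (he : 1 ≤ e) (x : Re e) (h : ∀ n, (AdjoinRoot.root (pol e)) ^ n ∣ x) :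
    x = 0 := by
  have : Module.Free ℤ_[3] (Re e) := (pol_monic he).free_adjoinRoot
  set b := Module.Free.chooseBasis ℤ_[3] (Re e) with hb
  apply b.repr.map_eq_zero_iff.1
  ext i
  by_contra hne
  have hfin := FiniteMultiplicity.of_not_isUnit not_unit_three hne
  obtain ⟨n, hn⟩ := hfin
  apply hn
  obtain ⟨y, hy⟩ := h (e * (n + 1))
  rw [pow_mul, root_pow] at hy
  have h2 : x = ((3 : ℤ_[3]) ^ (n + 1)) • y := by
    rw [hy, Algebra.smul_def, map_pow, map_ofNat]
  rw [h2, map_smul]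
  exact ⟨b.repr y i, rfl⟩

lemma eval_zero {e : ℕ} (he : 1 ≤ e) :
    Polynomial.eval₂ (PadicInt.toZMod (p := 3)) 0 (pol e) = 0 := by
  rw [Polynomial.eval₂_sub, Polynomial.eval₂_pow, Polynomial.eval₂_X, Polynomial.eval₂_C,
    zero_pow (by omega), map_ofNat]
  decide

/-- the residue map -/
noncomputable def rhoe {e : ℕ} (he : 1 ≤ e) : Re e →+* ZMod 3 :=
  AdjoinRoot.lift (PadicInt.toZMod (p := 3)) 0 (eval_zero he)

lemma rhoe_spec {e : ℕ} (he : 1 ≤ e) (x : Re e) : rhoe he x = 0 ↔ AdjoinRoot.root (pol e) ∣ x := by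
  constructor
  · intro h
    obtain ⟨q, rfl⟩ := AdjoinRoot.mk_surjective x
    rw [← Polynomial.divX_mul_X_add q, map_add, map_mul, AdjoinRoot.mk_X] at h ⊢
    refine dvd_add (Dvd.intro_left _ rfl) ?_
    rw [map_add, map_mul, rhoe, AdjoinRoot.lift_root, mul_zero, zero_add, AdjoinRoot.mk_C,
      AdjoinRoot.lift_of] at h
    have h2 : q.coeff 0 ∈ RingHom.ker (PadicInt.toZMod (p := 3)) := h
    rw [PadicInt.ker_toZMod, PadicInt.maximalIdeal_eq_span_p, Ideal.mem_span_singleton] at h2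
    obtain ⟨c, hc⟩ := h2
    rw [AdjoinRoot.mk_C, hc, map_mul]
    refine Dvd.dvd.mul_right ?_ _
    have : (AdjoinRoot.of (pol e)) ((3 : ℕ) : ℤ_[3]) = (3 : Re e) := by
      rw [map_natCast]; rfl
    rw [this, ← root_pow]
    exact dvd_pow_self _ (by omega)
  · rintro ⟨y, rfl⟩
    rw [map_mul, rhoe, AdjoinRoot.lift_root, zero_mul]

/-- the data -/
noncomputable def De {e : ℕ} (he : 1 ≤ e) : RD (Re e) where
  pi := AdjoinRoot.root (pol e)
  e := e
  rho := rhoe he
  he := he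
  h3 := root_pow.symm
  hrho := rhoe_spec he
  hnz := root_nz he
  hsep := root_sep he

noncomputable instance topRe (e : ℕ) : TopologicalSpace (Re e) := moduleTopology ℤ_[3] (Re e)

instance modRe (e : ℕ) : IsModuleTopology ℤ_[3] (Re e) := ⟨rfl⟩

lemma topRingRe {e : ℕ} (he : 1 ≤ e) : IsTopologicalRing (Re e) := by
  have : Module.Finite ℤ_[3] (Re e) := (pol_monic he).finite_adjoinRoot
  exact IsModuleTopology.isTopologicalRing ℤ_[3] (Re e)

/-- coordinates -/
noncomputable def coordRe {e : ℕ} (he : 1 ≤ e) :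
    Re e ≃ₜ (Fin (AdjoinRoot.powerBasis' (pol_monic he)).dim → ℤ_[3]) := by
  have := topRingRe he
  have : ContinuousSMul ℤ_[3] (Re e) := IsModuleTopology.toContinuousSMul ℤ_[3] (Re e)
  let L := (AdjoinRoot.powerBasis' (pol_monic he)).basis.equivFun
  exact
    { toEquiv := L.toEquiv
      continuous_toFun := IsModuleTopology.continuous_of_linearMap L.toLinearMap
      continuous_invFun := IsModuleTopology.continuous_of_linearMap L.symm.toLinearMap }

lemma compactRe {e : ℕ} (he : 1 ≤ e) : CompactSpace (Re e) := (coordRe he).symm.compactSpace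

lemma t2Re {e : ℕ} (he : 1 ≤ e) : T2Space (Re e) := (coordRe he).symm.t2Space

lemma tdRe {e : ℕ} (he : 1 ≤ e) : TotallyDisconnectedSpace (Re e) :=
  (coordRe he).symm.totallyDisconnectedSpace

end Pool.Agent.Helper181.Thin
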